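import Pool.Agent.U162.SF.Px

/-!
Pieces of paths: given intervals, with the closeness of the forces
-/

open MeasureTheory Set Filter Topology
open scoped ENNReal NNReal ContDiff

namespace Pool.Agent.U162.SF

open Pool.Agent.H356R3.NS Pool.Agent.U162.TS Pool.Agent.U162.GE Pool.Agent.U162.TS.EL Pool.Agent.U162.TS.VF Pool.Agent.U162.TS.Ph Pool.Agent.U162.PL Pool.Agent.U162.MU

variable {ν : ℝ} {m : ℕ} {g v : ℝ → R3 → R3} {α β M a b e e' δ s w r : ℝ}

/-- a short interval -/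
theorem Px_sub (hν : 0 < ν) (hs : 2 < s) (hr0 : 0 < r) (hr2 : r < 2) (hG : Gw ν g v m a b M) (hab : a < b) (hl : b - a ≤ 1)
    (hw : 0 ≤ w) (hgw : ∀ t ∈ Icc a b, Wm m (fun x => g a x - g t x) ≤ ENNReal.ofReal w)
    (hvw : ∀ t ∈ Icc a b, Wm m (fun x => v a x - v t x) ≤ ENNReal.ofReal w) (he : w + (b - a) * (4 * M) ≤ e)
    (he2 : w + (b - a) * KM ν M ≤ e) (hδ : 0 < δ)
    (hee : 1501 * e + δ ≤ e') (hβ : 0 < β) : Px ν s r g v m e e' a b ((b - a) * (w + (b - a) * KM ν M + e ^ r) + δ) β (v a) (v b) := by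
  have hM := hG.M0
  have hK1 : 0 ≤ KM ν M := KM_nonneg hM
  have hKX : 0 ≤ KX ν r M := KX_nonneg hM
  have hs1 : 1 ≤ s := by linarith
  have he0 : 0 ≤ e := le_trans (add_nonneg hw (mul_nonneg (by linarith) (by positivity))) he
  have her : 0 ≤ e ^ r := by positivity
  obtain ⟨ρ, hρ, hρl, hρβ, hρM⟩ : ∃ ρ : ℝ, 0 < ρ ∧ 2 * ρ ≤ b - a ∧ ρ ≤ β / 2 ∧ KX ν r M * ρ ≤ δ / 4 := by
    refine ⟨min ((b - a) / 2) (min (β / 2) (δ / (4 * (KX ν r M + 1)))), lt_min (by linarith) (lt_min (by linarith) (by positivity)), ?_, ?_, ?_⟩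
    · have := min_le_left ((b - a) / 2) (min (β / 2) (δ / (4 * (KX ν r M + 1)))); linarith
    · exact (min_le_right _ _).trans (min_le_left _ _)
    · have h1 : min ((b - a) / 2) (min (β / 2) (δ / (4 * (KX ν r M + 1)))) ≤ δ / (4 * (KX ν r M + 1)) := (min_le_right _ _).trans (min_le_right _ _)
      calc KX ν r M * min ((b - a) / 2) (min (β / 2) (δ / (4 * (KX ν r M + 1)))) ≤ KX ν r M * (δ / (4 * (KX ν r M + 1))) := by gcongr
        _ = KX ν r M / (KX ν r M + 1) * (δ / 4) := by field_simp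
        _ ≤ 1 * (δ / 4) := by
          refine mul_le_mul_of_nonneg_right ?_ (by positivity)
          rw [div_le_one (by positivity)]; linarith
        _ = δ / 4 := one_mul _
  have ha : a ∈ Icc a b := ⟨le_rfl, hab.le⟩
  have hb : b ∈ Icc a b := ⟨hab.le, le_rfl⟩
  have h4M : 0 ≤ 4 * M := by positivity
  have hee' : e ≤ e' := by linarith
  have p1 : Px ν s r g v m e e' a (b - ρ) ((b - ρ - a) * (w + (b - ρ - a) * KM ν M + e ^ r) + δ / 4) (β / 2) (v a)
      (fun x => v a x + (b - ρ - a) • ler (Hh ν g v a) x) :=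
    Px_ramp hr0 hs1 (hG.mono le_rfl (by linarith)) (by linarith) (by linarith) hw (fun t ht => hgw t ⟨ht.1, by linarith [ht.2]⟩)
      (fun t ht => hvw t ⟨ht.1, by linarith [ht.2]⟩) (by nlinarith) (by nlinarith) hee' (by positivity) (by positivity)
  have fva := hG.fv a ha
  have fvb := hG.fv b hb
  have fL : Field (ler (Hh ν g v a)) := ler_field (hG.sH ha)
  have hm : Field fun x => v a x + (b - ρ - a) • ler (Hh ν g v a) x := field_add fva (field_smul fL _)
  have hLn : Wn (fun x => (b - ρ - a) • ler (Hh ν g v a) x) ≤ ENNReal.ofReal ((b - a) * (4 * M)) := by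
    rw [Wn_smul, ENNReal.ofReal_mul (by linarith)]
    refine mul_le_mul' (ENNReal.ofReal_le_ofReal ?_) ((Wn_le_Wm _ _).trans (hG.bB ha))
    rw [abs_of_nonneg (by linarith)]; linarith
  have hmv : ∀ t ∈ Icc a b, Wn (fun x => (v a x + (b - ρ - a) • ler (Hh ν g v a) x) - v t x) ≤ ENNReal.ofReal e := by
    intro t ht
    have e1 : (fun x => (v a x + (b - ρ - a) • ler (Hh ν g v a) x) - v t x)
        = fun x => (v a x - v t x) + (b - ρ - a) • ler (Hh ν g v a) x := by funext x; abel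
    rw [e1]
    refine (Wn_add (SPF.sub fva.sp (hG.fv t ht).sp) (SPF.smul fL.sp _)).trans ?_
    refine (add_le_add ((Wn_le_Wm m _).trans (hvw t ht)) hLn).trans ?_
    rw [← ENNReal.ofReal_add hw (mul_nonneg (by linarith) h4M)]
    exact ENNReal.ofReal_le_ofReal he
  have p2 : Px ν s r g v m e e' (b - ρ) b (5 * (δ / 20) + KX ν r M * (b - (b - ρ))) (b - (b - ρ))
      (fun x => v a x + (b - ρ - a) • ler (Hh ν g v a) x) (v b) := by
    refine Px_fast hν hs hr0 hr2 (hG.mono (by linarith) le_rfl) (by linarith) (by positivity) hm fvb he0 ?_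
      (fun t ht => hmv t ⟨by linarith [ht.1], ht.2⟩) ((Wm_mono (by omega) _).trans (hG.bv b hb)) (by linarith)
    rw [Wn_comm]
    exact hmv b hb
  have e2 : b - (b - ρ) = ρ := by ring
  rw [e2] at p2
  have h1 : 0 ≤ b - ρ - a := by linarith
  have hm0 : 0 ≤ (b - ρ - a) * (w + (b - ρ - a) * KM ν M + e ^ r) := by positivity
  have hMρ : 0 ≤ KX ν r M * ρ := by positivity
  have p := Px_concat p1 p2 (by linarith) (by linarith) (by positivity) (by positivity) (by positivity) hρ.le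
  refine p.le ?_ (by linarith)
  have h3 : b - ρ - a ≤ b - a := by linarith
  have h4 : (b - ρ - a) * (w + (b - ρ - a) * KM ν M + e ^ r) ≤ (b - a) * (w + (b - a) * KM ν M + e ^ r) := by gcongr
  linarith

/-- many short intervals -/
theorem Px_many (hν : 0 < ν) (hs : 2 < s) (hr0 : 0 < r) (hr2 : r < 2) {α₀ β₀ r' l : ℝ} (hG : Gw ν g v m α₀ β₀ M)
    (hl0 : 0 < l) (hl : l ≤ 1) (hlr : l ≤ r') (hw : 0 ≤ w)
    (hgw : ∀ t ∈ Icc α₀ β₀, ∀ t' ∈ Icc α₀ β₀, |t - t'| ≤ r' → Wm m (fun x => g t x - g t' x) ≤ ENNReal.ofReal w)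
    (hvw : ∀ t ∈ Icc α₀ β₀, ∀ t' ∈ Icc α₀ β₀, |t - t'| ≤ r' → Wm m (fun x => v t x - v t' x) ≤ ENNReal.ofReal w)
    (he : w + l * (4 * M) ≤ e) (he2 : w + l * KM ν M ≤ e) (hδ : 0 < δ) (hee : 1501 * e + δ ≤ e') (hβ : 0 < β) (n : ℕ) :
    ∀ c : ℝ, α₀ ≤ c → c + (n + 1) * l ≤ β₀ →
      Px ν s r g v m e e' c (c + (n + 1) * l) ((n + 1) * (l * (w + l * KM ν M + e ^ r) + δ)) ((n + 1) * β) (v c) (v (c + (n + 1) * l)) := by
  have hM := hG.M0
  have hK1 : 0 ≤ KM ν M := KM_nonneg hM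
  have he0 : 0 ≤ e := le_trans (add_nonneg hw (mul_nonneg (by linarith) (by positivity))) he
  have base : ∀ c : ℝ, α₀ ≤ c → c + l ≤ β₀ → Px ν s r g v m e e' c (c + l) (l * (w + l * KM ν M + e ^ r) + δ) β (v c) (v (c + l)) := by
    intro c h1 h2
    have hmem : ∀ t ∈ Icc c (c + l), t ∈ Icc α₀ β₀ := fun t ht => ⟨h1.trans ht.1, ht.2.trans h2⟩
    have hc : c ∈ Icc c (c + l) := ⟨le_rfl, by linarith⟩
    have hab : ∀ t ∈ Icc c (c + l), |c - t| ≤ r' := fun t ht => by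
      rw [abs_le]; constructor <;> linarith [ht.1, ht.2]
    have h := Px_sub hν hs hr0 hr2 (e := e) (hG.mono h1 h2) (by linarith) (by linarith) hw (fun t ht => hgw c (hmem c hc) t (hmem t ht) (hab t ht))
      (fun t ht => hvw c (hmem c hc) t (hmem t ht) (hab t ht)) (by rw [add_sub_cancel_left]; exact he)
      (by rw [add_sub_cancel_left]; exact he2) hδ hee hβ
    have e0 : c + l - c = l := by ring
    rw [e0] at h
    exact h
  have hc0 : 0 ≤ l * (w + l * KM ν M + e ^ r) + δ := by positivity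
  induction n with
  | zero =>
    intro c h1 h2
    have h := base c h1 (by simpa using h2)
    simpa using h
  | succ n ih =>
    intro c h1 h2
    push_cast at h2
    have e0 : c + ((n : ℝ) + 1 + 1) * l = c + ((n : ℝ) + 1) * l + l := by ring
    have q1 := ih c h1 (by linarith)
    have hp : 0 < ((n : ℝ) + 1) * l := by positivity
    have q2 := base (c + ((n : ℝ) + 1) * l) (by linarith) (by linarith)
    have q := Px_concat q1 q2 (by linarith) (by linarith) (by positivity) hc0 (by positivity) hβ.le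
    push_cast
    rw [e0]
    refine q.le (le_of_eq ?_) (le_of_eq ?_)
    · ring
    · ring

/-- a given interval -/
theorem Px_all (hν : 0 < ν) (hs : 2 < s) (hr0 : 0 < r) (hr2 : r < 2) (hG : Gw ν g v m a b M) (hab : a < b)
    (hgw : ∀ w : ℝ, 0 < w → ∃ r : ℝ, 0 < r ∧ ∀ t ∈ Icc a b, ∀ t' ∈ Icc a b, |t - t'| ≤ r → Wm m (fun x => g t x - g t' x) ≤ ENNReal.ofReal w)
    (hvw : ∀ w : ℝ, 0 < w → ∃ r : ℝ, 0 < r ∧ ∀ t ∈ Icc a b, ∀ t' ∈ Icc a b, |t - t'| ≤ r → Wm m (fun x => v t x - v t' x) ≤ ENNReal.ofReal w)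
    (he : 0 < e) (he' : 0 < e') (hδ : 0 < δ) (hβ : 0 < β) : Px ν s r g v m e e' a b δ β (v a) (v b) := by
  have hM := hG.M0
  have hK1 : 0 ≤ KM ν M := KM_nonneg hM
  have hL : 0 < b - a := by linarith
  set e₁ := min (min e (e' / 3002)) ((δ / (5 * (b - a))) ^ (1 / r)) with he₁
  have he₁0 : 0 < e₁ := lt_min (lt_min he (by positivity)) (by positivity)
  have he₁e : e₁ ≤ e := (min_le_left _ _).trans (min_le_left _ _)
  have he₁e' : e₁ ≤ e' / 3002 := (min_le_left _ _).trans (min_le_right _ _)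
  have he₁r : e₁ ^ r ≤ δ / (5 * (b - a)) := by
    have h1 : e₁ ≤ (δ / (5 * (b - a))) ^ (1 / r) := min_le_right _ _
    calc e₁ ^ r ≤ ((δ / (5 * (b - a))) ^ (1 / r)) ^ r := Real.rpow_le_rpow he₁0.le h1 hr0.le
      _ = δ / (5 * (b - a)) := by
        rw [← Real.rpow_mul (by positivity), one_div_mul_cancel hr0.ne', Real.rpow_one]
  set w := min (e₁ / 2) (δ / (5 * (b - a))) with hw
  have hw0 : 0 < w := lt_min (by positivity) (by positivity)
  have hwe : w ≤ e₁ / 2 := min_le_left _ _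
  have hwd : w ≤ δ / (5 * (b - a)) := min_le_right _ _
  obtain ⟨r₁, hr₁, hgr⟩ := hgw w hw0
  obtain ⟨r₂, hr₂, hvr⟩ := hvw w hw0
  obtain ⟨n, hn⟩ := exists_nat_gt ((b - a) / min r₁ r₂ + ((b - a) + ((5 * (b - a) ^ 2 * KM ν M / δ + 8 * M * (b - a) / e₁)
    + (δ / e' + 2 * KM ν M * (b - a) / e₁))))
  have hr : 0 < min r₁ r₂ := lt_min hr₁ hr₂
  have q1 : 0 ≤ (b - a) / min r₁ r₂ := by positivity
  have q3 : 0 ≤ 5 * (b - a) ^ 2 * KM ν M / δ := by positivity
  have q4 : 0 ≤ 8 * M * (b - a) / e₁ := by positivity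
  have q5 : 0 ≤ δ / e' := by positivity
  have q6 : 0 ≤ 2 * KM ν M * (b - a) / e₁ := by positivity
  have hn1 : (b - a) / min r₁ r₂ < n := by linarith
  have hn2 : b - a < n := by linarith
  have hn3 : 5 * (b - a) ^ 2 * KM ν M / δ < n := by linarith
  have hn4 : 8 * M * (b - a) / e₁ < n := by linarith
  have hn5 : δ / e' < n := by linarith
  have hn6 : 2 * KM ν M * (b - a) / e₁ < n := by linarith
  have hn0 : (0 : ℝ) < n + 1 := by positivity
  set l := (b - a) / (n + 1) with hl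
  have hl0 : 0 < l := by positivity
  have hnl : ((n : ℝ) + 1) * l = b - a := by rw [hl]; field_simp
  have hl1 : l ≤ 1 := by rw [hl, div_le_one hn0]; linarith
  have hlr : l ≤ min r₁ r₂ := by
    rw [hl, div_le_iff₀ hn0]
    rw [div_lt_iff₀ hr] at hn1
    nlinarith
  have hle : l * (4 * M) ≤ e₁ / 2 := by
    have e4 : l * (4 * M) = 4 * M * (b - a) / (n + 1) := by rw [hl]; ring
    rw [e4, div_le_iff₀ hn0]
    rw [div_lt_iff₀ he₁0] at hn4
    nlinarith
  have hle2 : l * KM ν M ≤ e₁ / 2 := by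
    have e4 : l * KM ν M = KM ν M * (b - a) / (n + 1) := by rw [hl]; ring
    rw [e4, div_le_iff₀ hn0]
    rw [div_lt_iff₀ he₁0] at hn6
    nlinarith
  have hδ' : 1501 * e₁ + δ / (5 * (n + 1)) ≤ e' := by
    have h1 : δ / (5 * (n + 1)) ≤ e' / 2 := by
      rw [div_lt_iff₀ he'] at hn5
      rw [div_le_div_iff₀ (by positivity) (by norm_num)]
      nlinarith
    linarith
  have h := Px_many hν hs hr0 hr2 hG hl0 hl1 hlr (w := w) hw0.le (e := e₁) (e' := e') (fun t ht t' ht' h => hgr t ht t' ht' (h.trans (min_le_left _ _)))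
    (fun t ht t' ht' h => hvr t ht t' ht' (h.trans (min_le_right _ _))) (by linarith) (by linarith)
    (δ := δ / (5 * (n + 1))) (by positivity) hδ'
    (β := β / (n + 1)) (by positivity) n a le_rfl (by rw [hnl]; linarith)
  rw [hnl] at h
  have e0 : a + (b - a) = b := by ring
  rw [e0] at h
  refine (h.mono_e he₁e).le ?_ (le_of_eq (by field_simp))
  have h1 : ((n : ℝ) + 1) * (l * (w + l * KM ν M + e₁ ^ r) + δ / (5 * (n + 1))) = (b - a) * w + (b - a) * (l * KM ν M) + (b - a) * e₁ ^ r + δ / 5 := by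
    have e1 : ((n : ℝ) + 1) * (l * (w + l * KM ν M + e₁ ^ r) + δ / (5 * (n + 1)))
        = (((n : ℝ) + 1) * l) * (w + l * KM ν M + e₁ ^ r) + ((n : ℝ) + 1) * (δ / (5 * (n + 1))) := by ring
    rw [e1, hnl]
    have e3 : ((n : ℝ) + 1) * (δ / (5 * (n + 1))) = δ / 5 := by field_simp
    rw [e3]
    ring
  have h2 : (b - a) * (l * KM ν M) ≤ δ / 5 := by
    have e4 : (b - a) * (l * KM ν M) = (b - a) ^ 2 * KM ν M / (n + 1) := by rw [hl]; ring
    rw [e4, div_le_iff₀ hn0]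
    rw [div_lt_iff₀ hδ] at hn3
    nlinarith
  have h3 : (b - a) * w ≤ δ / 5 := by
    calc (b - a) * w ≤ (b - a) * (δ / (5 * (b - a))) := mul_le_mul_of_nonneg_left hwd hL.le
      _ = δ / 5 := by field_simp
  have h4 : (b - a) * e₁ ^ r ≤ δ / 5 := by
    calc (b - a) * e₁ ^ r ≤ (b - a) * (δ / (5 * (b - a))) := mul_le_mul_of_nonneg_left he₁r hL.le
      _ = δ / 5 := by field_simp
  rw [h1]
  linarith

end Pool.Agent.U162.SF
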