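import Pool.Agent.U162.SF.Cm

/-!
Waves: Fourier coefficients and weighted sums
-/

open MeasureTheory Set Filter Topology
open scoped ENNReal NNReal ContDiff

namespace Pool.Agent.U162.SF

open Pool.Agent.H356R3.NS Pool.Agent.U162.TS Pool.Agent.U162.GE Pool.Agent.U162.TS.EL Pool.Agent.U162.TS.VF Pool.Agent.U162.TS.Ph Pool.Agent.U162.PL Pool.Agent.U162.MU

/-- weighted norms of functions -/
noncomputable def Ap (p : ℕ) (f : R3 → ℝ) : ℝ≥0∞ := ∑' l : K, ENNReal.ofReal ((1 + nk l) ^ p) * ‖H459R3.NS.fr f l‖ₑ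

lemma Ap_mono {p p' : ℕ} (h : p ≤ p') (f : R3 → ℝ) : Ap p f ≤ Ap p' f :=
  ENNReal.tsum_le_tsum fun k => mul_le_mul' (ENNReal.ofReal_le_ofReal
    (pow_le_pow_right₀ (by have := nk_nonneg k; linarith) h)) le_rfl

lemma Ap_fin {f : R3 → ℝ} (hf : H459R3.NS.SP f) (p : ℕ) : Ap p f ≠ ⊤ := by
  have h := Wm_fin (f := fun x _ => f x) (fun _ => hf) p
  refine ne_top_of_le_ne_top h (ENNReal.tsum_le_tsum fun k => mul_le_mul' le_rfl ?_)
  rw [← ofReal_norm, ← ofReal_norm]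
  refine ENNReal.ofReal_le_ofReal ?_
  have := fr_le_fc (fun x (_ : Fin 3) => f x) 0 k
  exact this

/-- the Fourier coefficients of products with waves -/
lemma fr_cos {f : R3 → ℝ} (hf : H459R3.NS.SP f) (n k : K) :
    H459R3.NS.fr (fun x => f x * Real.cos (Al n x)) k = (H459R3.NS.fr f (k - n) + H459R3.NS.fr f (k + n)) / 2 := by
  unfold H459R3.NS.fr H459R3.NS.fc
  have e : ∀ x, H459R3.NS.ee (-k) x * ((f x * Real.cos (Al n x) : ℝ) : ℂ)
      = (1 / 2) * (H459R3.NS.ee (-(k - n)) x * (f x : ℂ) + H459R3.NS.ee (-(k + n)) x * (f x : ℂ)) := by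
    intro x
    have e1 : ((Real.cos (Al n x) : ℝ) : ℂ) = (H459R3.NS.ee n x + H459R3.NS.ee (-n) x) / 2 := by
      rw [ee_Al, H459R3.NS.ee_neg, ee_Al, Complex.ofReal_cos, Complex.cos, ← Complex.exp_conj]
      congr 2
      rw [map_mul, Complex.conj_ofReal, Complex.conj_I]
      ring_nf
    have e2 : ((f x * Real.cos (Al n x) : ℝ) : ℂ) = (f x : ℂ) * ((Real.cos (Al n x) : ℝ) : ℂ) := by push_cast; ring
    rw [e2, e1, show -(k - n) = -k + n by abel, show -(k + n) = -k + -n by abel, H459R3.NS.ee_add_left, H459R3.NS.ee_add_left]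
    ring
  have hi : ∀ l : K, Integrable (fun x => H459R3.NS.ee (-l) x * (f x : ℂ)) (volume.restrict H459R3.NS.cube) := fun l =>
    H459R3.NS.integrableOn_cube ((H459R3.NS.ee_continuous _).mul (Complex.continuous_ofReal.comp hf.smooth.continuous))
  simp only [e]
  rw [integral_const_mul, integral_add (hi _) (hi _)]
  ring

/-- the two-sided weights -/
noncomputable def sw (p : ℕ) (f : R3 → ℝ) (n k : K) : ℝ :=
  (1 + nk (k - n)) ^ p * ‖H459R3.NS.fr f (k - n)‖ + (1 + nk (k + n)) ^ p * ‖H459R3.NS.fr f (k + n)‖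

variable {p : ℕ} {f : R3 → ℝ} {n k : K}

lemma sw_nonneg (p : ℕ) (f : R3 → ℝ) (n k : K) : 0 ≤ sw p f n k := by
  unfold sw
  have h1 := nk_nonneg (k - n)
  have h2 := nk_nonneg (k + n)
  positivity

lemma sw_mono {p p' : ℕ} (h : p ≤ p') (f : R3 → ℝ) (n k : K) : sw p f n k ≤ sw p' f n k := by
  unfold sw
  have h1 := nk_nonneg (k - n)
  have h2 := nk_nonneg (k + n)
  exact add_le_add (mul_le_mul_of_nonneg_right (pow_le_pow_right₀ (by linarith) h) (norm_nonneg _))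
    (mul_le_mul_of_nonneg_right (pow_le_pow_right₀ (by linarith) h) (norm_nonneg _))

lemma sw_sum (p : ℕ) (f : R3 → ℝ) (n : K) : ∑' k, ENNReal.ofReal (sw p f n k) = 2 * Ap p f := by
  have e : ∀ l : K, ENNReal.ofReal ((1 + nk l) ^ p * ‖H459R3.NS.fr f l‖) = ENNReal.ofReal ((1 + nk l) ^ p) * ‖H459R3.NS.fr f l‖ₑ := fun l => by
    rw [ENNReal.ofReal_mul (by have := nk_nonneg l; positivity), ofReal_norm]
  have h1 : ∀ k, ENNReal.ofReal (sw p f n k) = ENNReal.ofReal ((1 + nk (k - n)) ^ p) * ‖H459R3.NS.fr f (k - n)‖ₑ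
      + ENNReal.ofReal ((1 + nk (k + n)) ^ p) * ‖H459R3.NS.fr f (k + n)‖ₑ := fun k => by
    unfold sw
    rw [ENNReal.ofReal_add (by have := nk_nonneg (k - n); positivity) (by have := nk_nonneg (k + n); positivity), e, e]
  simp only [h1]
  rw [ENNReal.tsum_add, two_mul]
  congr 1
  · exact (Equiv.subRight n).tsum_eq fun l => ENNReal.ofReal ((1 + nk l) ^ p) * ‖H459R3.NS.fr f l‖ₑ
  · exact (Equiv.addRight n).tsum_eq fun l => ENNReal.ofReal ((1 + nk l) ^ p) * ‖H459R3.NS.fr f l‖ₑ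

lemma tsum_of_sw {a : K → C3} {C : ℝ} (hC : 0 ≤ C) (h : ∀ k, ‖a k‖ ≤ C * sw p f n k) :
    ∑' k, ‖a k‖ₑ ≤ ENNReal.ofReal (2 * C) * Ap p f := by
  have h1 : ∀ k, ‖a k‖ₑ ≤ ENNReal.ofReal C * ENNReal.ofReal (sw p f n k) := fun k => by
    rw [← ofReal_norm, ← ENNReal.ofReal_mul hC]
    exact ENNReal.ofReal_le_ofReal (h k)
  refine (ENNReal.tsum_le_tsum h1).trans (le_of_eq ?_)
  rw [ENNReal.tsum_mul_left, sw_sum, ENNReal.ofReal_mul (by norm_num)]
  rw [show ENNReal.ofReal 2 = 2 by norm_num]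
  ring

lemma eN_of_sw {a : K → C3} {C : ℝ} (hC : 0 ≤ C) (h : ∀ k, k ≠ 0 → ‖a k‖ / nk k ≤ C * sw p f n k) :
    eN a ≤ ENNReal.ofReal (2 * C) * Ap p f := by
  unfold eN
  have h1 : ∀ k, ‖a k‖ₑ * ENNReal.ofReal (1 / nk k) ≤ ENNReal.ofReal C * ENNReal.ofReal (sw p f n k) := fun k => by
    by_cases hk : k = 0
    · subst hk; rw [nk_zero]; simp
    rw [← ofReal_norm, ← ENNReal.ofReal_mul (norm_nonneg _), ← ENNReal.ofReal_mul hC, mul_one_div]
    exact ENNReal.ofReal_le_ofReal (h k hk)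
  refine (ENNReal.tsum_le_tsum h1).trans (le_of_eq ?_)
  rw [ENNReal.tsum_mul_left, sw_sum, ENNReal.ofReal_mul (by norm_num)]
  rw [show ENNReal.ofReal 2 = 2 by norm_num]
  ring

lemma inv_nk (hk : k ≠ 0) (hn : n ≠ 0) : 1 / nk k ≤ (1 + nk (k - n)) / nk n := by
  have h1 : nk n ≤ nk k + nk (k - n) := by
    have := TS.nk_add k (-(k - n))
    rw [nk_neg, show k + -(k - n) = n by abel] at this
    exact this
  have hk1 := one_le_nk hk
  have hn1 := nk_pos hn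
  have h0 := nk_nonneg (k - n)
  rw [div_le_div_iff₀ (by linarith) hn1]
  nlinarith

lemma inv_nk' (hk : k ≠ 0) (hn : n ≠ 0) : 1 / nk k ≤ (1 + nk (k + n)) / nk n := by
  have h := inv_nk hk (neg_ne_zero.2 hn)
  rwa [sub_neg_eq_add, nk_neg] at h

lemma sw_gain (p : ℕ) (f : R3 → ℝ) (hk : k ≠ 0) (hn : n ≠ 0) : sw p f n k / nk k ≤ sw (p + 1) f n k / nk n := by
  have h1 := inv_nk hk hn
  have h2 := inv_nk' hk hn
  have a1 := nk_nonneg (k - n)
  have a2 := nk_nonneg (k + n)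
  unfold sw
  calc _ = (1 + nk (k - n)) ^ p * ‖H459R3.NS.fr f (k - n)‖ * (1 / nk k) + (1 + nk (k + n)) ^ p * ‖H459R3.NS.fr f (k + n)‖ * (1 / nk k) := by ring
    _ ≤ (1 + nk (k - n)) ^ p * ‖H459R3.NS.fr f (k - n)‖ * ((1 + nk (k - n)) / nk n)
        + (1 + nk (k + n)) ^ p * ‖H459R3.NS.fr f (k + n)‖ * ((1 + nk (k + n)) / nk n) := by gcongr
    _ = _ := by ring

lemma sq_gain (hk : k ≠ 0) (hn : n ≠ 0) : |H356R3.NS.sq k - H356R3.NS.sq n| / nk k ≤ (1 + nk (k - n)) ^ 3 := by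
  have h0 := nk_nonneg (k - n)
  have hk1 := nk_pos hk
  have hn1 := one_le_nk hn
  have h1 : nk n ≤ nk k + nk (k - n) := by
    have := TS.nk_add k (-(k - n))
    rw [nk_neg, show k + -(k - n) = n by abel] at this
    exact this
  have h2 : nk k ≤ nk n + nk (k - n) := by
    have := TS.nk_add n (k - n)
    rw [show n + (k - n) = k by abel] at this
    exact this
  have h3 : |H356R3.NS.sq k - H356R3.NS.sq n| ≤ nk (k - n) * (2 * nk n + nk (k - n)) := by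
    rw [← H356R3.NS.nk_sq, ← H356R3.NS.nk_sq]
    have e : nk k ^ 2 - nk n ^ 2 = (nk k - nk n) * (nk k + nk n) := by ring
    rw [e, abs_mul, abs_of_nonneg (by linarith : (0 : ℝ) ≤ nk k + nk n)]
    refine mul_le_mul ?_ (by linarith) (by linarith) h0
    rw [abs_le]; constructor <;> linarith
  have h4 := inv_nk hk hn
  calc |H356R3.NS.sq k - H356R3.NS.sq n| / nk k = |H356R3.NS.sq k - H356R3.NS.sq n| * (1 / nk k) := by ring
    _ ≤ (nk (k - n) * (2 * nk n + nk (k - n))) * ((1 + nk (k - n)) / nk n) := by gcongr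
    _ = nk (k - n) * (1 + nk (k - n)) * ((2 * nk n + nk (k - n)) / nk n) := by ring
    _ ≤ nk (k - n) * (1 + nk (k - n)) * (2 + nk (k - n)) := by
        gcongr
        rw [div_le_iff₀ (by linarith)]
        nlinarith
    _ ≤ _ := by nlinarith

lemma sq_gain' (hk : k ≠ 0) (hn : n ≠ 0) : |H356R3.NS.sq k - H356R3.NS.sq n| / nk k ≤ (1 + nk (k + n)) ^ 3 := by
  have h := sq_gain hk (neg_ne_zero.2 hn)
  rwa [sub_neg_eq_add, H356R3.NS.sq_neg] at h

lemma sw_sq_gain (f : R3 → ℝ) (hk : k ≠ 0) (hn : n ≠ 0) : |H356R3.NS.sq k - H356R3.NS.sq n| * sw 0 f n k / nk k ≤ sw 3 f n k := by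
  have h1 := sq_gain hk hn
  have h2 := sq_gain' hk hn
  unfold sw
  rw [pow_zero, pow_zero, one_mul, one_mul]
  calc _ = |H356R3.NS.sq k - H356R3.NS.sq n| / nk k * ‖H459R3.NS.fr f (k - n)‖ + |H356R3.NS.sq k - H356R3.NS.sq n| / nk k * ‖H459R3.NS.fr f (k + n)‖ := by ring
    _ ≤ _ := by gcongr

end Pool.Agent.U162.SF
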