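import Pool.Agent.U162.SF.B9

/-!
Jumps whose path stays close to the start in the critical norms
-/

open MeasureTheory Set Filter Topology
open scoped ENNReal NNReal ContDiff

namespace Pool.Agent.U162.SF

open Pool.Agent.H356R3.NS Pool.Agent.U162.TS Pool.Agent.U162.GE Pool.Agent.U162.TS.EL Pool.Agent.U162.TS.VF Pool.Agent.U162.TS.Ph Pool.Agent.U162.PL Pool.Agent.U162.MU

variable {ν : ℝ} {s : ℝ}

/-- a jump from one field to another one -/
theorem jumpE (hν : 0 < ν) (hs : 2 < s) {r : ℝ} (hr0 : 0 < r) (hr2 : r < 2) {A B : R3 → R3} (hA : Field A) (hB : Field B)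
    {h δ : ℝ} (hh : 0 < h) (hδ : 0 < δ) :
    ∃ (κ η : ℝ) (f u : ℝ → R3 → R3) (p : ℝ → R3 → ℝ), 0 < η ∧ η < κ ∧ κ ≤ h ∧ PthOn ν univ f u p ∧
      (∀ t ≤ η, f t = Rs ν A ∧ u t = A ∧ p t = fun _ => 0) ∧ (∀ t, κ ≤ t → f t = Rs ν B ∧ u t = B ∧ p t = fun _ => 0) ∧
      ∫⁻ t in Ioo 0 κ, Nc s (f t) ≤ ENNReal.ofReal δ ∧
      ∫⁻ t in Ioo 0 κ, Wn (u t) ^ r ≤ ENNReal.ofReal δ ∧
      ∀ t, Nc s (fun x => u t x - A x) ≤ ENNReal.ofReal 1500 * Wn (fun x => B x - A x) + ENNReal.ofReal δ := by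
  have hs1 : 1 ≤ s := by linarith
  have hs0 : 0 < s := by linarith
  obtain ⟨C, hC0, hC⟩ := th_deriv_bd
  have hAs : SPF A := hA.sp
  have hBs : SPF B := hB.sp
  -- the constants of the fields
  have hFA : Nc s (Rs ν A) ≠ ⊤ := ne_top_of_le_ne_top (Wn_fin (Rs_spf hAs)) (Nc_le_Wn hs1 _)
  have hFB : Nc s (Rs ν B) ≠ ⊤ := ne_top_of_le_ne_top (Wn_fin (Rs_spf hBs)) (Nc_le_Wn hs1 _)
  set FA := (Nc s (Rs ν A)).toReal with hFAd
  set FB := (Nc s (Rs ν B)).toReal with hFBd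
  set WA := (Wn A).toReal with hWAd
  set WB := (Wn B).toReal with hWBd
  have hFA0 : 0 ≤ FA := ENNReal.toReal_nonneg
  have hFB0 : 0 ≤ FB := ENNReal.toReal_nonneg
  have hWA0 : 0 ≤ WA := ENNReal.toReal_nonneg
  have hWB0 : 0 ≤ WB := ENNReal.toReal_nonneg
  have eFA : Nc s (Rs ν A) = ENNReal.ofReal FA := (ENNReal.ofReal_toReal hFA).symm
  have eFB : Nc s (Rs ν B) = ENNReal.ofReal FB := (ENNReal.ofReal_toReal hFB).symm
  have eWA : Wn A = ENNReal.ofReal WA := (ENNReal.ofReal_toReal (Wn_fin hAs)).symm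
  have eWB : Wn B = ENNReal.ofReal WB := (ENNReal.ofReal_toReal (Wn_fin hBs)).symm
  set δ₁ := δ / (16 * (C + 1)) with hδ₁
  have hδ₁p : 0 < δ₁ := by positivity
  have hδ₁C : 4 * C * δ₁ ≤ δ / 4 := by
    rw [hδ₁, mul_div_assoc', div_le_iff₀ (by positivity)]
    nlinarith
  have hδ₁δ : δ₁ ≤ δ := by
    rw [hδ₁]
    exact div_le_self hδ.le (by linarith)
  -- the waves
  obtain ⟨E₀, RS, hE₀, hRS0, hburst⟩ := burst hν hs hA hB hδ₁p
  set EE := 2 * (WA + WB) ^ 2 + 2 * E₀ with hEE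
  have hEE0 : 0 ≤ EE := by positivity
  obtain ⟨Λ, hΛ, hΛE⟩ := ML.ex_Lam hr2 hEE0 (half_pos hδ)
  have hΛr : 0 < Λ ^ r := by positivity
  -- the time of the jump
  obtain ⟨T₁, hT₁, hT₁h', hT₁c⟩ : ∃ T₁ : ℝ, 0 < T₁ ∧ 2 * T₁ ≤ min h (min 1 (δ / 2 / Λ ^ r)) ∧ T₁ * (2 * RS + FB + 120) ≤ δ / 8 := by
    have hh' : 0 < min h (min 1 (δ / 2 / Λ ^ r)) := by positivity
    refine ⟨min (min h (min 1 (δ / 2 / Λ ^ r)) / 2) (δ / 8 / (2 * RS + FB + 120)), by positivity, ?_, ?_⟩
    · have := min_le_left (min h (min 1 (δ / 2 / Λ ^ r)) / 2) (δ / 8 / (2 * RS + FB + 120))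
      linarith
    · have h1 := min_le_right (min h (min 1 (δ / 2 / Λ ^ r)) / 2) (δ / 8 / (2 * RS + FB + 120))
      have h2 : 0 < 2 * RS + FB + 120 := by positivity
      calc _ ≤ δ / 8 / (2 * RS + FB + 120) * (2 * RS + FB + 120) := mul_le_mul_of_nonneg_right h1 h2.le
        _ = δ / 8 := by field_simp
  have hT₁h : 2 * T₁ ≤ h := hT₁h'.trans (min_le_left _ _)
  have hT₁1 : 2 * T₁ ≤ 1 := hT₁h'.trans ((min_le_right _ _).trans (min_le_left _ _))
  have hT₁Λ : 2 * T₁ * Λ ^ r ≤ δ / 2 := by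
    have := hT₁h'.trans ((min_le_right _ _).trans (min_le_right _ _))
    rwa [le_div_iff₀ hΛr] at this
  obtain ⟨om, hom0, hom1, homd, hE4⟩ : ∃ om : ℝ, 0 < om ∧ om ≤ 1 ∧ om ≤ δ / 8 ∧ C * om ≤ δ / 8 := by
    refine ⟨min 1 (δ / (8 * (C + 1))), by positivity, min_le_left _ _, ?_, ?_⟩
    · refine (min_le_right _ _).trans (div_le_div_of_nonneg_left hδ.le (by norm_num) (by linarith))
    · calc C * min 1 (δ / (8 * (C + 1))) ≤ C * (δ / (8 * (C + 1))) := mul_le_mul_of_nonneg_left (min_le_right _ _) hC0.le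
        _ ≤ δ / 8 := by
          rw [mul_div_assoc', div_le_div_iff₀ (by positivity) (by norm_num)]
          nlinarith
  obtain ⟨F, U, P, M', τ₀, hM'0, hτ₀, PU, hFi, hUi, hUA, hUAc, hUAs, hUB⟩ := hburst T₁ hT₁ hT₁1 om hom0
  have sU : ∀ t, SPF (U t) := fun t => PU.spu trivial
  obtain ⟨τ, hτ, hττ, hτT, hτc⟩ : ∃ τ : ℝ, 0 < τ ∧ τ ≤ τ₀ ∧ τ ≤ T₁ ∧ τ * (FA + 120 * M' ^ 2) ≤ δ / 8 := by
    have hX0 : 0 ≤ FA + 120 * M' ^ 2 := by positivity
    have hm : 0 < min (min τ₀ T₁) (δ / 8 / (FA + 120 * M' ^ 2 + 1)) := by positivity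
    refine ⟨min (min τ₀ T₁) (δ / 8 / (FA + 120 * M' ^ 2 + 1)), hm, (min_le_left _ _).trans (min_le_left _ _),
      (min_le_left _ _).trans (min_le_right _ _), ?_⟩
    have h1 := min_le_right (min τ₀ T₁) (δ / 8 / (FA + 120 * M' ^ 2 + 1))
    calc _ ≤ δ / 8 / (FA + 120 * M' ^ 2 + 1) * (FA + 120 * M' ^ 2) := mul_le_mul_of_nonneg_right h1 hX0
      _ ≤ δ / 8 := by
        rw [div_mul_eq_mul_div, div_le_iff₀ (by positivity)]
        nlinarith
  -- the joints
  have PA := const_pth (ν := ν) hA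
  have PB := const_pth (ν := ν) hB
  have hab1 : τ / 2 < τ := by linarith
  have hab2 : T₁ < 2 * T₁ := by linarith
  set f1 := bf (τ / 2) τ (fun _ => Rs ν A) (fun _ => A) F U with hf1
  set u1 := bu (τ / 2) τ (fun _ => A) U with hu1
  set p1 := bp (τ / 2) τ (fun _ _ => 0) P with hp1
  have P1 : PthOn ν univ f1 u1 p1 := blend hab1 (fun t _ => trivial) PA PU
  set f2 := bf T₁ (2 * T₁) f1 u1 (fun _ => Rs ν B) (fun _ => B) with hf2
  set u2 := bu T₁ (2 * T₁) u1 (fun _ => B) with hu2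
  set p2 := bp T₁ (2 * T₁) p1 (fun _ _ => 0) with hp2
  have P2 : PthOn ν univ f2 u2 p2 := blend hab2 (fun t _ => trivial) P1 PB
  have v1 : ∀ t, τ ≤ t → f1 t = F t ∧ u1 t = U t := fun t ht => ⟨bf_right hab1 ht, bu_right hab1 ht⟩
  have w2 : ∀ t, t ≤ T₁ → f2 t = f1 t ∧ u2 t = u1 t ∧ p2 t = p1 t := fun t ht => ⟨bf_left hab2 ht, bu_left hab2 ht, bp_left hab2 ht⟩
  refine ⟨2 * T₁, τ / 2, f2, u2, p2, by positivity, by linarith, hT₁h, P2, fun t ht => ?_, fun t ht => ⟨?_, ?_, ?_⟩, ?_, ?_, fun t => ?_⟩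
  · obtain ⟨e1, e2, e3⟩ := w2 t (by linarith)
    rw [e1, e2, e3]
    exact ⟨bf_left hab1 ht, bu_left hab1 ht, bp_left hab1 ht⟩
  · exact bf_right hab2 ht
  · exact bu_right hab2 ht
  · exact bp_right hab2 ht
  · -- the force
    set KA := FA + (C / (τ / 2) * (2 * δ₁) + 120 * M' ^ 2) with hKA
    set KC := FB + (C / T₁ * om + 120 * om ^ 2) with hKC
    have hKA0 : 0 ≤ KA := by positivity
    have hKC0 : 0 ≤ KC := by positivity
    have bA : ∀ t, 0 < t → t ≤ τ → Nc s (f1 t) ≤ Nc s (F t) + ENNReal.ofReal KA := by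
      intro t ht0 ht
      rcases le_total t (τ / 2) with h1 | h1
      · rw [show f1 t = Rs ν A from bf_left hab1 h1, eFA]
        refine le_trans (ENNReal.ofReal_le_ofReal ?_) le_add_self
        rw [hKA]
        have : 0 ≤ C / (τ / 2) * (2 * δ₁) + 120 * M' ^ 2 := by positivity
        linarith
      · have h2 := blend_bd hC hab1 PA PU hs1 (t := t) trivial
        refine h2.trans ?_
        have h3 : Nc s (dif (fun _ => A) U t) ≤ ENNReal.ofReal (2 * δ₁) := hUAs t ht0.le (ht.trans hττ)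
        have h4 : Wn (dif (fun _ => A) U t) ≤ ENNReal.ofReal M' := hUA t ht0.le
        rw [eFA, hKA, ENNReal.ofReal_add hFA0 (by positivity), ENNReal.ofReal_add (by positivity) (by positivity),
          add_comm (ENNReal.ofReal FA) (Nc s (F t)), add_assoc]
        refine add_le_add le_rfl (add_le_add le_rfl (add_le_add ?_ ?_))
        · rw [show τ - τ / 2 = τ / 2 by ring, ENNReal.ofReal_mul (by positivity)]
          exact mul_le_mul' le_rfl h3
        · rw [ENNReal.ofReal_mul (by norm_num), ENNReal.ofReal_pow hM'0]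
          exact mul_le_mul' le_rfl (pow_le_pow_left' h4 2)
    have bC : ∀ t, T₁ ≤ t → t ≤ 2 * T₁ → Nc s (f2 t) ≤ Nc s (F t) + ENNReal.ofReal KC := by
      intro t ht0 ht
      have h2 := blend_bd hC hab2 P1 PB hs1 (t := t) trivial
      refine h2.trans ?_
      have e1 := v1 t (hτT.trans ht0)
      have e2 : dif u1 (fun _ => B) t = fun x => B x - U t x := by
        unfold dif
        rw [e1.2]
      have h4 : Wn (dif u1 (fun _ => B) t) ≤ ENNReal.ofReal om := by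
        rw [e2]; exact hUB t ht0
      rw [e1.1, eFB, hKC, ENNReal.ofReal_add hFB0 (by positivity), ENNReal.ofReal_add (by positivity) (by positivity), add_assoc]
      refine add_le_add le_rfl (add_le_add le_rfl (add_le_add ?_ ?_))
      · rw [show 2 * T₁ - T₁ = T₁ by ring, ENNReal.ofReal_mul (by positivity)]
        exact mul_le_mul' le_rfl ((Nc_le_Wn hs1 _).trans h4)
      · rw [ENNReal.ofReal_mul (by norm_num), ENNReal.ofReal_pow hom0.le]
        exact mul_le_mul' le_rfl (pow_le_pow_left' h4 2)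
    have hpt : ∀ t ∈ Ioo 0 (2 * T₁), Nc s (f2 t) ≤ Nc s (F t)
        + ((Icc 0 τ).indicator (fun _ => ENNReal.ofReal KA) t + (Icc T₁ (2 * T₁)).indicator (fun _ => ENNReal.ofReal KC) t) := by
      intro t ht
      have ht0 : 0 < t := ht.1
      rcases le_or_gt t τ with h1 | h1
      · rw [(w2 t (by linarith)).1, indicator_of_mem (show t ∈ Icc 0 τ from ⟨ht0.le, h1⟩)]
        exact (bA t ht0 h1).trans (add_le_add le_rfl le_self_add)
      rcases le_or_gt t T₁ with h2 | h2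
      · rw [(w2 t h2).1, (v1 t h1.le).1]
        exact le_self_add
      · rw [indicator_of_mem (show t ∈ Icc T₁ (2 * T₁) from ⟨h2.le, ht.2.le⟩)]
        exact (bC t h2.le ht.2.le).trans (add_le_add le_rfl le_add_self)
    refine (setLIntegral_mono' measurableSet_Ioo hpt).trans ?_
    have hmi : Measurable fun t => (Icc 0 τ).indicator (fun _ => ENNReal.ofReal KA) t + (Icc T₁ (2 * T₁)).indicator (fun _ => ENNReal.ofReal KC) t :=
      (measurable_const.indicator measurableSet_Icc).add (measurable_const.indicator measurableSet_Icc)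
    rw [lintegral_add_right _ hmi]
    have hI : ∀ (x y c : ℝ), 0 ≤ c → x ≤ y → ∫⁻ t, (Icc x y).indicator (fun _ => ENNReal.ofReal c) t = ENNReal.ofReal (c * (y - x)) := by
      intro x y c hc hxy
      rw [lintegral_indicator_const measurableSet_Icc, Real.volume_Icc, ENNReal.ofReal_mul hc]
    refine (add_le_add hFi (setLIntegral_le_lintegral _ _)).trans ?_
    rw [lintegral_add_left (measurable_const.indicator measurableSet_Icc),
      hI _ _ _ hKA0 hτ.le, hI _ _ _ hKC0 (by linarith),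
      ← ENNReal.ofReal_add (mul_nonneg hKA0 (by linarith)) (mul_nonneg hKC0 (by linarith)),
      ← ENNReal.ofReal_add (by positivity) (add_nonneg (mul_nonneg hKA0 (by linarith)) (mul_nonneg hKC0 (by linarith)))]
    apply ENNReal.ofReal_le_ofReal
    have c1 : KA * (τ - 0) = τ * (FA + 120 * M' ^ 2) + 4 * C * δ₁ := by
      rw [hKA]; field_simp; ring
    have c3 : KC * (2 * T₁ - T₁) = T₁ * FB + C * om + 120 * T₁ * om ^ 2 := by
      rw [hKC]; field_simp; ring
    rw [c1, c3]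
    have c5 : 120 * T₁ * om ^ 2 ≤ 120 * T₁ * 1 := mul_le_mul_of_nonneg_left (pow_le_one₀ hom0.le hom1) (by positivity)
    have c6 : T₁ * (2 * RS + FB + 120) = RS * (2 * T₁) + T₁ * FB + 120 * T₁ := by ring
    linarith
  · -- the mean of the velocity
    refine ML.mean_low hr0 hr2 hΛ hΛE (by positivity) hT₁Λ ?_
    have hpt : ∀ t ∈ Ioo 0 (2 * T₁), Wn (u2 t) ^ (2 : ℝ) ≤ ENNReal.ofReal (2 * (WA + WB) ^ 2) + 2 * Wn (U t) ^ 2 := by
      intro t ht
      have s1 : SPF (u1 t) := P1.spu trivial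
      have b3 : Wn (u2 t) ≤ Wn (u1 t) + Wn B := ML.Wn_bu (u₂ := fun _ => B) s1 hBs
      have b1 : Wn (u1 t) ≤ Wn A + Wn (U t) := ML.Wn_bu (u₁ := fun _ => A) hAs (sU t)
      have b0 : Wn (u2 t) ≤ ENNReal.ofReal (WA + WB) + Wn (U t) := by
        rw [ENNReal.ofReal_add hWA0 hWB0, ← eWA, ← eWB]
        calc Wn (u2 t) ≤ (Wn A + Wn (U t)) + Wn B := b3.trans (add_le_add b1 le_rfl)
          _ = _ := by ring
      rw [ENNReal.rpow_two, ENNReal.ofReal_mul (by norm_num), ENNReal.ofReal_pow (by positivity), show ENNReal.ofReal 2 = 2 by norm_num, ← mul_add]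
      exact (pow_le_pow_left' b0 2).trans (ML.add_sq_le_ennreal _ _)
    calc ∫⁻ t in Ioo 0 (2 * T₁), Wn (u2 t) ^ (2 : ℝ) ≤ ∫⁻ t in Ioo 0 (2 * T₁), (ENNReal.ofReal (2 * (WA + WB) ^ 2) + 2 * Wn (U t) ^ 2) :=
          setLIntegral_mono' measurableSet_Ioo hpt
      _ = ENNReal.ofReal (2 * (WA + WB) ^ 2) * ENNReal.ofReal (2 * T₁) + 2 * ∫⁻ t in Ioo 0 (2 * T₁), Wn (U t) ^ 2 := by
          rw [lintegral_add_left measurable_const, setLIntegral_const, Real.volume_Ioo, sub_zero, lintegral_const_mul' _ _ (by norm_num)]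
      _ ≤ ENNReal.ofReal (2 * (WA + WB) ^ 2) + 2 * ENNReal.ofReal E₀ := by
          refine add_le_add ?_ (mul_le_mul' le_rfl hUi)
          rw [← ENNReal.ofReal_mul (by positivity)]
          exact ENNReal.ofReal_le_ofReal (mul_le_of_le_one_right (by positivity) hT₁1)
      _ = ENNReal.ofReal EE := by
          rw [hEE, ENNReal.ofReal_add (by positivity) (by positivity), ENNReal.ofReal_mul (p := 2) (q := E₀) (by norm_num)]
          norm_num
  · -- the distance from the start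
    rcases le_or_gt t (τ / 2) with h1 | h1
    · have e : u2 t = A := by
        rw [(w2 t (by linarith)).2.1]; exact bu_left hab1 h1
      have e2 : (fun x => u2 t x - A x) = fun _ => 0 := by
        funext x; rw [e, sub_self]
      rw [e2, Nc_zero hs0]
      exact bot_le
    · have ht0 : 0 ≤ t := by linarith
      have s1 : SPF (u1 t) := P1.spu trivial
      have b1 : Nc s (fun x => u2 t x - A x) ≤ Nc s (fun x => u1 t x - A x) + Nc s (fun x => B x - A x) :=
        Nc_bu (u₂ := fun _ => B) hs1 s1 hBs hAs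
      have b2 : Nc s (fun x => u1 t x - A x) ≤ Nc s (fun x => A x - A x) + Nc s (fun x => U t x - A x) :=
        Nc_bu (u₁ := fun _ => A) hs1 hAs (sU t) hAs
      have b3 : Nc s (fun x => A x - A x) = 0 := by
        have : (fun x => A x - A x) = fun _ => (0 : R3) := by funext x; rw [sub_self]
        rw [this, Nc_zero hs0]
      rw [b3, zero_add] at b2
      calc Nc s (fun x => u2 t x - A x) ≤ (ENNReal.ofReal 1440 * Wn (fun x => B x - A x) + ENNReal.ofReal δ₁) + Wn (fun x => B x - A x) :=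
            b1.trans (add_le_add (b2.trans (hUAc t ht0)) (Nc_le_Wn hs1 _))
        _ = (ENNReal.ofReal 1440 + 1) * Wn (fun x => B x - A x) + ENNReal.ofReal δ₁ := by ring
        _ ≤ _ := by
            refine add_le_add (mul_le_mul' ?_ le_rfl) (ENNReal.ofReal_le_ofReal hδ₁δ)
            rw [← ENNReal.ofReal_one, ← ENNReal.ofReal_add (by norm_num) (by norm_num)]
            exact ENNReal.ofReal_le_ofReal (by norm_num)

end Pool.Agent.U162.SF
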