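import Pool.Agent.U162.SF.B1

/-!
Waves: the basic estimates
-/

open MeasureTheory Set Filter Topology
open scoped ENNReal NNReal ContDiff

namespace Pool.Agent.U162.SF

open Pool.Agent.H356R3.NS Pool.Agent.U162.TS Pool.Agent.U162.GE Pool.Agent.U162.TS.EL Pool.Agent.U162.TS.VF Pool.Agent.U162.TS.Ph Pool.Agent.U162.PL Pool.Agent.U162.MU

variable {ν : ℝ} {γ : R3 → ℝ} {m : K} {ξ : R3} {N : ℕ} {s : ℝ}

lemma Al_nsmul (m : K) (N : ℕ) (x : R3) : Al m ((N : ℝ) • x) = Al ((N : ℤ) • m) x := by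
  rw [Al_apply, Al_apply]
  refine Finset.sum_congr rfl fun i _ => ?_
  simp only [Pi.smul_apply, smul_eq_mul]
  push_cast
  ring

lemma cos_sp (n : K) : H459R3.NS.SP fun x => Real.cos (Al n x) where
  smooth := (Al n).contDiff.cos
  per := fun j x => Al_per n x j

/-- the oscillating field -/
noncomputable def zz (ν : ℝ) (γ : R3 → ℝ) (m : K) (ξ : R3) (N : ℕ) (x : R3) : R3 := sh ν (γ x) m ξ 0 ((N : ℝ) • x)

lemma zz_apply (x : R3) (i : Fin 3) : zz ν γ m ξ N x i = ξ i * (γ x * Real.cos (Al ((N : ℤ) • m) x)) := by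
  unfold zz
  rw [sh_zero_eq, Al_nsmul]; ring

lemma zz_spf (hγ : H459R3.NS.SP γ) : SPF (zz ν γ m ξ N) := fun i => by
  have h := sp_const_mul (hγ.mul (cos_sp ((N : ℤ) • m))) (ξ i)
  have e : (fun x => zz ν γ m ξ N x i) = fun x => ξ i * (γ x * Real.cos (Al ((N : ℤ) • m) x)) := funext fun x => zz_apply x i
  rw [e]; exact h

lemma zz_fc (hγ : H459R3.NS.SP γ) (k : K) (i : Fin 3) : H356R3.NS.fc (zz ν γ m ξ N) k i
    = ξ i * ((H459R3.NS.fr γ (k - (N : ℤ) • m) + H459R3.NS.fr γ (k + (N : ℤ) • m)) / 2) := by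
  rw [← fr_eq_fc]
  have e : (fun x => zz ν γ m ξ N x i) = fun x => ξ i * (γ x * Real.cos (Al ((N : ℤ) • m) x)) := funext fun x => zz_apply x i
  rw [e, fr_const_mul, fr_cos hγ]

/-- conditions on the wave -/
structure Wc (γ : R3 → ℝ) (m : K) (ξ : R3) (N : ℕ) : Prop where
  sp : H459R3.NS.SP γ
  m0 : m ≠ 0
  orth : ∑ j, (m j : ℝ) * ξ j = 0
  two : ∀ i, |ξ i| ≤ 2
  N0 : 0 < N

lemma Wc.n0 (h : Wc γ m ξ N) : (N : ℤ) • m ≠ 0 := by
  intro h1
  have h2 := nk_nsmul N m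
  rw [h1, nk_zero] at h2
  have h3 := nk_pos h.m0
  have h4 : (0 : ℝ) < N := by exact_mod_cast h.N0
  have : 0 < (N : ℝ) * nk m := by positivity
  linarith

lemma Wc.nN (h : Wc γ m ξ N) : (N : ℝ) ≤ nk ((N : ℤ) • m) := by
  rw [nk_nsmul]
  exact le_mul_of_one_le_right (Nat.cast_nonneg N) (one_le_nk h.m0)

lemma zz_norm (h : Wc γ m ξ N) (k : K) : ‖H356R3.NS.fc (zz ν γ m ξ N) k‖ ≤ sw 0 γ ((N : ℤ) • m) k := by
  rw [pi_norm_le_iff_of_nonneg (sw_nonneg _ _ _ _)]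
  intro i
  rw [zz_fc h.sp, norm_mul, norm_div, Complex.norm_real, Real.norm_eq_abs]
  unfold sw
  rw [pow_zero, pow_zero, one_mul, one_mul]
  have h1 := norm_add_le (H459R3.NS.fr γ (k - (N : ℤ) • m)) (H459R3.NS.fr γ (k + (N : ℤ) • m))
  have h2 := h.two i
  have h3 : ‖(2 : ℂ)‖ = 2 := by simp
  rw [h3]
  calc |ξ i| * (‖H459R3.NS.fr γ (k - (N : ℤ) • m) + H459R3.NS.fr γ (k + (N : ℤ) • m)‖ / 2)
      ≤ 2 * ((‖H459R3.NS.fr γ (k - (N : ℤ) • m)‖ + ‖H459R3.NS.fr γ (k + (N : ℤ) • m)‖) / 2) := by gcongr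
    _ = _ := by ring

/-- the pairing with the direction -/
noncomputable def dx (ξ : R3) (l : K) : ℝ := ∑ j, (l j : ℝ) * ξ j

lemma dx_sub (ξ : R3) (k n : K) : dx ξ (k - n) = dx ξ k - dx ξ n := by
  unfold dx
  rw [← Finset.sum_sub_distrib]
  refine Finset.sum_congr rfl fun j _ => ?_
  rw [Pi.sub_apply]; push_cast; ring

lemma dx_add (ξ : R3) (k n : K) : dx ξ (k + n) = dx ξ k + dx ξ n := by
  unfold dx
  rw [← Finset.sum_add_distrib]
  refine Finset.sum_congr rfl fun j _ => ?_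
  rw [Pi.add_apply]; push_cast; ring

lemma dx_nsmul (ξ : R3) (N : ℕ) (m : K) : dx ξ ((N : ℤ) • m) = N * dx ξ m := by
  unfold dx
  rw [Finset.mul_sum]
  refine Finset.sum_congr rfl fun j _ => ?_
  simp only [Pi.smul_apply, smul_eq_mul]
  push_cast; ring

lemma dx_bd (h2 : ∀ i, |ξ i| ≤ 2) (l : K) : |dx ξ l| ≤ 6 * nk l := by
  unfold dx
  refine (Finset.abs_sum_le_sum_abs _ _).trans ?_
  calc ∑ j, |(l j : ℝ) * ξ j| ≤ ∑ _j : Fin 3, nk l * 2 := by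
        refine Finset.sum_le_sum fun j _ => ?_
        rw [abs_mul]
        exact mul_le_mul (abs_le_nk l j) (h2 j) (abs_nonneg _) (nk_nonneg l)
    _ = _ := by rw [Finset.sum_const, Finset.card_univ, Fintype.card_fin, nsmul_eq_mul]; push_cast; ring

/-- the pairing with two-sided sums -/
lemma dx_pair (h2 : ∀ i, |ξ i| ≤ 2) {n : K} (hn : dx ξ n = 0) (f : R3 → ℝ) (k : K) :
    ‖((dx ξ k : ℝ) : ℂ) * ((H459R3.NS.fr f (k - n) + H459R3.NS.fr f (k + n)) / 2)‖ ≤ 3 * sw 1 f n k := by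
  have e1 : dx ξ k = dx ξ (k - n) := by rw [dx_sub, hn, sub_zero]
  have e2 : dx ξ k = dx ξ (k + n) := by rw [dx_add, hn, add_zero]
  have e : ((dx ξ k : ℝ) : ℂ) * ((H459R3.NS.fr f (k - n) + H459R3.NS.fr f (k + n)) / 2)
      = (((dx ξ (k - n) : ℝ) : ℂ) * H459R3.NS.fr f (k - n) + ((dx ξ (k + n) : ℝ) : ℂ) * H459R3.NS.fr f (k + n)) / 2 := by
    rw [← e1, ← e2]; ring
  have h3 : ‖(2 : ℂ)‖ = 2 := by simp
  rw [e, norm_div, h3]
  have b1 := dx_bd h2 (k - n)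
  have b2 := dx_bd h2 (k + n)
  have n1 := nk_nonneg (k - n)
  have n2 := nk_nonneg (k + n)
  have h4 : ‖((dx ξ (k - n) : ℝ) : ℂ) * H459R3.NS.fr f (k - n) + ((dx ξ (k + n) : ℝ) : ℂ) * H459R3.NS.fr f (k + n)‖
      ≤ 6 * sw 1 f n k := by
    refine (norm_add_le _ _).trans ?_
    rw [norm_mul, norm_mul, Complex.norm_real, Complex.norm_real, Real.norm_eq_abs, Real.norm_eq_abs]
    unfold sw
    calc |dx ξ (k - n)| * ‖H459R3.NS.fr f (k - n)‖ + |dx ξ (k + n)| * ‖H459R3.NS.fr f (k + n)‖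
        ≤ (6 * (1 + nk (k - n)) ^ 1) * ‖H459R3.NS.fr f (k - n)‖ + (6 * (1 + nk (k + n)) ^ 1) * ‖H459R3.NS.fr f (k + n)‖ := by
          gcongr
          · linarith
          · linarith
      _ = _ := by ring
  linarith

lemma Wc.dn (h : Wc γ m ξ N) : dx ξ ((N : ℤ) • m) = 0 := by
  rw [dx_nsmul]
  have : dx ξ m = 0 := h.orth
  rw [this, mul_zero]

lemma zz_dt (h : Wc γ m ξ N) (k : K) : ‖dt k (H356R3.NS.fc (zz ν γ m ξ N) k)‖ ≤ 3 * sw 1 γ ((N : ℤ) • m) k := by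
  refine le_trans (le_of_eq ?_) (dx_pair h.two h.dn γ k)
  congr 1
  unfold dt dx
  push_cast
  rw [Finset.sum_mul]
  refine Finset.sum_congr rfl fun j _ => ?_
  rw [zz_fc h.sp]
  ring

/-- the size of the waves -/
theorem wv_E0 (h : Wc γ m ξ N) : Wn (zz ν γ m ξ N) ≤ ENNReal.ofReal 2 * Ap 0 γ := by
  have := tsum_of_sw (a := fun k => H356R3.NS.fc (zz ν γ m ξ N) k) (p := 0) (f := γ) (n := (N : ℤ) • m) (C := 1) (by norm_num)
    fun k => by rw [one_mul]; exact zz_norm h k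
  rw [mul_one] at this
  exact this

theorem wv_E1 (h : Wc γ m ξ N) : Wn (ler (zz ν γ m ξ N)) ≤ ENNReal.ofReal 8 * Ap 0 γ := by
  have h1 := Wm_ler (m := 0) (zz_spf (ν := ν) (m := m) (ξ := ξ) (N := N) h.sp)
  rw [Wm_zero', Wm_zero'] at h1
  refine h1.trans ((mul_le_mul' le_rfl (wv_E0 h)).trans (le_of_eq ?_))
  rw [← mul_assoc, ← ENNReal.ofReal_mul (by norm_num)]
  norm_num

/-- the correction of the waves -/
theorem wv_E2 (h : Wc γ m ξ N) : Wn (fun x => ler (zz ν γ m ξ N) x - zz ν γ m ξ N x) ≤ ENNReal.ofReal (6 / N) * Ap 2 γ := by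
  have hz : SPF (zz ν γ m ξ N) := zz_spf h.sp
  have hN : (0 : ℝ) < N := by exact_mod_cast h.N0
  have hn := h.n0
  have hnN := h.nN
  have hnp := nk_pos hn
  set n : K := (N : ℤ) • m with hnd
  have key : ∀ k, ‖H356R3.NS.fc (fun x => ler (zz ν γ m ξ N) x - zz ν γ m ξ N x) k‖ ≤ 3 / N * sw 2 γ n k := by
    intro k
    have hs0 := sw_nonneg 2 γ n k
    have hle : 3 / nk n * sw 2 γ n k ≤ 3 / N * sw 2 γ n k :=
      mul_le_mul_of_nonneg_right (div_le_div_of_nonneg_left (by norm_num) hN hnN) hs0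
    refine le_trans ?_ hle
    rw [fc_sub (ler_field hz).sp hz, ler_fc hz]
    by_cases hk : k = 0
    · rw [if_pos hk, zero_sub, norm_neg]
      refine (zz_norm h k).trans ?_
      subst hk
      unfold sw
      rw [zero_sub, zero_add, nk_neg, pow_zero, one_mul, one_mul, ← mul_add]
      have h1 : 1 ≤ 3 / nk n * (1 + nk n) ^ 2 := by
        rw [div_mul_eq_mul_div, le_div_iff₀ hnp]; nlinarith
      have h2 : 0 ≤ ‖H459R3.NS.fr γ (-n)‖ + ‖H459R3.NS.fr γ n‖ := by positivity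
      calc ‖H459R3.NS.fr γ (-n)‖ + ‖H459R3.NS.fr γ n‖ ≤ (3 / nk n * (1 + nk n) ^ 2) * (‖H459R3.NS.fr γ (-n)‖ + ‖H459R3.NS.fr γ n‖) :=
            le_mul_of_one_le_left h2 h1
        _ = _ := by ring
    · rw [if_neg hk]
      have hkp := nk_pos hk
      have h1 : ‖pr k (H356R3.NS.fc (zz ν γ m ξ N) k) - H356R3.NS.fc (zz ν γ m ξ N) k‖ ≤ ‖dt k (H356R3.NS.fc (zz ν γ m ξ N) k)‖ / nk k := by
        rw [pi_norm_le_iff_of_nonneg (by positivity)]
        intro i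
        rw [Pi.sub_apply]
        have e : pr k (H356R3.NS.fc (zz ν γ m ξ N) k) i - H356R3.NS.fc (zz ν γ m ξ N) k i
            = -((k i : ℂ) * dt k (H356R3.NS.fc (zz ν γ m ξ N) k) / ((H356R3.NS.sq k : ℝ) : ℂ)) := by unfold pr; ring
        rw [e, norm_neg, norm_div, norm_mul, Complex.norm_real, Complex.norm_intCast, Real.norm_of_nonneg (sq_nonneg' k),
          ← H356R3.NS.nk_sq, div_le_div_iff₀ (by positivity) hkp]
        calc |((k i : ℤ) : ℝ)| * ‖dt k (H356R3.NS.fc (zz ν γ m ξ N) k)‖ * nk k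
            ≤ nk k * ‖dt k (H356R3.NS.fc (zz ν γ m ξ N) k)‖ * nk k := by
              gcongr
              exact abs_le_nk k i
          _ = _ := by ring
      refine h1.trans ?_
      calc ‖dt k (H356R3.NS.fc (zz ν γ m ξ N) k)‖ / nk k ≤ 3 * sw 1 γ n k / nk k := by
            gcongr
            exact zz_dt h k
        _ = 3 * (sw 1 γ n k / nk k) := by ring
        _ ≤ 3 * (sw 2 γ n k / nk n) := mul_le_mul_of_nonneg_left (sw_gain 1 γ hk hn) (by norm_num)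
        _ = _ := by ring
  refine (tsum_of_sw (by positivity) key).trans (le_of_eq ?_)
  congr 2
  ring

/-! ### the viscous term -/

lemma fc_Ls {A : R3 → R3} (hA : SPF A) (k : K) :
    H356R3.NS.fc (Ls ν A) k = (4 * Real.pi ^ 2 * ν * H356R3.NS.sq k : ℝ) • H356R3.NS.fc A k := by
  funext i
  rw [Pi.smul_apply, Complex.real_smul, ← fr_eq_fc, ← fr_eq_fc]
  have e : (fun x => Ls ν A x i) = fun x => (-ν) * ∑ j, H459R3.NS.pd j (H459R3.NS.pd j fun y => A y i) x := rfl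
  rw [e, fr_const_mul, H459R3.NS.fr_sum (s := Finset.univ) (f := fun j x => H459R3.NS.pd j (H459R3.NS.pd j fun y => A y i) x)
    (fun j _ => ((hA i).pd j).pd j)]
  have h2 : ∀ j, H459R3.NS.fr (fun x => H459R3.NS.pd j (H459R3.NS.pd j fun y => A y i) x) k
      = (2 * Real.pi * Complex.I * (k j : ℂ)) ^ 2 * H459R3.NS.fr (fun y => A y i) k := fun j => H459R3.NS.fr_iter (hA i) j 2 k
  simp only [h2]
  unfold H356R3.NS.sq
  rw [Fin.sum_univ_three, Fin.sum_univ_three]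
  push_cast
  ring_nf
  rw [Complex.I_sq]
  ring

/-- the viscous term of the waves -/
theorem wv_E4 (hν : 0 < ν) (hs : 1 ≤ s) (h : Wc γ m ξ N) :
    Nc s (fun x => Ls ν (ler (zz ν γ m ξ N)) x + (-(4 * Real.pi ^ 2 * ν * H356R3.NS.sq ((N : ℤ) • m))) • ler (zz ν γ m ξ N) x)
      ≤ ENNReal.ofReal (64 * Real.pi ^ 2 * ν) * Ap 3 γ := by
  have hz : SPF (zz ν γ m ξ N) := zz_spf h.sp
  have hn := h.n0
  set n : K := (N : ℤ) • m with hnd
  set w := ler (zz ν γ m ξ N) with hw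
  have sw' : SPF w := (ler_field hz).sp
  refine (crit_le_eN hs _).trans ?_
  have key : ∀ k, k ≠ 0 → ‖H356R3.NS.fc (fun x => Ls ν w x + (-(4 * Real.pi ^ 2 * ν * H356R3.NS.sq n)) • w x) k‖ / nk k
      ≤ (16 * Real.pi ^ 2 * ν) * sw 3 γ n k := by
    intro k hk
    have hkp := nk_pos hk
    rw [fc_add (Ls_spf sw') (sw'.smul _), fc_smul, fc_Ls sw', ← add_smul, norm_smul, Real.norm_eq_abs]
    have e : 4 * Real.pi ^ 2 * ν * H356R3.NS.sq k + -(4 * Real.pi ^ 2 * ν * H356R3.NS.sq n) = (4 * Real.pi ^ 2 * ν) * (H356R3.NS.sq k - H356R3.NS.sq n) := by ring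
    rw [e, abs_mul, abs_of_nonneg (by positivity : (0 : ℝ) ≤ 4 * Real.pi ^ 2 * ν)]
    have h1 : ‖H356R3.NS.fc w k‖ ≤ 4 * sw 0 γ n k := (ler_norm hz k).trans (mul_le_mul_of_nonneg_left (zz_norm h k) (by norm_num))
    calc (4 * Real.pi ^ 2 * ν) * |H356R3.NS.sq k - H356R3.NS.sq n| * ‖H356R3.NS.fc w k‖ / nk k
        ≤ (4 * Real.pi ^ 2 * ν) * |H356R3.NS.sq k - H356R3.NS.sq n| * (4 * sw 0 γ n k) / nk k := by gcongr
      _ = (16 * Real.pi ^ 2 * ν) * (|H356R3.NS.sq k - H356R3.NS.sq n| * sw 0 γ n k / nk k) := by ring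
      _ ≤ _ := mul_le_mul_of_nonneg_left (sw_sq_gain γ hk hn) (by positivity)
  refine (mul_le_mul' le_rfl (eN_of_sw (by positivity) key)).trans (le_of_eq ?_)
  rw [← mul_assoc, show (2 : ℝ≥0∞) = ENNReal.ofReal 2 by norm_num, ← ENNReal.ofReal_mul (by norm_num)]
  congr 2
  ring

end Pool.Agent.U162.SF
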