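import Pool.Agent.U162.SF.B2

/-!
Waves: the quadratic terms
-/

open MeasureTheory Set Filter Topology
open scoped ENNReal NNReal ContDiff

namespace Pool.Agent.U162.SF

open Pool.Agent.H356R3.NS Pool.Agent.U162.TS Pool.Agent.U162.GE Pool.Agent.U162.TS.EL Pool.Agent.U162.TS.VF Pool.Agent.U162.TS.Ph Pool.Agent.U162.PL Pool.Agent.U162.MU

variable {ν : ℝ} {γ : R3 → ℝ} {m : K} {ξ : R3} {N : ℕ} {s : ℝ}

/-- the divergence of a matrix field -/
noncomputable def dv (R : Fin 3 → Fin 3 → R3 → ℝ) (x : R3) (i : Fin 3) : ℝ := ∑ j, H459R3.NS.pd j (R j i) x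

lemma dv_spf {R : Fin 3 → Fin 3 → R3 → ℝ} (hR : ∀ j i, H459R3.NS.SP (R j i)) : SPF (dv R) := fun i =>
  H459R3.NS.SP.sum (f := fun j x => H459R3.NS.pd j (R j i) x) fun j _ => (hR j i).pd j

lemma fc_dv {R : Fin 3 → Fin 3 → R3 → ℝ} (hR : ∀ j i, H459R3.NS.SP (R j i)) (k : K) (i : Fin 3) :
    H356R3.NS.fc (dv R) k i = ∑ j, 2 * Real.pi * Complex.I * (k j : ℂ) * H459R3.NS.fr (R j i) k := by
  rw [← fr_eq_fc]
  have e : (fun x => dv R x i) = fun x => ∑ j, H459R3.NS.pd j (R j i) x := rfl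
  rw [e, H459R3.NS.fr_sum (s := Finset.univ) (f := fun j => H459R3.NS.pd j (R j i)) (fun j _ => (hR j i).pd j)]
  refine Finset.sum_congr rfl fun j _ => ?_
  rw [H459R3.NS.fr_pd (hR j i)]
  unfold H459R3.NS.D
  ring

lemma Nc_dv (hs : 1 ≤ s) {R : Fin 3 → Fin 3 → R3 → ℝ} (hR : ∀ j i, H459R3.NS.SP (R j i)) {β : ℝ≥0∞}
    (hβ : ∀ j i, An1 (R j i) ≤ β) : Nc s (dv R) ≤ ENNReal.ofReal 120 * β := by
  unfold Nc
  refine (crit_le_eN hs _).trans ?_
  have h1 : ∀ k : K, ‖H356R3.NS.fc (dv R) k‖ₑ * ENNReal.ofReal (1 / nk k)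
      ≤ ENNReal.ofReal (2 * Real.pi) * ∑ j : Fin 3, ∑ i : Fin 3, ‖H459R3.NS.fr (R j i) k‖ₑ := by
    intro k
    by_cases hk : k = 0
    · subst hk
      rw [nk_zero]; simp
    have hn := nk_pos hk
    rw [← ofReal_norm, ← ENNReal.ofReal_mul (norm_nonneg _)]
    have h2 : ‖H356R3.NS.fc (dv R) k‖ ≤ 2 * Real.pi * nk k * ∑ j : Fin 3, ∑ i : Fin 3, ‖H459R3.NS.fr (R j i) k‖ := by
      rw [pi_norm_le_iff_of_nonneg (by positivity)]
      intro i
      rw [fc_dv hR, Finset.mul_sum]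
      refine (norm_sum_le _ _).trans (Finset.sum_le_sum fun j _ => ?_)
      rw [norm_mul, norm_mul, norm_two_pi_I, Complex.norm_intCast]
      have e2 : ‖H459R3.NS.fr (R j i) k‖ ≤ ∑ i : Fin 3, ‖H459R3.NS.fr (R j i) k‖ :=
        Finset.single_le_sum (f := fun i => ‖H459R3.NS.fr (R j i) k‖) (fun _ _ => norm_nonneg _) (Finset.mem_univ i)
      exact mul_le_mul (mul_le_mul_of_nonneg_left (abs_le_nk k j) (by positivity)) e2 (norm_nonneg _) (by positivity)
    have h3 : ‖H356R3.NS.fc (dv R) k‖ * (1 / nk k) ≤ 2 * Real.pi * ∑ j : Fin 3, ∑ i : Fin 3, ‖H459R3.NS.fr (R j i) k‖ := by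
      rw [mul_one_div, div_le_iff₀ hn]
      refine h2.trans (le_of_eq ?_)
      ring
    refine (ENNReal.ofReal_le_ofReal h3).trans (le_of_eq ?_)
    rw [ENNReal.ofReal_mul (by positivity), ENNReal.ofReal_sum_of_nonneg fun _ _ => by positivity]
    congr 1
    refine Finset.sum_congr rfl fun j _ => ?_
    rw [ENNReal.ofReal_sum_of_nonneg fun _ _ => by positivity]
    exact Finset.sum_congr rfl fun i _ => ofReal_norm _
  have h4 : eN (H356R3.NS.fc (dv R)) ≤ ENNReal.ofReal (2 * Real.pi) * (9 * β) := by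
    unfold eN
    refine (ENNReal.tsum_le_tsum h1).trans ?_
    rw [ENNReal.tsum_mul_left]
    refine mul_le_mul' le_rfl ?_
    rw [Summable.tsum_finsetSum fun _ _ => ENNReal.summable]
    have h5 : ∀ j : Fin 3, ∑' k, ∑ i : Fin 3, ‖H459R3.NS.fr (R j i) k‖ₑ ≤ 3 * β := by
      intro j
      rw [Summable.tsum_finsetSum fun _ _ => ENNReal.summable]
      calc ∑ i : Fin 3, ∑' k, ‖H459R3.NS.fr (R j i) k‖ₑ ≤ ∑ _i : Fin 3, β := Finset.sum_le_sum fun i _ => hβ j i
        _ = _ := by simp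
    calc ∑ j : Fin 3, ∑' k, ∑ i : Fin 3, ‖H459R3.NS.fr (R j i) k‖ₑ ≤ ∑ _j : Fin 3, 3 * β :=
          Finset.sum_le_sum fun j _ => h5 j
      _ = 9 * β := by
          rw [Finset.sum_const, Finset.card_univ, Fintype.card_fin, nsmul_eq_mul]
          push_cast
          ring
  calc 2 * eN (H356R3.NS.fc (dv R)) ≤ 2 * (ENNReal.ofReal (2 * Real.pi) * (9 * β)) := mul_le_mul' le_rfl h4
    _ = (2 * ENNReal.ofReal (2 * Real.pi) * 9) * β := by ring
    _ ≤ _ := by
        refine mul_le_mul' ?_ le_rfl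
        rw [show (2 : ℝ≥0∞) = ENNReal.ofReal 2 by norm_num, show (9 : ℝ≥0∞) = ENNReal.ofReal 9 by norm_num,
          ← ENNReal.ofReal_mul (by norm_num), ← ENNReal.ofReal_mul (by positivity)]
        apply ENNReal.ofReal_le_ofReal
        have := Real.pi_lt_d2
        linarith

/-! ### the cross terms -/

/-- fields without divergence -/
def Dfr (a : R3 → R3) : Prop := ∀ x, ∑ i, pd i (fun y => a y i) x = 0

lemma Dfr.add {a b : R3 → R3} (ha : SPF a) (hb : SPF b) (h1 : Dfr a) (h2 : Dfr b) : Dfr fun x => a x + b x := fun x => by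
  have e : ∀ i, pd i (fun y => (a y + b y) i) x = pd i (fun y => a y i) x + pd i (fun y => b y i) x := fun i => by
    have := congrFun (pd_lin (ha i) (hb i) 1 i) x
    simpa using this
  simp only [e]
  rw [Finset.sum_add_distrib, h1, h2, add_zero]

lemma Dfr.smul {a : R3 → R3} (ha : SPF a) (h : Dfr a) (r : ℝ) : Dfr fun x => r • a x := fun x => by
  have e : ∀ i, pd i (fun y => (r • a y) i) x = r * pd i (fun y => a y i) x := fun i => by
    have := congrFun (pd_lin (sp_const 0) (ha i) r i) x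
    have e2 : pd i (fun _ : R3 => (0 : ℝ)) x = 0 := by simp [H356R3.NS.pd]
    rw [e2, zero_add] at this
    rw [← this]
    congr 1
    funext y
    rw [zero_add]; rfl
  simp only [e]
  rw [← Finset.mul_sum, h, mul_zero]

/-- the interaction of two fields -/
noncomputable def crs (a b : R3 → R3) (x : R3) : R3 := adv (fun y => a y + b y) x - adv a x - adv b x

lemma crs_spf {a b : R3 → R3} (ha : SPF a) (hb : SPF b) : SPF (crs a b) :=
  ((adv_spf (ha.add hb)).sub (adv_spf ha)).sub (adv_spf hb)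

lemma crs_eq {a b : R3 → R3} (ha : SPF a) (hb : SPF b) (h1 : Dfr a) (h2 : Dfr b) :
    crs a b = dv fun j i x => a x j * b x i + b x j * a x i := by
  funext x i
  have e0 := congrFun (adv_eq (ha.add hb) (Dfr.add ha hb h1 h2) i) x
  have e1 := congrFun (adv_eq ha h1 i) x
  have e2 := congrFun (adv_eq hb h2 i) x
  show adv (fun y => a y + b y) x i - adv a x i - adv b x i = ∑ j, H459R3.NS.pd j (fun y => a y j * b y i + b y j * a y i) x
  rw [e0, e1, e2, ← Finset.sum_sub_distrib, ← Finset.sum_sub_distrib]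
  refine Finset.sum_congr rfl fun j _ => ?_
  have s1 : H459R3.NS.SP fun y => (a y + b y) j * (a y + b y) i := ((ha.add hb) j).mul ((ha.add hb) i)
  have s2 : H459R3.NS.SP fun y => a y j * a y i := (ha j).mul (ha i)
  have s3 : H459R3.NS.SP fun y => b y j * b y i := (hb j).mul (hb i)
  have k1 := congrFun (pd_sub' s1 s2 j) x
  have k2 := congrFun (pd_sub' (s1.sub s2) s3 j) x
  rw [← k1, ← k2]
  congr 1
  funext y
  simp only [Pi.add_apply]
  ring

theorem Nc_crs (hs : 1 ≤ s) {a b : R3 → R3} (ha : SPF a) (hb : SPF b) (h1 : Dfr a) (h2 : Dfr b) :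
    Nc s (crs a b) ≤ ENNReal.ofReal 240 * (Wn a * Wn b) := by
  rw [crs_eq ha hb h1 h2]
  have h3 : ∀ j i, An1 (fun x => a x j * b x i + b x j * a x i) ≤ 2 * (Wn a * Wn b) := fun j i => by
    refine (An1_add ((ha j).mul (hb i)) ((hb j).mul (ha i))).trans ?_
    rw [two_mul]
    refine add_le_add ((An1_mul (ha j) (hb i)).trans (mul_le_mul' (An1_le_Wn a j) (An1_le_Wn b i))) ?_
    rw [mul_comm (Wn a)]
    exact (An1_mul (hb j) (ha i)).trans (mul_le_mul' (An1_le_Wn b j) (An1_le_Wn a i))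
  refine (Nc_dv hs (R := fun j i x => a x j * b x i + b x j * a x i) (fun j i => ((ha j).mul (hb i)).add ((hb j).mul (ha i))) h3).trans (le_of_eq ?_)
  rw [← mul_assoc]
  congr 1
  rw [show (2 : ℝ≥0∞) = ENNReal.ofReal 2 by norm_num, ← ENNReal.ofReal_mul (by norm_num)]
  norm_num

lemma crs_smul {a b : R3 → R3} (ha : SPF a) (hb : SPF b) (h1 : Dfr a) (h2 : Dfr b) (r : ℝ) :
    adv (fun x => a x + r • b x) = fun x => adv a x + (r ^ 2 • adv b x + r • crs a b x) := by
  have e1 : adv (fun x => a x + r • b x) = fun x => adv a x + (r ^ 2 • adv b x + crs a (fun y => r • b y) x) := by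
    funext x i
    unfold crs
    simp only [Pi.add_apply, Pi.sub_apply, Pi.smul_apply, smul_eq_mul]
    have : adv (fun y => r • b y) x i = r ^ 2 * adv b x i := by
      unfold adv
      rw [Finset.mul_sum]
      refine Finset.sum_congr rfl fun j _ => ?_
      have e2 : pd j (fun y => (r • b y) i) x = r * pd j (fun y => b y i) x := by
        have := congrFun (pd_lin (sp_const 0) (hb i) r j) x
        have e2 : pd j (fun _ : R3 => (0 : ℝ)) x = 0 := by simp [H356R3.NS.pd]
        rw [e2, zero_add] at this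
        rw [← this]
        congr 1
        funext y
        rw [zero_add]; rfl
      rw [e2]
      show (r * b x j) * (r * pd j (fun y => b y i) x) = _
      ring
    rw [this]; ring
  rw [e1, crs_eq ha (hb.smul r) h1 (h2.smul hb r), crs_eq ha hb h1 h2]
  funext x i
  simp only [Pi.add_apply, Pi.smul_apply, smul_eq_mul]
  congr 2
  unfold dv
  rw [Finset.mul_sum]
  refine Finset.sum_congr rfl fun j _ => ?_
  have s1 : H459R3.NS.SP fun y => a y j * b y i + b y j * a y i := ((ha j).mul (hb i)).add ((hb j).mul (ha i))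
  have := congrFun (pd_lin (sp_const 0) s1 r j) x
  have e2 : pd j (fun _ : R3 => (0 : ℝ)) x = 0 := by simp [H356R3.NS.pd]
  rw [e2, zero_add] at this
  have e3 : H459R3.NS.pd j (fun y => a y j * b y i + b y j * a y i) x = pd j (fun y => a y j * b y i + b y j * a y i) x := rfl
  rw [e3, ← this]
  show pd j _ x = _
  congr 1
  funext y
  show a y j * (r * b y i) + (r * b y j) * a y i = _
  ring

/-! ### the self interaction of waves -/

/-- the negative mean stress force -/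
noncomputable def Tz (γ : R3 → ℝ) (ξ : R3) : R3 → R3 := dv fun j i x => -(1 / 2) * (ξ j * ξ i) * (γ x * γ x)

lemma Tz_spf (hγ : H459R3.NS.SP γ) : SPF (Tz γ ξ) := dv_spf fun j i => sp_const_mul (hγ.mul hγ) _

/-- the oscillating part of the stress -/
noncomputable def Pz (γ : R3 → ℝ) (m : K) (ξ : R3) (N : ℕ) : Fin 3 → Fin 3 → R3 → ℝ := fun j i x =>
  1 / 2 * (ξ j * ξ i) * ((γ x * γ x) * Real.cos (Al ((N : ℤ) • m + (N : ℤ) • m) x))

lemma Pz_sp (hγ : H459R3.NS.SP γ) (j i : Fin 3) : H459R3.NS.SP (Pz γ m ξ N j i) := sp_const_mul ((hγ.mul hγ).mul (cos_sp _)) _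

lemma cos_double (n : K) (x : R3) : Real.cos (Al (n + n) x) = 2 * Real.cos (Al n x) ^ 2 - 1 := by
  have : Al (n + n) x = 2 * Al n x := by
    rw [Al_apply, Al_apply, Finset.mul_sum]
    refine Finset.sum_congr rfl fun i _ => ?_
    rw [Pi.add_apply]; push_cast; ring
  rw [this, Real.cos_two_mul]

lemma nk_double (n : K) : nk n ≤ nk (n + n) := by
  have h : nk (n + n) ^ 2 = 4 * nk n ^ 2 := by
    rw [H356R3.NS.nk_sq, H356R3.NS.nk_sq]
    unfold H356R3.NS.sq
    rw [Finset.mul_sum]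
    refine Finset.sum_congr rfl fun i _ => ?_
    rw [Pi.add_apply]; push_cast; ring
  have h1 := nk_nonneg n
  have h2 := nk_nonneg (n + n)
  nlinarith

/-- the oscillating part is small -/
lemma Pz_small (hs : 1 ≤ s) (h : Wc γ m ξ N) : Nc s (dv (Pz γ m ξ N)) ≤ ENNReal.ofReal (80 / N) * Ap 2 (fun x => γ x * γ x) := by
  have hN : (0 : ℝ) < N := by exact_mod_cast h.N0
  set n : K := (N : ℤ) • m with hnd
  have hnN := h.nN
  have hn2 : n + n ≠ 0 := by
    intro h0
    have := nk_double n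
    rw [h0, nk_zero] at this
    have := nk_pos h.n0
    linarith
  have hn2N : (N : ℝ) ≤ nk (n + n) := hnN.trans (nk_double n)
  have hd2 : dx ξ (n + n) = 0 := by rw [dx_add, h.dn, add_zero]
  set g : R3 → ℝ := fun x => γ x * γ x with hg
  have hgs : H459R3.NS.SP g := h.sp.mul h.sp
  have hpi := Real.pi_pos
  refine (crit_le_eN hs _).trans ?_
  have key : ∀ k, k ≠ 0 → ‖H356R3.NS.fc (dv (Pz γ m ξ N)) k‖ / nk k ≤ (6 * Real.pi / N) * sw 2 g (n + n) k := by
    intro k hk
    have hkp := nk_pos hk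
    have h1 : ‖H356R3.NS.fc (dv (Pz γ m ξ N)) k‖ ≤ 6 * Real.pi * sw 1 g (n + n) k := by
      have hs1 := sw_nonneg 1 g (n + n) k
      rw [pi_norm_le_iff_of_nonneg (by positivity)]
      intro i
      have e : H356R3.NS.fc (dv (Pz γ m ξ N)) k i = (Real.pi * Complex.I * (ξ i : ℂ)) *
          (((dx ξ k : ℝ) : ℂ) * ((H459R3.NS.fr g (k - (n + n)) + H459R3.NS.fr g (k + (n + n))) / 2)) := by
        rw [fc_dv (Pz_sp h.sp)]
        have e1 : ∀ j, H459R3.NS.fr (Pz γ m ξ N j i) k = (1 / 2 * (ξ j * ξ i) : ℝ) * ((H459R3.NS.fr g (k - (n + n)) + H459R3.NS.fr g (k + (n + n))) / 2) := by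
          intro j
          unfold Pz
          rw [fr_const_mul, fr_cos hgs]
        simp only [e1]
        unfold dx
        push_cast
        rw [Finset.sum_mul, Finset.mul_sum]
        refine Finset.sum_congr rfl fun j _ => ?_
        ring
      rw [e, norm_mul, norm_mul, norm_mul, Complex.norm_I, Complex.norm_real, Complex.norm_real, Real.norm_eq_abs, Real.norm_eq_abs,
        abs_of_pos hpi]
      have h2 := dx_pair h.two hd2 g k
      have h3 := h.two i
      calc Real.pi * 1 * |ξ i| * ‖((dx ξ k : ℝ) : ℂ) * ((H459R3.NS.fr g (k - (n + n)) + H459R3.NS.fr g (k + (n + n))) / 2)‖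
          ≤ Real.pi * 1 * 2 * (3 * sw 1 g (n + n) k) := by gcongr
        _ = _ := by ring
    have hs2 := sw_nonneg 2 g (n + n) k
    calc ‖H356R3.NS.fc (dv (Pz γ m ξ N)) k‖ / nk k ≤ 6 * Real.pi * sw 1 g (n + n) k / nk k := by gcongr
      _ = 6 * Real.pi * (sw 1 g (n + n) k / nk k) := by ring
      _ ≤ 6 * Real.pi * (sw 2 g (n + n) k / nk (n + n)) := mul_le_mul_of_nonneg_left (sw_gain 1 g hk hn2) (by positivity)
      _ ≤ 6 * Real.pi * (sw 2 g (n + n) k / N) := by gcongr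
      _ = _ := by ring
  refine (mul_le_mul' le_rfl (eN_of_sw (by positivity) key)).trans ?_
  rw [← mul_assoc, show (2 : ℝ≥0∞) = ENNReal.ofReal 2 by norm_num, ← ENNReal.ofReal_mul (by norm_num)]
  refine mul_le_mul' (ENNReal.ofReal_le_ofReal ?_) le_rfl
  have h3 := Real.pi_lt_d2
  rw [← mul_assoc, mul_div_assoc', div_le_div_iff_of_pos_right hN]
  linarith

/-- the self interaction -/
theorem wv_E5 (hs : 1 ≤ s) (h : Wc γ m ξ N) :
    Nc s (fun x => adv (ler (zz ν γ m ξ N)) x + Tz γ ξ x) ≤ ENNReal.ofReal (7200 / N) * (Ap 2 γ ^ 2 + Ap 2 (fun x => γ x * γ x)) := by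
  have hN : (0 : ℝ) < N := by exact_mod_cast h.N0
  set z := zz ν γ m ξ N with hzd
  have hz : SPF z := zz_spf h.sp
  set w := ler z with hwd
  have hwf : Field w := ler_field hz
  have hw : SPF w := hwf.sp
  set c : R3 → R3 := fun x => w x - z x with hcd
  have hc : SPF c := hw.sub hz
  have hsR : ∀ j i, H459R3.NS.SP fun x => w x j * c x i + c x j * z x i := fun j i => ((hw j).mul (hc i)).add ((hc j).mul (hz i))
  -- the decomposition
  have e : (fun x => adv w x + Tz γ ξ x) = fun x => dv (Pz γ m ξ N) x + dv (fun j i x => w x j * c x i + c x j * z x i) x := by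
    funext x i
    have e0 := congrFun (adv_eq hw hwf.divFree i) x
    show adv w x i + ∑ j, H459R3.NS.pd j (fun x => -(1 / 2) * (ξ j * ξ i) * (γ x * γ x)) x
      = ∑ j, H459R3.NS.pd j (Pz γ m ξ N j i) x + ∑ j, H459R3.NS.pd j (fun x => w x j * c x i + c x j * z x i) x
    rw [e0, ← Finset.sum_add_distrib, ← Finset.sum_add_distrib]
    refine Finset.sum_congr rfl fun j _ => ?_
    have s1 : H459R3.NS.SP fun y => w y j * w y i := (hw j).mul (hw i)
    have s2 : H459R3.NS.SP fun y => -(1 / 2) * (ξ j * ξ i) * (γ y * γ y) := sp_const_mul (h.sp.mul h.sp) _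
    have s3 : H459R3.NS.SP (Pz γ m ξ N j i) := Pz_sp h.sp j i
    have s4 := hsR j i
    have pa : ∀ {f g : R3 → ℝ}, H459R3.NS.SP f → H459R3.NS.SP g → H459R3.NS.pd j f x + H459R3.NS.pd j g x = H459R3.NS.pd j (fun y => f y + g y) x := by
      intro f g hf hg
      have := congrFun (pd_lin hf hg 1 j) x
      simp only [one_mul] at this
      exact this.symm
    rw [pa s1 s2, pa s3 s4]
    congr 1
    funext y
    show w y j * w y i + -(1 / 2) * (ξ j * ξ i) * (γ y * γ y)
      = 1 / 2 * (ξ j * ξ i) * ((γ y * γ y) * Real.cos (Al ((N : ℤ) • m + (N : ℤ) • m) y)) + (w y j * (w y i - z y i) + (w y j - z y j) * z y i)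
    rw [cos_double, hzd, zz_apply, zz_apply]
    ring
  rw [e]
  have b1 : Wn w ≤ ENNReal.ofReal 8 * Ap 2 γ := (wv_E1 h).trans (mul_le_mul' le_rfl (Ap_mono (by norm_num) γ))
  have b2 : Wn z ≤ ENNReal.ofReal 2 * Ap 2 γ := (wv_E0 h).trans (mul_le_mul' le_rfl (Ap_mono (by norm_num) γ))
  have b3 : Wn c ≤ ENNReal.ofReal (6 / N) * Ap 2 γ := wv_E2 h
  have h3 : ∀ j i, An1 (fun x => w x j * c x i + c x j * z x i) ≤ ENNReal.ofReal (60 / N) * Ap 2 γ ^ 2 := fun j i => by
    refine (An1_add ((hw j).mul (hc i)) ((hc j).mul (hz i))).trans ?_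
    calc _ ≤ (ENNReal.ofReal 8 * Ap 2 γ) * (ENNReal.ofReal (6 / N) * Ap 2 γ) + (ENNReal.ofReal (6 / N) * Ap 2 γ) * (ENNReal.ofReal 2 * Ap 2 γ) :=
          add_le_add ((An1_mul (hw j) (hc i)).trans (mul_le_mul' ((An1_le_Wn w j).trans b1) ((An1_le_Wn c i).trans b3)))
            ((An1_mul (hc j) (hz i)).trans (mul_le_mul' ((An1_le_Wn c j).trans b3) ((An1_le_Wn z i).trans b2)))
      _ = (ENNReal.ofReal 8 * ENNReal.ofReal (6 / N) + ENNReal.ofReal (6 / N) * ENNReal.ofReal 2) * Ap 2 γ ^ 2 := by ring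
      _ = _ := by
          rw [← ENNReal.ofReal_mul (by norm_num), ← ENNReal.ofReal_mul (by positivity), ← ENNReal.ofReal_add (by positivity) (by positivity)]
          congr 2
          ring
  refine (Nc_add hs (dv_spf (Pz_sp h.sp)) (dv_spf hsR)).trans ?_
  refine (add_le_add (Pz_small hs h) (Nc_dv hs hsR h3)).trans ?_
  rw [mul_add, add_comm, ← mul_assoc, ← ENNReal.ofReal_mul (by norm_num)]
  refine add_le_add (mul_le_mul' (ENNReal.ofReal_le_ofReal (le_of_eq (by ring))) le_rfl) (mul_le_mul' (ENNReal.ofReal_le_ofReal ?_) le_rfl)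
  gcongr
  norm_num

end Pool.Agent.U162.SF
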