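import Pool.Agent.U162.SF.B3
import Pool.Agent.U162.MU.Nash3

/-!
Families of waves at many scales
-/

open MeasureTheory Set Filter Topology
open scoped ENNReal NNReal ContDiff

namespace Pool.Agent.U162.SF

open Pool.Agent.H356R3.NS Pool.Agent.U162.TS Pool.Agent.U162.GE Pool.Agent.U162.TS.EL Pool.Agent.U162.TS.VF Pool.Agent.U162.TS.Ph Pool.Agent.U162.PL Pool.Agent.U162.MU

variable {ν : ℝ} {s : ℝ}

/-- the critical norm of a superposition -/
lemma crit_superN {P : ℕ → R3 → R3 → R3} (hP : ∀ j, Profile (P j)) {C : ℝ≥0∞} (hCq : ∀ j, CV (P j) ≤ C) (hs : 1 < s) {r : ℝ}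
    {c : ℕ → ℝ} (hc0 : ∀ j, 0 ≤ c j) (hcr : ∀ j, c j ≤ r) {e : ℕ → ℕ} (he : Function.Injective e) (M : ℕ) :
    critNorm s (fun κ => ∑ j ∈ Finset.range M, c j • dosc (P j) (2 ^ e j) κ)
      ≤ (ENNReal.ofReal M) ^ (1 / s) * (ENNReal.ofReal (4 * r) * C) := by
  set B := ENNReal.ofReal (4 * r) * C with hB
  have hs0 : 0 < s := by linarith
  have hS : ∀ J, shellSum (fun κ => ∑ j ∈ Finset.range M, c j • dosc (P j) (2 ^ e j) κ) J / 2 ^ J
      ≤ ∑ j ∈ Finset.range M, ENNReal.ofReal r * (ENNReal.ofReal (wt (e j) J) * C) := by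
    intro J
    have h1 := shell_sum (Finset.range M) (fun j κ => c j • dosc (P j) (2 ^ e j) κ) J
    refine (ENNReal.div_le_div_right h1 _).trans ?_
    rw [div_eq_mul_inv, Finset.sum_mul]
    refine Finset.sum_le_sum fun j _ => ?_
    rw [shell_smul (hc0 j), mul_assoc]
    refine mul_le_mul' (ENNReal.ofReal_le_ofReal (hcr j)) ?_
    have h2 := shell_dosc (hP j) (e j) J
    rw [div_eq_mul_inv] at h2
    exact h2.trans (mul_le_mul' le_rfl (hCq _))
  have h4r : ENNReal.ofReal (4 * r) = 4 * ENNReal.ofReal r := by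
    rw [ENNReal.ofReal_mul (by norm_num)]; norm_num
  have hfin : ∀ J, ∑ j ∈ Finset.range M, ENNReal.ofReal (wt (e j) J) ≤ 4 := by
    intro J
    rw [Finset.sum_range (fun j => ENNReal.ofReal (wt (e j) J))]
    exact wt_fin (e := fun j : Fin M => e j) (fun a b h => Fin.ext (he h)) J
  have hsup : ∀ J, shellSum (fun κ => ∑ j ∈ Finset.range M, c j • dosc (P j) (2 ^ e j) κ) J / 2 ^ J ≤ B := by
    intro J
    refine (hS J).trans ?_
    rw [← Finset.mul_sum, ← Finset.sum_mul, hB, h4r]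
    calc ENNReal.ofReal r * ((∑ j ∈ Finset.range M, ENNReal.ofReal (wt (e j) J)) * C) ≤ ENNReal.ofReal r * (4 * C) := by
          gcongr
          exact hfin J
      _ = _ := by ring
  have hsum : ∑' J, shellSum (fun κ => ∑ j ∈ Finset.range M, c j • dosc (P j) (2 ^ e j) κ) J / 2 ^ J ≤ ENNReal.ofReal M * B := by
    refine (ENNReal.tsum_le_tsum hS).trans ?_
    rw [Summable.tsum_finsetSum fun _ _ => ENNReal.summable]
    have h1 : ∀ j, ∑' J, ENNReal.ofReal r * (ENNReal.ofReal (wt (e j) J) * C) ≤ B := by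
      intro j
      rw [ENNReal.tsum_mul_left, ENNReal.tsum_mul_right, hB, h4r]
      have h2 := wt_sum (e j)
      simp only [wt_symm _ (e j)] at h2
      calc ENNReal.ofReal r * ((∑' J, ENNReal.ofReal (wt (e j) J)) * C) ≤ ENNReal.ofReal r * (4 * C) := by gcongr
        _ = _ := by ring
    refine (Finset.sum_le_sum fun j _ => h1 j).trans ?_
    rw [Finset.sum_const, Finset.card_range, nsmul_eq_mul, ENNReal.ofReal_natCast]
  unfold critNorm
  have h5 : ∑' J, (shellSum (fun κ => ∑ j ∈ Finset.range M, c j • dosc (P j) (2 ^ e j) κ) J / 2 ^ J) ^ s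
      ≤ ENNReal.ofReal M * B ^ s := by
    calc ∑' J, (shellSum (fun κ => ∑ j ∈ Finset.range M, c j • dosc (P j) (2 ^ e j) κ) J / 2 ^ J) ^ s
        ≤ ∑' J, B ^ (s - 1) * (shellSum (fun κ => ∑ j ∈ Finset.range M, c j • dosc (P j) (2 ^ e j) κ) J / 2 ^ J) := by
          refine ENNReal.tsum_le_tsum fun J => ?_
          rw [rpow_split hs.le]
          exact mul_le_mul' (ENNReal.rpow_le_rpow (hsup J) (by linarith)) le_rfl
      _ = B ^ (s - 1) * ∑' J, shellSum (fun κ => ∑ j ∈ Finset.range M, c j • dosc (P j) (2 ^ e j) κ) J / 2 ^ J := ENNReal.tsum_mul_left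
      _ ≤ B ^ (s - 1) * (ENNReal.ofReal M * B) := mul_le_mul' le_rfl hsum
      _ = ENNReal.ofReal M * B ^ s := by
          rw [rpow_split hs.le B]; ring
  refine (ENNReal.rpow_le_rpow h5 (by positivity)).trans (le_of_eq ?_)
  rw [ENNReal.mul_rpow_of_nonneg _ _ (by positivity), rpow_inv' hs0]

/-! ### the profiles of the waves -/

lemma dosc_zz {γ : R3 → ℝ} (hγ : H459R3.NS.SP γ) (m : K) (ξ : R3) (N : ℕ) (κ : K) :
    H356R3.NS.fc (fun x => (N : ℝ) • ler (zz ν γ m ξ N) x) κ = dosc (fun x => sh ν (γ x) m ξ 0) N κ := by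
  rw [fc_smul, ler_fc (zz_spf hγ)]
  rfl

lemma dv_const_add (c : Fin 3 → Fin 3 → ℝ) {R : Fin 3 → Fin 3 → R3 → ℝ} (hR : ∀ j i, H459R3.NS.SP (R j i)) :
    dv (fun j i x => c j i + R j i x) = dv R := by
  funext x i
  unfold dv
  refine Finset.sum_congr rfl fun j _ => ?_
  have := pd_lin (sp_const (c j i)) (hR j i) 1 j
  have e2 : pd j (fun _ : R3 => c j i) x = 0 := by
    unfold H356R3.NS.pd
    rw [fderiv_const_apply]; rfl
  have h := congrFun this x
  simp only [one_mul, e2, zero_add] at h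
  exact h

lemma Nc_ler (hs : 0 < s) {H : R3 → R3} (hH : SPF H) : Nc s (ler H) ≤ ENNReal.ofReal 4 * Nc s H := by
  unfold Nc
  have h := crit_smul hs 4 (H356R3.NS.fc H)
  rw [abs_of_pos (by norm_num : (0 : ℝ) < 4)] at h
  rw [← h]
  refine crit_mono (fun k => ?_) hs.le
  rw [enorm_smul, ← ofReal_norm, ← ofReal_norm, ← ofReal_norm, ← ENNReal.ofReal_mul (norm_nonneg _)]
  refine ENNReal.ofReal_le_ofReal ?_
  rw [Real.norm_of_nonneg (by norm_num : (0 : ℝ) ≤ 4)]
  exact ler_norm hH k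

lemma leiLin_le {h : K → C3} : leiLin h ≤ ∑' k, ‖h k‖ₑ := by
  rw [leiLin_eq]
  refine ENNReal.tsum_le_tsum fun k => ?_
  calc ENNReal.ofReal (1 / nk k) * ‖h k‖ₑ ≤ 1 * ‖h k‖ₑ := by
        refine mul_le_mul' ?_ le_rfl
        rw [← ENNReal.ofReal_one]
        refine ENNReal.ofReal_le_ofReal ?_
        by_cases hk : k = 0
        · subst hk; rw [nk_zero]; norm_num
        · have := one_le_nk hk
          rw [div_le_one (by linarith)]; exact this
    _ = _ := one_mul _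

/-- the decay rate of the waves -/
noncomputable def lam (ν : ℝ) : ℝ := 68 * Real.pi ^ 2 * ν

lemma sq_m3 (q : Fin 3 × Fin 3) : H356R3.NS.sq (m3 q) = 17 := by
  rw [← H356R3.NS.nk_sq]; exact nk_m3 q

/-- the profiles which produce a given field -/
theorem waves (hν : 0 < ν) {h : K → C3} (hh : Dta h) : ∃ γ : Fin 3 × Fin 3 → R3 → ℝ, (∀ q, H459R3.NS.SP (γ q)) ∧
    (∀ k, ∑ q, H356R3.NS.fc (ler (Tz (γ q) (dr3 q))) k = (2 * lam ν) • h k) ∧
    ∀ s : ℝ, 1 ≤ s → ∀ q, Nc s (ler (Tz (γ q) (dr3 q))) ≤ ENNReal.ofReal (2 * lam ν * 160) * ∑' k, ‖h k‖ₑ := by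
  obtain ⟨f, hf, hfA, hrep⟩ := nash3 hh
  have hlp : 0 < lam ν := by unfold lam; positivity
  choose M hM0 hM using fun q => sp_bdd (hf q)
  have hpos : ∀ q x, 0 < 4 * lam ν * (M q + f q x) := by
    intro q x
    have h3 := (abs_lt.1 (hM q x)).1
    have h4 : 0 < M q + f q x := by linarith
    positivity
  have hsm : ∀ q, H459R3.NS.SP fun x => Real.sqrt (4 * lam ν * (M q + f q x)) := by
    intro q
    refine ⟨?_, fun j x => ?_⟩
    · exact (contDiff_const.mul (contDiff_const.add (hf q).smooth)).sqrt fun x => (hpos q x).ne'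
    · show Real.sqrt (4 * lam ν * (M q + f q (x + Pi.single j 1))) = _
      rw [(hf q).per j x]
  set γ : Fin 3 × Fin 3 → R3 → ℝ := fun q x => Real.sqrt (4 * lam ν * (M q + f q x)) with hγ
  have hRs : ∀ q j i, H459R3.NS.SP fun x => (-2 * lam ν * (dr3 q j * dr3 q i)) * f q x := fun q j i => sp_const_mul (hf q) _
  have hT : ∀ q, Tz (γ q) (dr3 q) = dv fun j i x => (-2 * lam ν * (dr3 q j * dr3 q i)) * f q x := by
    intro q
    rw [← dv_const_add (fun j i => (-2 * lam ν * (dr3 q j * dr3 q i)) * M q) (hRs q)]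
    unfold Tz
    congr 1
    funext j i x
    rw [hγ, Real.mul_self_sqrt (hpos q x).le]
    ring
  refine ⟨γ, hsm, fun k => ?_, fun s hs q => ?_⟩
  · by_cases hk : k = 0
    · subst hk
      rw [hh.mean, smul_zero]
      exact Finset.sum_eq_zero fun q _ => by rw [ler_fc (Tz_spf (hsm q)), if_pos rfl]
    have e1 : ∀ q, H356R3.NS.fc (ler (Tz (γ q) (dr3 q))) k = pr k (H356R3.NS.fc (Tz (γ q) (dr3 q)) k) := fun q => by
      rw [ler_fc (Tz_spf (hsm q)), if_neg hk]
    simp only [e1]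
    rw [← pr_sum]
    have e2 : ∑ q, H356R3.NS.fc (Tz (γ q) (dr3 q)) k = (2 * lam ν) • h k := by
      funext i
      rw [Finset.sum_apply, Pi.smul_apply, ← hrep k i, Complex.real_smul]
      have e3 : ∀ q, H356R3.NS.fc (Tz (γ q) (dr3 q)) k i
          = ∑ j, (((2 * lam ν : ℝ) : ℂ) * -(2 * Real.pi * Complex.I)) * ((k j : ℂ) * (H459R3.NS.fr (f q) k * ((dir3 q j : ℂ) * (dir3 q i : ℂ)))) := by
        intro q
        rw [hT, fc_dv (hRs q)]
        refine Finset.sum_congr rfl fun j _ => ?_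
        rw [fr_const_mul]
        unfold dr3
        push_cast
        ring
      simp only [e3]
      rw [Finset.sum_comm, ← mul_assoc, Finset.mul_sum]
      refine Finset.sum_congr rfl fun j _ => ?_
      rw [← Finset.mul_sum, Finset.mul_sum (a := (k j : ℂ))]
    rw [e2, leray_of_dt]
    rw [TS.dt_smul', hh.div, mul_zero]
  · refine (Nc_ler (by linarith) (Tz_spf (hsm q))).trans ?_
    have hb : ∀ j i, An1 (fun x => (-2 * lam ν * (dr3 q j * dr3 q i)) * f q x) ≤ ENNReal.ofReal (2 * lam ν) * (ENNReal.ofReal (1 / Real.pi) * ∑' k, ‖h k‖ₑ) := by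
      intro j i
      rw [An1_const_mul]
      refine mul_le_mul' (ENNReal.ofReal_le_ofReal ?_) ((hfA q).trans (mul_le_mul' le_rfl leiLin_le))
      have h1 : ∀ i, |dr3 q i| ≤ 1 := fun i => (dr3_le q i).trans (by split_ifs <;> norm_num)
      rw [abs_mul, abs_mul, abs_mul, abs_neg, abs_of_pos (by norm_num : (0 : ℝ) < 2), abs_of_pos hlp]
      have h2 : |dr3 q j| * |dr3 q i| ≤ 1 := mul_le_one₀ (h1 j) (abs_nonneg _) (h1 i)
      calc 2 * lam ν * (|dr3 q j| * |dr3 q i|) ≤ 2 * lam ν * 1 := mul_le_mul_of_nonneg_left h2 (by positivity)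
        _ = _ := mul_one _
    rw [hT]
    refine (mul_le_mul' le_rfl (Nc_dv hs (hRs q) hb)).trans ?_
    rw [← mul_assoc, ← mul_assoc, ← mul_assoc, ← ENNReal.ofReal_mul (by norm_num), ← ENNReal.ofReal_mul (by norm_num),
      ← ENNReal.ofReal_mul (by positivity)]
    refine mul_le_mul' (ENNReal.ofReal_le_ofReal ?_) le_rfl
    have hpi := Real.pi_gt_three
    have h1 : 1 / Real.pi ≤ 1 / 3 := one_div_le_one_div_of_le (by norm_num) hpi.le
    calc 4 * 120 * (2 * lam ν) * (1 / Real.pi) ≤ 4 * 120 * (2 * lam ν) * (1 / 3) := mul_le_mul_of_nonneg_left h1 (by positivity)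
      _ = _ := by ring

end Pool.Agent.U162.SF
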