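import Pool.Agent.U162.SF.B4

/-!
Families of waves at many scales: the paths
-/

open MeasureTheory Set Filter Topology
open scoped ENNReal NNReal ContDiff

namespace Pool.Agent.U162.SF

open Pool.Agent.H356R3.NS Pool.Agent.U162.TS Pool.Agent.U162.GE Pool.Agent.U162.TS.EL Pool.Agent.U162.TS.VF Pool.Agent.U162.TS.Ph Pool.Agent.U162.PL Pool.Agent.U162.MU

variable {ν : ℝ} {s : ℝ}

/-! ### general paths -/

lemma mk_pth {u : ℝ → R3 → R3} {p : ℝ → R3 → ℝ} {G : ℝ → R3 → R3} (su : ContDiff ℝ ∞ fun z : ℝ × R3 => u z.1 z.2)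
    (sp : ContDiff ℝ ∞ fun z : ℝ × R3 => p z.1 z.2) (sG : ContDiff ℝ ∞ fun z : ℝ × R3 => G z.1 z.2) (fu : ∀ t, Field (u t))
    (pG : ∀ t, SPF (G t)) (pp : ∀ t, H459R3.NS.SP (p t)) (mG : ∀ t, H356R3.NS.fc (G t) 0 = 0)
    (hd : ∀ t x i, deriv (fun s => u s x i) t + pd i (p t) x = G t x i) :
    PthOn ν univ (fun t x => G t x + Rs ν (u t) x) u p := by
  refine ⟨fun t _ x => su.contDiffAt, fun t _ x => ?_, fun t _ x => sp.contDiffAt, fun t _ => (fu t).periodic, fun t _ x j => ?_,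
    fun t _ x j => (pp t).per j x, fun t _ x i => ?_, fun t _ => (fu t).divFree, fun t _ => (fu t).dta.mean, fun t _ => ?_⟩
  · refine sG.contDiffAt.add ?_
    rw [contDiffAt_pi]
    intro i
    have h1 : ContDiffAt ℝ ∞ (fun z : ℝ × R3 => u z.1 z.2) (t, x) := su.contDiffAt
    have h2 : ∀ j, ContDiffAt ℝ ∞ (fun z : ℝ × R3 => pd j (fun y => u z.1 y i) z.2) (t, x) := fun j =>
      pd_joint (g := fun t x => u t x i) (comp_joint h1 i) j
    have h3 : ∀ j, ContDiffAt ℝ ∞ (fun z : ℝ × R3 => pd j (pd j fun y => u z.1 y i) z.2) (t, x) := fun j =>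
      pd_joint (g := fun t x => pd j (fun y => u t y i) x) (h2 j) j
    unfold Rs adv
    exact (ContDiffAt.sum fun j _ => (comp_joint h1 j).mul (h2 j)).add (contDiffAt_const.mul (ContDiffAt.sum fun j _ => h3 j))
  · have e1 : G t (x + Pi.single j 1) = G t x := funext fun i => (pG t i).per j x
    have e2 : Rs ν (u t) (x + Pi.single j 1) = Rs ν (u t) x := funext fun i => (Rs_spf (fu t).sp i).per j x
    simp only [e1, e2]
  · have h := hd t x i
    show _ = _ - _ + (G t x i + (adv (u t) x i + (-ν) * ∑ j, pd j (pd j fun y => u t y i) x))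
    unfold adv
    linarith
  · rw [fc_add (pG t) (Rs_spf (fu t).sp), mG, fc_Rs0 (fu t).sp (fu t).divFree, add_zero]

/-! ### sums at a fixed time -/

lemma spf_zero : SPF fun _ : R3 => (0 : R3) := fun _ => sp_const 0

lemma spf_sum {F : ℕ → R3 → R3} (hF : ∀ j, SPF (F j)) (J : ℕ) : SPF fun x => ∑ j ∈ Finset.range J, F j x := by
  induction J with
  | zero => simp only [Finset.range_zero, Finset.sum_empty]; exact spf_zero
  | succ J ih => simp only [Finset.sum_range_succ]; exact ih.add (hF J)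

lemma fc_sum {F : ℕ → R3 → R3} (hF : ∀ j, SPF (F j)) (J : ℕ) (k : K) :
    H356R3.NS.fc (fun x => ∑ j ∈ Finset.range J, F j x) k = ∑ j ∈ Finset.range J, H356R3.NS.fc (F j) k := by
  induction J with
  | zero =>
    simp only [Finset.range_zero, Finset.sum_empty]
    have := fc_smul (fun _ : R3 => (0 : R3)) 0 k
    simpa using this
  | succ J ih =>
    simp only [Finset.sum_range_succ]
    rw [fc_add (spf_sum hF J) (hF J), ih]

/-- partial sums -/
def US (S : R3 → R3) (c : ℕ → ℝ) (w : ℕ → R3 → R3) (J : ℕ) (x : R3) : R3 := S x + ∑ j ∈ Finset.range J, c j • w j x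

lemma US_zero (S : R3 → R3) (c : ℕ → ℝ) (w : ℕ → R3 → R3) : US S c w 0 = S := by
  funext x; simp [US]

lemma US_succ (S : R3 → R3) (c : ℕ → ℝ) (w : ℕ → R3 → R3) (J : ℕ) : US S c w (J + 1) = fun x => US S c w J x + c J • w J x := by
  funext x; unfold US; rw [Finset.sum_range_succ, add_assoc]

lemma US_field {S : R3 → R3} {c : ℕ → ℝ} {w : ℕ → R3 → R3} (hS : Field S) (hw : ∀ j, Field (w j)) (J : ℕ) : Field (US S c w J) := by
  induction J with
  | zero => rw [US_zero]; exact hS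
  | succ J ih => rw [US_succ]; exact field_add ih (field_smul (hw J) _)

lemma US_Wm {S : R3 → R3} {c : ℕ → ℝ} {w : ℕ → R3 → R3} (hS : Field S) (hw : ∀ j, Field (w j)) (m J : ℕ) :
    Wm m (US S c w J) ≤ Wm m S + ∑ j ∈ Finset.range J, ENNReal.ofReal |c j| * Wm m (w j) := by
  induction J with
  | zero => rw [US_zero]; simp
  | succ J ih =>
    rw [US_succ, Finset.sum_range_succ, ← add_assoc]
    have hwJ : SPF (w J) := (hw J).sp
    refine (Wm_add (US_field hS hw J).sp (hwJ.smul _)).trans (add_le_add ih ?_)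
    rw [Wm_smul]

/-- the force of partial sums -/
noncomputable def FS (ν : ℝ) (S : R3 → R3) (c μ : ℕ → ℝ) (w T : ℕ → R3 → R3) (J : ℕ) (x : R3) : R3 :=
  (∑ j ∈ Finset.range J, (c j ^ 2 • T j x + (-(μ j * c j)) • w j x)) + Rs ν (US S c w J) x

lemma E1_eq {A B : R3 → R3} (hA : SPF A) (hB : SPF B) (x : R3) : E1 ν A B x = crs A B x + Ls ν B x := by
  have h := Rs_pert (ν := 0) hA hB 1
  have e1 := congrFun h x
  have k : ∀ C : R3 → R3, Rs 0 C = adv C := fun C => by
    funext x i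
    show adv C x i + (-0) * _ = _
    ring
  have k2 : Ls 0 B x = 0 := by
    funext i
    show (-0) * _ = (0 : ℝ)
    ring
  rw [k, k] at e1
  unfold E1 at e1 ⊢
  rw [k2, add_zero, one_pow, one_smul, one_smul] at e1
  unfold crs
  simp only [one_smul] at e1
  rw [e1]
  abel

lemma FS_succ {S : R3 → R3} {c μ : ℕ → ℝ} {w T : ℕ → R3 → R3} (hS : Field S) (hw : ∀ j, Field (w j)) (J : ℕ) :
    FS ν S c μ w T (J + 1) = fun x => FS ν S c μ w T J x + ((c J ^ 2) • (adv (w J) x + T J x)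
      + (c J • (Ls ν (w J) x + (-μ J) • w J x) + c J • crs (US S c w J) (w J) x)) := by
  funext x
  have h := congrFun (Rs_pert (ν := ν) (US_field (c := c) hS hw J).sp (hw J).sp (c J)) x
  have e : Rs ν (US S c w (J + 1)) x = Rs ν (US S c w J) x + (c J • (crs (US S c w J) (w J) x + Ls ν (w J) x) + c J ^ 2 • adv (w J) x) := by
    rw [US_succ, h, E1_eq (US_field hS hw J).sp (hw J).sp]
  unfold FS
  rw [Finset.sum_range_succ, e]
  simp only [smul_add, neg_smul, smul_smul, smul_neg]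
  rw [mul_comm (c J) (μ J)]
  abel

lemma FS_spf {S : R3 → R3} {c μ : ℕ → ℝ} {w T : ℕ → R3 → R3} (hS : Field S) (hw : ∀ j, Field (w j)) (hT : ∀ j, SPF (T j)) (J : ℕ) :
    SPF (FS ν S c μ w T J) := by
  induction J with
  | zero =>
    have e : FS ν S c μ w T 0 = Rs ν S := by
      funext x
      unfold FS
      rw [US_zero]; simp
    rw [e]
    exact Rs_spf hS.sp
  | succ J ih =>
    have hwJ : SPF (w J) := (hw J).sp
    rw [FS_succ hS hw]
    exact ih.add ((((adv_spf (hw J).sp).add (hT J)).smul _).add ((((Ls_spf hwJ).add (hwJ.smul _)).smul _).add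
      ((crs_spf (US_field hS hw J).sp (hw J).sp).smul _)))

lemma FS_bd (hs : 1 ≤ s) {S : R3 → R3} {c μ : ℕ → ℝ} {w T : ℕ → R3 → R3} (hS : Field S) (hw : ∀ j, Field (w j)) (hT : ∀ j, SPF (T j)) (J : ℕ) :
    Nc s (FS ν S c μ w T J) ≤ Nc s (Rs ν S) + ∑ j ∈ Finset.range J, (ENNReal.ofReal (c j ^ 2) * Nc s (fun x => adv (w j) x + T j x)
      + (ENNReal.ofReal |c j| * Nc s (fun x => Ls ν (w j) x + (-μ j) • w j x)
        + ENNReal.ofReal |c j| * (ENNReal.ofReal 240 * (Wn (US S c w j) * Wn (w j))))) := by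
  have hs0 : 0 < s := by linarith
  induction J with
  | zero =>
    have e : FS ν S c μ w T 0 = Rs ν S := by
      funext x
      unfold FS
      rw [US_zero]; simp
    rw [e]; simp
  | succ J ih =>
    have hwJ : SPF (w J) := (hw J).sp
    have s1 : SPF fun x => adv (w J) x + T J x := (adv_spf hwJ).add (hT J)
    have s2 : SPF fun x => Ls ν (w J) x + (-μ J) • w J x := (Ls_spf hwJ).add (hwJ.smul _)
    have s3 : SPF (crs (US S c w J) (w J)) := crs_spf (US_field hS hw J).sp (hw J).sp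
    rw [FS_succ hS hw, Finset.sum_range_succ, ← add_assoc]
    refine (Nc_add hs (FS_spf hS hw hT J) ((s1.smul _).add ((s2.smul _).add (s3.smul _)))).trans (add_le_add ih ?_)
    refine (Nc_add hs (s1.smul _) ((s2.smul _).add (s3.smul _))).trans (add_le_add (le_of_eq ?_) ?_)
    · rw [Nc_smul hs0, abs_of_nonneg (sq_nonneg _)]
    refine (Nc_add hs (s2.smul _) (s3.smul _)).trans (add_le_add (le_of_eq ?_) ?_)
    · rw [Nc_smul hs0]
    · rw [Nc_smul hs0]
      exact mul_le_mul' le_rfl (Nc_crs hs (US_field hS hw J).sp (hw J).sp (US_field hS hw J).divFree (hw J).divFree)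

/-! ### the path -/

/-- the scales -/
def Nj (E j : ℕ) : ℕ := 2 ^ (E * (j + 1))

/-- the amplitudes -/
noncomputable def Cj (r l : ℝ) (E j : ℕ) (t : ℝ) : ℝ := r * (Nj E j * Real.exp (-(l * (Nj E j : ℝ) ^ 2 * t)))

/-- the progress of the mean -/
noncomputable def Th (r l : ℝ) (E j : ℕ) (t : ℝ) : ℝ := r ^ 2 * (1 - Real.exp (-(2 * (l * (Nj E j : ℝ) ^ 2 * t)))) / (2 * l)

variable {r l : ℝ} {E : ℕ}

lemma Cj_smooth (r l : ℝ) (E j : ℕ) : ContDiff ℝ ∞ (Cj r l E j) := by unfold Cj; fun_prop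

lemma Th_smooth (r l : ℝ) (E j : ℕ) : ContDiff ℝ ∞ (Th r l E j) := by unfold Th; fun_prop

lemma Cj_deriv (r l : ℝ) (E j : ℕ) (t : ℝ) : HasDerivAt (Cj r l E j) (-((l * (Nj E j : ℝ) ^ 2) * Cj r l E j t)) t := by
  have h0 : HasDerivAt (fun t : ℝ => -(l * (Nj E j : ℝ) ^ 2 * t)) (-(l * (Nj E j : ℝ) ^ 2 * 1)) t := ((hasDerivAt_id t).const_mul _).neg
  refine ((h0.exp.const_mul (Nj E j : ℝ)).const_mul r).congr_deriv ?_
  unfold Cj; ring

lemma Th_deriv (r : ℝ) (hl : l ≠ 0) (E j : ℕ) (t : ℝ) : HasDerivAt (Th r l E j) (Cj r l E j t ^ 2) t := by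
  have h0 : HasDerivAt (fun t : ℝ => -(2 * (l * (Nj E j : ℝ) ^ 2 * t))) (-(2 * (l * (Nj E j : ℝ) ^ 2 * 1))) t :=
    (((hasDerivAt_id t).const_mul _).const_mul 2).neg
  refine (((h0.exp.const_sub 1).const_mul (r ^ 2)).div_const (2 * l)).congr_deriv ?_
  unfold Cj
  have e : Real.exp (-(2 * (l * (Nj E j : ℝ) ^ 2 * t))) = Real.exp (-(l * (Nj E j : ℝ) ^ 2 * t)) * Real.exp (-(l * (Nj E j : ℝ) ^ 2 * t)) := by
    rw [← Real.exp_add]; congr 1; ring
  rw [e]
  field_simp

/-- the mean -/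
noncomputable def MnS (r l : ℝ) (E J : ℕ) (A : R3 → R3) (T : ℕ → R3 → R3) (t : ℝ) : R3 → R3 :=
  US A (fun j => Th r l E j t) (fun j => ler (T j)) J

/-- the velocity -/
noncomputable def MnU (r l : ℝ) (E J : ℕ) (A : R3 → R3) (w T : ℕ → R3 → R3) (t : ℝ) : R3 → R3 :=
  US (MnS r l E J A T t) (fun j => Cj r l E j t) w J

/-- the pressure -/
noncomputable def MnP (r l : ℝ) (E J : ℕ) (T : ℕ → R3 → R3) (t : ℝ) (x : R3) : ℝ :=
  ∑ j ∈ Finset.range J, Cj r l E j t ^ 2 * pot (T j) x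

/-- the force -/
noncomputable def MnF (ν r l : ℝ) (E J : ℕ) (A : R3 → R3) (w T : ℕ → R3 → R3) (t : ℝ) : R3 → R3 :=
  FS ν (MnS r l E J A T t) (fun j => Cj r l E j t) (fun j => l * (Nj E j : ℝ) ^ 2) w T J

lemma MnS_field {A : R3 → R3} {T : ℕ → R3 → R3} {J : ℕ} (hA : Field A) (hT : ∀ j, SPF (T j)) (t : ℝ) : Field (MnS r l E J A T t) :=
  US_field hA (fun j => ler_field (hT j)) J

lemma MnU_field {A : R3 → R3} {w T : ℕ → R3 → R3} {J : ℕ} (hA : Field A) (hw : ∀ j, Field (w j)) (hT : ∀ j, SPF (T j)) (t : ℝ) :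
    Field (MnU r l E J A w T t) := US_field (MnS_field hA hT t) hw J

theorem MnU_pth (hl : l ≠ 0) {A : R3 → R3} {w T : ℕ → R3 → R3} {J : ℕ} (hA : Field A) (hw : ∀ j, Field (w j)) (hT : ∀ j, SPF (T j))
    (hT0 : ∀ j, H356R3.NS.fc (T j) 0 = 0) : PthOn ν univ (MnF ν r l E J A w T) (MnU r l E J A w T) (MnP r l E J T) := by
  have sw : ∀ j, ContDiff ℝ ∞ fun z : ℝ × R3 => w j z.2 := fun j => (hw j).smooth.comp contDiff_snd
  have sl : ∀ j, ContDiff ℝ ∞ fun z : ℝ × R3 => ler (T j) z.2 := fun j => (ler_field (hT j)).smooth.comp contDiff_snd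
  have sT : ∀ j, ContDiff ℝ ∞ fun z : ℝ × R3 => T j z.2 := fun j =>
    (contDiff_pi.2 fun i => (hT j i).smooth : ContDiff ℝ ∞ (T j)).comp contDiff_snd
  have sC : ∀ j, ContDiff ℝ ∞ fun z : ℝ × R3 => Cj r l E j z.1 := fun j => (Cj_smooth r l E j).comp contDiff_fst
  have sTh : ∀ j, ContDiff ℝ ∞ fun z : ℝ × R3 => Th r l E j z.1 := fun j => (Th_smooth r l E j).comp contDiff_fst
  refine mk_pth (G := fun t x => ∑ j ∈ Finset.range J, (Cj r l E j t ^ 2 • T j x + (-((l * (Nj E j : ℝ) ^ 2) * Cj r l E j t)) • w j x)) ?_ ?_ ?_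
    (fun t => MnU_field hA hw hT t) (fun t i => ?_) (fun t => ?_) (fun t => ?_) (fun t x i => ?_)
  · show ContDiff ℝ ∞ fun z : ℝ × R3 => (A z.2 + ∑ j ∈ Finset.range J, Th r l E j z.1 • ler (T j) z.2) + ∑ j ∈ Finset.range J, Cj r l E j z.1 • w j z.2
    exact ((hA.smooth.comp contDiff_snd).add (ContDiff.sum fun j _ => (sTh j).smul (sl j))).add (ContDiff.sum fun j _ => (sC j).smul (sw j))
  · exact ContDiff.sum fun j _ => ((sC j).pow 2).mul ((pot_sp (hT j)).smooth.comp contDiff_snd)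
  · exact ContDiff.sum fun j _ => (((sC j).pow 2).smul (sT j)).add (((contDiff_const.mul (sC j)).neg).smul (sw j))
  · exact spf_sum (F := fun j x => Cj r l E j t ^ 2 • T j x + (-((l * (Nj E j : ℝ) ^ 2) * Cj r l E j t)) • w j x)
      (fun j => ((hT j).smul _).add (SPF.smul (hw j).sp _)) J i
  · exact H459R3.NS.SP.sum (f := fun j x => Cj r l E j t ^ 2 * pot (T j) x) fun j _ => sp_const_mul (pot_sp (hT j)) _
  · rw [fc_sum (F := fun j x => Cj r l E j t ^ 2 • T j x + (-((l * (Nj E j : ℝ) ^ 2) * Cj r l E j t)) • w j x)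
      (fun j => ((hT j).smul _).add (SPF.smul (hw j).sp _)) J 0]
    refine Finset.sum_eq_zero fun j _ => ?_
    rw [fc_add ((hT j).smul _) (SPF.smul (hw j).sp _), fc_smul, fc_smul, hT0, (hw j).dta.mean]
    simp
  · have h1 : HasDerivAt (fun s => MnU r l E J A w T s x i) (∑ j ∈ Finset.range J, Cj r l E j t ^ 2 * ler (T j) x i
        + ∑ j ∈ Finset.range J, (-((l * (Nj E j : ℝ) ^ 2) * Cj r l E j t)) * w j x i) t := by
      have e : (fun s => MnU r l E J A w T s x i) = fun s => (A x i + ∑ j ∈ Finset.range J, Th r l E j s * ler (T j) x i)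
          + ∑ j ∈ Finset.range J, Cj r l E j s * w j x i := by
        funext s
        unfold MnU MnS US
        simp only [Pi.add_apply, Finset.sum_apply, Pi.smul_apply, smul_eq_mul]
      rw [e]
      exact ((HasDerivAt.fun_sum fun j _ => (Th_deriv r hl E j t).mul_const _).const_add _).add
        (HasDerivAt.fun_sum fun j _ => (Cj_deriv r l E j t).mul_const _)
    have h2 : pd i (MnP r l E J T t) x = ∑ j ∈ Finset.range J, Cj r l E j t ^ 2 * pd i (pot (T j)) x := by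
      have := H459R3.NS.pd_sum (s := Finset.range J) (f := fun j x => Cj r l E j t ^ 2 * pot (T j) x)
        (fun j _ => sp_const_mul (pot_sp (hT j)) _) i x
      refine Eq.trans this (Finset.sum_congr rfl fun j _ => ?_)
      exact pd_smul' (pot_sp (hT j)) _ i x
    show deriv (fun s => MnU r l E J A w T s x i) t + _ = _
    rw [h1.deriv, h2, Finset.sum_apply, ← Finset.sum_add_distrib, ← Finset.sum_add_distrib]
    refine Finset.sum_congr rfl fun j _ => ?_
    have h3 := leray_dec (hT j) (hT0 j) x i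
    simp only [Pi.add_apply, Pi.smul_apply, smul_eq_mul]
    rw [h3]
    ring

end Pool.Agent.U162.SF
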