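import Pool.Agent.U162.SF.B5

/-!
Families of waves at many scales: the bounds
-/

open MeasureTheory Set Filter Topology
open scoped ENNReal NNReal ContDiff

namespace Pool.Agent.U162.SF

open Pool.Agent.H356R3.NS Pool.Agent.U162.TS Pool.Agent.U162.GE Pool.Agent.U162.TS.EL Pool.Agent.U162.TS.VF Pool.Agent.U162.TS.Ph Pool.Agent.U162.PL Pool.Agent.U162.MU

variable {ν : ℝ} {s : ℝ} {r l : ℝ} {E : ℕ}

lemma Wn_Rs {S : R3 → R3} (hS : SPF S) {M : ℝ} (hM : 0 ≤ M) (h : Wm 2 S ≤ ENNReal.ofReal M) :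
    Wn (Rs ν S) ≤ ENNReal.ofReal (60 * M ^ 2 + 400 * |ν| * M) := by
  have e : Rs ν S = fun x => adv S x + Ls ν S x := rfl
  rw [e, ENNReal.ofReal_add (by positivity) (by positivity)]
  refine (Wn_add (adv_spf hS) (Ls_spf hS)).trans (add_le_add ?_ ?_)
  · have h0 : Wn S ≤ ENNReal.ofReal M := (Wn_le_Wm 2 S).trans h
    have h1 : Wm 1 S ≤ ENNReal.ofReal M := (Wm_mono (by norm_num) S).trans h
    have e2 : adv S = advb S S := rfl
    rw [e2]
    refine (Wn_advb hS hS).trans ?_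
    rw [ENNReal.ofReal_mul (by norm_num), pow_two, ENNReal.ofReal_mul hM]
    exact mul_le_mul' le_rfl (mul_le_mul' h0 h1)
  · refine (Wn_Ls hS).trans ?_
    rw [ENNReal.ofReal_mul (p := 400 * |ν|) (by positivity)]
    exact mul_le_mul' le_rfl h

lemma Nj_pos (E j : ℕ) : 0 < Nj E j := by unfold Nj; positivity

lemma Nj_ge (E j : ℕ) : (2 : ℝ) ^ E ≤ Nj E j := by
  unfold Nj
  push_cast
  exact pow_le_pow_right₀ (by norm_num) (Nat.le_mul_of_pos_right E (Nat.succ_pos j))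

lemma Nj_one (E j : ℕ) : (1 : ℝ) ≤ Nj E j := by
  have := Nj_pos E j
  exact_mod_cast this

lemma Nj_lt {i j : ℕ} (h : i < j) (E : ℕ) : (Nj E i : ℝ) * 2 ^ E ≤ Nj E j := by
  unfold Nj
  push_cast
  rw [← pow_add]
  refine pow_le_pow_right₀ (by norm_num) ?_
  calc E * (i + 1) + E = E * (i + 1 + 1) := by ring
    _ ≤ E * (j + 1) := Nat.mul_le_mul_left E (by omega)

/-- the profile of a burst -/
noncomputable def psi (l : ℝ) (E j : ℕ) (t : ℝ) : ℝ := (Nj E j : ℝ) ^ 2 * Real.exp (-(l * (Nj E j : ℝ) ^ 2 * t))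

lemma psi_nonneg (l : ℝ) (E j : ℕ) (t : ℝ) : 0 ≤ psi l E j t := by unfold psi; positivity

lemma int_psi (hl : 0 < l) (E j : ℕ) : ∫⁻ t in Ioi 0, ENNReal.ofReal (psi l E j t) = ENNReal.ofReal (1 / l) := by
  have hN : (0 : ℝ) < (Nj E j : ℝ) ^ 2 := by have := Nj_pos E j; positivity
  have hc : -(l * (Nj E j : ℝ) ^ 2) < 0 := by
    have : 0 < l * (Nj E j : ℝ) ^ 2 := by positivity
    linarith
  have e : ∀ t, psi l E j t = (Nj E j : ℝ) ^ 2 * Real.exp (-(l * (Nj E j : ℝ) ^ 2) * t) := fun t => by unfold psi; rw [neg_mul]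
  simp only [e]
  rw [← ofReal_integral_eq_lintegral_ofReal ((integrableOn_exp_mul_Ioi hc 0).const_mul _) (Filter.Eventually.of_forall fun t => by positivity),
    integral_const_mul, integral_exp_mul_Ioi hc]
  congr 1
  have hN0 : (Nj E j : ℝ) ≠ 0 := by
    have := Nj_pos E j
    positivity
  rw [mul_zero, Real.exp_zero]
  field_simp

lemma Cj_nonneg (hr : 0 ≤ r) (l : ℝ) (E j : ℕ) (t : ℝ) : 0 ≤ Cj r l E j t := by unfold Cj; positivity

lemma exp_le1 (hl : 0 ≤ l) {t : ℝ} (ht : 0 ≤ t) (j : ℕ) : Real.exp (-(l * (Nj E j : ℝ) ^ 2 * t)) ≤ 1 := by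
  rw [Real.exp_le_one_iff]
  have : 0 ≤ l * (Nj E j : ℝ) ^ 2 * t := by positivity
  linarith

lemma Cj_le (hl : 0 ≤ l) (_hr : 0 ≤ r) (hr1 : r ≤ 1) {t : ℝ} (ht : 0 ≤ t) (j : ℕ) : Cj r l E j t ≤ Nj E j := by
  unfold Cj
  have h1 := exp_le1 (E := E) hl ht j
  have h2 := (Real.exp_pos (-(l * (Nj E j : ℝ) ^ 2 * t))).le
  have h3 := Nj_one E j
  calc r * (Nj E j * Real.exp (-(l * (Nj E j : ℝ) ^ 2 * t))) ≤ 1 * (Nj E j * 1) := by gcongr
    _ = _ := by ring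

lemma Cj_psi (hr1 : r ≤ 1) (t : ℝ) (j : ℕ) : Cj r l E j t ≤ psi l E j t / 2 ^ E := by
  unfold Cj psi
  have h2 := (Real.exp_pos (-(l * (Nj E j : ℝ) ^ 2 * t))).le
  have h3 := Nj_one E j
  have h4 := Nj_ge E j
  have h5 : (0 : ℝ) < 2 ^ E := by positivity
  calc r * (Nj E j * Real.exp (-(l * (Nj E j : ℝ) ^ 2 * t))) ≤ 1 * (Nj E j * Real.exp (-(l * (Nj E j : ℝ) ^ 2 * t))) := by gcongr
    _ ≤ _ := by
      rw [one_mul, le_div_iff₀ h5]
      nlinarith [mul_nonneg (Nat.cast_nonneg (α := ℝ) (Nj E j)) h2]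

lemma Cj_sq (hl : 0 ≤ l) (hr : 0 ≤ r) (hr1 : r ≤ 1) {t : ℝ} (ht : 0 ≤ t) (j : ℕ) : Cj r l E j t ^ 2 ≤ psi l E j t := by
  unfold Cj psi
  have h1 := exp_le1 (E := E) hl ht j
  have h2 := (Real.exp_pos (-(l * (Nj E j : ℝ) ^ 2 * t))).le
  set φ := Real.exp (-(l * (Nj E j : ℝ) ^ 2 * t)) with hφ
  have h3 : r ^ 2 ≤ 1 := pow_le_one₀ hr hr1
  calc (r * (Nj E j * φ)) ^ 2 = r ^ 2 * ((Nj E j : ℝ) ^ 2 * (φ * φ)) := by ring
    _ ≤ 1 * ((Nj E j : ℝ) ^ 2 * (φ * 1)) := by gcongr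
    _ = _ := by ring

/-- the constants of the waves -/
structure Wb (ν s l : ℝ) (E : ℕ) (w T : ℕ → R3 → R3) (a b d k : ℝ) : Prop where
  fw : ∀ j, Field (w j)
  sT : ∀ j, SPF (T j)
  mT : ∀ j, H356R3.NS.fc (T j) 0 = 0
  a0 : 0 ≤ a
  b0 : 0 ≤ b
  d0 : 0 ≤ d
  k0 : 0 ≤ k
  ba : ∀ j, Wn (w j) ≤ ENNReal.ofReal a
  bb : ∀ j, Nc s (fun x => Ls ν (w j) x + (-(l * (Nj E j : ℝ) ^ 2)) • w j x) ≤ ENNReal.ofReal b
  bd : ∀ j, Nc s (fun x => adv (w j) x + T j x) ≤ ENNReal.ofReal (d / Nj E j)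
  bk : ∀ j, Wm 2 (ler (T j)) ≤ ENNReal.ofReal k

variable {w T : ℕ → R3 → R3} {a b d k : ℝ} {A : R3 → R3} {J : ℕ}

/-- the force at a fixed time -/
lemma F_bd (hs : 1 ≤ s) (hl : 0 < l) (hr : 0 ≤ r) (hr1 : r ≤ 1) (hW : Wb ν s l E w T a b d k) (hA : Field A) {t : ℝ} (ht : 0 ≤ t)
    {M : ℝ} (hM : 0 ≤ M) (hSM : Wn (MnS r l E J A T t) ≤ ENNReal.ofReal M) :
    Nc s (MnF ν r l E J A w T t) ≤ Nc s (Rs ν (MnS r l E J A T t))
      + ∑ j ∈ Finset.range J, ENNReal.ofReal ((d + b + 240 * a * (M + J * a)) / 2 ^ E) * ENNReal.ofReal (psi l E j t) := by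
  have hS : Field (MnS r l E J A T t) := MnS_field hA hW.sT t
  have ha := hW.a0
  have hb := hW.b0
  have hd := hW.d0
  refine (FS_bd hs hS hW.fw hW.sT J).trans (add_le_add le_rfl (Finset.sum_le_sum fun j hj => ?_))
  have hjJ : j < J := Finset.mem_range.1 hj
  set c := Cj r l E j t with hc
  have hc0 : 0 ≤ c := Cj_nonneg hr l E j t
  have h2E : (0 : ℝ) < 2 ^ E := by positivity
  have hN1 := Nj_one E j
  have hNE := Nj_ge E j
  have hNp : (0 : ℝ) < Nj E j := by linarith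
  -- the partial sums
  have hU : Wn (US (MnS r l E J A T t) (fun j => Cj r l E j t) w j) ≤ ENNReal.ofReal (M + J * a * (Nj E j / 2 ^ E)) := by
    rw [← Wm_zero']
    refine (US_Wm hS hW.fw 0 j).trans ?_
    rw [Wm_zero', ENNReal.ofReal_add hM (by positivity)]
    refine add_le_add hSM ?_
    calc ∑ i ∈ Finset.range j, ENNReal.ofReal |Cj r l E i t| * Wm 0 (w i)
        ≤ ∑ _i ∈ Finset.range j, ENNReal.ofReal (a * (Nj E j / 2 ^ E)) := by
          refine Finset.sum_le_sum fun i hi => ?_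
          have hij := Finset.mem_range.1 hi
          rw [Wm_zero', mul_comm a, ENNReal.ofReal_mul (by positivity), abs_of_nonneg (Cj_nonneg hr l E i t)]
          refine mul_le_mul' (ENNReal.ofReal_le_ofReal ?_) (hW.ba i)
          rw [le_div_iff₀ h2E]
          exact (mul_le_mul_of_nonneg_right (Cj_le hl.le hr hr1 ht i) h2E.le).trans (Nj_lt hij E)
      _ = ENNReal.ofReal (j * (a * (Nj E j / 2 ^ E))) := by
          rw [Finset.sum_const, Finset.card_range, nsmul_eq_mul, ENNReal.ofReal_mul (p := (j : ℝ)) (Nat.cast_nonneg j), ENNReal.ofReal_natCast]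
      _ ≤ _ := by
          refine ENNReal.ofReal_le_ofReal ?_
          have : (j : ℝ) ≤ J := by exact_mod_cast hjJ.le
          calc (j : ℝ) * (a * (Nj E j / 2 ^ E)) ≤ J * (a * (Nj E j / 2 ^ E)) := mul_le_mul_of_nonneg_right this (by positivity)
            _ = _ := by ring
  have hpsi := psi_nonneg l E j t
  have k1 : c ≤ psi l E j t / 2 ^ E := Cj_psi hr1 t j
  have k2 : c ^ 2 ≤ psi l E j t := Cj_sq hl.le hr hr1 ht j
  have k3 : c * Nj E j ≤ psi l E j t := by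
    rw [hc]
    unfold Cj psi
    have h2 := (Real.exp_pos (-(l * (Nj E j : ℝ) ^ 2 * t))).le
    calc r * (Nj E j * Real.exp (-(l * (Nj E j : ℝ) ^ 2 * t))) * Nj E j
        ≤ 1 * (Nj E j * Real.exp (-(l * (Nj E j : ℝ) ^ 2 * t))) * Nj E j := by gcongr
      _ = _ := by ring
  rw [abs_of_nonneg hc0]
  calc ENNReal.ofReal (c ^ 2) * Nc s (fun x => adv (w j) x + T j x)
        + (ENNReal.ofReal c * Nc s (fun x => Ls ν (w j) x + (-(l * (Nj E j : ℝ) ^ 2)) • w j x)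
        + ENNReal.ofReal c * (ENNReal.ofReal 240 * (Wn (US (MnS r l E J A T t) (fun j => Cj r l E j t) w j) * Wn (w j))))
      ≤ ENNReal.ofReal (c ^ 2) * ENNReal.ofReal (d / Nj E j) + (ENNReal.ofReal c * ENNReal.ofReal b
        + ENNReal.ofReal c * (ENNReal.ofReal 240 * (ENNReal.ofReal (M + J * a * (Nj E j / 2 ^ E)) * ENNReal.ofReal a))) :=
        add_le_add (mul_le_mul' le_rfl (hW.bd j)) (add_le_add (mul_le_mul' le_rfl (hW.bb j))
          (mul_le_mul' le_rfl (mul_le_mul' le_rfl (mul_le_mul' hU (hW.ba j)))))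
    _ = ENNReal.ofReal (c ^ 2 * (d / Nj E j) + (c * b + c * (240 * ((M + J * a * (Nj E j / 2 ^ E)) * a)))) := by
        rw [← ENNReal.ofReal_mul (by positivity), ← ENNReal.ofReal_mul hc0, ← ENNReal.ofReal_mul (by positivity), ← ENNReal.ofReal_mul (by norm_num),
          ← ENNReal.ofReal_mul hc0, ← ENNReal.ofReal_add (by positivity) (by positivity), ← ENNReal.ofReal_add (by positivity) (by positivity)]
    _ ≤ ENNReal.ofReal ((d + b + 240 * a * (M + J * a)) / 2 ^ E * psi l E j t) := by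
        refine ENNReal.ofReal_le_ofReal ?_
        have z1 : c ^ 2 * (d / Nj E j) ≤ d / 2 ^ E * psi l E j t := by
          calc c ^ 2 * (d / Nj E j) ≤ psi l E j t * (d / 2 ^ E) := by gcongr
            _ = _ := by ring
        have z2 : c * b ≤ b / 2 ^ E * psi l E j t := by
          calc c * b ≤ psi l E j t / 2 ^ E * b := by gcongr
            _ = _ := by ring
        have z3 : c * (240 * ((M + J * a * (Nj E j / 2 ^ E)) * a)) ≤ 240 * a * (M + J * a) / 2 ^ E * psi l E j t := by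
          calc c * (240 * ((M + J * a * (Nj E j / 2 ^ E)) * a)) = 240 * a * M * c + 240 * a * (J * a) / 2 ^ E * (c * Nj E j) := by
                field_simp
            _ ≤ 240 * a * M * (psi l E j t / 2 ^ E) + 240 * a * (J * a) / 2 ^ E * psi l E j t := by gcongr
            _ = _ := by ring
        calc _ ≤ d / 2 ^ E * psi l E j t + (b / 2 ^ E * psi l E j t + 240 * a * (M + J * a) / 2 ^ E * psi l E j t) :=
              add_le_add z1 (add_le_add z2 z3)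
          _ = _ := by ring
    _ = _ := ENNReal.ofReal_mul (by positivity)

/-! ### the mean -/

lemma Th_nonneg (hl : 0 < l) (r : ℝ) {t : ℝ} (ht : 0 ≤ t) (j : ℕ) : 0 ≤ Th r l E j t := by
  unfold Th
  have h : Real.exp (-(2 * (l * (Nj E j : ℝ) ^ 2 * t))) ≤ 1 := by
    rw [Real.exp_le_one_iff]
    have : 0 ≤ l * (Nj E j : ℝ) ^ 2 * t := by positivity
    linarith
  have h2 : 0 ≤ 1 - Real.exp (-(2 * (l * (Nj E j : ℝ) ^ 2 * t))) := by linarith
  positivity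

lemma Th_le (hl : 0 < l) (r : ℝ) (t : ℝ) (j : ℕ) : Th r l E j t ≤ r ^ 2 / (2 * l) := by
  unfold Th
  have h := Real.exp_pos (-(2 * (l * (Nj E j : ℝ) ^ 2 * t)))
  rw [div_le_div_iff_of_pos_right (by positivity)]
  nlinarith [sq_nonneg r]

lemma Th_small (hl : 0 < l) (r : ℝ) {t : ℝ} (j : ℕ) : Th r l E j t ≤ r ^ 2 * (Nj E j : ℝ) ^ 2 * t := by
  unfold Th
  have h := Real.add_one_le_exp (-(2 * (l * (Nj E j : ℝ) ^ 2 * t)))
  rw [div_le_iff₀ (by positivity)]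
  have h2 : 1 - Real.exp (-(2 * (l * (Nj E j : ℝ) ^ 2 * t))) ≤ 2 * (l * (Nj E j : ℝ) ^ 2 * t) := by linarith
  calc r ^ 2 * (1 - Real.exp (-(2 * (l * (Nj E j : ℝ) ^ 2 * t)))) ≤ r ^ 2 * (2 * (l * (Nj E j : ℝ) ^ 2 * t)) :=
        mul_le_mul_of_nonneg_left h2 (sq_nonneg r)
    _ = _ := by ring

lemma Th_late (hl : 0 < l) (hr : 0 ≤ r) (hr1 : r ≤ 1) {t : ℝ} (ht : 0 < t) (j : ℕ) :
    |Th r l E j t - r ^ 2 / (2 * l)| ≤ 1 / (2 * l) * (1 / (l * t * 2 ^ E)) := by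
  have hN := Nj_ge E j
  have hN1 := Nj_one E j
  have h2E : (0 : ℝ) < 2 ^ E := by positivity
  set y := l * (Nj E j : ℝ) ^ 2 * t with hy
  have hyp : 0 < y := by positivity
  have e : Th r l E j t - r ^ 2 / (2 * l) = -(r ^ 2 / (2 * l) * Real.exp (-(2 * y))) := by
    unfold Th; rw [← hy]; ring
  rw [e, abs_neg, abs_of_nonneg (by positivity)]
  have h1 : Real.exp (-(2 * y)) ≤ 1 / y := by
    rw [Real.exp_neg, ← one_div]
    refine one_div_le_one_div_of_le hyp ?_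
    have := Real.add_one_le_exp (2 * y)
    linarith
  have h2 : 1 / y ≤ 1 / (l * t * 2 ^ E) := by
    refine one_div_le_one_div_of_le (by positivity) ?_
    rw [hy]
    calc l * t * 2 ^ E ≤ l * t * (Nj E j : ℝ) ^ 2 := by
          refine mul_le_mul_of_nonneg_left ?_ (by positivity)
          nlinarith
      _ = _ := by ring
  have h3 : r ^ 2 ≤ 1 := pow_le_one₀ hr hr1
  gcongr
  exact h1.trans h2

lemma Cj_late (hl : 0 < l) (hr1 : r ≤ 1) {t : ℝ} (ht : 0 < t) (j : ℕ) : Cj r l E j t ≤ 1 / (l * t * 2 ^ E) := by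
  have hN := Nj_ge E j
  have hN1 := Nj_one E j
  have h2E : (0 : ℝ) < 2 ^ E := by positivity
  have hy : 0 < l * (Nj E j : ℝ) ^ 2 * t := by positivity
  unfold Cj
  have h1 : Real.exp (-(l * (Nj E j : ℝ) ^ 2 * t)) ≤ 1 / (l * (Nj E j : ℝ) ^ 2 * t) := by
    rw [Real.exp_neg, ← one_div]
    refine one_div_le_one_div_of_le hy ?_
    have := Real.add_one_le_exp (l * (Nj E j : ℝ) ^ 2 * t)
    linarith
  calc r * (Nj E j * Real.exp (-(l * (Nj E j : ℝ) ^ 2 * t))) ≤ 1 * (Nj E j * (1 / (l * (Nj E j : ℝ) ^ 2 * t))) := by gcongr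
    _ = 1 / (l * t * Nj E j) := by field_simp
    _ ≤ _ := one_div_le_one_div_of_le (by positivity) (by gcongr)

end Pool.Agent.U162.SF
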