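import Pool.Agent.U162.SF.Wfin

/-!
Means of lower powers
-/

open MeasureTheory Set Filter Topology
open scoped ENNReal NNReal ContDiff

namespace Pool.Agent.U162.SF.ML

open Pool.Agent.H356R3.NS Pool.Agent.U162.TS Pool.Agent.U162.GE Pool.Agent.U162.TS.EL Pool.Agent.U162.TS.VF Pool.Agent.U162.TS.Ph Pool.Agent.U162.PL Pool.Agent.U162.MU

lemma rpow_young {r Λ : ℝ} (hr0 : 0 < r) (hr2 : r < 2) (hΛ : 0 < Λ) (x : ℝ≥0∞) :
    x ^ r ≤ ENNReal.ofReal (Λ ^ r) + ENNReal.ofReal (Λ ^ (r - 2)) * x ^ (2 : ℝ) := by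
  rcases le_or_gt x (ENNReal.ofReal Λ) with h | h
  · refine le_trans ?_ le_self_add
    rw [← ENNReal.ofReal_rpow_of_pos hΛ]
    exact ENNReal.rpow_le_rpow h hr0.le
  · refine le_trans ?_ le_add_self
    have hL : ENNReal.ofReal (Λ ^ (r - 2)) ≠ 0 := by
      rw [Ne, ENNReal.ofReal_eq_zero, not_le]; positivity
    by_cases hx : x = ⊤
    · subst hx
      rw [ENNReal.top_rpow_of_pos (by norm_num : (0 : ℝ) < 2), ENNReal.mul_top hL]
      exact le_top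
    have hx0 : x ≠ 0 := (bot_le.trans_lt h).ne'
    have e : x ^ r = x ^ (r - 2) * x ^ (2 : ℝ) := by
      rw [← ENNReal.rpow_add _ _ hx0 hx, sub_add_cancel]
    rw [e, ← ENNReal.ofReal_rpow_of_pos hΛ]
    refine mul_le_mul' ?_ le_rfl
    have e1 : ∀ y : ℝ≥0∞, y ^ (r - 2) = (y ^ (2 - r))⁻¹ := fun y => by
      rw [← ENNReal.rpow_neg, neg_sub]
    rw [e1, e1, ENNReal.inv_le_inv]
    exact ENNReal.rpow_le_rpow h.le (by linarith)

lemma ex_Lam {r : ℝ} (hr2 : r < 2) {E δ : ℝ} (hE : 0 ≤ E) (hδ : 0 < δ) : ∃ Λ : ℝ, 0 < Λ ∧ Λ ^ (r - 2) * E ≤ δ := by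
  have h1 : Tendsto (fun x : ℝ => x ^ (-(2 - r))) atTop (𝓝 0) := tendsto_rpow_neg_atTop (by linarith)
  have h2 : ∀ᶠ x : ℝ in atTop, x ^ (-(2 - r)) < δ / (E + 1) := h1.eventually_lt_const (by positivity)
  obtain ⟨Λ, h3, h4⟩ := (h2.and (eventually_gt_atTop 0)).exists
  refine ⟨Λ, h4, ?_⟩
  rw [neg_sub] at h3
  calc Λ ^ (r - 2) * E ≤ δ / (E + 1) * E := mul_le_mul_of_nonneg_right h3.le hE
    _ ≤ δ := by
      rw [div_mul_eq_mul_div, div_le_iff₀ (by positivity)]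
      nlinarith

/-- the mean of a lower power over a short interval -/
lemma mean_low {r Λ E δ κ : ℝ} (hr0 : 0 < r) (hr2 : r < 2) (hΛ : 0 < Λ) (h1 : Λ ^ (r - 2) * E ≤ δ / 2) (hκ : 0 ≤ κ)
    (h2 : κ * Λ ^ r ≤ δ / 2) {φ : ℝ → ℝ≥0∞} (hφ : ∫⁻ t in Ioo 0 κ, φ t ^ (2 : ℝ) ≤ ENNReal.ofReal E) :
    ∫⁻ t in Ioo 0 κ, φ t ^ r ≤ ENNReal.ofReal δ := by
  have hΛr : 0 ≤ Λ ^ r := by positivity
  have hΛ2 : 0 ≤ Λ ^ (r - 2) := by positivity
  have hδ2 : 0 ≤ δ / 2 := le_trans (by positivity) h2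
  calc ∫⁻ t in Ioo 0 κ, φ t ^ r ≤ ∫⁻ t in Ioo 0 κ, (ENNReal.ofReal (Λ ^ r) + ENNReal.ofReal (Λ ^ (r - 2)) * φ t ^ (2 : ℝ)) :=
        lintegral_mono fun t => rpow_young hr0 hr2 hΛ _
    _ = ENNReal.ofReal (Λ ^ r) * ENNReal.ofReal κ + ENNReal.ofReal (Λ ^ (r - 2)) * ∫⁻ t in Ioo 0 κ, φ t ^ (2 : ℝ) := by
        rw [lintegral_add_left measurable_const, setLIntegral_const, Real.volume_Ioo, sub_zero,
          lintegral_const_mul' _ _ ENNReal.ofReal_ne_top]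
    _ ≤ ENNReal.ofReal (δ / 2) + ENNReal.ofReal (δ / 2) := by
        refine add_le_add ?_ ?_
        · rw [← ENNReal.ofReal_mul hΛr, mul_comm]
          exact ENNReal.ofReal_le_ofReal h2
        · refine (mul_le_mul' le_rfl hφ).trans ?_
          rw [← ENNReal.ofReal_mul hΛ2]
          exact ENNReal.ofReal_le_ofReal h1
    _ = ENNReal.ofReal δ := by
        rw [← ENNReal.ofReal_add hδ2 hδ2]
        congr 1; ring

lemma Wn_bu {a b : ℝ} {u₁ u₂ : ℝ → R3 → R3} {t : ℝ} (h1 : SPF (u₁ t)) (h2 : SPF (u₂ t)) : Wn (bu a b u₁ u₂ t) ≤ Wn (u₁ t) + Wn (u₂ t) := by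
  have n0 := th_nonneg a b t
  have n1 := th_le_one a b t
  have e : bu a b u₁ u₂ t = fun x => (1 - th a b t) • u₁ t x + th a b t • u₂ t x := by
    funext x
    unfold bu dif
    rw [sub_smul, one_smul, smul_sub]
    abel
  have hle : ∀ {r : ℝ} {x : ℝ≥0∞}, |r| ≤ 1 → ENNReal.ofReal |r| * x ≤ x := by
    intro r x hr
    calc ENNReal.ofReal |r| * x ≤ 1 * x := by
          refine mul_le_mul' ?_ le_rfl
          rw [← ENNReal.ofReal_one]; exact ENNReal.ofReal_le_ofReal hr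
      _ = x := one_mul _
  rw [e]
  refine (Wn_add (h1.smul _) (h2.smul _)).trans ?_
  rw [Wn_smul, Wn_smul]
  refine add_le_add (hle ?_) (hle ?_)
  · rw [abs_of_nonneg (by linarith)]; linarith
  · rw [abs_of_nonneg n0]; exact n1

lemma add_sq_le_ennreal (x y : ℝ≥0∞) : (x + y) ^ 2 ≤ 2 * (x ^ 2 + y ^ 2) := by
  have key : ∀ x z : ℝ≥0∞, (x + (x + z)) ^ 2 ≤ 2 * (x ^ 2 + (x + z) ^ 2) := fun x z => by
    have e : 2 * (x ^ 2 + (x + z) ^ 2) = (x + (x + z)) ^ 2 + z ^ 2 := by ring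
    rw [e]; exact le_self_add
  rcases le_total x y with h | h
  · obtain ⟨z, rfl⟩ := exists_add_of_le h
    exact key x z
  · obtain ⟨z, rfl⟩ := exists_add_of_le h
    have := key y z
    rw [add_comm (y + z) y, add_comm ((y + z) ^ 2)]
    exact this

end Pool.Agent.U162.SF.ML
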