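import Pool.Agent.U162.SF.B6
import Pool.Agent.U162.SF.MeanL

/-!
Families of waves at many scales: the displacement
-/

open MeasureTheory Set Filter Topology
open scoped ENNReal NNReal ContDiff

namespace Pool.Agent.U162.SF

open Pool.Agent.H356R3.NS Pool.Agent.U162.TS Pool.Agent.U162.GE Pool.Agent.U162.TS.EL Pool.Agent.U162.TS.VF Pool.Agent.U162.TS.Ph Pool.Agent.U162.PL Pool.Agent.U162.MU

variable {ν : ℝ} {s : ℝ} {r l : ℝ} {E : ℕ}

lemma ex_bd {ι : Type*} [Fintype ι] {F : ι → ℝ≥0∞} (hF : ∀ q, F q ≠ ⊤) : ∃ a : ℝ, 0 ≤ a ∧ ∀ q, F q ≤ ENNReal.ofReal a :=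
  ⟨∑ q, (F q).toReal, Finset.sum_nonneg fun _ _ => ENNReal.toReal_nonneg, fun q => by
    rw [← ENNReal.ofReal_toReal (hF q)]
    exact ENNReal.ofReal_le_ofReal (Finset.single_le_sum (f := fun q => (F q).toReal) (fun _ _ => ENNReal.toReal_nonneg) (Finset.mem_univ q))⟩

/-- the direction of a scale -/
def qq (j : ℕ) : Fin 3 × Fin 3 := finProdFinEquiv.symm (⟨j % (3 * 3), Nat.mod_lt _ (by norm_num)⟩ : Fin (3 * 3))

lemma sum_qq {M : Type*} [AddCommMonoid M] (n : ℕ) (F : Fin 3 × Fin 3 → M) :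
    ∑ j ∈ Finset.range (n * (3 * 3)), F (qq j) = n • ∑ q, F q := by
  induction n with
  | zero => simp
  | succ n ih =>
    rw [Nat.succ_mul, Finset.sum_range_add, ih, succ_nsmul]
    congr 1
    have e : ∀ x, F (qq (n * (3 * 3) + x)) = F (qq x) := fun x => by
      refine congrArg (fun y : Fin (3 * 3) => F (finProdFinEquiv.symm y)) (Fin.ext ?_)
      show (n * (3 * 3) + x) % (3 * 3) = x % (3 * 3)
      rw [Nat.mul_add_mod_self_right]
    simp only [e]
    rw [Finset.sum_range]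
    have h2 : ∑ x : Fin (3 * 3), F (finProdFinEquiv.symm x) = ∑ q, F q :=
      Equiv.sum_comp (finProdFinEquiv.symm : Fin (3 * 3) ≃ Fin 3 × Fin 3) F
    rw [← h2]
    refine Finset.sum_congr rfl fun x _ => ?_
    exact congrArg (fun y : Fin (3 * 3) => F (finProdFinEquiv.symm y)) (Fin.ext (Nat.mod_eq_of_lt x.2))

lemma sp_ext {f g : R3 → ℝ} (hf : H459R3.NS.SP f) (hg : H459R3.NS.SP g) (h : ∀ k, H459R3.NS.fr f k = H459R3.NS.fr g k) (x : R3) : f x = g x := by
  have h1 := H459R3.NS.S_fr hf x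
  have h2 := H459R3.NS.S_fr hg x
  rw [show H459R3.NS.fr f = H459R3.NS.fr g from funext h, h2] at h1
  exact_mod_cast h1.symm

lemma spf_ext {f g : R3 → R3} (hf : SPF f) (hg : SPF g) (h : ∀ k, H356R3.NS.fc f k = H356R3.NS.fc g k) : f = g := by
  funext x i
  exact sp_ext (hf i) (hg i) (fun k => by rw [fr_eq_fc, fr_eq_fc, h]) x

lemma US_Nc (hs : 1 ≤ s) {S : R3 → R3} {c : ℕ → ℝ} {w : ℕ → R3 → R3} (hS : Field S) (hw : ∀ j, Field (w j)) (J : ℕ) :
    Nc s (US S c w J) ≤ Nc s S + ∑ j ∈ Finset.range J, ENNReal.ofReal |c j| * Nc s (w j) := by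
  induction J with
  | zero => rw [US_zero]; simp
  | succ J ih =>
    have hwJ : SPF (w J) := (hw J).sp
    rw [US_succ, Finset.sum_range_succ, ← add_assoc]
    refine (Nc_add hs (US_field hS hw J).sp (hwJ.smul _)).trans (add_le_add ih ?_)
    rw [Nc_smul (by linarith)]

variable {w T : ℕ → R3 → R3} {a b d k : ℝ} {A : R3 → R3} {J : ℕ}

/-- the displacement of the path -/
lemma MnU_sub (r l : ℝ) (E J : ℕ) (A : R3 → R3) (w T : ℕ → R3 → R3) (θ : ℝ) (t : ℝ) (x : R3) :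
    MnU r l E J A w T t x - US A (fun _ => θ) (fun j => ler (T j)) J x
      = US (fun _ => 0) (fun j => Th r l E j t - θ) (fun j => ler (T j)) J x + US (fun _ => 0) (fun j => Cj r l E j t) w J x := by
  unfold MnU MnS US
  simp only [sub_smul, Finset.sum_sub_distrib]
  abel

lemma MnU_sub0 (r l : ℝ) (E J : ℕ) (A : R3 → R3) (w T : ℕ → R3 → R3) (t : ℝ) (x : R3) :
    MnU r l E J A w T t x - A x
      = US (fun _ => 0) (fun j => Th r l E j t) (fun j => ler (T j)) J x + US (fun _ => 0) (fun j => Cj r l E j t) w J x := by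
  unfold MnU MnS US
  simp only [zero_add]
  abel

lemma Wn_le_wm2 {f : R3 → R3} {k : ℝ} (h : Wm 2 f ≤ ENNReal.ofReal k) : Wn f ≤ ENNReal.ofReal k := (Wn_le_Wm 2 f).trans h

lemma zW {m : ℕ} : Wm m (fun _ : R3 => (0 : R3)) = 0 := by
  have := Wm_smul (m := m) (fun _ : R3 => (0 : R3)) 0
  simpa using this

/-- sums with small coefficients -/
lemma US_small {c : ℕ → ℝ} {w : ℕ → R3 → R3} (hw : ∀ j, Field (w j)) {a e : ℝ} (he : 0 ≤ e) (hwa : ∀ j, Wn (w j) ≤ ENNReal.ofReal a)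
    {J : ℕ} (hc : ∀ j < J, |c j| ≤ e) : Wn (US (fun _ => 0) c w J) ≤ ENNReal.ofReal (J * (e * a)) := by
  rw [← Wm_zero']
  refine (US_Wm field_zero hw 0 J).trans ?_
  rw [zW, zero_add]
  calc ∑ j ∈ Finset.range J, ENNReal.ofReal |c j| * Wm 0 (w j) ≤ ∑ _j ∈ Finset.range J, ENNReal.ofReal (e * a) := by
        refine Finset.sum_le_sum fun j hj => ?_
        rw [Wm_zero', ENNReal.ofReal_mul he]
        exact mul_le_mul' (ENNReal.ofReal_le_ofReal (hc j (Finset.mem_range.1 hj))) (hwa j)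
    _ = _ := by
        rw [Finset.sum_const, Finset.card_range, nsmul_eq_mul, ENNReal.ofReal_mul (p := (J : ℝ)) (Nat.cast_nonneg J), ENNReal.ofReal_natCast]

/-- the size of the mean -/
lemma MnS_bd (hl : 0 < l) (hr : 0 ≤ r) (hr1 : r ≤ 1) (hW : Wb ν s l E w T a b d k) (hA : Field A) {MA : ℝ} (hMA : 0 ≤ MA) (h : Wm 2 A ≤ ENNReal.ofReal MA)
    {t : ℝ} (ht : 0 ≤ t) : Wm 2 (MnS r l E J A T t) ≤ ENNReal.ofReal (MA + J * (1 / (2 * l) * k)) := by
  have hk := hW.k0
  unfold MnS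
  refine (US_Wm hA (fun j => ler_field (hW.sT j)) 2 J).trans ?_
  rw [ENNReal.ofReal_add hMA (by positivity)]
  refine add_le_add h ?_
  calc ∑ j ∈ Finset.range J, ENNReal.ofReal |Th r l E j t| * Wm 2 (ler (T j)) ≤ ∑ _j ∈ Finset.range J, ENNReal.ofReal (1 / (2 * l) * k) := by
        refine Finset.sum_le_sum fun j _ => ?_
        rw [ENNReal.ofReal_mul (by positivity)]
        refine mul_le_mul' (ENNReal.ofReal_le_ofReal ?_) (hW.bk j)
        rw [abs_of_nonneg (Th_nonneg hl r ht j)]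
        refine (Th_le hl r t j).trans ?_
        have : r ^ 2 ≤ 1 := pow_le_one₀ hr hr1
        gcongr
    _ = _ := by
        rw [Finset.sum_const, Finset.card_range, nsmul_eq_mul, ENNReal.ofReal_mul (p := (J : ℝ)) (Nat.cast_nonneg J), ENNReal.ofReal_natCast]

/-- the square of the velocity -/
lemma MnU_sq (hl : 0 < l) (hr : 0 ≤ r) (hr1 : r ≤ 1) (hW : Wb ν s l E w T a b d k) (hA : Field A) {M : ℝ} (hM : 0 ≤ M)
    {t : ℝ} (ht : 0 ≤ t) (hS : Wn (MnS r l E J A T t) ≤ ENNReal.ofReal M) :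
    Wn (MnU r l E J A w T t) ^ 2 ≤ ENNReal.ofReal (2 * M ^ 2) + ∑ j ∈ Finset.range J, ENNReal.ofReal (2 * a ^ 2 * J) * ENNReal.ofReal (psi l E j t) := by
  have ha := hW.a0
  have h1 : Wn (MnU r l E J A w T t) ≤ ENNReal.ofReal (M + a * ∑ j ∈ Finset.range J, Cj r l E j t) := by
    have hc0 : ∀ j, 0 ≤ Cj r l E j t := fun j => Cj_nonneg hr l E j t
    rw [← Wm_zero']
    unfold MnU
    refine (US_Wm (MnS_field hA hW.sT t) hW.fw 0 J).trans ?_
    rw [ENNReal.ofReal_add hM (mul_nonneg ha (Finset.sum_nonneg fun j _ => hc0 j)), Wm_zero', Finset.mul_sum,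
      ENNReal.ofReal_sum_of_nonneg fun j _ => mul_nonneg ha (hc0 j)]
    refine add_le_add hS (Finset.sum_le_sum fun j _ => ?_)
    rw [Wm_zero', mul_comm a, ENNReal.ofReal_mul (hc0 j), abs_of_nonneg (hc0 j)]
    exact mul_le_mul' le_rfl (hW.ba j)
  have hX0 : 0 ≤ ∑ j ∈ Finset.range J, Cj r l E j t := Finset.sum_nonneg fun j _ => Cj_nonneg hr l E j t
  refine (pow_le_pow_left' h1 2).trans ?_
  have h2 : (∑ j ∈ Finset.range J, Cj r l E j t) ^ 2 ≤ J * ∑ j ∈ Finset.range J, psi l E j t := by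
    have h3 := sq_sum_le_card_mul_sum_sq (s := Finset.range J) (f := fun j => Cj r l E j t)
    rw [Finset.card_range] at h3
    refine h3.trans (mul_le_mul_of_nonneg_left (Finset.sum_le_sum fun j _ => Cj_sq hl.le hr hr1 ht j) (Nat.cast_nonneg J))
  rw [← ENNReal.ofReal_pow (by positivity)]
  have hp : ∀ j ∈ Finset.range J, 0 ≤ 2 * a ^ 2 * J * psi l E j t := fun j _ => by have := psi_nonneg l E j t; positivity
  have e : ∑ j ∈ Finset.range J, ENNReal.ofReal (2 * a ^ 2 * J) * ENNReal.ofReal (psi l E j t)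
      = ENNReal.ofReal (∑ j ∈ Finset.range J, 2 * a ^ 2 * J * psi l E j t) := by
    rw [ENNReal.ofReal_sum_of_nonneg hp]
    exact Finset.sum_congr rfl fun j _ => (ENNReal.ofReal_mul (by positivity)).symm
  rw [e, ← ENNReal.ofReal_add (by positivity) (Finset.sum_nonneg hp), ← Finset.mul_sum]
  refine ENNReal.ofReal_le_ofReal ?_
  set X := ∑ j ∈ Finset.range J, Cj r l E j t with hX
  set Y := ∑ j ∈ Finset.range J, psi l E j t with hY
  calc (M + a * X) ^ 2 ≤ 2 * M ^ 2 + 2 * a ^ 2 * X ^ 2 := by nlinarith [sq_nonneg (M - a * X)]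
    _ ≤ 2 * M ^ 2 + 2 * a ^ 2 * (J * Y) := by gcongr
    _ = _ := by ring

/-- integrals of the bursts -/
lemma int_bursts (hl : 0 < l) (E J : ℕ) {c Z x : ℝ} (hc : 0 ≤ c) (hZ : 0 ≤ Z) (hx : 0 ≤ x) :
    ∫⁻ t in Ioo 0 x, (ENNReal.ofReal c + ∑ j ∈ Finset.range J, ENNReal.ofReal Z * ENNReal.ofReal (psi l E j t))
      ≤ ENNReal.ofReal (c * x + J * (Z * (1 / l))) := by
  have hm : ∀ j, Measurable fun t => ENNReal.ofReal Z * ENNReal.ofReal (psi l E j t) := fun j => by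
    refine (ENNReal.measurable_ofReal.comp ?_).const_mul _
    exact Continuous.measurable (by unfold psi; fun_prop)
  rw [lintegral_add_left measurable_const, setLIntegral_const, Real.volume_Ioo, sub_zero, lintegral_finsetSum _ fun j _ => hm j,
    ENNReal.ofReal_add (by positivity) (by positivity), ENNReal.ofReal_mul hc]
  refine add_le_add le_rfl ?_
  calc ∑ j ∈ Finset.range J, ∫⁻ t in Ioo 0 x, ENNReal.ofReal Z * ENNReal.ofReal (psi l E j t)
      ≤ ∑ _j ∈ Finset.range J, ENNReal.ofReal (Z * (1 / l)) := by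
        refine Finset.sum_le_sum fun j _ => ?_
        rw [lintegral_const_mul' _ _ ENNReal.ofReal_ne_top, ENNReal.ofReal_mul hZ]
        refine mul_le_mul' le_rfl ?_
        exact (lintegral_mono_set (fun t ht => ht.1)).trans (int_psi hl E j).le
    _ = _ := by
        rw [Finset.sum_const, Finset.card_range, nsmul_eq_mul, ENNReal.ofReal_mul (p := (J : ℝ)) (Nat.cast_nonneg J), ENNReal.ofReal_natCast]

end Pool.Agent.U162.SF
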