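import Pool.Agent.U162.SF.B7

/-!
Families of waves for a given displacement
-/

open MeasureTheory Set Filter Topology
open scoped ENNReal NNReal ContDiff

namespace Pool.Agent.U162.SF

open Pool.Agent.H356R3.NS Pool.Agent.U162.TS Pool.Agent.U162.GE Pool.Agent.U162.TS.EL Pool.Agent.U162.TS.VF Pool.Agent.U162.TS.Ph Pool.Agent.U162.PL Pool.Agent.U162.MU

variable {ν : ℝ} {s : ℝ}

lemma dr3_two (q : Fin 3 × Fin 3) (i : Fin 3) : |dr3 q i| ≤ 2 := by
  have := dr3_le q i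
  split_ifs at this <;> linarith

lemma wc3 {γ : R3 → ℝ} (hγ : H459R3.NS.SP γ) (q : Fin 3 × Fin 3) {N : ℕ} (hN : 0 < N) : Wc γ (m3 q) (dr3 q) N :=
  ⟨hγ, m3_ne q, m3_dr q, dr3_two q, hN⟩

lemma lam_pos (hν : 0 < ν) : 0 < lam ν := by unfold lam; positivity

lemma mu_eq (q : Fin 3 × Fin 3) (N : ℕ) : 4 * Real.pi ^ 2 * ν * H356R3.NS.sq ((N : ℤ) • m3 q) = lam ν * (N : ℝ) ^ 2 := by
  rw [← H356R3.NS.nk_sq, nk_nsmul, mul_pow, nk_m3]
  unfold lam
  ring

/-- families of waves which produce a given displacement -/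
theorem fam (hν : 0 < ν) (hs : 2 < s) {A B : R3 → R3} (hA : Field A) (hB : Field B) {δ₁ : ℝ} (hδ₁ : 0 < δ₁) :
    ∃ (J : ℕ) (ρ l a b d k : ℝ) (T : ℕ → R3 → R3) (w : ℕ → ℕ → R3 → R3), 0 < l ∧ 0 ≤ ρ ∧ ρ ≤ 1 ∧
      (∀ E, Wb ν s l E (w E) T a b d k) ∧ US A (fun _ => ρ ^ 2 / (2 * l)) (fun j => ler (T j)) J = B ∧
      (∀ E, 0 < E → ∀ t, 0 ≤ t → Nc s (US (fun _ => 0) (fun j => Cj ρ l E j t) (w E) J) ≤ ENNReal.ofReal δ₁) ∧
      ∀ E t, 0 ≤ t → Nc s (US (fun _ => 0) (fun j => Th ρ l E j t) (fun j => ler (T j)) J) ≤ ENNReal.ofReal 1440 * Wn (fun x => B x - A x) := by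
  have hs1 : 1 ≤ s := by linarith
  have hs0 : 0 < s := by linarith
  have hl := lam_pos hν
  set l := lam ν with hld
  have hd : Dta fun k => H356R3.NS.fc B k + (-1 : ℝ) • H356R3.NS.fc A k := dta_add hB.dta (dta_smul hA.dta (-1))
  obtain ⟨γ, hγ, hsum, hNk⟩ := waves hν hd
  have hP : ∀ q, Profile (fun x => sh ν (γ q x) (m3 q) (dr3 q) 0) := fun q => sh_profile ν (hγ q) (m3_ne q) (m3_dr q)
  have hC : ∑ q, CV (fun x => sh ν (γ q x) (m3 q) (dr3 q) 0) ≠ ⊤ := by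
    rw [ENNReal.sum_ne_top]
    exact fun q _ => CV_fin (hP q)
  obtain ⟨n, hn, hn2⟩ := ex_scales hC hs hδ₁
  have hnp : (0 : ℝ) < n := by exact_mod_cast hn
  have hn1 : (1 : ℝ) ≤ n := by exact_mod_cast hn
  set ρ := 1 / Real.sqrt n with hρ
  have hρ0 : 0 ≤ ρ := by positivity
  have hρ2 : ρ ^ 2 = 1 / n := by rw [hρ, div_pow, Real.sq_sqrt hnp.le]; norm_num
  have hρ1 : ρ ≤ 1 := by
    rw [hρ, div_le_one (by positivity)]
    exact Real.one_le_sqrt.2 hn1
  have hTs : ∀ q, SPF (Tz (γ q) (dr3 q)) := fun q => Tz_spf (hγ q)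
  obtain ⟨a, ha0, ha⟩ := ex_bd (F := fun q => ENNReal.ofReal 8 * Ap 0 (γ q)) fun q => ENNReal.mul_ne_top ENNReal.ofReal_ne_top (Ap_fin (hγ q) 0)
  obtain ⟨b, hb0, hb⟩ := ex_bd (F := fun q => ENNReal.ofReal (64 * Real.pi ^ 2 * ν) * Ap 3 (γ q)) fun q =>
    ENNReal.mul_ne_top ENNReal.ofReal_ne_top (Ap_fin (hγ q) 3)
  obtain ⟨d, hd0, hdd⟩ := ex_bd (F := fun q => ENNReal.ofReal 7200 * (Ap 2 (γ q) ^ 2 + Ap 2 (fun x => γ q x * γ q x))) fun q =>
    ENNReal.mul_ne_top ENNReal.ofReal_ne_top (ENNReal.add_ne_top.2 ⟨ENNReal.pow_ne_top (Ap_fin (hγ q) 2), Ap_fin ((hγ q).mul (hγ q)) 2⟩)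
  obtain ⟨k, hk0, hk⟩ := ex_bd (F := fun q => Wm 2 (ler (Tz (γ q) (dr3 q)))) fun q => Wm_fin (ler_field (hTs q)).sp 2
  have hwf : ∀ E j, Field (ler (zz ν (γ (qq j)) (m3 (qq j)) (dr3 (qq j)) (Nj E j))) := fun E j => ler_field (zz_spf (hγ _))
  refine ⟨n * (3 * 3), ρ, l, a, b, d, k, fun j => Tz (γ (qq j)) (dr3 (qq j)), fun E j => ler (zz ν (γ (qq j)) (m3 (qq j)) (dr3 (qq j)) (Nj E j)),
    hl, hρ0, hρ1, fun E => ?_, ?_, fun E hE t ht => ?_, fun E t ht => ?_⟩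
  · refine ⟨hwf E, fun j => hTs _, fun j => ?_, ha0, hb0, hd0, hk0, fun j => ?_, fun j => ?_, fun j => ?_, fun j => hk _⟩
    · funext i
      unfold Tz
      rw [fc_dv fun j' i' => sp_const_mul ((hγ (qq j)).mul (hγ (qq j))) _]
      simp
    · exact (wv_E1 (wc3 (hγ _) _ (Nj_pos E j))).trans (ha _)
    · have h1 := wv_E4 hν hs1 (wc3 (hγ (qq j)) (qq j) (Nj_pos E j))
      rw [mu_eq] at h1
      exact h1.trans (hb _)
    · refine (wv_E5 hs1 (wc3 (hγ (qq j)) (qq j) (Nj_pos E j))).trans ?_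
      have h1 := hdd (qq j)
      have hN : (0 : ℝ) < Nj E j := by exact_mod_cast Nj_pos E j
      calc ENNReal.ofReal (7200 / Nj E j) * (Ap 2 (γ (qq j)) ^ 2 + Ap 2 fun x => γ (qq j) x * γ (qq j) x)
          = ENNReal.ofReal (1 / Nj E j) * (ENNReal.ofReal 7200 * (Ap 2 (γ (qq j)) ^ 2 + Ap 2 fun x => γ (qq j) x * γ (qq j) x)) := by
            rw [← mul_assoc, ← ENNReal.ofReal_mul (by positivity)]
            congr 2
            ring
        _ ≤ ENNReal.ofReal (1 / Nj E j) * ENNReal.ofReal d := mul_le_mul' le_rfl h1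
        _ = _ := by
            rw [← ENNReal.ofReal_mul (by positivity)]
            congr 1
            ring
  · -- the displacement
    have hfK : ∀ j, Field (ler (Tz (γ (qq j)) (dr3 (qq j)))) := fun j => ler_field (hTs _)
    refine spf_ext (US_field hA hfK _).sp hB.sp fun κ => ?_
    have e1 : H356R3.NS.fc (US A (fun _ => ρ ^ 2 / (2 * l)) (fun j => ler (Tz (γ (qq j)) (dr3 (qq j)))) (n * (3 * 3))) κ
        = H356R3.NS.fc A κ + ∑ j ∈ Finset.range (n * (3 * 3)), (ρ ^ 2 / (2 * l)) • H356R3.NS.fc (ler (Tz (γ (qq j)) (dr3 (qq j)))) κ := by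
      have e0 : US A (fun _ => ρ ^ 2 / (2 * l)) (fun j => ler (Tz (γ (qq j)) (dr3 (qq j)))) (n * (3 * 3))
          = fun x => A x + (fun x => ∑ j ∈ Finset.range (n * (3 * 3)), (ρ ^ 2 / (2 * l)) • ler (Tz (γ (qq j)) (dr3 (qq j))) x) x := rfl
      rw [e0, fc_add hA.sp (spf_sum (fun j => SPF.smul (hfK j).sp _) _), fc_sum (fun j => SPF.smul (hfK j).sp _)]
      congr 1
      exact Finset.sum_congr rfl fun j _ => fc_smul _ _ _
    rw [e1, ← Finset.smul_sum, sum_qq n fun q => H356R3.NS.fc (ler (Tz (γ q) (dr3 q))) κ, hsum κ, ← Nat.cast_smul_eq_nsmul ℝ, smul_smul, smul_smul]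
    have e2 : ρ ^ 2 / (2 * l) * (n : ℝ) * (2 * lam ν) = 1 := by
      rw [hρ2, ← hld]; field_simp
    rw [e2, one_smul, neg_one_smul]
    abel
  · -- the critical norm of the waves
    have hCq : ∀ q, CV (fun x => sh ν (γ q x) (m3 q) (dr3 q) 0) ≤ ∑ q, CV (fun x => sh ν (γ q x) (m3 q) (dr3 q) 0) := fun q =>
      Finset.single_le_sum (f := fun q => CV (fun x => sh ν (γ q x) (m3 q) (dr3 q) 0)) (fun _ _ => bot_le) (Finset.mem_univ q)
    have hinj : Function.Injective fun j : ℕ => E * (j + 1) := fun i j hij => by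
      have : i + 1 = j + 1 := Nat.eq_of_mul_eq_mul_left hE hij
      omega
    have hsup := crit_superN (P := fun j x => sh ν (γ (qq j) x) (m3 (qq j)) (dr3 (qq j)) 0) (fun j => hP _) (fun j => hCq _) (by linarith : 1 < s)
      (r := ρ) (c := fun j => ρ * Real.exp (-(l * (Nj E j : ℝ) ^ 2 * t))) (fun j => by positivity)
      (fun j => mul_le_of_le_one_right hρ0 (exp_le1 hl.le ht j)) hinj (n * (3 * 3))
    refine le_trans (le_of_eq ?_) (hsup.trans (le_trans (le_of_eq ?_) hn2))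
    · unfold Nc
      congr 1
      funext κ
      have e0 : US (fun _ => 0) (fun j => Cj ρ l E j t) (fun j => ler (zz ν (γ (qq j)) (m3 (qq j)) (dr3 (qq j)) (Nj E j))) (n * (3 * 3))
          = fun x => ∑ j ∈ Finset.range (n * (3 * 3)), Cj ρ l E j t • ler (zz ν (γ (qq j)) (m3 (qq j)) (dr3 (qq j)) (Nj E j)) x := by
        funext x; unfold US; rw [zero_add]
      rw [e0, fc_sum (fun j => SPF.smul (hwf E j).sp _)]
      refine Finset.sum_congr rfl fun j _ => ?_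
      have h1 := dosc_zz (ν := ν) (hγ (qq j)) (m3 (qq j)) (dr3 (qq j)) (Nj E j) κ
      rw [fc_smul] at h1 ⊢
      show _ = (ρ * Real.exp (-(l * (Nj E j : ℝ) ^ 2 * t))) • dosc _ (Nj E j) κ
      rw [← h1, smul_smul]
      congr 1
      unfold Cj
      ring
    · congr 2
      · push_cast
        congr 1
        ring
  · -- the mean
    have hfK : ∀ j, Field (ler (Tz (γ (qq j)) (dr3 (qq j)))) := fun j => ler_field (hTs _)
    have hW : ∑' κ, ‖(H356R3.NS.fc B κ + (-1 : ℝ) • H356R3.NS.fc A κ)‖ₑ = Wn (fun x => B x - A x) := by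
      unfold Wn
      refine tsum_congr fun κ => ?_
      rw [fc_sub hB.sp hA.sp, neg_one_smul, sub_eq_add_neg]
    refine (US_Nc hs1 field_zero hfK _).trans ?_
    rw [Nc_zero hs0, zero_add]
    calc ∑ j ∈ Finset.range (n * (3 * 3)), ENNReal.ofReal |Th ρ l E j t| * Nc s (ler (Tz (γ (qq j)) (dr3 (qq j))))
        ≤ ∑ _j ∈ Finset.range (n * (3 * 3)), ENNReal.ofReal (1 / n * 160) * Wn (fun x => B x - A x) := by
          refine Finset.sum_le_sum fun j _ => ?_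
          have h1 := hNk s hs1 (qq j)
          rw [hW] at h1
          refine (mul_le_mul' (ENNReal.ofReal_le_ofReal (q := 1 / n / (2 * l)) ?_) h1).trans (le_of_eq ?_)
          · rw [abs_of_nonneg (Th_nonneg hl ρ ht j), ← hρ2]
            exact Th_le hl ρ t j
          · rw [← mul_assoc, ← ENNReal.ofReal_mul (by positivity), ← hld]
            congr 2
            field_simp
      _ = ENNReal.ofReal 1440 * Wn (fun x => B x - A x) := by
          rw [Finset.sum_const, Finset.card_range, nsmul_eq_mul, ← mul_assoc, ← ENNReal.ofReal_natCast, ← ENNReal.ofReal_mul (Nat.cast_nonneg _)]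
          congr 2
          push_cast
          field_simp
          norm_num

end Pool.Agent.U162.SF
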