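import Pool.Agent.U162.SF.B8

/-!
Jumps whose path stays close to the start in the critical norms
-/

open MeasureTheory Set Filter Topology
open scoped ENNReal NNReal ContDiff

namespace Pool.Agent.U162.SF

open Pool.Agent.H356R3.NS Pool.Agent.U162.TS Pool.Agent.U162.GE Pool.Agent.U162.TS.EL Pool.Agent.U162.TS.VF Pool.Agent.U162.TS.Ph Pool.Agent.U162.PL Pool.Agent.U162.MU

variable {ν : ℝ} {s : ℝ}

lemma Wn_comm (a b : R3 → R3) : Wn (fun x => a x - b x) = Wn (fun x => b x - a x) := by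
  have h := Wn_smul (fun x => b x - a x) (-1)
  have e : (fun x => (-1 : ℝ) • (b x - a x)) = fun x => a x - b x := by
    funext x; rw [neg_one_smul, neg_sub]
  rw [e] at h
  rw [h]; simp

lemma ofR_le_one {r : ℝ} {x : ℝ≥0∞} (hr : |r| ≤ 1) : ENNReal.ofReal |r| * x ≤ x := by
  calc ENNReal.ofReal |r| * x ≤ 1 * x := by
        refine mul_le_mul' ?_ le_rfl
        rw [← ENNReal.ofReal_one]; exact ENNReal.ofReal_le_ofReal hr
    _ = x := one_mul _

/-- a joined path stays close to a given field -/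
lemma Nc_bu (hs : 1 ≤ s) {a b : ℝ} {u₁ u₂ : ℝ → R3 → R3} {A : R3 → R3} {t : ℝ} (h1 : SPF (u₁ t)) (h2 : SPF (u₂ t)) (hA : SPF A) :
    Nc s (fun x => bu a b u₁ u₂ t x - A x) ≤ Nc s (fun x => u₁ t x - A x) + Nc s (fun x => u₂ t x - A x) := by
  have n0 := th_nonneg a b t
  have n1 := th_le_one a b t
  have e : (fun x => bu a b u₁ u₂ t x - A x) = fun x => (1 - th a b t) • (u₁ t x - A x) + th a b t • (u₂ t x - A x) := by
    funext x
    unfold bu dif
    rw [sub_smul, one_smul, smul_sub, smul_sub, smul_sub]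
    abel
  rw [e]
  refine (Nc_add hs ((h1.sub hA).smul _) ((h2.sub hA).smul _)).trans ?_
  rw [Nc_smul (by linarith), Nc_smul (by linarith)]
  refine add_le_add (ofR_le_one ?_) (ofR_le_one ?_)
  · rw [abs_of_nonneg (by linarith)]; linarith
  · rw [abs_of_nonneg n0]; exact n1

/-- the bursts -/
theorem burst (hν : 0 < ν) (hs : 2 < s) {A B : R3 → R3} (hA : Field A) (hB : Field B) {δ₁ : ℝ} (hδ₁p : 0 < δ₁) :
    ∃ EE RS : ℝ, 0 ≤ EE ∧ 0 ≤ RS ∧ ∀ T₁ : ℝ, 0 < T₁ → 2 * T₁ ≤ 1 → ∀ e : ℝ, 0 < e →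
      ∃ (F U : ℝ → R3 → R3) (P : ℝ → R3 → ℝ) (M' τ₀ : ℝ), 0 ≤ M' ∧ 0 < τ₀ ∧ PthOn ν univ F U P ∧
        ∫⁻ t in Ioo 0 (2 * T₁), Nc s (F t) ≤ ENNReal.ofReal (RS * (2 * T₁) + e) ∧
        ∫⁻ t in Ioo 0 (2 * T₁), Wn (U t) ^ 2 ≤ ENNReal.ofReal EE ∧
        (∀ t, 0 ≤ t → Wn (fun x => U t x - A x) ≤ ENNReal.ofReal M') ∧
        (∀ t, 0 ≤ t → Nc s (fun x => U t x - A x) ≤ ENNReal.ofReal 1440 * Wn (fun x => B x - A x) + ENNReal.ofReal δ₁) ∧
        (∀ t, 0 ≤ t → t ≤ τ₀ → Nc s (fun x => U t x - A x) ≤ ENNReal.ofReal (2 * δ₁)) ∧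
        ∀ t, T₁ ≤ t → Wn (fun x => B x - U t x) ≤ ENNReal.ofReal e := by
  have hs1 : 1 ≤ s := by linarith
  have hs0 : 0 < s := by linarith
  have hAs : SPF A := hA.sp
  have hBs : SPF B := hB.sp
  set WA := (Wn A).toReal with hWAd
  set MA := (Wm 2 A).toReal with hMAd
  have hWA0 : 0 ≤ WA := ENNReal.toReal_nonneg
  have hMA0 : 0 ≤ MA := ENNReal.toReal_nonneg
  have eWA : Wn A = ENNReal.ofReal WA := (ENNReal.ofReal_toReal (Wn_fin hAs)).symm
  have eMA : Wm 2 A = ENNReal.ofReal MA := (ENNReal.ofReal_toReal (Wm_fin hAs 2)).symm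
  obtain ⟨J, ρ, l, a, b, d, k, T, w, hl, hρ0, hρ1, hW, hB', hcrit, hmean⟩ := fam hν hs hA hB hδ₁p
  have ha := (hW 0).a0
  have hb := (hW 0).b0
  have hd := (hW 0).d0
  have hk := (hW 0).k0
  set M := MA + J * (1 / (2 * l) * k) with hM
  have hM0 : 0 ≤ M := by positivity
  set RS := 60 * M ^ 2 + 400 * |ν| * M with hRS
  have hRS0 : 0 ≤ RS := by positivity
  set Z := d + b + 240 * a * (M + J * a) with hZ
  have hZ0 : 0 ≤ Z := by positivity
  have hSm : ∀ E t, 0 ≤ t → Wm 2 (MnS ρ l E J A T t) ≤ ENNReal.ofReal M := fun E t ht => MnS_bd hl hρ0 hρ1 (hW E) hA hMA0 eMA.le ht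
  have hSn : ∀ E t, 0 ≤ t → Wn (MnS ρ l E J A T t) ≤ ENNReal.ofReal M := fun E t ht => Wn_le_wm2 (hSm E t ht)
  have hRSb : ∀ E t, 0 ≤ t → Nc s (Rs ν (MnS ρ l E J A T t)) ≤ ENNReal.ofReal RS := fun E t ht =>
    (Nc_le_Wn hs1 _).trans (Wn_Rs (MnS_field hA (hW E).sT t).sp hM0 (hSm E t ht))
  set EE := 2 * M ^ 2 + J * (2 * a ^ 2 * J * (1 / l)) with hEE
  have hEE0 : 0 ≤ EE := by positivity
  refine ⟨EE, RS, hEE0, hRS0, fun T₁ hT₁ hT₁1 e he => ?_⟩
  -- the scale separation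
  set Y := J * (Z * (1 / l)) + (J * (1 / (2 * l) * (1 / (l * T₁)) * k) + J * (1 / (l * T₁) * a)) with hY
  have hY0 : 0 ≤ Y := by positivity
  obtain ⟨E, hE0, hE⟩ : ∃ E : ℕ, 0 < E ∧ Y / 2 ^ E ≤ e := by
    have h1 : 0 < e / (Y + 1) := by positivity
    obtain ⟨n, hn⟩ := exists_pow_lt_of_lt_one h1 (show (1 / 2 : ℝ) < 1 by norm_num)
    refine ⟨n + 1, Nat.succ_pos n, ?_⟩
    rw [lt_div_iff₀ (by positivity)] at hn
    have h2 : Y / 2 ^ (n + 1) ≤ (1 / 2) ^ n * (Y + 1) := by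
      have e : Y / 2 ^ (n + 1) = (1 / 2) ^ (n + 1) * Y := by rw [one_div_pow]; ring
      rw [e, pow_succ]
      have : (0 : ℝ) < (1 / 2) ^ n := by positivity
      nlinarith
    exact h2.trans hn.le
  have h2E : (0 : ℝ) < 2 ^ E := by positivity
  set om := J * (1 / (2 * l) * (1 / (l * T₁ * 2 ^ E)) * k) + J * (1 / (l * T₁ * 2 ^ E) * a) with hom
  have hom0 : 0 ≤ om := by positivity
  have homY : om ≤ Y / 2 ^ E := by
    have e : Y / 2 ^ E = J * (Z * (1 / l)) / 2 ^ E + om := by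
      rw [hY, hom]; field_simp
    rw [e]
    have : 0 ≤ J * (Z * (1 / l)) / 2 ^ E := by positivity
    linarith
  have hZY : J * (Z / 2 ^ E * (1 / l)) ≤ Y / 2 ^ E := by
    have e : Y / 2 ^ E = J * (Z / 2 ^ E * (1 / l)) + om := by
      rw [hY, hom]; field_simp
    rw [e]; linarith
  -- the path
  have hWE := hW E
  have PU : PthOn ν univ (MnF ν ρ l E J A (w E) T) (MnU ρ l E J A (w E) T) (MnP ρ l E J T) := MnU_pth hl.ne' hA hWE.fw hWE.sT hWE.mT
  have sU : ∀ t, SPF (MnU ρ l E J A (w E) T t) := fun t => PU.spu trivial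
  have sK : ∀ j, Field (ler (T j)) := fun j => ler_field (hWE.sT j)
  set NN := ∑ j ∈ Finset.range J, (Nj E j : ℝ) with hNN
  have hNN0 : 0 ≤ NN := Finset.sum_nonneg fun j _ => Nat.cast_nonneg _
  have hNNj : ∀ j < J, (Nj E j : ℝ) ≤ NN := fun j hj =>
    Finset.single_le_sum (f := fun j => (Nj E j : ℝ)) (fun _ _ => Nat.cast_nonneg _) (Finset.mem_range.2 hj)
  have hsub : ∀ t, (fun x => MnU ρ l E J A (w E) T t x - A x) = fun x => US (fun _ => 0) (fun j => Th ρ l E j t) (fun j => ler (T j)) J x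
        + US (fun _ => 0) (fun j => Cj ρ l E j t) (w E) J x := fun t => funext fun x => MnU_sub0 ρ l E J A (w E) T t x
  have hadd : ∀ t {c₁ c₂ : ℝ≥0∞}, Nc s (US (fun _ => 0) (fun j => Th ρ l E j t) (fun j => ler (T j)) J) ≤ c₁ →
      Nc s (US (fun _ => 0) (fun j => Cj ρ l E j t) (w E) J) ≤ c₂ → Nc s (fun x => MnU ρ l E J A (w E) T t x - A x) ≤ c₁ + c₂ := by
    intro t c₁ c₂ h1 h2
    rw [hsub]
    exact (Nc_add hs1 (US_field field_zero sK J).sp (US_field field_zero hWE.fw J).sp).trans (add_le_add h1 h2)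
  refine ⟨MnF ν ρ l E J A (w E) T, MnU ρ l E J A (w E) T, MnP ρ l E J T, WA + (M + J * (NN * a)), δ₁ / (J * (NN ^ 2 * k) + 1), by positivity,
    by positivity, PU, ?_, ?_, fun t ht => ?_, fun t ht => hadd t (hmean E t ht) (hcrit E hE0 t ht), fun t ht htτ => ?_, fun t ht => ?_⟩
  · have hFb : ∀ t ∈ Ioo 0 (2 * T₁), Nc s (MnF ν ρ l E J A (w E) T t) ≤ ENNReal.ofReal RS
        + ∑ j ∈ Finset.range J, ENNReal.ofReal (Z / 2 ^ E) * ENNReal.ofReal (psi l E j t) := fun t ht =>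
      (F_bd hs1 hl hρ0 hρ1 hWE hA ht.1.le hM0 (hSn E t ht.1.le)).trans (add_le_add (hRSb E t ht.1.le) le_rfl)
    refine (setLIntegral_mono' measurableSet_Ioo hFb).trans ((int_bursts hl E J hRS0 (by positivity) (by positivity)).trans ?_)
    refine ENNReal.ofReal_le_ofReal ?_
    linarith
  · have hpt : ∀ t ∈ Ioo 0 (2 * T₁), Wn (MnU ρ l E J A (w E) T t) ^ 2 ≤ ENNReal.ofReal (2 * M ^ 2)
        + ∑ j ∈ Finset.range J, ENNReal.ofReal (2 * a ^ 2 * J) * ENNReal.ofReal (psi l E j t) := fun t ht =>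
      MnU_sq hl hρ0 hρ1 hWE hA hM0 ht.1.le (hSn E t ht.1.le)
    refine (setLIntegral_mono' measurableSet_Ioo hpt).trans ((int_bursts hl E J (by positivity) (by positivity) (by positivity)).trans ?_)
    refine ENNReal.ofReal_le_ofReal ?_
    have : (2 * M ^ 2) * (2 * T₁) ≤ 2 * M ^ 2 := mul_le_of_le_one_right (by positivity) hT₁1
    linarith
  · refine (Wn_sub (sU t) hAs).trans ?_
    rw [add_comm, ENNReal.ofReal_add hWA0 (by positivity), ENNReal.ofReal_add hM0 (by positivity), ← eWA]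
    refine add_le_add le_rfl ?_
    have e : MnU ρ l E J A (w E) T t = fun x => MnS ρ l E J A T t x + US (fun _ => 0) (fun j => Cj ρ l E j t) (w E) J x := by
      funext x
      unfold MnU US
      rw [zero_add]
    rw [e]
    refine (Wn_add (MnS_field hA hWE.sT t).sp (US_field field_zero hWE.fw J).sp).trans (add_le_add (hSn E t ht) ?_)
    refine US_small hWE.fw hNN0 hWE.ba fun j hj => ?_
    rw [abs_of_nonneg (Cj_nonneg hρ0 l E j t)]
    exact (Cj_le hl.le hρ0 hρ1 ht j).trans (hNNj j hj)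
  · rw [two_mul, ENNReal.ofReal_add hδ₁p.le hδ₁p.le]
    refine hadd t ?_ (hcrit E hE0 t ht)
    refine (Nc_le_Wn hs1 _).trans ((US_small sK (e := NN ^ 2 * t) (by positivity)
      (fun j => Wn_le_wm2 (hWE.bk j)) fun j hj => ?_).trans (ENNReal.ofReal_le_ofReal ?_))
    · rw [abs_of_nonneg (Th_nonneg hl ρ ht j)]
      refine (Th_small hl ρ j).trans ?_
      have h3 : ρ ^ 2 ≤ 1 := pow_le_one₀ hρ0 hρ1
      have h4 := hNNj j hj
      calc ρ ^ 2 * (Nj E j : ℝ) ^ 2 * t ≤ 1 * NN ^ 2 * t := by gcongr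
        _ = _ := by ring
    · have hX : 0 < J * (NN ^ 2 * k) + 1 := by positivity
      calc (J : ℝ) * (NN ^ 2 * t * k) = t * (J * (NN ^ 2 * k)) := by ring
        _ ≤ t * (J * (NN ^ 2 * k) + 1) := mul_le_mul_of_nonneg_left (by linarith) ht
        _ ≤ δ₁ / (J * (NN ^ 2 * k) + 1) * (J * (NN ^ 2 * k) + 1) := mul_le_mul_of_nonneg_right htτ hX.le
        _ = δ₁ := by field_simp
  · have ht0 : 0 < t := by linarith
    have hlt : 1 / (l * t * 2 ^ E) ≤ 1 / (l * T₁ * 2 ^ E) := by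
      refine one_div_le_one_div_of_le (by positivity) ?_
      gcongr
    rw [Wn_comm]
    have e1 : (fun x => MnU ρ l E J A (w E) T t x - B x) = fun x => US (fun _ => 0) (fun j => Th ρ l E j t - ρ ^ 2 / (2 * l)) (fun j => ler (T j)) J x
        + US (fun _ => 0) (fun j => Cj ρ l E j t) (w E) J x := by
      funext x
      rw [← MnU_sub ρ l E J A (w E) T (ρ ^ 2 / (2 * l)) t x, hB']
    rw [e1]
    refine le_trans ?_ (ENNReal.ofReal_le_ofReal (homY.trans hE))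
    rw [hom, ENNReal.ofReal_add (by positivity) (by positivity)]
    refine (Wn_add (US_field field_zero sK J).sp (US_field field_zero hWE.fw J).sp).trans (add_le_add ?_ ?_)
    · refine US_small sK (by positivity) (fun j => Wn_le_wm2 (hWE.bk j)) fun j hj => ?_
      refine (Th_late hl hρ0 hρ1 ht0 j).trans ?_
      gcongr
    · refine US_small hWE.fw (by positivity) hWE.ba fun j hj => ?_
      rw [abs_of_nonneg (Cj_nonneg hρ0 l E j t)]
      exact (Cj_late hl hρ1 ht0 j).trans hlt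

end Pool.Agent.U162.SF
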