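import Pool.Agent.U162.SF.Path

/-!
How to pass from one forced solution to another one
-/

open MeasureTheory Set Filter Topology
open scoped ENNReal NNReal ContDiff

namespace Pool.Agent.U162.SF

open Pool.Agent.H356R3.NS Pool.Agent.U162.TS Pool.Agent.U162.GE Pool.Agent.U162.TS.EL Pool.Agent.U162.TS.VF Pool.Agent.U162.TS.Ph Pool.Agent.U162.PL Pool.Agent.U162.MU

variable {ν a b : ℝ} {I : Set ℝ} {f₁ u₁ f₂ u₂ : ℝ → R3 → R3} {p₁ p₂ : ℝ → R3 → ℝ}

/-- the difference of two paths -/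
def dif (u₁ u₂ : ℝ → R3 → R3) (t : ℝ) (x : R3) : R3 := u₂ t x - u₁ t x

/-- the velocity of the joined path -/
noncomputable def bu (a b : ℝ) (u₁ u₂ : ℝ → R3 → R3) (t : ℝ) (x : R3) : R3 := u₁ t x + th a b t • dif u₁ u₂ t x

/-- the pressure of the joined path -/
noncomputable def bp (a b : ℝ) (p₁ p₂ : ℝ → R3 → ℝ) (t : ℝ) (x : R3) : ℝ := p₁ t x + th a b t * (p₂ t x - p₁ t x)

/-- the force of the joined path -/
noncomputable def bf (a b : ℝ) (f₁ u₁ f₂ u₂ : ℝ → R3 → R3) (t : ℝ) (x : R3) : R3 :=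
  ((1 - th a b t) • f₁ t x + th a b t • f₂ t x) + (deriv (th a b) t • dif u₁ u₂ t x
    + (-(th a b t * (1 - th a b t))) • adv (dif u₁ u₂ t) x)

lemma bu_left (hab : a < b) {t : ℝ} (ht : t ≤ a) : bu a b u₁ u₂ t = u₁ t := by
  funext x
  unfold bu
  rw [th_left hab ht, zero_smul, add_zero]

lemma bu_right (hab : a < b) {t : ℝ} (ht : b ≤ t) : bu a b u₁ u₂ t = u₂ t := by
  funext x
  unfold bu dif
  rw [th_right hab ht, one_smul, add_sub_cancel]

lemma bp_left (hab : a < b) {t : ℝ} (ht : t ≤ a) : bp a b p₁ p₂ t = p₁ t := by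
  funext x
  unfold bp
  rw [th_left hab ht, zero_mul, add_zero]

lemma bp_right (hab : a < b) {t : ℝ} (ht : b ≤ t) : bp a b p₁ p₂ t = p₂ t := by
  funext x
  unfold bp
  rw [th_right hab ht, one_mul, add_sub_cancel]

lemma bf_left (hab : a < b) {t : ℝ} (ht : t ≤ a) : bf a b f₁ u₁ f₂ u₂ t = f₁ t := by
  funext x
  unfold bf
  rw [th_deriv0 (th_left hab ht), th_left hab ht]
  simp

lemma bf_right (hab : a < b) {t : ℝ} (ht : b ≤ t) : bf a b f₁ u₁ f₂ u₂ t = f₂ t := by
  funext x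
  unfold bf
  rw [th_deriv1 (th_right hab ht), th_right hab ht]
  simp

lemma dif_spf (h1 : PthOn ν univ f₁ u₁ p₁) (h2 : PthOn ν I f₂ u₂ p₂) {t : ℝ} (ht : t ∈ I) : SPF (dif u₁ u₂ t) :=
  (h2.spu ht).sub (h1.spu trivial)

lemma dif_div (h1 : PthOn ν univ f₁ u₁ p₁) (h2 : PthOn ν I f₂ u₂ p₂) {t : ℝ} (ht : t ∈ I) (x : R3) :
    ∑ i, pd i (fun y => dif u₁ u₂ t y i) x = 0 := by
  have e : ∀ i, pd i (fun y => dif u₁ u₂ t y i) x = pd i (fun y => u₂ t y i) x - pd i (fun y => u₁ t y i) x := by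
    intro i
    unfold H356R3.NS.pd
    have := fderiv_fun_sub ((h2.spu ht i).diff x) ((h1.spu (t := t) trivial i).diff x)
    show fderiv ℝ (fun y => u₂ t y i - u₁ t y i) x (Pi.single i 1) = _
    rw [this]; rfl
  simp only [e]
  rw [Finset.sum_sub_distrib, h2.dv t ht x, h1.dv t trivial x, sub_zero]

lemma pd_comb {g h : R3 → ℝ} (hg : H459R3.NS.SP g) (hh : H459R3.NS.SP h) (c : ℝ) (j : Fin 3) :
    pd j (fun y => g y + c * (h y - g y)) = fun x => pd j g x + c * (pd j h x - pd j g x) := by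
  funext x
  unfold H356R3.NS.pd
  have h1 : HasFDerivAt g (fderiv ℝ g x) x := (hg.diff x).hasFDerivAt
  have h2 : HasFDerivAt h (fderiv ℝ h x) x := (hh.diff x).hasFDerivAt
  have h3 := h1.add ((h2.sub h1).const_mul c)
  have h4 : HasFDerivAt (fun y => g y + c * (h y - g y)) (fderiv ℝ g x + c • (fderiv ℝ h x - fderiv ℝ g x)) x := h3
  rw [h4.fderiv]
  rfl

/-- the joined path over the times in `I` -/
lemma blend_I (h1 : PthOn ν univ f₁ u₁ p₁) (h2 : PthOn ν I f₂ u₂ p₂) :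
    PthOn ν I (bf a b f₁ u₁ f₂ u₂) (bu a b u₁ u₂) (bp a b p₁ p₂) := by
  have hθ : ∀ z : ℝ × R3, ContDiffAt ℝ ∞ (fun z : ℝ × R3 => th a b z.1) z := fun z =>
    ((th_smooth a b).comp contDiff_fst).contDiffAt
  have hθ' : ∀ z : ℝ × R3, ContDiffAt ℝ ∞ (fun z : ℝ × R3 => deriv (th a b) z.1) z := fun z =>
    (((contDiff_infty_iff_deriv.1 (th_smooth a b)).2).comp contDiff_fst).contDiffAt
  have hdif : ∀ t ∈ I, ∀ x, ContDiffAt ℝ ∞ (fun z : ℝ × R3 => dif u₁ u₂ z.1 z.2) (t, x) := fun t ht x =>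
    (h2.su t ht x).sub (h1.su t trivial x)
  have hadv : ∀ t ∈ I, ∀ x, ContDiffAt ℝ ∞ (fun z : ℝ × R3 => adv (dif u₁ u₂ z.1) z.2) (t, x) := by
    intro t ht x
    rw [contDiffAt_pi]
    intro i
    unfold adv
    refine ContDiffAt.sum fun j _ => (comp_joint (hdif t ht x) j).mul ?_
    exact pd_joint (g := fun t x => dif u₁ u₂ t x i) (comp_joint (hdif t ht x) i) j
  refine ⟨fun t ht x => ?_, fun t ht x => ?_, fun t ht x => ?_, fun t ht x j => ?_, fun t ht x j => ?_, fun t ht x j => ?_,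
    fun t ht x i => ?_, fun t ht x => ?_, fun t ht => ?_, fun t ht => ?_⟩
  · exact (h1.su t trivial x).add ((hθ _).smul (hdif t ht x))
  · exact (((contDiffAt_const.sub (hθ _)).smul (h1.sf t trivial x)).add ((hθ _).smul (h2.sf t ht x))).add
      (((hθ' _).smul (hdif t ht x)).add ((((hθ _).mul (contDiffAt_const.sub (hθ _))).neg).smul (hadv t ht x)))
  · exact (h1.sp t trivial x).add ((hθ _).mul ((h2.sp t ht x).sub (h1.sp t trivial x)))
  · unfold bu dif
    rw [h1.pu t trivial x j, h2.pu t ht x j]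
  · have e : adv (dif u₁ u₂ t) (x + Pi.single j 1) = adv (dif u₁ u₂ t) x := by
      funext i
      exact (adv_spf (dif_spf h1 h2 ht) i).per j x
    unfold bf
    rw [e]
    unfold dif
    rw [h1.pu t trivial x j, h2.pu t ht x j, h1.pf t trivial x j, h2.pf t ht x j]
  · unfold bp
    rw [h1.pp t trivial x j, h2.pp t ht x j]
  · -- the equation
    have d1 : HasDerivAt (fun s => u₁ s x i) (deriv (fun s => u₁ s x i) t) t :=
      (slice_t (g := fun t x => u₁ t x i) (comp_joint (h1.su t trivial x) i)).hasDerivAt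
    have d2 : HasDerivAt (fun s => u₂ s x i) (deriv (fun s => u₂ s x i) t) t :=
      (slice_t (g := fun t x => u₂ t x i) (comp_joint (h2.su t ht x) i)).hasDerivAt
    have dθ : HasDerivAt (th a b) (deriv (th a b) t) t := ((th_smooth a b).differentiable (by simp) t).hasDerivAt
    have d3 : deriv (fun s => bu a b u₁ u₂ s x i) t = deriv (fun s => u₁ s x i) t
        + (deriv (th a b) t * (u₂ t x i - u₁ t x i) + th a b t * (deriv (fun s => u₂ s x i) t - deriv (fun s => u₁ s x i) t)) := by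
      have := d1.add (dθ.mul (d2.sub d1))
      exact HasDerivAt.deriv this
    have sp1 := h1.spu (t := t) trivial
    have sp2 := h2.spu ht
    have e1 : ∀ i, (fun y => bu a b u₁ u₂ t y i) = fun y => u₁ t y i + th a b t * (u₂ t y i - u₁ t y i) := fun i => by
      funext y
      unfold bu dif
      simp
    have e2 : ∀ i j, pd j (fun y => bu a b u₁ u₂ t y i) = fun x => pd j (fun y => u₁ t y i) x
        + th a b t * (pd j (fun y => u₂ t y i) x - pd j (fun y => u₁ t y i) x) := fun i j => by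
      rw [e1, pd_comb (sp1 i) (sp2 i)]
    have e3 : ∀ j, pd j (pd j fun y => bu a b u₁ u₂ t y i) x = pd j (pd j fun y => u₁ t y i) x
        + th a b t * (pd j (pd j fun y => u₂ t y i) x - pd j (pd j fun y => u₁ t y i) x) := fun j => by
      rw [e2]
      exact congrFun (pd_comb ((sp1 i).pd j) ((sp2 i).pd j) (th a b t) j) x
    have e4 : pd i (bp a b p₁ p₂ t) x = pd i (p₁ t) x + th a b t * (pd i (p₂ t) x - pd i (p₁ t) x) :=
      congrFun (pd_comb (h1.spp trivial) (h2.spp ht) (th a b t) i) x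
    have e5 : ∀ j, pd j (fun y => dif u₁ u₂ t y i) x = pd j (fun y => u₂ t y i) x - pd j (fun y => u₁ t y i) x := by
      intro j
      unfold H356R3.NS.pd
      have := fderiv_fun_sub ((sp2 i).diff x) ((sp1 i).diff x)
      show fderiv ℝ (fun y => u₂ t y i - u₁ t y i) x (Pi.single j 1) = _
      rw [this]; rfl
    have m1 := h1.mo t trivial x i
    have m2 := h2.mo t ht x i
    rw [d3, e4]
    simp only [e3]
    unfold bf adv
    simp only [Pi.add_apply, Pi.smul_apply, smul_eq_mul]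
    simp only [e2, e5]
    unfold bu dif
    simp only [Pi.add_apply, Pi.smul_apply, Pi.sub_apply, smul_eq_mul]
    rw [Fin.sum_univ_three] at m1 m2 ⊢
    rw [Fin.sum_univ_three] at m1 m2 ⊢
    rw [Fin.sum_univ_three]
    linear_combination (1 - th a b t) * m1 + th a b t * m2
  · have e2 : ∀ i, pd i (fun y => bu a b u₁ u₂ t y i) x = pd i (fun y => u₁ t y i) x
        + th a b t * (pd i (fun y => u₂ t y i) x - pd i (fun y => u₁ t y i) x) := fun i => by
      have e1 : (fun y => bu a b u₁ u₂ t y i) = fun y => u₁ t y i + th a b t * (u₂ t y i - u₁ t y i) := by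
        funext y
        unfold bu dif
        simp
      rw [e1]
      exact congrFun (pd_comb (h1.spu trivial i) (h2.spu ht i) (th a b t) i) x
    simp only [e2]
    rw [Finset.sum_add_distrib, ← Finset.mul_sum, Finset.sum_sub_distrib, h1.dv t trivial x, h2.dv t ht x]
    simp
  · have e : bu a b u₁ u₂ t = fun x => u₁ t x + th a b t • dif u₁ u₂ t x := rfl
    rw [e, fc_add (h1.spu trivial) ((dif_spf h1 h2 ht).smul _), fc_smul]
    have e' : dif u₁ u₂ t = fun x => u₂ t x - u₁ t x := rfl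
    rw [e', fc_sub (h2.spu ht) (h1.spu trivial), h1.mu t trivial, h2.mu t ht]
    simp
  · have hz := dif_spf h1 h2 ht
    have e : bf a b f₁ u₁ f₂ u₂ t = fun x => ((1 - th a b t) • f₁ t x + th a b t • f₂ t x) + (deriv (th a b) t • dif u₁ u₂ t x
      + (-(th a b t * (1 - th a b t))) • adv (dif u₁ u₂ t) x) := rfl
    rw [e, fc_add (((h1.spf trivial).smul _).add ((h2.spf ht).smul _)) ((hz.smul _).add ((adv_spf hz).smul _)),
      fc_add ((h1.spf trivial).smul _) ((h2.spf ht).smul _), fc_add (hz.smul _) ((adv_spf hz).smul _),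
      fc_smul, fc_smul, fc_smul, fc_smul, fc_adv0 hz (dif_div h1 h2 ht), h1.mf t trivial, h2.mf t ht]
    have e' : dif u₁ u₂ t = fun x => u₂ t x - u₁ t x := rfl
    rw [e', fc_sub (h2.spu ht) (h1.spu trivial), h1.mu t trivial, h2.mu t ht]
    simp

/-- the joined path -/
theorem blend (hab : a < b) (haI : Ici a ⊆ I) (h1 : PthOn ν univ f₁ u₁ p₁) (h2 : PthOn ν I f₂ u₂ p₂) :
    PthOn ν univ (bf a b f₁ u₁ f₂ u₂) (bu a b u₁ u₂) (bp a b p₁ p₂) := by
  have h3 : PthOn ν (Iio a) (bf a b f₁ u₁ f₂ u₂) (bu a b u₁ u₂) (bp a b p₁ p₂) := by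
    refine h1.congr fun t ht => ⟨trivial, ?_⟩
    filter_upwards [Iio_mem_nhds ht] with s hs
    exact ⟨bf_left hab (le_of_lt hs), bu_left hab (le_of_lt hs), bp_left hab (le_of_lt hs)⟩
  refine (h3.union (blend_I h1 h2)).mono fun t _ => ?_
  rcases lt_or_ge t a with h | h
  · exact Or.inl h
  · exact Or.inr (haI h)

/-- the size of the force of the joined path -/
theorem blend_bd {C : ℝ} (hC : ∀ a b, a < b → ∀ t, |deriv (th a b) t| ≤ C / (b - a)) (hab : a < b)
    (h1 : PthOn ν univ f₁ u₁ p₁) (h2 : PthOn ν I f₂ u₂ p₂) {s : ℝ} (hs : 1 ≤ s) {t : ℝ} (ht : t ∈ I) :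
    Nc s (bf a b f₁ u₁ f₂ u₂ t) ≤ (Nc s (f₁ t) + Nc s (f₂ t)) + (ENNReal.ofReal (C / (b - a)) * Nc s (dif u₁ u₂ t)
      + ENNReal.ofReal 120 * Wn (dif u₁ u₂ t) ^ 2) := by
  have hs0 : 0 < s := by linarith
  have hz := dif_spf h1 h2 ht
  have n0 := th_nonneg a b t
  have n1 := th_le_one a b t
  have e : bf a b f₁ u₁ f₂ u₂ t = fun x => ((1 - th a b t) • f₁ t x + th a b t • f₂ t x) + (deriv (th a b) t • dif u₁ u₂ t x
      + (-(th a b t * (1 - th a b t))) • adv (dif u₁ u₂ t) x) := rfl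
  have hle : ∀ {r : ℝ} {x : ℝ≥0∞}, |r| ≤ 1 → ENNReal.ofReal |r| * x ≤ x := by
    intro r x hr
    calc ENNReal.ofReal |r| * x ≤ 1 * x := by
          refine mul_le_mul' ?_ le_rfl
          rw [← ENNReal.ofReal_one]; exact ENNReal.ofReal_le_ofReal hr
      _ = x := one_mul _
  rw [e]
  refine (Nc_add hs (((h1.spf trivial).smul _).add ((h2.spf ht).smul _)) ((hz.smul _).add ((adv_spf hz).smul _))).trans ?_
  refine add_le_add ?_ ?_
  · refine (Nc_add hs ((h1.spf trivial).smul _) ((h2.spf ht).smul _)).trans ?_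
    rw [Nc_smul hs0, Nc_smul hs0]
    refine add_le_add (hle ?_) (hle ?_)
    · rw [abs_of_nonneg (by linarith)]; linarith
    · rw [abs_of_nonneg n0]; exact n1
  · refine (Nc_add hs (hz.smul _) ((adv_spf hz).smul _)).trans ?_
    rw [Nc_smul hs0, Nc_smul hs0]
    refine add_le_add (mul_le_mul' (ENNReal.ofReal_le_ofReal (hC a b hab t)) le_rfl) ?_
    refine (hle ?_).trans (Nc_adv hs hz (dif_div h1 h2 ht))
    rw [abs_neg, abs_of_nonneg (mul_nonneg n0 (by linarith))]
    nlinarith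

end Pool.Agent.U162.SF
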