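import Pool.Agent.U162.SF.Wpiece

/-!
The weighted Wiener norms control the derivatives
-/

open MeasureTheory Set Filter Topology
open scoped ENNReal NNReal ContDiff

namespace Pool.Agent.U162.SF

open Pool.Agent.H356R3.NS Pool.Agent.U162.TS Pool.Agent.U162.GE Pool.Agent.U162.TS.EL Pool.Agent.U162.TS.VF Pool.Agent.U162.TS.Ph Pool.Agent.U162.PL Pool.Agent.U162.MU

/-- the real parts -/
noncomputable def reL : C3 →L[ℝ] R3 := ContinuousLinearMap.pi fun i => Complex.reCLM.comp (ContinuousLinearMap.proj i)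

lemma reL_norm : ‖reL‖ ≤ 1 := ContinuousLinearMap.opNorm_le_bound _ zero_le_one fun z => by
  rw [one_mul, pi_norm_le_iff_of_nonneg (norm_nonneg z)]
  intro i
  exact (Complex.abs_re_le_norm _).trans (norm_le_pi_norm z i)

lemma spf_nsumm {h : R3 → R3} (hh : SPF h) (n : ℕ) : Summable fun k => (1 + (H459R3.NS.N k : ℝ)) ^ n * ‖H356R3.NS.fc h k‖ := by
  have h1 := Wm_fin hh n
  unfold Wm at h1
  have e : ∀ k : K, ENNReal.ofReal ((1 + nk k) ^ n) * ‖H356R3.NS.fc h k‖ₑ = ENNReal.ofReal ((1 + nk k) ^ n * ‖H356R3.NS.fc h k‖) := fun k => by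
    rw [← ofReal_norm, ← ENNReal.ofReal_mul (by have := nk_nonneg k; positivity)]
  simp only [e] at h1
  have h2 : Summable fun k : K => (1 + nk k) ^ n * ‖H356R3.NS.fc h k‖ := by
    have h3 := ENNReal.summable_toReal h1
    refine h3.congr fun k => ?_
    exact ENNReal.toReal_ofReal (by have := nk_nonneg k; positivity)
  refine h2.of_nonneg_of_le (fun k => by positivity) fun k => ?_
  have := N_le_nk k
  gcongr

lemma spf_series {h : R3 → R3} (hh : SPF h) (x : R3) : h x = reL (∑' k, H459R3.NS.ee k x • H356R3.NS.fc h k) := by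
  have hs : Summable fun k => H459R3.NS.ee k x • H356R3.NS.fc h k := by
    refine Summable.of_norm_bounded (g := fun k => ‖H356R3.NS.fc h k‖) ?_ fun k => ?_
    · simpa using spf_nsumm hh 0
    · rw [norm_smul, H459R3.NS.norm_ee, one_mul]
  funext i
  have e1 : reL (∑' k, H459R3.NS.ee k x • H356R3.NS.fc h k) i = ((∑' k, H459R3.NS.ee k x • H356R3.NS.fc h k) i).re := rfl
  rw [e1, tsum_apply hs]
  have h1 := H459R3.NS.S_fr (hh i) x
  have h2 : ∑' k, (H459R3.NS.ee k x • H356R3.NS.fc h k) i = H459R3.NS.S (H459R3.NS.fr fun x => h x i) x := by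
    unfold H459R3.NS.S
    refine tsum_congr fun k => ?_
    rw [Pi.smul_apply, smul_eq_mul, fr_eq_fc, mul_comm]
  rw [h2, h1, Complex.ofReal_re]

/-- the derivatives -/
theorem spf_iter {h : R3 → R3} (hh : SPF h) (n : ℕ) {e : ℝ} (he : 0 ≤ e) (hw : Wm n h ≤ ENNReal.ofReal e) (x : R3) :
    ‖iteratedFDeriv ℝ n h x‖ ≤ (6 * Real.pi) ^ n * e := by
  set F : R3 → C3 := fun x => ∑' k, H459R3.NS.ee k x • H356R3.NS.fc h k with hF
  have hsm : ContDiff ℝ ∞ F := series_smooth (ι := K) (l := fun k => k) (s := fun k => H356R3.NS.fc h k) fun n => spf_nsumm hh n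
  have e0 : h = reL ∘ F := funext fun x => spf_series hh x
  have hbd : ∀ (n : ℕ) (k : K) (x : R3), ‖iteratedFDeriv ℝ n (fun x : R3 => H459R3.NS.ee k x • H356R3.NS.fc h k) x‖
      ≤ (6 * Real.pi) ^ n * ((1 + (H459R3.NS.N k : ℝ)) ^ n * ‖H356R3.NS.fc h k‖) := fun n k x => by
    refine (ee_iter k _ n x).trans (le_of_eq ?_)
    rw [mul_pow]; ring
  have h1 : iteratedFDeriv ℝ n F x = ∑' k, iteratedFDeriv ℝ n (fun x : R3 => H459R3.NS.ee k x • H356R3.NS.fc h k) x := by
    have := iteratedFDeriv_tsum (𝕜 := ℝ) (N := ⊤) (f := fun k (x : R3) => H459R3.NS.ee k x • H356R3.NS.fc h k)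
      (v := fun n k => (6 * Real.pi) ^ n * ((1 + (H459R3.NS.N k : ℝ)) ^ n * ‖H356R3.NS.fc h k‖))
      (fun k => (H459R3.NS.ee_contDiff _).smul contDiff_const) (fun n _ => (spf_nsumm hh n).mul_left _) (fun n k x _ => hbd n k x) (k := n) le_top
    exact congrFun this x
  have h2 : ‖iteratedFDeriv ℝ n F x‖ ≤ ∑' k, (6 * Real.pi) ^ n * ((1 + (H459R3.NS.N k : ℝ)) ^ n * ‖H356R3.NS.fc h k‖) := by
    rw [h1]
    exact tsum_of_norm_bounded ((spf_nsumm hh n).mul_left _).hasSum fun k => hbd n k x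
  rw [tsum_mul_left] at h2
  have h3 : ∑' k, (1 + (H459R3.NS.N k : ℝ)) ^ n * ‖H356R3.NS.fc h k‖ ≤ e := by
    rw [← ENNReal.ofReal_le_ofReal_iff he, ENNReal.ofReal_tsum_of_nonneg (fun k => by positivity) (spf_nsumm hh n)]
    refine le_trans (ENNReal.tsum_le_tsum fun k => ?_) hw
    have h4 := N_le_nk k
    have h5 := nk_nonneg k
    rw [ENNReal.ofReal_mul (by positivity), ofReal_norm]
    refine mul_le_mul' (ENNReal.ofReal_le_ofReal ?_) le_rfl
    gcongr
  have h6 : ‖iteratedFDeriv ℝ n h x‖ ≤ ‖iteratedFDeriv ℝ n F x‖ := by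
    have h7 := ContinuousLinearMap.iteratedFDeriv_comp_left (f := F) reL (hsm.contDiffAt (x := x)) (i := n) (by exact_mod_cast le_top)
    rw [← e0] at h7
    rw [h7]
    refine (ContinuousLinearMap.norm_compContinuousMultilinearMap_le _ _).trans ?_
    exact mul_le_of_le_one_left (norm_nonneg _) reL_norm
  exact (h6.trans h2).trans (mul_le_mul_of_nonneg_left h3 (by positivity))

end Pool.Agent.U162.SF
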