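import Pool.Agent.U162.SF.Pw2

/-!
Following a given velocity by solutions with forces close to a given force: closeness in the critical norms
-/

open MeasureTheory Set Filter Topology
open scoped ENNReal NNReal ContDiff

namespace Pool.Agent.U162.SF

open Pool.Agent.H356R3.NS Pool.Agent.U162.TS Pool.Agent.U162.GE Pool.Agent.U162.TS.EL Pool.Agent.U162.TS.VF Pool.Agent.U162.TS.Ph Pool.Agent.U162.PL Pool.Agent.U162.MU

variable {ν : ℝ} {g v : ℝ → R3 → R3}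

lemma Wn_null0 : Wn (fun _ => (0 : R3)) = 0 := by
  rw [← Wm_zero', Wm_null]

/-- a piece which is trivial for trivial data -/
theorem epiece (hν : 0 < ν) {m : ℕ} {a b M e e' δ s r β : ℝ} (hs : 2 < s) (hr0 : 0 < r) (hr2 : r < 2) (hG : Gw ν g v m a b M) (hab : a < b)
    (hgw : ∀ w : ℝ, 0 < w → ∃ r : ℝ, 0 < r ∧ ∀ t ∈ Icc a b, ∀ t' ∈ Icc a b, |t - t'| ≤ r → Wn (fun x => g t x - g t' x) ≤ ENNReal.ofReal w)
    (hvw : ∀ w : ℝ, 0 < w → ∃ r : ℝ, 0 < r ∧ ∀ t ∈ Icc a b, ∀ t' ∈ Icc a b, |t - t'| ≤ r → Wm m (fun x => v t x - v t' x) ≤ ENNReal.ofReal w)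
    (he : 0 < e) (he' : 0 < e') (hδ : 0 < δ) (hβ : 0 < β) :
    ∃ (η : ℝ) (f u : ℝ → R3 → R3) (p : ℝ → R3 → ℝ), 0 < η ∧ PthOn ν univ f u p ∧
    (∀ t ≤ a + η, f t = Rs ν (v a) ∧ u t = v a ∧ p t = fun _ => 0) ∧
    (∀ t, b - η ≤ t → f t = Rs ν (v b) ∧ u t = v b ∧ p t = fun _ => 0) ∧
    ∫⁻ t in Ioo a b, Nc s (fun x => f t x - g t x) ≤ ENNReal.ofReal δ ∧
    volume {t | t ∈ Icc a b ∧ ¬ Wm m (fun x => u t x - v t x) ≤ ENNReal.ofReal e} ≤ ENNReal.ofReal β ∧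
    ∫⁻ t in Ioo a b, Wn (fun x => u t x - v t x) ^ r ≤ ENNReal.ofReal δ ∧
    (∀ t ∈ Icc a b, Nc s (fun x => u t x - v t x) ≤ ENNReal.ofReal e') ∧
    ((∀ t ∈ Icc a b, v t = 0 ∧ g t = 0) → ∀ t, f t = 0 ∧ u t = 0) := by
  by_cases h : ∀ t ∈ Icc a b, v t = 0 ∧ g t = 0
  · have ha : v a = 0 := (h a ⟨le_rfl, hab.le⟩).1
    have hb : v b = 0 := (h b ⟨hab.le, le_rfl⟩).1
    have eR : Rs ν (0 : R3 → R3) = fun _ => 0 := Rs_zero
    have e1 : (fun x : R3 => (0 : R3 → R3) x - (0 : R3 → R3) x) = fun _ => 0 := by funext x; simp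
    rw [ha, hb]
    refine ⟨1, fun _ => Rs ν 0, fun _ => 0, fun _ _ => 0, one_pos, const_pth field_zero, fun t _ => ⟨rfl, rfl, rfl⟩,
      fun t _ => ⟨rfl, rfl, rfl⟩, ?_, ?_, ?_, fun t ht => ?_, fun _ t => ⟨eR, rfl⟩⟩
    · refine le_trans (setLIntegral_mono' measurableSet_Ioo (g := fun _ => 0) fun t ht => ?_) (by simp)
      rw [eR, (h t ⟨ht.1.le, ht.2.le⟩).2]
      have e1 : (fun x : R3 => (0 : R3) - (0 : R3 → R3) x) = fun _ => 0 := by funext x; simp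
      rw [e1, Nc_zero (by linarith)]
    · have hemp : {t | t ∈ Icc a b ∧ ¬ Wm m (fun x => (0 : R3 → R3) x - v t x) ≤ ENNReal.ofReal e} = ∅ := by
        refine eq_empty_of_forall_notMem ?_
        rintro t ⟨ht, hn⟩
        refine hn ?_
        rw [(h t ht).1, e1, Wm_null]
        exact bot_le
      rw [hemp]; simp
    · refine le_trans (setLIntegral_mono' measurableSet_Ioo (g := fun _ => 0) fun t ht => ?_) (by simp)
      rw [(h t ⟨ht.1.le, ht.2.le⟩).1]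
      show Wn (fun x : R3 => (0 : R3 → R3) x - (0 : R3 → R3) x) ^ r ≤ 0
      rw [e1, Wn_null0, ENNReal.zero_rpow_of_pos hr0]
    · rw [(h t ht).1]
      show Nc s (fun x : R3 => (0 : R3 → R3) x - (0 : R3 → R3) x) ≤ _
      rw [e1, Nc_zero (by linarith)]
      exact bot_le
  · obtain ⟨η, f, u, p, h1, h2, h3, h4, h5, h6, h7, h8⟩ := Pw_all hν hs hr0 hr2 hG hab hgw hvw he he' hδ hβ
    exact ⟨η, f, u, p, h1, h2, h3, h4, h5, h6, h7, h8, fun a1 => absurd a1 h⟩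

/-- following a given velocity -/
theorem flexE (hν : 0 < ν) {T : ℕ → ℝ} (hT : StrictMono T) (hT0 : T 0 = 0)
    (hg : ContDiffOn ℝ ∞ (fun z : ℝ × R3 => g z.1 z.2) ({t | 0 ≤ t ∧ ∃ i, t < T i} ×ˢ univ))
    (hgp : ∀ t ∈ {t | 0 ≤ t ∧ ∃ i, t < T i}, SPF (g t)) (hgm : ∀ t ∈ {t | 0 ≤ t ∧ ∃ i, t < T i}, H356R3.NS.fc (g t) 0 = 0)
    (hv : ContDiffOn ℝ ∞ (fun z : ℝ × R3 => v z.1 z.2) ({t | 0 ≤ t ∧ ∃ i, t < T i} ×ˢ univ))
    (hvf : ∀ t ∈ {t | 0 ≤ t ∧ ∃ i, t < T i}, Field (v t)) (m : ℕ → ℕ) {s r ε : ℕ → ℝ} (hs : ∀ i, 2 < s i)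
    (hr0 : ∀ i, 0 < r i) (hr2 : ∀ i, r i < 2) (hε : ∀ i, 0 < ε i) :
    ∃ (f u : ℝ → R3 → R3) (p : ℝ → R3 → ℝ), PthOn ν {t | ∃ i, t < T i} f u p ∧ (∀ i, u (T i) = v (T i)) ∧ ∀ i,
      ∫⁻ t in Icc (T i) (T (i + 1)), Nc (s i) (fun x => f t x - g t x) ≤ ENNReal.ofReal (ε i) ∧
      (∀ t ∈ Icc (T i) (T (i + 1)), Nc (s i) (fun x => u t x - v t x) ≤ ENNReal.ofReal (ε i)) ∧
      ∫⁻ t in Icc (T i) (T (i + 1)), Wn (fun x => u t x - v t x) ^ r i ≤ ENNReal.ofReal (ε i) ∧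
      volume {t | t ∈ Icc (T i) (T (i + 1)) ∧ ¬ Wm (m i) (fun x => u t x - v t x) ≤ ENNReal.ofReal (ε i)} ≤ ENNReal.ofReal (ε i) ∧
      ((∀ t ∈ Icc (T i) (T (i + 1)), v t = 0 ∧ g t = 0) → ∀ t ∈ Icc (T i) (T (i + 1)), f t = 0 ∧ u t = 0) := by
  have hTn : ∀ i, 0 ≤ T i := fun i => by rw [← hT0]; exact hT.monotone (Nat.zero_le i)
  have hsm := fun i : ℕ => by
    have hsub : Ico 0 (T (i + 2)) ⊆ {t | 0 ≤ t ∧ ∃ i, t < T i} := fun t ht => ⟨ht.1, i + 2, ht.2⟩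
    exact gw_of_smooth ν (T := T (i + 2)) (b := T (i + 1)) (hg.mono (prod_mono hsub subset_rfl)) (fun t ht => hgp t (hsub ht))
      (fun t ht => hgm t (hsub ht)) (hv.mono (prod_mono hsub subset_rfl)) (fun t ht => hvf t (hsub ht))
      (hT (Nat.lt_succ_self (i + 1))) (m i)
  choose M hM using fun i => (hsm i).1
  have hmem : ∀ i, ∀ t ∈ Icc (T i) (T (i + 1)), t ∈ Icc 0 (T (i + 1)) := fun i t ht => ⟨(hTn i).trans ht.1, ht.2⟩
  have hstep := fun i => epiece hν (hs i) (hr0 i) (hr2 i) ((hM i).mono (hTn i) le_rfl) (hT (Nat.lt_succ_self i))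
    (fun w hw => by
      obtain ⟨r, hr, h3⟩ := (hsm i).2.1 w hw
      exact ⟨r, hr, fun t ht t' ht' => h3 t (hmem i t ht) t' (hmem i t' ht')⟩)
    (fun w hw => by
      obtain ⟨r, hr, h3⟩ := (hsm i).2.2 w hw
      exact ⟨r, hr, fun t ht t' ht' => h3 t (hmem i t ht) t' (hmem i t' ht')⟩) (hε i) (hε i) (hε i) (hε i)
  choose η f u p hη hP hl hr hi hvol hLr hcr hz using hstep
  have P := joinA hT hη hP (fun i t ht => hl i t ht) (fun i t ht => hr i t ht)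
  have hend : ∀ i, u (idx T (T i)) (T i) = v (T i) := fun i => by
    have e : idx T (T i) = i := idx_eq hT le_rfl (hT (Nat.lt_succ_self i))
    rw [e]
    exact (hl i (T i) (by linarith [hη i])).2.1
  have hzero : ∀ i, (fun x => u (idx T (T i)) (T i) x - v (T i) x) = fun _ => (0 : R3) := fun i => by
    funext x
    rw [hend i, sub_self]
  refine ⟨_, _, _, P, hend, fun i => ⟨?_, fun t ht => ?_, ?_, ?_, fun h3 t ht => ?_⟩⟩
  · rw [setLIntegral_congr (Ioo_ae_eq_Icc (a := T i) (b := T (i + 1))).symm]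
    refine le_trans (le_of_eq (setLIntegral_congr_fun measurableSet_Ioo fun t ht => ?_)) (hi i)
    have e : idx T t = i := idx_eq hT ht.1.le ht.2
    simp only [e]
  · rcases ht.2.lt_or_eq with h4 | h4
    · have e : idx T t = i := idx_eq hT ht.1 h4
      show Nc (s i) (fun x => u (idx T t) t x - v t x) ≤ _
      rw [e]
      exact hcr i t ht
    · show Nc (s i) (fun x => u (idx T t) t x - v t x) ≤ _
      rw [h4, hzero (i + 1), Nc_zero (by linarith [hs i])]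
      exact bot_le
  · rw [setLIntegral_congr (Ioo_ae_eq_Icc (a := T i) (b := T (i + 1))).symm]
    refine le_trans (le_of_eq (setLIntegral_congr_fun measurableSet_Ioo fun t ht => ?_)) (hLr i)
    have e : idx T t = i := idx_eq hT ht.1.le ht.2
    simp only [e]
  · refine le_trans (measure_mono ?_) (hvol i)
    rintro t ⟨ht1, ht2⟩
    rcases ht1.2.lt_or_eq with h4 | h4
    · have e : idx T t = i := idx_eq hT ht1.1 h4
      refine ⟨ht1, ?_⟩
      have ht3 : ¬ Wm (m i) (fun x => u (idx T t) t x - v t x) ≤ ENNReal.ofReal (ε i) := ht2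
      rw [e] at ht3
      exact ht3
    · exfalso
      refine ht2 ?_
      show Wm (m i) (fun x => u (idx T t) t x - v t x) ≤ _
      rw [h4, hzero (i + 1), Wm_null]
      exact bot_le
  · rcases ht.2.lt_or_eq with h4 | h4
    · have e : idx T t = i := idx_eq hT ht.1 h4
      simp only [e]
      exact hz i h3 _
    · have e : idx T t = i + 1 := by rw [h4]; exact idx_eq hT le_rfl (hT (Nat.lt_succ_self _))
      simp only [e]
      rw [h4]
      obtain ⟨e1, e2, -⟩ := hl (i + 1) (T (i + 1)) (by linarith [hη (i + 1)])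
      rw [e1, e2, (h3 (T (i + 1)) ⟨(hT (Nat.lt_succ_self i)).le, le_rfl⟩).1]
      exact ⟨Rs_zero, rfl⟩

end Pool.Agent.U162.SF
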