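import Pool.Agent.U162.MU.Fin

/-!
Closeness in the Wiener norm
-/

open MeasureTheory Set Filter Topology
open scoped ENNReal NNReal ContDiff

namespace Pool.Agent.U162.SF

open Pool.Agent.H356R3.NS Pool.Agent.U162.TS Pool.Agent.U162.GE Pool.Agent.U162.TS.EL Pool.Agent.U162.TS.VF Pool.Agent.U162.TS.Ph Pool.Agent.U162.PL Pool.Agent.U162.MU

variable {ν : ℝ}

/-- solutions which are close in the square mean are close at later times in the Wiener norm -/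
theorem late_physA (hν : 0 < ν) {g : R3 → R3} {v : ℝ → R3 → R3} {p : ℝ → R3 → ℝ} (hg : Field g)
    (hv : AdmissiblePeriodic ν g v p) {ε : ℝ} (hε : 0 < ε) :
    ∃ η : ℝ, 0 < η ∧ η ≤ ε ∧ ∀ {u₀ : R3 → R3} {u : ℝ → R3 → R3} {q : ℝ → R3 → ℝ}, Field u₀ →
      AdmissiblePeriodic ν u₀ u q → LNd η (Ph.XF u - Ph.XF v) ≤ ENNReal.ofReal η →
      ∀ t, ε ≤ t → An (Ph.XF u - Ph.XF v) t ≤ ε := by
  have hc : 0 < 4 * Real.pi ^ 2 * ν := by positivity
  have hGv := glob_of_adm hv hg.mean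
  obtain ⟨η, hη, h⟩ := late2 hc (gd_XF hν hGv) hε
  refine ⟨min η (ε / 2), lt_min hη (by positivity), (min_le_right _ _).trans (by linarith), fun {u₀ u q} hu₀ hu hcl t ht => ?_⟩
  have hGu := glob_of_adm hu hu₀.mean
  refine h (gd_XF hν hGu) ?_ t ht
  exact (LNd_anti (min_le_right _ _) _).trans (hcl.trans (ENNReal.ofReal_le_ofReal (min_le_left _ _)))

/-- the theorem for several scales, for given fast flows and a given slow flow -/
theorem multi_givenA (hν : 0 < ν) {J : ℕ} {V : Fin J → R3 → R3 → R3} {W : Fin J → R3 → ℝ → R3 → R3}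
    {Q : Fin J → R3 → ℝ → R3 → ℝ} (hV : ∀ j, Profile (V j))
    (hW : ∀ j x, AdmissiblePeriodic ν (V j x) (W j x) (Q j x)) {g : R3 → R3} {v : ℝ → R3 → R3} {p : ℝ → R3 → ℝ}
    (hg : Field g) (hvp : AdmissiblePeriodic ν g v p) {ε : ℝ} (hε : 0 < ε) :
    ∃ δ : ℝ, 0 < δ ∧ ∀ {a : R3 → R3}, Field a →
      (∀ l i, H356R3.NS.fc g l i = H356R3.NS.fc a l i + ∑ j, push (W j) l i) → Ev J fun N =>
      ∀ u₀ : R3 → R3, Field u₀ →
        heatSq ν (fun k i => H356R3.NS.fc u₀ k i - mixs a V N k i) ≤ ENNReal.ofReal δ →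
        ∃ u q, AdmissiblePeriodic ν u₀ u q ∧ ∀ t, ε ≤ t → An (Ph.XF u - Ph.XF v) t ≤ ε := by
  have hsz := size_fin hν hg hvp
  obtain ⟨η, hη, hηε, hlate⟩ := late_physA hν hg hvp hε
  obtain ⟨ρ, hρ, h⟩ := multi hν J hV hW (size v).toReal ENNReal.toReal_nonneg η hη
  refine ⟨ρ ^ 2, by positivity, fun {a} ha hga => ?_⟩
  refine (h hg hvp (by rw [ENNReal.ofReal_toReal hsz]) ha hga).imp fun N hN u₀ hu₀ hcl => ?_
  obtain ⟨u, q, h1, h2, h3, h4⟩ := hN u₀ hu₀ hcl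
  exact ⟨u, q, h1, hlate hu₀ h1 h2⟩

end Pool.Agent.U162.SF
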