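import Pool.Agent.U162.SF.Piece

/-!
Following a given force from any field to any field
-/

open MeasureTheory Set Filter Topology
open scoped ENNReal NNReal ContDiff

namespace Pool.Agent.U162.SF

open Pool.Agent.H356R3.NS Pool.Agent.U162.TS Pool.Agent.U162.GE Pool.Agent.U162.TS.EL Pool.Agent.U162.TS.VF Pool.Agent.U162.TS.Ph Pool.Agent.U162.PL Pool.Agent.U162.MU

variable {ν : ℝ}

/-- a short interval -/
theorem Pc_sub (hν : 0 < ν) {s : ℝ} (hs : 2 < s) {g : ℝ → R3 → R3} {a b M w δ : ℝ} (hG : Gd ν g a b M) (hab : a < b)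
    (hl : b - a ≤ 1) (hw : 0 ≤ w) (hgw : ∀ t ∈ Icc a b, ∀ t' ∈ Icc a b, Wn (fun x => g t x - g t' x) ≤ ENNReal.ofReal w) (hδ : 0 < δ)
    {A B : R3 → R3} (hA : Field A) (hB : Field B) : Pc ν s g a b ((b - a) * (w + 2 * (b - a) * M) + δ) A B := by
  have hM := hG.M0
  have hs1 : 1 ≤ s := by linarith
  obtain ⟨ρ, hρ, hρl, hρM⟩ : ∃ ρ : ℝ, 0 < ρ ∧ 4 * ρ < b - a ∧ M * ρ ≤ δ / 8 := by
    refine ⟨min ((b - a) / 8) (δ / (8 * (M + 1))), lt_min (by linarith) (by positivity), ?_, ?_⟩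
    · have := min_le_left ((b - a) / 8) (δ / (8 * (M + 1))); linarith
    · have h1 := min_le_right ((b - a) / 8) (δ / (8 * (M + 1)))
      calc M * min ((b - a) / 8) (δ / (8 * (M + 1))) ≤ M * (δ / (8 * (M + 1))) := by gcongr
        _ = M / (M + 1) * (δ / 8) := by field_simp
        _ ≤ 1 * (δ / 8) := by
          refine mul_le_mul_of_nonneg_right ?_ (by positivity)
          rw [div_le_one (by positivity)]; linarith
        _ = δ / 8 := one_mul _
  have p1 : Pc ν s g a (a + ρ) (δ / 8 + M * (a + ρ - a)) A (fun _ => 0) :=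
    Pc_fast hν hs (hG.mono le_rfl (by linarith)) (by linarith) (by positivity) hA field_zero
  have hGm : Gd ν g (a + ρ) (b - ρ) M := hG.mono (by linarith) (by linarith)
  have p2 : Pc ν s g (a + ρ) (b - ρ) ((b - ρ - (a + ρ)) * (w + 2 * (b - ρ - (a + ρ)) * M) + δ / 8) (fun _ => 0)
      (fun x => (b - ρ - (a + ρ)) • g (a + ρ) x) :=
    Pc_ramp hs1 hGm (by linarith) (by linarith) hw (fun t ht => hgw _ ⟨by linarith, by linarith⟩ t ⟨by linarith [ht.1], by linarith [ht.2]⟩)
      (by positivity)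
  have hm : Field fun x => (b - ρ - (a + ρ)) • g (a + ρ) x := field_smul (hG.field _ ⟨by linarith, by linarith⟩) _
  have p3 : Pc ν s g (b - ρ) b (δ / 8 + M * (b - (b - ρ))) (fun x => (b - ρ - (a + ρ)) • g (a + ρ) x) B :=
    Pc_fast hν hs (hG.mono (by linarith) le_rfl) (by linarith) (by positivity) hm hB
  have e1 : a + ρ - a = ρ := by ring
  have e2 : b - (b - ρ) = ρ := by ring
  rw [e1] at p1
  rw [e2] at p3
  have hm0 : 0 ≤ (b - ρ - (a + ρ)) * (w + 2 * (b - ρ - (a + ρ)) * M) := by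
    have h1 : 0 ≤ b - ρ - (a + ρ) := by linarith
    have := mul_nonneg h1 hM
    have h2 : 0 ≤ w + 2 * (b - ρ - (a + ρ)) * M := by linarith
    exact mul_nonneg h1 h2
  have hMρ : 0 ≤ M * ρ := by positivity
  have p12 := Pc_concat p1 p2 (by linarith) (by linarith) (by positivity) (by positivity)
  have p := Pc_concat p12 p3 (by linarith) (by linarith) (by positivity) (by positivity)
  refine p.le ?_
  have h1 : 0 ≤ b - ρ - (a + ρ) := by linarith
  have h3 : b - ρ - (a + ρ) ≤ b - a := by linarith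
  have h4 : (b - ρ - (a + ρ)) * (w + 2 * (b - ρ - (a + ρ)) * M) ≤ (b - a) * (w + 2 * (b - a) * M) := by
    gcongr
  linarith

/-- many short intervals -/
theorem Pc_many (hν : 0 < ν) {s : ℝ} (hs : 2 < s) {g : ℝ → R3 → R3} {α β M w r l δ : ℝ} (hG : Gd ν g α β M)
    (hl0 : 0 < l) (hl : l ≤ 1) (hlr : l ≤ r) (hw : 0 ≤ w)
    (hgw : ∀ t ∈ Icc α β, ∀ t' ∈ Icc α β, |t - t'| ≤ r → Wn (fun x => g t x - g t' x) ≤ ENNReal.ofReal w) (hδ : 0 < δ) (n : ℕ) :
    ∀ (c : ℝ) (A B : R3 → R3), Field A → Field B → α ≤ c → c + (n + 1) * l ≤ β →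
      Pc ν s g c (c + (n + 1) * l) ((n + 1) * (l * (w + 2 * l * M) + δ)) A B := by
  have hM := hG.M0
  have base : ∀ (c : ℝ) (A B : R3 → R3), Field A → Field B → α ≤ c → c + l ≤ β → Pc ν s g c (c + l) (l * (w + 2 * l * M) + δ) A B := by
    intro c A B hA hB h1 h2
    have h := Pc_sub hν hs (hG.mono h1 h2) (by linarith) (by linarith) hw (fun t ht t' ht' => hgw t ⟨h1.trans ht.1, ht.2.trans h2⟩ t'
      ⟨h1.trans ht'.1, ht'.2.trans h2⟩ ?_) hδ hA hB
    · have e : c + l - c = l := by ring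
      rw [e] at h
      exact h
    · rw [abs_le]
      constructor <;> linarith [ht.1, ht.2, ht'.1, ht'.2]
  have hc0 : 0 ≤ l * (w + 2 * l * M) + δ := by positivity
  induction n with
  | zero =>
    intro c A B hA hB h1 h2
    have h := base c A B hA hB h1 (by simpa using h2)
    simpa using h
  | succ n ih =>
    intro c A B hA hB h1 h2
    push_cast at h2
    have e : c + ((n : ℝ) + 1 + 1) * l = c + ((n : ℝ) + 1) * l + l := by ring
    have q1 := ih c A (fun _ => 0) hA field_zero h1 (by linarith)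
    have hp : 0 < ((n : ℝ) + 1) * l := by positivity
    have q2 := base (c + ((n : ℝ) + 1) * l) (fun _ => 0) B field_zero hB (by linarith) (by linarith)
    have q := Pc_concat q1 q2 (by linarith) (by linarith) (by positivity) hc0
    push_cast
    rw [e]
    refine q.le (le_of_eq ?_)
    ring

/-- from any field to any field over a given interval, with a force which is close to the given force -/
theorem Pc_all (hν : 0 < ν) {s : ℝ} (hs : 2 < s) {g : ℝ → R3 → R3} {a b M : ℝ} (hG : Gd ν g a b M) (hab : a < b)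
    (hgw : ∀ w : ℝ, 0 < w → ∃ r : ℝ, 0 < r ∧ ∀ t ∈ Icc a b, ∀ t' ∈ Icc a b, |t - t'| ≤ r →
      Wn (fun x => g t x - g t' x) ≤ ENNReal.ofReal w) {δ : ℝ} (hδ : 0 < δ)
    {A B : R3 → R3} (hA : Field A) (hB : Field B) : Pc ν s g a b δ A B := by
  have hM := hG.M0
  have hL : 0 < b - a := by linarith
  obtain ⟨r, hr, hgr⟩ := hgw (δ / (4 * (b - a))) (by positivity)
  obtain ⟨n, hn⟩ := exists_nat_gt (max ((b - a) / r) (max (b - a) (8 * (b - a) ^ 2 * M / δ)))
  have hn1 : (b - a) / r < n := (le_max_left _ _).trans_lt hn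
  have hn2 : b - a < n := (le_max_left _ _).trans_lt ((le_max_right _ _).trans_lt hn)
  have hn3 : 8 * (b - a) ^ 2 * M / δ < n := (le_max_right _ _).trans_lt ((le_max_right _ _).trans_lt hn)
  have hn0 : (0 : ℝ) < n + 1 := by positivity
  set l := (b - a) / (n + 1) with hl
  have hl0 : 0 < l := by positivity
  have hnl : ((n : ℝ) + 1) * l = b - a := by rw [hl]; field_simp
  have hl1 : l ≤ 1 := by rw [hl, div_le_one hn0]; linarith
  have hlr : l ≤ r := by
    rw [hl, div_le_iff₀ hn0]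
    rw [div_lt_iff₀ hr] at hn1
    nlinarith
  have h := Pc_many hν hs hG hl0 hl1 hlr (w := δ / (4 * (b - a))) (by positivity) hgr (δ := δ / (4 * (n + 1))) (by positivity) n a A B hA hB le_rfl
    (by rw [hnl]; linarith)
  rw [hnl] at h
  have e : a + (b - a) = b := by ring
  rw [e] at h
  refine h.le ?_
  have h1 : ((n : ℝ) + 1) * (l * (δ / (4 * (b - a)) + 2 * l * M) + δ / (4 * (n + 1))) = δ / 4 + (b - a) * (2 * l * M) + δ / 4 := by
    have e1 : ((n : ℝ) + 1) * (l * (δ / (4 * (b - a)) + 2 * l * M) + δ / (4 * (n + 1)))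
        = (((n : ℝ) + 1) * l) * (δ / (4 * (b - a)) + 2 * l * M) + ((n : ℝ) + 1) * (δ / (4 * (n + 1))) := by ring
    rw [e1, hnl]
    have e2 : (b - a) * (δ / (4 * (b - a)) + 2 * l * M) = δ / 4 + (b - a) * (2 * l * M) := by field_simp
    have e3 : ((n : ℝ) + 1) * (δ / (4 * (n + 1))) = δ / 4 := by field_simp
    rw [e2, e3]
  have h2 : (b - a) * (2 * l * M) ≤ δ / 4 := by
    have e4 : (b - a) * (2 * l * M) = 2 * (b - a) ^ 2 * M / (n + 1) := by rw [hl]; ring
    rw [e4, div_le_iff₀ hn0]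
    rw [div_lt_iff₀ hδ] at hn3
    nlinarith
  rw [h1]
  linarith

end Pool.Agent.U162.SF
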