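import Pool.Agent.U162.SF.Step

/-!
Interpolation by small forces
-/

open MeasureTheory Set Filter Topology
open scoped ENNReal NNReal ContDiff

namespace Pool.Agent.U162.SF

open Pool.Agent.H356R3.NS Pool.Agent.U162.TS Pool.Agent.U162.GE Pool.Agent.U162.TS.EL Pool.Agent.U162.TS.VF Pool.Agent.U162.TS.Ph Pool.Agent.U162.PL Pool.Agent.U162.MU

variable {ν : ℝ}

/-! ### the critical norms decrease in `s` -/

lemma tsum_pow_le {s s' : ℝ} (hs : 0 < s) (hss : s ≤ s') (g : ℕ → ℝ≥0∞) :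
    (∑' j, g j ^ s') ^ (1 / s') ≤ (∑' j, g j ^ s) ^ (1 / s) := by
  have hs' : 0 < s' := lt_of_lt_of_le hs hss
  set M := (∑' j, g j ^ s) ^ (1 / s) with hM
  have hMs : M ^ s = ∑' j, g j ^ s := by
    rw [hM, ← ENNReal.rpow_mul, one_div, inv_mul_cancel₀ hs.ne', ENNReal.rpow_one]
  have hgM : ∀ j, g j ≤ M := by
    intro j
    have h1 : g j ^ s ≤ M ^ s := by rw [hMs]; exact ENNReal.le_tsum j
    exact (ENNReal.rpow_le_rpow_iff hs).1 h1
  have h2 : ∑' j, g j ^ s' ≤ M ^ s' := by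
    have h3 : ∀ j, g j ^ s' ≤ M ^ (s' - s) * g j ^ s := by
      intro j
      have : g j ^ s' = g j ^ (s' - s) * g j ^ s := by
        rw [← ENNReal.rpow_add_of_nonneg _ _ (by linarith) hs.le]; congr 1; ring
      rw [this]
      gcongr
      exact hgM j
    calc ∑' j, g j ^ s' ≤ ∑' j, M ^ (s' - s) * g j ^ s := ENNReal.tsum_le_tsum h3
      _ = M ^ (s' - s) * M ^ s := by rw [ENNReal.tsum_mul_left, hMs]
      _ = M ^ s' := by rw [← ENNReal.rpow_add_of_nonneg _ _ (by linarith) hs.le]; congr 1; ring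
  calc (∑' j, g j ^ s') ^ (1 / s') ≤ (M ^ s') ^ (1 / s') := ENNReal.rpow_le_rpow h2 (by positivity)
    _ = M := by rw [← ENNReal.rpow_mul, mul_one_div_cancel hs'.ne', ENNReal.rpow_one]

lemma Nc_anti {s s' : ℝ} (hs : 0 < s) (hss : s ≤ s') (f : R3 → R3) : Nc s' f ≤ Nc s f :=
  tsum_pow_le hs hss _

/-! ### the index of a time -/

open Classical in
/-- the least `i` with `t < T (i+1)` -/
noncomputable def idx (T : ℕ → ℝ) (t : ℝ) : ℕ := if h : ∃ i, t < T (i + 1) then Nat.find h else 0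

variable {T : ℕ → ℝ}

lemma idx_eq (hT : StrictMono T) {i : ℕ} {t : ℝ} (h1 : T i ≤ t) (h2 : t < T (i + 1)) : idx T t = i := by
  classical
  have h : ∃ i, t < T (i + 1) := ⟨i, h2⟩
  unfold idx
  rw [dif_pos h]
  refine le_antisymm (Nat.find_min' h h2) ?_
  by_contra hc
  push Not at hc
  have h3 := Nat.find_spec h
  have h4 : T (Nat.find h + 1) ≤ T i := hT.monotone hc
  linarith

lemma idx_zero {t : ℝ} (h2 : t < T 1) : idx T t = 0 := by
  classical
  have h : ∃ i, t < T (i + 1) := ⟨0, h2⟩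
  unfold idx
  rw [dif_pos h]
  exact Nat.le_zero.1 (Nat.find_min' h h2)

lemma idx_mem (hT : StrictMono T) {t : ℝ} (h : ∃ i, t < T i) :
    t < T (idx T t + 1) ∧ (idx T t = 0 ∨ T (idx T t) ≤ t) := by
  classical
  obtain ⟨i, hi⟩ := h
  have h' : ∃ i, t < T (i + 1) := ⟨i, hi.trans (hT (Nat.lt_succ_self i))⟩
  unfold idx
  rw [dif_pos h']
  refine ⟨Nat.find_spec h', ?_⟩
  rcases Nat.eq_zero_or_pos (Nat.find h') with h0 | h0
  · exact Or.inl h0
  · right
    have h1 := Nat.find_min h' (m := Nat.find h' - 1) (by omega)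
    rw [Nat.sub_add_cancel h0] at h1
    exact not_lt.1 h1

lemma PthOn.of_pt {I : Set ℝ} {f u : ℝ → R3 → R3} {p : ℝ → R3 → ℝ} (h : ∀ t ∈ I, PthOn ν {t} f u p) : PthOn ν I f u p where
  su := fun t ht => (h t ht).su t rfl
  sf := fun t ht => (h t ht).sf t rfl
  sp := fun t ht => (h t ht).sp t rfl
  pu := fun t ht => (h t ht).pu t rfl
  pf := fun t ht => (h t ht).pf t rfl
  pp := fun t ht => (h t ht).pp t rfl
  mo := fun t ht => (h t ht).mo t rfl
  dv := fun t ht => (h t ht).dv t rfl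
  mu := fun t ht => (h t ht).mu t rfl
  mf := fun t ht => (h t ht).mf t rfl

/-- joining -/
theorem join (hT : StrictMono T) {V : ℕ → R3 → R3} {η : ℕ → ℝ} {f u : ℕ → ℝ → R3 → R3} {p : ℕ → ℝ → R3 → ℝ}
    (hη : ∀ i, 0 < η i) (hP : ∀ i, PthOn ν univ (f i) (u i) (p i))
    (hl : ∀ i, ∀ t ≤ η i, f i t = Rs ν (V i) ∧ u i t = V i ∧ p i t = fun _ => 0)
    (hr : ∀ i t, T (i + 1) - T i - η i ≤ t → f i t = Rs ν (V (i + 1)) ∧ u i t = V (i + 1) ∧ p i t = fun _ => 0) :
    PthOn ν {t | ∃ i, t < T i} (fun t => f (idx T t) (t - T (idx T t))) (fun t => u (idx T t) (t - T (idx T t)))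
      (fun t => p (idx T t) (t - T (idx T t))) := by
  refine PthOn.of_pt fun t ht => ?_
  obtain ⟨h1, h2⟩ := idx_mem hT ht
  set i := idx T t with hi
  refine ((hP i).shift (T i)).congr fun t' ht' => ⟨trivial, ?_⟩
  obtain rfl : t' = t := ht'
  rcases h2 with h0 | h2
  · -- the first interval
    have h3 : t' < T 1 := by rw [h0] at h1; exact h1
    filter_upwards [Iio_mem_nhds h3] with r hr'
    have : idx T r = i := by rw [idx_zero hr', h0]
    simp only [this]
    exact ⟨trivial, trivial, trivial⟩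
  rcases h2.lt_or_eq with h3 | h3
  · filter_upwards [Ioo_mem_nhds h3 h1] with r hr'
    have : idx T r = i := idx_eq hT hr'.1.le hr'.2
    simp only [this]
    exact ⟨trivial, trivial, trivial⟩
  rcases Nat.eq_zero_or_pos i with h0 | h0
  · have h3 : t' < T 1 := by rw [h0] at h1; exact h1
    filter_upwards [Iio_mem_nhds h3] with r hr'
    have : idx T r = i := by rw [idx_zero hr', h0]
    simp only [this]
    exact ⟨trivial, trivial, trivial⟩
  · obtain ⟨j, hj⟩ : ∃ j, i = j + 1 := ⟨i - 1, by omega⟩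
    have hTj : T j < T (j + 1) := hT (Nat.lt_succ_self j)
    have h4 : max (T j) (T (j + 1) - η j) < t' := by
      rw [← h3, hj]
      exact max_lt hTj (by linarith [hη j])
    filter_upwards [Ioo_mem_nhds h4 h1] with r hr'
    rcases lt_or_ge r (T i) with h5 | h5
    · have h6 : T j ≤ r := (le_max_left _ _).trans hr'.1.le
      have h7 : T (j + 1) - η j ≤ r := (le_max_right _ _).trans hr'.1.le
      have : idx T r = j := idx_eq hT h6 (by rw [← hj]; exact h5)
      simp only [this]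
      obtain ⟨a1, a2, a3⟩ := hr j (r - T j) (by linarith)
      obtain ⟨b1, b2, b3⟩ := hl i (r - T i) (by linarith [hη i])
      rw [a1, a2, a3, b1, b2, b3, hj]
      exact ⟨rfl, rfl, rfl⟩
    · have : idx T r = i := idx_eq hT h5 hr'.2
      simp only [this]
      exact ⟨trivial, trivial, trivial⟩

lemma cover (hT : StrictMono T) (hT0 : T 0 = 0) : {t : ℝ | 0 ≤ t ∧ ∃ i, t < T i} ⊆ ⋃ i, Ico (T i) (T (i + 1)) := by
  rintro t ⟨h0, h1⟩
  obtain ⟨h2, h3⟩ := idx_mem hT h1
  refine mem_iUnion.2 ⟨idx T t, ?_, h2⟩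
  rcases h3 with h3 | h3
  · rw [h3, hT0]; exact h0
  · exact h3

/-- interpolation by small forces -/
theorem interp0 (hν : 0 < ν) (hT : StrictMono T) (hT0 : T 0 = 0) {V : ℕ → R3 → R3} (hV : ∀ i, Field (V i))
    {s₀ ε : ℝ} (hs₀ : 2 < s₀) (hε : 0 < ε) :
    ∃ (f u : ℝ → R3 → R3) (p : ℝ → R3 → ℝ), PthOn ν {t | ∃ i, t < T i} f u p ∧ (∀ i, u (T i) = V i) ∧
      (∀ i, V i = 0 → V (i + 1) = 0 → ∀ t ∈ Icc (T i) (T (i + 1)), f t = 0 ∧ u t = 0) ∧
      ∫⁻ t in {t | 0 ≤ t ∧ ∃ i, t < T i}, Nc s₀ (f t) ≤ ENNReal.ofReal ε ∧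
      ∀ s, 2 < s → ∫⁻ t in {t | 0 ≤ t ∧ ∃ i, t < T i}, Nc s (f t) ≠ ⊤ := by
  set h : ℕ → ℝ := fun i => T (i + 1) - T i with hh
  have hpos : ∀ i, 0 < h i := fun i => sub_pos.2 (hT (Nat.lt_succ_self i))
  set σ : ℕ → ℝ := fun i => min s₀ (2 + 1 / (i + 1)) with hσ
  have hσ2 : ∀ i, 2 < σ i := fun i => lt_min hs₀ (by have : (0 : ℝ) < 1 / (i + 1) := by positivity
                                                     linarith)
  have hstep := fun i => step hν (hσ2 i) (hV i) (hV (i + 1)) (hpos i) (δ := ε / 2 / 2 ^ i) (by positivity)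
  choose η f u p hη hηh hP hl hr hi hk' hz using hstep
  choose k hk0 hk using hk'
  have P := join hT hη hP (fun i t ht => hl i t ht) (fun i t ht => hr i t ht)
  refine ⟨_, _, _, P, fun i => ?_, fun i h1 h2 t ht => ?_, ?_, fun s hs => ?_⟩
  · have e : idx T (T i) = i := idx_eq hT le_rfl (hT (Nat.lt_succ_self i))
    show u (idx T (T i)) (T i - T (idx T (T i))) = V i
    rw [e, sub_self]
    exact (hl i 0 (hη i).le).2.1
  · rcases ht.2.lt_or_eq with h3 | h3
    · have e : idx T t = i := idx_eq hT ht.1 h3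
      simp only [e]
      exact hz i h1 h2 _
    · have e : idx T t = i + 1 := by rw [h3]; exact idx_eq hT le_rfl (hT (Nat.lt_succ_self _))
      simp only [e]
      rw [h3, sub_self]
      obtain ⟨e1, e2, -⟩ := hl (i + 1) 0 (hη _).le
      rw [e1, e2, h2]
      exact ⟨Rs_zero, rfl⟩
  all_goals
    have piece : ∀ (r : ℝ) (i : ℕ), ∫⁻ t in Ico (T i) (T (i + 1)), Nc r (f (idx T t) (t - T (idx T t))) = ∫⁻ t in Ioo 0 (h i), Nc r (f i t) := by
      intro r i
      rw [← shift_int (fun t => Nc r (f i t)) (T i) (h i)]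
      have e2 : T i + h i = T (i + 1) := by simp only [hh]; ring
      rw [e2, setLIntegral_congr (Ioo_ae_eq_Ico (a := T i) (b := T (i + 1))).symm]
      refine setLIntegral_congr_fun measurableSet_Ioo fun t ht => ?_
      have e : idx T t = i := idx_eq hT ht.1.le ht.2
      simp only [e]
    have total : ∀ r : ℝ, ∫⁻ t in {t | 0 ≤ t ∧ ∃ i, t < T i}, Nc r (f (idx T t) (t - T (idx T t))) ≤ ∑' i, ∫⁻ t in Ioo 0 (h i), Nc r (f i t) := by
      intro r
      refine (lintegral_mono_set (cover hT hT0)).trans ((lintegral_iUnion_le _ _).trans (le_of_eq ?_))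
      exact tsum_congr fun i => piece r i
    have geo : ∑' i : ℕ, ENNReal.ofReal (ε / 2 / 2 ^ i) = ENNReal.ofReal ε := by
      rw [← ENNReal.ofReal_tsum_of_nonneg (fun i => by positivity) (summable_geometric_two' ε), tsum_geometric_two']
  · refine (total s₀).trans ?_
    rw [← geo]
    refine ENNReal.tsum_le_tsum fun i => ?_
    refine le_trans (lintegral_mono fun t => Nc_anti (by linarith [hσ2 i]) (min_le_left _ _) _) (hi i)
  · refine ne_top_of_le_ne_top ?_ (total s)
    obtain ⟨i₀, hi₀⟩ := exists_nat_one_div_lt (show (0 : ℝ) < s - 2 by linarith)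
    have hb : ∀ i, ∫⁻ t in Ioo 0 (h i), Nc s (f i t) ≤
        (if i < i₀ then ENNReal.ofReal (k i * h i) else 0) + ENNReal.ofReal (ε / 2 / 2 ^ i) := by
      intro i
      split_ifs with hii
      · refine le_trans ?_ le_self_add
        refine le_trans (setLIntegral_mono' measurableSet_Ioo (g := fun _ => ENNReal.ofReal (k i)) fun t ht => hk i s (by linarith) t ht) ?_
        rw [setLIntegral_const, Real.volume_Ioo, sub_zero, ← ENNReal.ofReal_mul (hk0 i)]
      · rw [zero_add]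
        push Not at hii
        have h1 : σ i ≤ s := by
          refine (min_le_right _ _).trans ?_
          have : (1 : ℝ) / (i + 1) ≤ 1 / (i₀ + 1) := by
            apply one_div_le_one_div_of_le (by positivity)
            have : (i₀ : ℝ) ≤ i := by exact_mod_cast hii
            linarith
          linarith
        exact le_trans (lintegral_mono fun t => Nc_anti (by linarith [hσ2 i]) h1 _) (hi i)
    refine ne_top_of_le_ne_top ?_ (ENNReal.tsum_le_tsum hb)
    rw [ENNReal.tsum_add, geo]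
    refine ENNReal.add_ne_top.2 ⟨?_, ENNReal.ofReal_ne_top⟩
    rw [tsum_eq_sum (s := Finset.range i₀) (fun i hi => by rw [if_neg]; simpa using hi)]
    exact ENNReal.sum_ne_top.2 fun i _ => by split_ifs <;> simp

end Pool.Agent.U162.SF
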