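import Pool.Agent.U162.SF.Unif

/-!
Interpolation by forces which are close to a given force
-/

open MeasureTheory Set Filter Topology
open scoped ENNReal NNReal ContDiff

namespace Pool.Agent.U162.SF

open Pool.Agent.H356R3.NS Pool.Agent.U162.TS Pool.Agent.U162.GE Pool.Agent.U162.TS.EL Pool.Agent.U162.TS.VF Pool.Agent.U162.TS.Ph Pool.Agent.U162.PL Pool.Agent.U162.MU

variable {ν : ℝ} {T : ℕ → ℝ}

/-- joining pieces in absolute times -/
theorem joinA (hT : StrictMono T) {V : ℕ → R3 → R3} {η : ℕ → ℝ} {f u : ℕ → ℝ → R3 → R3} {p : ℕ → ℝ → R3 → ℝ}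
    (hη : ∀ i, 0 < η i) (hP : ∀ i, PthOn ν univ (f i) (u i) (p i))
    (hl : ∀ i, ∀ t ≤ T i + η i, f i t = Rs ν (V i) ∧ u i t = V i ∧ p i t = fun _ => 0)
    (hr : ∀ i t, T (i + 1) - η i ≤ t → f i t = Rs ν (V (i + 1)) ∧ u i t = V (i + 1) ∧ p i t = fun _ => 0) :
    PthOn ν {t | ∃ i, t < T i} (fun t => f (idx T t) t) (fun t => u (idx T t) t) (fun t => p (idx T t) t) := by
  refine PthOn.of_pt fun t ht => ?_
  obtain ⟨h1, h2⟩ := idx_mem hT ht
  set i := idx T t with hi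
  refine (hP i).congr fun t' ht' => ⟨trivial, ?_⟩
  obtain rfl : t' = t := ht'
  rcases h2 with h0 | h2
  · -- the first interval
    have h3 : t' < T 1 := by rw [h0] at h1; exact h1
    filter_upwards [Iio_mem_nhds h3] with r hr'
    have : idx T r = i := by rw [idx_zero hr', h0]
    simp only [this]
    exact ⟨trivial, trivial, trivial⟩
  rcases h2.lt_or_eq with h3 | h3
  · filter_upwards [Ioo_mem_nhds h3 h1] with r hr'
    have : idx T r = i := idx_eq hT hr'.1.le hr'.2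
    simp only [this]
    exact ⟨trivial, trivial, trivial⟩
  rcases Nat.eq_zero_or_pos i with h0 | h0
  · have h3 : t' < T 1 := by rw [h0] at h1; exact h1
    filter_upwards [Iio_mem_nhds h3] with r hr'
    have : idx T r = i := by rw [idx_zero hr', h0]
    simp only [this]
    exact ⟨trivial, trivial, trivial⟩
  · obtain ⟨j, hj⟩ : ∃ j, i = j + 1 := ⟨i - 1, by omega⟩
    have hTj : T j < T (j + 1) := hT (Nat.lt_succ_self j)
    have h4 : max (T j) (T (j + 1) - η j) < t' := by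
      rw [← h3, hj]
      exact max_lt hTj (by linarith [hη j])
    filter_upwards [Ioo_mem_nhds h4 h1] with r hr'
    rcases lt_or_ge r (T i) with h5 | h5
    · have h6 : T j ≤ r := (le_max_left _ _).trans hr'.1.le
      have h7 : T (j + 1) - η j ≤ r := (le_max_right _ _).trans hr'.1.le
      have : idx T r = j := idx_eq hT h6 (by rw [← hj]; exact h5)
      simp only [this]
      obtain ⟨a1, a2, a3⟩ := hr j r h7
      obtain ⟨b1, b2, b3⟩ := hl i r (by linarith [hη i])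
      rw [a1, a2, a3, b1, b2, b3, hj]
      exact ⟨rfl, rfl, rfl⟩
    · have : idx T r = i := idx_eq hT h5 hr'.2
      simp only [this]
      exact ⟨trivial, trivial, trivial⟩

/-- a piece which is trivial for trivial data -/
theorem piece (hν : 0 < ν) {s : ℝ} (hs : 2 < s) {g : ℝ → R3 → R3} {a b M : ℝ} (hG : Gd ν g a b M) (hab : a < b)
    (hgw : ∀ w : ℝ, 0 < w → ∃ r : ℝ, 0 < r ∧ ∀ t ∈ Icc a b, ∀ t' ∈ Icc a b, |t - t'| ≤ r →
      Wn (fun x => g t x - g t' x) ≤ ENNReal.ofReal w) {δ : ℝ} (hδ : 0 < δ)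
    {A B : R3 → R3} (hA : Field A) (hB : Field B) :
    ∃ (η : ℝ) (f u : ℝ → R3 → R3) (p : ℝ → R3 → ℝ), 0 < η ∧ PthOn ν univ f u p ∧
    (∀ t ≤ a + η, f t = Rs ν A ∧ u t = A ∧ p t = fun _ => 0) ∧
    (∀ t, b - η ≤ t → f t = Rs ν B ∧ u t = B ∧ p t = fun _ => 0) ∧
    ∫⁻ t in Ioo a b, Nc s (fun x => f t x - g t x) ≤ ENNReal.ofReal δ ∧
    (∃ k : ℝ, 0 ≤ k ∧ ∀ s', 1 ≤ s' → ∀ t ∈ Icc a b, Nc s' (fun x => f t x - g t x) ≤ ENNReal.ofReal k) ∧
    (A = 0 → B = 0 → (∀ t ∈ Icc a b, g t = 0) → ∀ t, f t = 0 ∧ u t = 0) := by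
  by_cases h : A = 0 ∧ B = 0 ∧ ∀ t ∈ Icc a b, g t = 0
  · obtain ⟨rfl, rfl, hg⟩ := h
    have eR : Rs ν (0 : R3 → R3) = fun _ => 0 := Rs_zero
    have e0 : ∀ s', 1 ≤ s' → ∀ t ∈ Icc a b, Nc s' (fun x => Rs ν (0 : R3 → R3) x - g t x) = 0 := by
      intro s' hs' t ht
      rw [eR, hg t ht]
      have : (fun x : R3 => (0 : R3) - (0 : R3 → R3) x) = fun _ => 0 := by funext x; simp
      rw [this]
      exact Nc_zero (by linarith)
    refine ⟨1, fun _ => Rs ν 0, fun _ => 0, fun _ _ => 0, one_pos, const_pth hA, fun t _ => ⟨rfl, rfl, rfl⟩,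
      fun t _ => ⟨rfl, rfl, rfl⟩, ?_, ⟨0, le_rfl, fun s' hs' t ht => ?_⟩, fun _ _ _ t => ⟨eR, rfl⟩⟩
    · refine le_trans (setLIntegral_mono' measurableSet_Ioo (g := fun _ => 0) fun t ht => ?_) (by simp)
      exact (e0 s (by linarith) t ⟨ht.1.le, ht.2.le⟩).le
    · exact (e0 s' hs' t ht).le.trans bot_le
  · obtain ⟨η, f, u, p, h1, h2, h3, h4, h5, h6⟩ := Pc_all hν hs hG hab hgw hδ hA hB
    exact ⟨η, f, u, p, h1, h2, h3, h4, h5, h6, fun a1 a2 a3 => absurd ⟨a1, a2, a3⟩ h⟩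

/-- interpolation by forces close to `g` -/
theorem interpG (hν : 0 < ν) (hT : StrictMono T) (hT0 : T 0 = 0) {V : ℕ → R3 → R3} (hV : ∀ i, Field (V i))
    {g : ℝ → R3 → R3} (hg : ContDiffOn ℝ ∞ (fun z : ℝ × R3 => g z.1 z.2) ({t | 0 ≤ t ∧ ∃ i, t < T i} ×ˢ univ))
    (hgF : ∀ t ∈ {t | 0 ≤ t ∧ ∃ i, t < T i}, Field (g t))
    {s₀ ε : ℝ} (hs₀ : 2 < s₀) (hε : 0 < ε) :
    ∃ (f u : ℝ → R3 → R3) (p : ℝ → R3 → ℝ), PthOn ν {t | ∃ i, t < T i} f u p ∧ (∀ i, u (T i) = V i) ∧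
      (∀ i, V i = 0 → V (i + 1) = 0 → (∀ t ∈ Icc (T i) (T (i + 1)), g t = 0) → ∀ t ∈ Icc (T i) (T (i + 1)), f t = 0 ∧ u t = 0) ∧
      ∫⁻ t in {t | 0 ≤ t ∧ ∃ i, t < T i}, Nc s₀ (fun x => f t x - g t x) ≤ ENNReal.ofReal ε ∧
      ∀ s, 2 < s → ∫⁻ t in {t | 0 ≤ t ∧ ∃ i, t < T i}, Nc s (fun x => f t x - g t x) ≠ ⊤ := by
  have hpos : ∀ i, 0 < T (i + 1) - T i := fun i => sub_pos.2 (hT (Nat.lt_succ_self i))
  have hTn : ∀ i, 0 ≤ T i := fun i => by rw [← hT0]; exact hT.monotone (Nat.zero_le i)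
  set σ : ℕ → ℝ := fun i => min s₀ (2 + 1 / (i + 1)) with hσ
  have hσ2 : ∀ i, 2 < σ i := fun i => by
    have : (0 : ℝ) < 1 / (i + 1) := by positivity
    exact lt_min hs₀ (by linarith)
  have hsm : ∀ i : ℕ, (∃ M, Gd ν g (T i) (T (i + 1)) M) ∧ ∀ w : ℝ, 0 < w → ∃ r : ℝ, 0 < r ∧ ∀ t ∈ Icc (T i) (T (i + 1)), ∀ t' ∈ Icc (T i) (T (i + 1)),
      |t - t'| ≤ r → Wn (fun x => g t x - g t' x) ≤ ENNReal.ofReal w := by
    intro i
    have hsub : Ico 0 (T (i + 2)) ⊆ {t | 0 ≤ t ∧ ∃ i, t < T i} := fun t ht => ⟨ht.1, i + 2, ht.2⟩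
    obtain ⟨⟨M, hM⟩, h2⟩ := gd_of_smooth ν (T := T (i + 2)) (b := T (i + 1)) (hg.mono (prod_mono hsub subset_rfl)) (fun t ht => hgF t (hsub ht))
      (hT (Nat.lt_succ_self (i + 1)))
    refine ⟨⟨M, hM.mono (hTn i) le_rfl⟩, fun w hw => ?_⟩
    obtain ⟨r, hr, h3⟩ := h2 w hw
    exact ⟨r, hr, fun t ht t' ht' => h3 t ⟨(hTn i).trans ht.1, ht.2⟩ t' ⟨(hTn i).trans ht'.1, ht'.2⟩⟩
  choose M hM using fun i => (hsm i).1
  have hstep := fun i => piece hν (hσ2 i) (hM i) (hT (Nat.lt_succ_self i)) (hsm i).2 (δ := ε / 2 / 2 ^ i) (by positivity) (hV i) (hV (i + 1))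
  choose η f u p hη hP hl hr hi hk' hz using hstep
  choose k hk0 hk using hk'
  have P := joinA hT hη hP (fun i t ht => hl i t ht) (fun i t ht => hr i t ht)
  refine ⟨_, _, _, P, fun i => ?_, fun i h1 h2 h3 t ht => ?_, ?_, fun s hs => ?_⟩
  · have e : idx T (T i) = i := idx_eq hT le_rfl (hT (Nat.lt_succ_self i))
    show u (idx T (T i)) (T i) = V i
    rw [e]
    exact (hl i (T i) (by linarith [hη i])).2.1
  · rcases ht.2.lt_or_eq with h4 | h4
    · have e : idx T t = i := idx_eq hT ht.1 h4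
      simp only [e]
      exact hz i h1 h2 h3 _
    · have e : idx T t = i + 1 := by rw [h4]; exact idx_eq hT le_rfl (hT (Nat.lt_succ_self _))
      simp only [e]
      rw [h4]
      obtain ⟨e1, e2, -⟩ := hl (i + 1) (T (i + 1)) (by linarith [hη (i + 1)])
      rw [e1, e2, h2]
      exact ⟨Rs_zero, rfl⟩
  all_goals
    have piece : ∀ (r : ℝ) (i : ℕ), ∫⁻ t in Ico (T i) (T (i + 1)), Nc r (fun x => f (idx T t) t x - g t x)
        = ∫⁻ t in Ioo (T i) (T (i + 1)), Nc r (fun x => f i t x - g t x) := by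
      intro r i
      rw [setLIntegral_congr (Ioo_ae_eq_Ico (a := T i) (b := T (i + 1))).symm]
      refine setLIntegral_congr_fun measurableSet_Ioo fun t ht => ?_
      have e : idx T t = i := idx_eq hT ht.1.le ht.2
      simp only [e]
    have total : ∀ r : ℝ, ∫⁻ t in {t | 0 ≤ t ∧ ∃ i, t < T i}, Nc r (fun x => f (idx T t) t x - g t x)
        ≤ ∑' i, ∫⁻ t in Ioo (T i) (T (i + 1)), Nc r (fun x => f i t x - g t x) := by
      intro r
      refine (lintegral_mono_set (cover hT hT0)).trans ((lintegral_iUnion_le _ _).trans (le_of_eq ?_))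
      exact tsum_congr fun i => piece r i
    have geo : ∑' i : ℕ, ENNReal.ofReal (ε / 2 / 2 ^ i) = ENNReal.ofReal ε := by
      rw [← ENNReal.ofReal_tsum_of_nonneg (fun i => by positivity) (summable_geometric_two' ε), tsum_geometric_two']
  · refine (total s₀).trans ?_
    rw [← geo]
    refine ENNReal.tsum_le_tsum fun i => ?_
    refine le_trans (lintegral_mono fun t => Nc_anti (by linarith [hσ2 i]) (min_le_left _ _) _) (hi i)
  · refine ne_top_of_le_ne_top ?_ (total s)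
    obtain ⟨i₀, hi₀⟩ := exists_nat_one_div_lt (show (0 : ℝ) < s - 2 by linarith)
    have hb : ∀ i, ∫⁻ t in Ioo (T i) (T (i + 1)), Nc s (fun x => f i t x - g t x) ≤
        (if i < i₀ then ENNReal.ofReal (k i * (T (i + 1) - T i)) else 0) + ENNReal.ofReal (ε / 2 / 2 ^ i) := by
      intro i
      split_ifs with hii
      · refine le_trans ?_ le_self_add
        refine le_trans (setLIntegral_mono' measurableSet_Ioo (g := fun _ => ENNReal.ofReal (k i)) fun t ht =>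
          hk i s (by linarith) t ⟨ht.1.le, ht.2.le⟩) ?_
        rw [setLIntegral_const, Real.volume_Ioo, ← ENNReal.ofReal_mul (hk0 i)]
      · rw [zero_add]
        push Not at hii
        have h1 : σ i ≤ s := by
          refine (min_le_right _ _).trans ?_
          have : (1 : ℝ) / (i + 1) ≤ 1 / (i₀ + 1) := by
            apply one_div_le_one_div_of_le (by positivity)
            have : (i₀ : ℝ) ≤ i := by exact_mod_cast hii
            linarith
          linarith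
        exact le_trans (lintegral_mono fun t => Nc_anti (by linarith [hσ2 i]) h1 _) (hi i)
    refine ne_top_of_le_ne_top ?_ (ENNReal.tsum_le_tsum hb)
    rw [ENNReal.tsum_add, geo]
    refine ENNReal.add_ne_top.2 ⟨?_, ENNReal.ofReal_ne_top⟩
    rw [tsum_eq_sum (s := Finset.range i₀) (fun i hi => by rw [if_neg]; simpa using hi)]
    exact ENNReal.sum_ne_top.2 fun i _ => by split_ifs <;> simp

end Pool.Agent.U162.SF
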