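import Pool.Agent.U162.SF.Blend

/-!
Jumps between two fields in a short time with a small force
-/

open MeasureTheory Set Filter Topology
open scoped ENNReal NNReal ContDiff

namespace Pool.Agent.U162.SF

open Pool.Agent.H356R3.NS Pool.Agent.U162.TS Pool.Agent.U162.GE Pool.Agent.U162.TS.EL Pool.Agent.U162.TS.VF Pool.Agent.U162.TS.Ph Pool.Agent.U162.PL Pool.Agent.U162.MU

variable {ν : ℝ}

lemma xf_eq (U : ℝ → R3 → R3) {t : ℝ} (ht : 0 ≤ t) (k : K) : H356R3.NS.fc (U t) k = Ph.XF U k t := by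
  funext i
  rw [← fr_eq_fc]
  unfold Ph.XF
  rw [max_eq_left ht]
  rfl

lemma tsum_An {x : Fam} (h : Dom x) (t : ℝ) : ∑' k, ‖x k t‖ₑ = ENNReal.ofReal (An x t) := by
  unfold An
  rw [ENNReal.ofReal_tsum_of_nonneg (fun _ => norm_nonneg _) (show Summable fun k => ‖x k t‖ from h.sn t)]
  exact tsum_congr fun k => (ofReal_norm _).symm

lemma adm_spf {g : R3 → R3} {u : ℝ → R3 → R3} {p : ℝ → R3 → ℝ} (hg : Field g) (h : AdmissiblePeriodic ν g u p) {t : ℝ}
    (ht : 0 ≤ t) : SPF (u t) := fun i => (glob_of_adm h hg.mean).sp ht i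

lemma adm_bd (hν : 0 < ν) {g : R3 → R3} {u : ℝ → R3 → R3} {p : ℝ → R3 → ℝ} (hg : Field g) (h : AdmissiblePeriodic ν g u p) :
    ∃ M : ℝ, 0 ≤ M ∧ ∀ t, 0 ≤ t → Wn (u t) ≤ ENNReal.ofReal M := by
  obtain ⟨b, hb, hbd⟩ := (gd_XF hν (glob_of_adm h hg.mean)).dom
  have hb0 : ∀ k, 0 ≤ b k := fun k => (norm_nonneg _).trans (hbd k 0)
  refine ⟨∑' k, b k, tsum_nonneg hb0, fun t ht => ?_⟩
  unfold Wn
  rw [ENNReal.ofReal_tsum_of_nonneg hb0 hb]
  refine ENNReal.tsum_le_tsum fun k => ?_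
  rw [xf_eq u ht, ← ofReal_norm]
  exact ENNReal.ofReal_le_ofReal (hbd k t)

lemma adm_start (hν : 0 < ν) {g : R3 → R3} {u : ℝ → R3 → R3} {p : ℝ → R3 → ℝ} (hg : Field g) (h : AdmissiblePeriodic ν g u p)
    {δ : ℝ} (hδ : 0 < δ) : ∃ t₁ : ℝ, 0 < t₁ ∧ ∀ t, 0 ≤ t → t ≤ t₁ → Wn (fun x => u t x - g x) ≤ ENNReal.ofReal δ := by
  have hgd := gd_XF hν (glob_of_adm h hg.mean)
  set Y : Fam := Ph.XF u - fun k _ => H356R3.NS.fc g k with hY
  have hcd : Dom (fun (k : K) (_ : ℝ) => H356R3.NS.fc g k) := ⟨fun k => ‖H356R3.NS.fc g k‖, hg.dta.sum, fun k t => le_rfl⟩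
  have hd : Dom Y := dom_sub hgd.dom hcd
  have hcf : CF Y := fun k => (hgd.cf k).sub continuous_const
  have hc := An_cont hcf hd
  have h0 : An Y 0 = 0 := by
    unfold An
    have : ∀ k, ‖Y k 0‖ = 0 := by
      intro k
      have e : Y k 0 = Ph.XF u k 0 - H356R3.NS.fc g k := rfl
      rw [e, ← xf_eq u le_rfl, h.initial, sub_self, norm_zero]
    simp only [this]
    simp
  have hev : ∀ᶠ t in 𝓝 0, An Y t < δ := by
    have := hc.tendsto 0
    rw [h0] at this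
    exact this.eventually_lt_const hδ
  obtain ⟨r, hr, hball⟩ := Metric.eventually_nhds_iff.1 hev
  refine ⟨r / 2, by positivity, fun t ht0 ht => ?_⟩
  have h1 : An Y t < δ := hball (by rw [Real.dist_eq, sub_zero, abs_of_nonneg ht0]; linarith)
  unfold Wn
  have h2 : ∀ k, ‖H356R3.NS.fc (fun x => u t x - g x) k‖ₑ = ‖Y k t‖ₑ := by
    intro k
    rw [fc_sub (adm_spf hg h ht0) hg.sp, xf_eq u ht0]
    rfl
  rw [tsum_congr h2, tsum_An hd]
  exact ENNReal.ofReal_le_ofReal h1.le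

lemma Wn_dif (hν : 0 < ν) {g g' : R3 → R3} {u v : ℝ → R3 → R3} {p q : ℝ → R3 → ℝ} (hg : Field g) (h : AdmissiblePeriodic ν g u p)
    (hg' : Field g') (h' : AdmissiblePeriodic ν g' v q) {t : ℝ} (ht : 0 ≤ t) :
    Wn (fun x => v t x - u t x) = ENNReal.ofReal (An (Ph.XF u - Ph.XF v) t) := by
  have hd : Dom (Ph.XF u - Ph.XF v) := dom_sub (gd_XF hν (glob_of_adm h hg.mean)).dom (gd_XF hν (glob_of_adm h' hg'.mean)).dom
  rw [← tsum_An hd]
  unfold Wn
  refine tsum_congr fun k => ?_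
  rw [fc_sub (adm_spf hg' h' ht) (adm_spf hg h ht), xf_eq u ht, xf_eq v ht]
  have e : (Ph.XF u - Ph.XF v) k t = Ph.XF u k t - Ph.XF v k t := rfl
  rw [e, ← enorm_neg, neg_sub]

lemma crit_Nc {s : ℝ} {b a : R3 → R3} (hb : SPF b) (ha : SPF a) :
    critNorm s (fun k i => H356R3.NS.fc b k i - H356R3.NS.fc a k i) = Nc s (fun x => b x - a x) := by
  unfold Nc
  congr 1
  funext k
  rw [fc_sub hb ha]
  rfl

lemma Nc_comm {s : ℝ} (hs : 0 < s) {a b : R3 → R3} : Nc s (fun x => a x - b x) = Nc s (fun x => b x - a x) := by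
  have := Nc_smul hs (fun x => b x - a x) (-1)
  have e : (fun x => (-1 : ℝ) • (b x - a x)) = fun x => a x - b x := by
    funext x; rw [neg_one_smul, neg_sub]
  rw [e] at this
  rw [this]; simp

lemma Nc_tri {s : ℝ} (hs : 1 ≤ s) {a b c : R3 → R3} (ha : SPF a) (hb : SPF b) (hc : SPF c) :
    Nc s (fun x => a x - c x) ≤ Nc s (fun x => a x - b x) + Nc s (fun x => b x - c x) := by
  have e : (fun x => a x - c x) = fun x => (a x - b x) + (b x - c x) := by
    funext x; abel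
  rw [e]
  exact Nc_add hs (ha.sub hb) (hb.sub hc)

/-- a jump from one field to another one -/
theorem jump (hν : 0 < ν) {s : ℝ} (hs : 2 < s) {A B : R3 → R3} (hA : Field A) (hB : Field B) {h δ : ℝ} (hh : 0 < h) (hδ : 0 < δ) :
    ∃ (κ η : ℝ) (f u : ℝ → R3 → R3) (p : ℝ → R3 → ℝ), 0 < η ∧ η < κ ∧ κ ≤ h ∧ PthOn ν univ f u p ∧
      (∀ t ≤ η, f t = Rs ν A ∧ u t = A ∧ p t = fun _ => 0) ∧ (∀ t, κ ≤ t → f t = Rs ν B ∧ u t = B ∧ p t = fun _ => 0) ∧
      ∫⁻ t in Ioo 0 κ, Nc s (f t) ≤ ENNReal.ofReal δ ∧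
      ∃ k : ℝ, 0 ≤ k ∧ ∀ s', 1 ≤ s' → ∀ t ∈ Ioo 0 κ, Nc s' (f t) ≤ ENNReal.ofReal k := by
  have hs1 : 1 ≤ s := by linarith
  have hs0 : 0 < s := by linarith
  obtain ⟨C, hC0, hC⟩ := th_deriv_bd
  have hAs : SPF A := hA.sp
  have hBs : SPF B := hB.sp
  -- the constants of the fields
  have hFA : Nc s (Rs ν A) ≠ ⊤ := ne_top_of_le_ne_top (Wn_fin (Rs_spf hAs)) (Nc_le_Wn hs1 _)
  have hFB : Nc s (Rs ν B) ≠ ⊤ := ne_top_of_le_ne_top (Wn_fin (Rs_spf hBs)) (Nc_le_Wn hs1 _)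
  set FA := (Nc s (Rs ν A)).toReal with hFAd
  set FB := (Nc s (Rs ν B)).toReal with hFBd
  set WA := (Wn A).toReal with hWAd
  set WB := (Wn B).toReal with hWBd
  have hFA0 : 0 ≤ FA := ENNReal.toReal_nonneg
  have hFB0 : 0 ≤ FB := ENNReal.toReal_nonneg
  have hWA0 : 0 ≤ WA := ENNReal.toReal_nonneg
  have hWB0 : 0 ≤ WB := ENNReal.toReal_nonneg
  have eFA : Nc s (Rs ν A) = ENNReal.ofReal FA := (ENNReal.ofReal_toReal hFA).symm
  have eFB : Nc s (Rs ν B) = ENNReal.ofReal FB := (ENNReal.ofReal_toReal hFB).symm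
  have eWA : Wn A = ENNReal.ofReal WA := (ENNReal.ofReal_toReal (Wn_fin hAs)).symm
  have eWB : Wn B = ENNReal.ofReal WB := (ENNReal.ofReal_toReal (Wn_fin hBs)).symm
  set δ₁ := δ / (24 * (C + 1)) with hδ₁
  have hδ₁p : 0 < δ₁ := by positivity
  -- the regular datum near `B`
  obtain ⟨G, v, q, hG, hGB, hv, -⟩ := steerA hν hB field_zero (adm_zero ν) hs hδ₁p one_pos
  rw [crit_Nc hG.sp hBs] at hGB
  obtain ⟨MV, hMV0, hMV⟩ := adm_bd hν hG hv
  obtain ⟨t₁, ht₁, hst₁⟩ := adm_start hν hG hv hδ₁p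
  set M₂ := WB + MV with hM₂
  have hM₂0 : 0 ≤ M₂ := by positivity
  obtain ⟨ε₁, hε₁, hε₁h, hε₁t, hε₁c⟩ : ∃ ε₁ : ℝ, 0 < ε₁ ∧ 3 * ε₁ ≤ h ∧ 3 * ε₁ ≤ t₁ ∧ ε₁ * (FB + 120 * M₂ ^ 2) ≤ δ / 4 := by
    refine ⟨min (min (h / 3) (t₁ / 3)) (δ / 4 / (FB + 120 * M₂ ^ 2 + 1)), by positivity, ?_, ?_, ?_⟩
    · have := (min_le_left (min (h / 3) (t₁ / 3)) (δ / 4 / (FB + 120 * M₂ ^ 2 + 1))).trans (min_le_left _ _)
      linarith
    · have := (min_le_left (min (h / 3) (t₁ / 3)) (δ / 4 / (FB + 120 * M₂ ^ 2 + 1))).trans (min_le_right _ _)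
      linarith
    · have h1 := min_le_right (min (h / 3) (t₁ / 3)) (δ / 4 / (FB + 120 * M₂ ^ 2 + 1))
      have h2 : 0 ≤ FB + 120 * M₂ ^ 2 := by positivity
      calc _ ≤ δ / 4 / (FB + 120 * M₂ ^ 2 + 1) * (FB + 120 * M₂ ^ 2) := mul_le_mul_of_nonneg_right h1 h2
        _ ≤ δ / 4 := by
            rw [div_mul_eq_mul_div, div_le_iff₀ (by positivity)]
            nlinarith
  obtain ⟨ε₂, hε₂, hε₂ε, hε₂1, hε₂c⟩ : ∃ ε₂ : ℝ, 0 < ε₂ ∧ ε₂ ≤ ε₁ ∧ ε₂ ≤ 1 ∧ (C + 120 * ε₁) * ε₂ ≤ δ / 4 := by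
    refine ⟨min (min ε₁ 1) (δ / 4 / (C + 120 * ε₁)), by positivity, (min_le_left _ _).trans (min_le_left _ _),
      (min_le_left _ _).trans (min_le_right _ _), ?_⟩
    have h1 := min_le_right (min ε₁ 1) (δ / 4 / (C + 120 * ε₁))
    have h2 : 0 < C + 120 * ε₁ := by positivity
    calc _ ≤ (C + 120 * ε₁) * (δ / 4 / (C + 120 * ε₁)) := mul_le_mul_of_nonneg_left h1 h2.le
      _ = δ / 4 := by field_simp
  -- the flow which starts near `A` and follows the flow of `G`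
  obtain ⟨b, U, q', hb, hbA, hU, hUv⟩ := steerA hν hA hG hv hs hδ₁p hε₂
  rw [crit_Nc hb.sp hAs] at hbA
  obtain ⟨MU, hMU0, hMU⟩ := adm_bd hν hb hU
  obtain ⟨t₂, ht₂, hst₂⟩ := adm_start hν hb hU hδ₁p
  set M₁ := MU + WA with hM₁
  have hM₁0 : 0 ≤ M₁ := by positivity
  obtain ⟨τ, hτ, hτt, hτε, hτc⟩ : ∃ τ : ℝ, 0 < τ ∧ τ ≤ t₂ ∧ τ ≤ ε₁ ∧ τ * (FA + 120 * M₁ ^ 2) ≤ δ / 4 := by
    refine ⟨min (min t₂ ε₁) (δ / 4 / (FA + 120 * M₁ ^ 2 + 1)), by positivity, (min_le_left _ _).trans (min_le_left _ _),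
      (min_le_left _ _).trans (min_le_right _ _), ?_⟩
    have h1 := min_le_right (min t₂ ε₁) (δ / 4 / (FA + 120 * M₁ ^ 2 + 1))
    have h2 : 0 ≤ FA + 120 * M₁ ^ 2 := by positivity
    calc _ ≤ δ / 4 / (FA + 120 * M₁ ^ 2 + 1) * (FA + 120 * M₁ ^ 2) := mul_le_mul_of_nonneg_right h1 h2
      _ ≤ δ / 4 := by
          rw [div_mul_eq_mul_div, div_le_iff₀ (by positivity)]
          nlinarith
  -- the three joints
  have PA := const_pth (ν := ν) hA
  have PB := const_pth (ν := ν) hB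
  have PU := adm_pth hb hU
  have PV := adm_pth hG hv
  have hab1 : τ / 2 < τ := by linarith
  have hab2 : ε₁ < 2 * ε₁ := by linarith
  have hab3 : 2 * ε₁ < 3 * ε₁ := by linarith
  set f1 := bf (τ / 2) τ (fun _ => Rs ν A) (fun _ => A) (fun _ _ => 0) U with hf1
  set u1 := bu (τ / 2) τ (fun _ => A) U with hu1
  set p1 := bp (τ / 2) τ (fun _ _ => 0) q' with hp1
  have P1 : PthOn ν univ f1 u1 p1 := blend hab1 (fun t ht => by show 0 < t; have : τ / 2 ≤ t := ht; linarith) PA PU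
  set f2 := bf ε₁ (2 * ε₁) f1 u1 (fun _ _ => 0) v with hf2
  set u2 := bu ε₁ (2 * ε₁) u1 v with hu2
  set p2 := bp ε₁ (2 * ε₁) p1 q with hp2
  have P2 : PthOn ν univ f2 u2 p2 := blend hab2 (fun t ht => by show 0 < t; have : ε₁ ≤ t := ht; linarith) P1 PV
  set f3 := bf (2 * ε₁) (3 * ε₁) f2 u2 (fun _ => Rs ν B) (fun _ => B) with hf3
  set u3 := bu (2 * ε₁) (3 * ε₁) u2 (fun _ => B) with hu3
  set p3 := bp (2 * ε₁) (3 * ε₁) p2 (fun _ _ => 0) with hp3
  have P3 : PthOn ν univ f3 u3 p3 := blend hab3 (fun t _ => trivial) P2 PB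
  have hz0 : Nc s (fun _ => (0 : R3)) = 0 := Nc_zero hs0
  -- the values of the paths
  have v1 : ∀ t, τ ≤ t → f1 t = (fun _ => 0) ∧ u1 t = U t := fun t ht => ⟨bf_right hab1 ht, bu_right hab1 ht⟩
  have v2 : ∀ t, 2 * ε₁ ≤ t → f2 t = (fun _ => 0) ∧ u2 t = v t := fun t ht => ⟨bf_right hab2 ht, bu_right hab2 ht⟩
  have w3 : ∀ t, t ≤ 2 * ε₁ → f3 t = f2 t := fun t ht => bf_left hab3 ht
  have w2 : ∀ t, t ≤ ε₁ → f2 t = f1 t := fun t ht => bf_left hab2 ht
  refine ⟨3 * ε₁, τ / 2, f3, u3, p3, by positivity, by linarith, hε₁h, P3, fun t ht => ⟨?_, ?_, ?_⟩, fun t ht => ⟨?_, ?_, ?_⟩, ?_, ?_⟩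
  · rw [w3 t (by linarith), w2 t (by linarith)]; exact bf_left hab1 ht
  · have e1 : u3 t = u2 t := bu_left hab3 (by linarith)
    have e2 : u2 t = u1 t := bu_left hab2 (by linarith)
    rw [e1, e2]; exact bu_left hab1 ht
  · have e1 : p3 t = p2 t := bp_left hab3 (by linarith)
    have e2 : p2 t = p1 t := bp_left hab2 (by linarith)
    rw [e1, e2]; exact bp_left hab1 ht
  · exact bf_right hab3 ht
  · exact bu_right hab3 ht
  · exact bp_right hab3 ht
  · -- the bounds of the force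
    set KA := FA + (C / (τ / 2) * (δ₁ + δ₁) + 120 * M₁ ^ 2) with hKA
    set KB := C / ε₁ * ε₂ + 120 * ε₂ ^ 2 with hKB
    set KC := FB + (C / ε₁ * (δ₁ + δ₁) + 120 * M₂ ^ 2) with hKC
    have hKA0 : 0 ≤ KA := by positivity
    have hKB0 : 0 ≤ KB := by positivity
    have hKC0 : 0 ≤ KC := by positivity
    have bA : ∀ t, 0 < t → t ≤ τ → Nc s (f1 t) ≤ ENNReal.ofReal KA := by
      intro t ht0 ht
      rcases le_total t (τ / 2) with h1 | h1
      · rw [show f1 t = Rs ν A from bf_left hab1 h1, eFA]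
        apply ENNReal.ofReal_le_ofReal
        rw [hKA]
        have : 0 ≤ C / (τ / 2) * (δ₁ + δ₁) + 120 * M₁ ^ 2 := by positivity
        linarith
      · have h2 := blend_bd hC hab1 PA PU hs1 (t := t) ht0
        refine h2.trans ?_
        have h3 : Nc s (dif (fun _ => A) U t) ≤ ENNReal.ofReal (δ₁ + δ₁) := by
          rw [ENNReal.ofReal_add hδ₁p.le hδ₁p.le]
          refine (Nc_tri hs1 (adm_spf hb hU ht0.le) hb.sp hAs).trans (add_le_add ?_ hbA)
          exact (Nc_le_Wn hs1 _).trans (hst₂ t ht0.le (ht.trans hτt))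
        have h4 : Wn (dif (fun _ => A) U t) ≤ ENNReal.ofReal M₁ := by
          rw [hM₁, ENNReal.ofReal_add hMU0 hWA0, ← eWA]
          exact (Wn_sub (adm_spf hb hU ht0.le) hAs).trans (add_le_add (hMU t ht0.le) le_rfl)
        rw [hz0, add_zero, eFA, hKA, ENNReal.ofReal_add hFA0 (by positivity), ENNReal.ofReal_add (by positivity) (by positivity)]
        refine add_le_add le_rfl (add_le_add ?_ ?_)
        · rw [show τ - τ / 2 = τ / 2 by ring, ENNReal.ofReal_mul (by positivity)]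
          exact mul_le_mul' le_rfl h3
        · rw [ENNReal.ofReal_mul (by norm_num), ENNReal.ofReal_pow hM₁0]
          exact mul_le_mul' le_rfl (pow_le_pow_left' h4 2)
    have bB : ∀ t, ε₁ ≤ t → t ≤ 2 * ε₁ → Nc s (f2 t) ≤ ENNReal.ofReal KB := by
      intro t ht0 ht
      have htp : 0 < t := by linarith
      have h2 := blend_bd hC hab2 P1 PV hs1 (t := t) htp
      refine h2.trans ?_
      have e1 := v1 t (hτε.trans ht0)
      have e2 : dif u1 v t = fun x => v t x - U t x := by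
        unfold dif
        rw [e1.2]
      have h4 : Wn (dif u1 v t) ≤ ENNReal.ofReal ε₂ := by
        rw [e2, Wn_dif hν hb hU hG hv htp.le]
        exact ENNReal.ofReal_le_ofReal (hUv t (hε₂ε.trans ht0))
      rw [e1.1, hz0, add_zero, zero_add, hKB, ENNReal.ofReal_add (by positivity) (by positivity)]
      refine add_le_add ?_ ?_
      · rw [show 2 * ε₁ - ε₁ = ε₁ by ring, ENNReal.ofReal_mul (by positivity)]
        exact mul_le_mul' le_rfl ((Nc_le_Wn hs1 _).trans h4)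
      · rw [ENNReal.ofReal_mul (by norm_num), ENNReal.ofReal_pow hε₂.le]
        exact mul_le_mul' le_rfl (pow_le_pow_left' h4 2)
    have bC : ∀ t, 2 * ε₁ ≤ t → t ≤ 3 * ε₁ → Nc s (f3 t) ≤ ENNReal.ofReal KC := by
      intro t ht0 ht
      have htp : 0 < t := by linarith
      have h2 := blend_bd hC hab3 P2 PB hs1 (t := t) trivial
      refine h2.trans ?_
      have e1 := v2 t ht0
      have e2 : dif u2 (fun _ => B) t = fun x => B x - v t x := by
        unfold dif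
        rw [e1.2]
      have h3 : Nc s (dif u2 (fun _ => B) t) ≤ ENNReal.ofReal (δ₁ + δ₁) := by
        rw [e2, ENNReal.ofReal_add hδ₁p.le hδ₁p.le]
        refine (Nc_tri hs1 hBs hG.sp (adm_spf hG hv htp.le)).trans (add_le_add ?_ ?_)
        · rw [Nc_comm hs0]; exact hGB
        · rw [Nc_comm hs0]
          exact (Nc_le_Wn hs1 _).trans (hst₁ t htp.le (ht.trans hε₁t))
      have h4 : Wn (dif u2 (fun _ => B) t) ≤ ENNReal.ofReal M₂ := by
        rw [e2, hM₂, ENNReal.ofReal_add hWB0 hMV0, ← eWB]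
        exact (Wn_sub hBs (adm_spf hG hv htp.le)).trans (add_le_add le_rfl (hMV t htp.le))
      rw [e1.1, hz0, zero_add, eFB, hKC, ENNReal.ofReal_add hFB0 (by positivity), ENNReal.ofReal_add (by positivity) (by positivity)]
      refine add_le_add le_rfl (add_le_add ?_ ?_)
      · rw [show 3 * ε₁ - 2 * ε₁ = ε₁ by ring, ENNReal.ofReal_mul (by positivity)]
        exact mul_le_mul' le_rfl h3
      · rw [ENNReal.ofReal_mul (by norm_num), ENNReal.ofReal_pow hM₂0]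
        exact mul_le_mul' le_rfl (pow_le_pow_left' h4 2)
    -- the integral
    have hpt : ∀ t ∈ Ioo 0 (3 * ε₁), Nc s (f3 t) ≤ (Icc 0 τ).indicator (fun _ => ENNReal.ofReal KA) t
        + ((Icc ε₁ (2 * ε₁)).indicator (fun _ => ENNReal.ofReal KB) t + (Icc (2 * ε₁) (3 * ε₁)).indicator (fun _ => ENNReal.ofReal KC) t) := by
      intro t ht
      have ht0 : 0 < t := ht.1
      rcases le_or_gt t τ with h1 | h1
      · rw [w3 t (by linarith), w2 t (by linarith), indicator_of_mem (show t ∈ Icc 0 τ from ⟨ht0.le, h1⟩)]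
        exact (bA t ht0 h1).trans le_self_add
      rcases le_or_gt t ε₁ with h2 | h2
      · rw [w3 t (by linarith), w2 t h2, (v1 t h1.le).1, hz0]
        exact bot_le
      rcases le_or_gt t (2 * ε₁) with h3 | h3
      · rw [w3 t h3, indicator_of_mem (show t ∈ Icc ε₁ (2 * ε₁) from ⟨h2.le, h3⟩)]
        exact ((bB t h2.le h3).trans le_self_add).trans le_add_self
      · rw [indicator_of_mem (show t ∈ Icc (2 * ε₁) (3 * ε₁) from ⟨h3.le, ht.2.le⟩)]
        exact ((bC t h3.le ht.2.le).trans le_add_self).trans le_add_self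
    refine (setLIntegral_mono' measurableSet_Ioo hpt).trans ?_
    refine (setLIntegral_le_lintegral _ _).trans ?_
    have hI : ∀ (x y c : ℝ), 0 ≤ c → x ≤ y → ∫⁻ t, (Icc x y).indicator (fun _ => ENNReal.ofReal c) t = ENNReal.ofReal (c * (y - x)) := by
      intro x y c hc hxy
      rw [lintegral_indicator_const measurableSet_Icc, Real.volume_Icc, ENNReal.ofReal_mul hc]
    rw [lintegral_add_left (measurable_const.indicator measurableSet_Icc), lintegral_add_left (measurable_const.indicator measurableSet_Icc),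
      hI _ _ _ hKA0 hτ.le, hI _ _ _ hKB0 (by linarith), hI _ _ _ hKC0 (by linarith),
      ← ENNReal.ofReal_add (by nlinarith) (by nlinarith), ← ENNReal.ofReal_add (by nlinarith) (by nlinarith)]
    apply ENNReal.ofReal_le_ofReal
    have c1 : KA * (τ - 0) = τ * (FA + 120 * M₁ ^ 2) + 4 * C * δ₁ := by
      rw [hKA]; field_simp; ring
    have c2 : KB * (2 * ε₁ - ε₁) = C * ε₂ + 120 * ε₁ * ε₂ ^ 2 := by
      rw [hKB]; field_simp; ring
    have c3 : KC * (3 * ε₁ - 2 * ε₁) = ε₁ * (FB + 120 * M₂ ^ 2) + 2 * C * δ₁ := by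
      rw [hKC]; field_simp; ring
    rw [c1, c2, c3]
    have c4 : 6 * C * δ₁ ≤ δ / 4 := by
      rw [hδ₁, mul_div_assoc', div_le_iff₀ (by positivity)]
      nlinarith
    have c5 : C * ε₂ + 120 * ε₁ * ε₂ ^ 2 ≤ δ / 4 := by
      have : ε₂ ^ 2 ≤ ε₂ := by nlinarith
      have h6 : 120 * ε₁ * ε₂ ^ 2 ≤ 120 * ε₁ * ε₂ := mul_le_mul_of_nonneg_left this (by positivity)
      linarith
    linarith
  · -- the bounds of the force in all norms
    set WRA := (Wn (Rs ν A)).toReal with hWRA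
    set WRB := (Wn (Rs ν B)).toReal with hWRB
    have hWRA0 : 0 ≤ WRA := ENNReal.toReal_nonneg
    have hWRB0 : 0 ≤ WRB := ENNReal.toReal_nonneg
    have eWRA : Wn (Rs ν A) = ENNReal.ofReal WRA := (ENNReal.ofReal_toReal (Wn_fin (Rs_spf hAs))).symm
    have eWRB : Wn (Rs ν B) = ENNReal.ofReal WRB := (ENNReal.ofReal_toReal (Wn_fin (Rs_spf hBs))).symm
    refine ⟨(WRA + (C / (τ / 2) * M₁ + 120 * M₁ ^ 2)) + ((C / ε₁ * ε₂ + 120 * ε₂ ^ 2) + (WRB + (C / ε₁ * M₂ + 120 * M₂ ^ 2))),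
      by positivity, fun s' hs' t ht => ?_⟩
    have hz' : Nc s' (fun _ => (0 : R3)) = 0 := Nc_zero (by linarith)
    have ht0 : 0 < t := ht.1
    have n1 : 0 ≤ C / (τ / 2) * M₁ + 120 * M₁ ^ 2 := by positivity
    have n2 : 0 ≤ C / ε₁ * ε₂ + 120 * ε₂ ^ 2 := by positivity
    have n3 : 0 ≤ C / ε₁ * M₂ + 120 * M₂ ^ 2 := by positivity
    rcases le_or_gt t (τ / 2) with h1 | h1
    · rw [w3 t (by linarith), w2 t (by linarith), show f1 t = Rs ν A from bf_left hab1 h1]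
      refine (Nc_le_Wn hs' _).trans ?_
      rw [eWRA]
      exact ENNReal.ofReal_le_ofReal (by linarith)
    rcases le_or_gt t τ with h2 | h2
    · rw [w3 t (by linarith), w2 t (by linarith)]
      refine (blend_bd hC hab1 PA PU hs' (t := t) ht0).trans ?_
      have h4 : Wn (dif (fun _ => A) U t) ≤ ENNReal.ofReal M₁ := by
        rw [hM₁, ENNReal.ofReal_add hMU0 hWA0, ← eWA]
        exact (Wn_sub (adm_spf hb hU ht0.le) hAs).trans (add_le_add (hMU t ht0.le) le_rfl)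
      have h5 : Nc s' (Rs ν A) ≤ ENNReal.ofReal WRA := eWRA ▸ Nc_le_Wn hs' _
      have h6 : (Nc s' (Rs ν A) + 0) + (ENNReal.ofReal (C / (τ - τ / 2)) * Nc s' (dif (fun _ => A) U t)
          + ENNReal.ofReal 120 * Wn (dif (fun _ => A) U t) ^ 2) ≤ ENNReal.ofReal (WRA + (C / (τ / 2) * M₁ + 120 * M₁ ^ 2)) := by
        rw [add_zero, ENNReal.ofReal_add hWRA0 (by positivity), ENNReal.ofReal_add (by positivity) (by positivity)]
        refine add_le_add h5 (add_le_add ?_ ?_)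
        · rw [show τ - τ / 2 = τ / 2 by ring, ENNReal.ofReal_mul (by positivity)]
          exact mul_le_mul' le_rfl ((Nc_le_Wn hs' _).trans h4)
        · rw [ENNReal.ofReal_mul (by norm_num), ENNReal.ofReal_pow hM₁0]
          exact mul_le_mul' le_rfl (pow_le_pow_left' h4 2)
      rw [hz']
      exact h6.trans (ENNReal.ofReal_le_ofReal (by linarith))
    rcases le_or_gt t ε₁ with h3 | h3
    · rw [w3 t (by linarith), w2 t h3, (v1 t h2.le).1, hz']
      exact bot_le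
    rcases le_or_gt t (2 * ε₁) with h7 | h7
    · rw [w3 t h7]
      refine (blend_bd hC hab2 P1 PV hs' (t := t) ht0).trans ?_
      have e1 := v1 t h2.le
      have e2 : dif u1 v t = fun x => v t x - U t x := by
        unfold dif
        rw [e1.2]
      have h4 : Wn (dif u1 v t) ≤ ENNReal.ofReal ε₂ := by
        rw [e2, Wn_dif hν hb hU hG hv ht0.le]
        exact ENNReal.ofReal_le_ofReal (hUv t (hε₂ε.trans h3.le))
      rw [e1.1, hz', add_zero, zero_add]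
      have h6 : ENNReal.ofReal (C / (2 * ε₁ - ε₁)) * Nc s' (dif u1 v t) + ENNReal.ofReal 120 * Wn (dif u1 v t) ^ 2
          ≤ ENNReal.ofReal (C / ε₁ * ε₂ + 120 * ε₂ ^ 2) := by
        rw [ENNReal.ofReal_add (by positivity) (by positivity)]
        refine add_le_add ?_ ?_
        · rw [show 2 * ε₁ - ε₁ = ε₁ by ring, ENNReal.ofReal_mul (by positivity)]
          exact mul_le_mul' le_rfl ((Nc_le_Wn hs' _).trans h4)
        · rw [ENNReal.ofReal_mul (by norm_num), ENNReal.ofReal_pow hε₂.le]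
          exact mul_le_mul' le_rfl (pow_le_pow_left' h4 2)
      exact h6.trans (ENNReal.ofReal_le_ofReal (by linarith))
    · refine (blend_bd hC hab3 P2 PB hs' (t := t) trivial).trans ?_
      have e1 := v2 t h7.le
      have e2 : dif u2 (fun _ => B) t = fun x => B x - v t x := by
        unfold dif
        rw [e1.2]
      have h4 : Wn (dif u2 (fun _ => B) t) ≤ ENNReal.ofReal M₂ := by
        rw [e2, hM₂, ENNReal.ofReal_add hWB0 hMV0, ← eWB]
        exact (Wn_sub hBs (adm_spf hG hv ht0.le)).trans (add_le_add le_rfl (hMV t ht0.le))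
      have h5 : Nc s' (Rs ν B) ≤ ENNReal.ofReal WRB := eWRB ▸ Nc_le_Wn hs' _
      rw [e1.1, hz', zero_add]
      have h6 : Nc s' (Rs ν B) + (ENNReal.ofReal (C / (3 * ε₁ - 2 * ε₁)) * Nc s' (dif u2 (fun _ => B) t)
          + ENNReal.ofReal 120 * Wn (dif u2 (fun _ => B) t) ^ 2) ≤ ENNReal.ofReal (WRB + (C / ε₁ * M₂ + 120 * M₂ ^ 2)) := by
        rw [ENNReal.ofReal_add hWRB0 (by positivity), ENNReal.ofReal_add (by positivity) (by positivity)]
        refine add_le_add h5 (add_le_add ?_ ?_)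
        · rw [show 3 * ε₁ - 2 * ε₁ = ε₁ by ring, ENNReal.ofReal_mul (by positivity)]
          exact mul_le_mul' le_rfl ((Nc_le_Wn hs' _).trans h4)
        · rw [ENNReal.ofReal_mul (by norm_num), ENNReal.ofReal_pow hM₂0]
          exact mul_le_mul' le_rfl (pow_le_pow_left' h4 2)
      exact h6.trans (ENNReal.ofReal_le_ofReal (by linarith))

end Pool.Agent.U162.SF
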