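import Pool.Agent.U162.SF.InterpG

/-!
The Leray decomposition of smooth periodic fields
-/

open MeasureTheory Set Filter Topology
open scoped ENNReal NNReal ContDiff

namespace Pool.Agent.U162.SF

open Pool.Agent.H356R3.NS Pool.Agent.U162.TS Pool.Agent.U162.GE Pool.Agent.U162.TS.EL Pool.Agent.U162.TS.VF Pool.Agent.U162.TS.Ph Pool.Agent.U162.PL Pool.Agent.U162.MU

/-- Fourier coefficients of smooth real functions without mean -/
structure Sca (s : K → ℂ) : Prop where
  mean : s 0 = 0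
  real : ∀ k, s (-k) = star (s k)
  dec : ∀ j : ℕ, ∃ D : ℝ, ∀ k, nk k ^ j * ‖s k‖ ≤ D

lemma Sca.nsumm {s : K → ℂ} (h : Sca s) (n : ℕ) : Summable fun k => (1 + (H459R3.NS.N k : ℝ)) ^ n * ‖s k‖ := by
  obtain ⟨D, hD⟩ := h.dec (n + 4)
  have hD0 : 0 ≤ D := (mul_nonneg (pow_nonneg (nk_nonneg 0) _) (norm_nonneg _)).trans (hD 0)
  refine (summable_nk4.mul_left (2 ^ n * D)).of_nonneg_of_le (fun k => by positivity) fun k => ?_
  by_cases hk : k = 0
  · subst hk; rw [h.mean]; simp
  · have hkp := nk_pos hk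
    have h1 := one_le_nk hk
    rw [if_neg hk, mul_one_div, le_div_iff₀ (by positivity)]
    have h2 : (1 + (H459R3.NS.N k : ℝ)) ^ n ≤ 2 ^ n * nk k ^ n := by
      rw [← mul_pow]
      refine pow_le_pow_left₀ (by positivity) ?_ n
      have := N_le_nk k
      linarith
    calc (1 + (H459R3.NS.N k : ℝ)) ^ n * ‖s k‖ * nk k ^ 4 ≤ 2 ^ n * nk k ^ n * ‖s k‖ * nk k ^ 4 := by gcongr
      _ = 2 ^ n * (nk k ^ (n + 4) * ‖s k‖) := by ring
      _ ≤ 2 ^ n * D := mul_le_mul_of_nonneg_left (hD k) (by positivity)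

/-- the function with given coefficients -/
noncomputable def scl (s : K → ℂ) (x : R3) : ℝ := (∑' k, s k * ch k x).re

lemma scl_sp {s : K → ℂ} (h : Sca s) : H459R3.NS.SP (scl s) where
  smooth := by
    unfold scl
    have h1 : ContDiff ℝ ∞ fun x : R3 => ∑' k : K, H459R3.NS.ee k x • s k :=
      series_smooth (ι := K) (l := fun k => k) (s := s) fun n => h.nsumm n
    have e : (fun x : R3 => (∑' k, s k * ch k x).re) = fun x => (∑' k : K, H459R3.NS.ee k x • s k).re := by
      funext x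
      congr 1
      refine tsum_congr fun k => ?_
      rw [smul_eq_mul, ee_eq_ch, mul_comm]
    rw [e]
    exact Complex.reCLM.contDiff.comp h1
  per := fun j x => by
    unfold scl
    congr 1
    refine tsum_congr fun k => ?_
    rw [← ee_eq_ch, ← ee_eq_ch, H459R3.NS.ee_per k j x]

lemma scl_fr {s : K → ℂ} (h : Sca s) (l : K) : H459R3.NS.fr (scl s) l = s l := by
  have hs : Summable s := by
    have := h.nsumm 0
    simp only [pow_zero, one_mul] at this
    exact this.of_norm
  have h1 : ∀ x, ((scl s x : ℝ) : ℂ) = H459R3.NS.S s x := by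
    intro x
    have e : H459R3.NS.S s x = ∑' k, s k * ch k x := by
      unfold H459R3.NS.S
      exact tsum_congr fun k => by rw [ee_eq_ch]
    rw [e]
    refine Complex.conj_eq_iff_re.1 ?_
    rw [Complex.conj_tsum, ← (Equiv.neg K).tsum_eq]
    refine tsum_congr fun k => ?_
    rw [map_mul, Equiv.neg_apply, h.real]
    have := ch_neg_star k x
    rw [← this]
    simp [Complex.star_def]
  unfold H459R3.NS.fr H459R3.NS.fc
  have h2 := H459R3.NS.integral_ee_S (-l) hs
  rw [neg_neg] at h2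
  rw [← h2]
  refine integral_congr_ae (Filter.Eventually.of_forall fun x => ?_)
  simp only
  rw [h1]

lemma spf_dec {H : R3 → R3} (hH : SPF H) (j : ℕ) : ∃ D : ℝ, ∀ k, nk k ^ j * ‖H356R3.NS.fc H k‖ ≤ D := by
  choose C hC0 hC using fun i => fr_dec (hH i) j
  refine ⟨∑ i, C i, fun k => ?_⟩
  calc nk k ^ j * ‖H356R3.NS.fc H k‖ ≤ nk k ^ j * ∑ i, ‖H459R3.NS.fr (fun x => H x i) k‖ :=
        mul_le_mul_of_nonneg_left (fc_norm_le H k) (pow_nonneg (nk_nonneg k) j)
    _ = ∑ i, nk k ^ j * ‖H459R3.NS.fr (fun x => H x i) k‖ := Finset.mul_sum _ _ _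
    _ ≤ _ := Finset.sum_le_sum fun i _ => hC i k

lemma spf_real {H : R3 → R3} (hH : SPF H) (k : K) (i : Fin 3) : H356R3.NS.fc H (-k) i = star (H356R3.NS.fc H k i) := by
  rw [← fr_eq_fc, ← fr_eq_fc, Pool.Agent.Q63.Win.fr_neg (hH i).smooth.continuous]
  rfl

/-- the coefficients of the potential -/
noncomputable def pots (H : R3 → R3) (k : K) : ℂ :=
  dt k (H356R3.NS.fc H k) / (2 * Real.pi * Complex.I * ((H356R3.NS.sq k : ℝ) : ℂ))

lemma two_pi_I_ne : (2 * Real.pi * Complex.I : ℂ) ≠ 0 := by simp [Real.pi_ne_zero, Complex.I_ne_zero]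

lemma norm_two_pi_I : ‖(2 * Real.pi * Complex.I : ℂ)‖ = 2 * Real.pi := by
  rw [norm_mul, norm_mul, Complex.norm_I, Complex.norm_real]
  simp [abs_of_pos Real.pi_pos]

lemma pots_sca {H : R3 → R3} (hH : SPF H) : Sca (pots H) where
  mean := by unfold pots; rw [H356R3.NS.sq_zero]; simp
  real := fun k => by
    unfold pots
    rw [dt_star k _ _ (fun i => spf_real hH k i), H356R3.NS.sq_neg, star_div₀]
    have e : star (2 * (Real.pi : ℂ) * Complex.I * ((H356R3.NS.sq k : ℝ) : ℂ)) = -(2 * (Real.pi : ℂ) * Complex.I * ((H356R3.NS.sq k : ℝ) : ℂ)) := by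
      simp only [Complex.star_def, map_mul, Complex.conj_ofReal, Complex.conj_I, map_ofNat]
      ring
    rw [e, div_neg, neg_div]
  dec := fun j => by
    obtain ⟨D, hD⟩ := spf_dec hH j
    refine ⟨D, fun k => ?_⟩
    have hD0 : 0 ≤ D := (mul_nonneg (pow_nonneg (nk_nonneg 0) _) (norm_nonneg _)).trans (hD 0)
    by_cases hk : k = 0
    · subst hk
      have : pots H 0 = 0 := by unfold pots; rw [H356R3.NS.sq_zero]; simp
      rw [this, norm_zero, mul_zero]; exact hD0
    have hkp := nk_pos hk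
    have hk1 := one_le_nk hk
    refine le_trans (mul_le_mul_of_nonneg_left ?_ (pow_nonneg hkp.le j)) (hD k)
    unfold pots
    rw [norm_div, norm_mul, norm_two_pi_I, Complex.norm_real, Real.norm_of_nonneg (sq_nonneg' k), ← H356R3.NS.nk_sq,
      div_le_iff₀ (by positivity)]
    calc ‖dt k (H356R3.NS.fc H k)‖ ≤ 3 * nk k * ‖H356R3.NS.fc H k‖ := dt_norm k _
      _ = ‖H356R3.NS.fc H k‖ * (3 * nk k) := by ring
      _ ≤ ‖H356R3.NS.fc H k‖ * (2 * Real.pi * nk k ^ 2) := by
          refine mul_le_mul_of_nonneg_left ?_ (norm_nonneg _)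
          have h3 := Real.pi_gt_three
          nlinarith

/-- the Leray projection of a smooth periodic field -/
noncomputable def ler (H : R3 → R3) : R3 → R3 := fld fun k => if k = 0 then 0 else pr k (H356R3.NS.fc H k)

/-- the potential of a smooth periodic field -/
noncomputable def pot (H : R3 → R3) : R3 → ℝ := scl (pots H)

lemma ler_field {H : R3 → R3} (hH : SPF H) : Field (ler H) := fld_field (proj_dta hH)

lemma ler_fc {H : R3 → R3} (hH : SPF H) (k : K) : H356R3.NS.fc (ler H) k = if k = 0 then 0 else pr k (H356R3.NS.fc H k) :=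
  funext fun i => fld_fc (proj_dta hH) k i

lemma ler_norm {H : R3 → R3} (hH : SPF H) (k : K) : ‖H356R3.NS.fc (ler H) k‖ ≤ 4 * ‖H356R3.NS.fc H k‖ := by
  rw [ler_fc hH]
  split_ifs
  · rw [norm_zero]; positivity
  · exact leray_norm _ _

lemma pot_sp {H : R3 → R3} (hH : SPF H) : H459R3.NS.SP (pot H) := scl_sp (pots_sca hH)

/-- the Leray decomposition -/
theorem leray_dec {H : R3 → R3} (hH : SPF H) (h0 : H356R3.NS.fc H 0 = 0) (x : R3) (i : Fin 3) :
    H x i = ler H x i + pd i (pot H) x := by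
  have s1 := hH i
  have s2 := (ler_field hH).sp i
  have s3 : H459R3.NS.SP (H459R3.NS.pd i (pot H)) := (pot_sp hH).pd i
  have hsp : H459R3.NS.SP fun x => (H x i - ler H x i) - H459R3.NS.pd i (pot H) x := (s1.sub s2).sub s3
  have hz : H459R3.NS.fr (fun x => (H x i - ler H x i) - H459R3.NS.pd i (pot H) x) = fun _ => 0 := by
    funext k
    rw [fr_sub' (s1.sub s2) s3, fr_sub' s1 s2, H459R3.NS.fr_pd (pot_sp hH)]
    have e1 : H459R3.NS.fr (fun x => ler H x i) k = (if k = 0 then 0 else pr k (H356R3.NS.fc H k) : C3) i := by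
      rw [fr_eq_fc, ler_fc hH]
    have e2 : H459R3.NS.fr (pot H) k = pots H k := scl_fr (pots_sca hH) k
    rw [e1, fr_eq_fc]
    unfold H459R3.NS.D
    rw [e2]
    by_cases hk : k = 0
    · subst hk
      rw [h0]; simp
    · rw [if_neg hk]
      have hs : ((H356R3.NS.sq k : ℝ) : ℂ) ≠ 0 := by exact_mod_cast (H356R3.NS.sq_pos hk).ne'
      unfold pots pr
      have := two_pi_I_ne
      field_simp
      ring
  have h1 := H459R3.NS.S_fr hsp x
  rw [hz] at h1
  have h2 : H459R3.NS.S (fun _ => 0) x = 0 := by unfold H459R3.NS.S; simp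
  rw [h2] at h1
  have h3 : (H x i - ler H x i) - H459R3.NS.pd i (pot H) x = 0 := by exact_mod_cast h1.symm
  have h4 : H459R3.NS.pd i (pot H) x = pd i (pot H) x := rfl
  rw [← h4]
  linarith

end Pool.Agent.U162.SF
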