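import Pool.Agent.U162.SF.SteerE
import Pool.Agent.U162.MU.Cost3

/-!
The critical norms: elementary inequalities
-/

open MeasureTheory Set Filter Topology
open scoped ENNReal NNReal ContDiff

namespace Pool.Agent.U162.SF

open Pool.Agent.H356R3.NS Pool.Agent.U162.TS Pool.Agent.U162.GE Pool.Agent.U162.TS.EL Pool.Agent.U162.TS.VF Pool.Agent.U162.TS.Ph Pool.Agent.U162.PL Pool.Agent.U162.MU

lemma rpow_split {s : ℝ} (hs : 1 ≤ s) (x : ℝ≥0∞) : x ^ s = x ^ (s - 1) * x := by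
  calc x ^ s = x ^ ((s - 1) + 1) := by rw [sub_add_cancel]
    _ = x ^ (s - 1) * x ^ (1 : ℝ) := ENNReal.rpow_add_of_nonneg _ _ (by linarith) (by norm_num)
    _ = _ := by rw [ENNReal.rpow_one]

lemma rpow_inv' {s : ℝ} (hs : 0 < s) (x : ℝ≥0∞) : (x ^ s) ^ (1 / s) = x := by
  rw [← ENNReal.rpow_mul, mul_one_div, div_self hs.ne', ENNReal.rpow_one]

lemma crit_le_sum {s : ℝ} (hs : 1 ≤ s) (a : K → C3) : critNorm s a ≤ ∑' J, shellSum a J / 2 ^ J := by
  set S := ∑' J, shellSum a J / 2 ^ J with hS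
  unfold critNorm
  have h1 : ∑' J, (shellSum a J / 2 ^ J) ^ s ≤ S ^ s := by
    calc ∑' J, (shellSum a J / 2 ^ J) ^ s ≤ ∑' J, S ^ (s - 1) * (shellSum a J / 2 ^ J) := by
          refine ENNReal.tsum_le_tsum fun J => ?_
          rw [rpow_split hs]
          exact mul_le_mul' (ENNReal.rpow_le_rpow (ENNReal.le_tsum J) (by linarith)) le_rfl
      _ = S ^ (s - 1) * S := ENNReal.tsum_mul_left
      _ = S ^ s := (rpow_split hs S).symm
  refine (ENNReal.rpow_le_rpow h1 (by positivity)).trans (le_of_eq ?_)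
  exact rpow_inv' (by linarith) S

lemma shell_add (a b : K → C3) (J : ℕ) : shellSum (fun k => a k + b k) J ≤ shellSum a J + shellSum b J := by
  unfold shellSum
  rw [← ENNReal.tsum_add]
  refine ENNReal.tsum_le_tsum fun k => ?_
  split_ifs
  · exact enorm_add_le _ _
  · simp

lemma crit_add {s : ℝ} (hs : 1 ≤ s) (a b : K → C3) : critNorm s (fun k => a k + b k) ≤ critNorm s a + critNorm s b := by
  have hs0 : 0 < s := by linarith
  have h1 : ∑' J, (shellSum (fun k => a k + b k) J / 2 ^ J) ^ s ≤ (critNorm s a + critNorm s b) ^ s := by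
    rw [ENNReal.tsum_eq_iSup_sum]
    refine iSup_le fun F => ?_
    have h2 : ∑ J ∈ F, (shellSum (fun k => a k + b k) J / 2 ^ J) ^ s
        ≤ ∑ J ∈ F, (shellSum a J / 2 ^ J + shellSum b J / 2 ^ J) ^ s := by
      refine Finset.sum_le_sum fun J _ => ENNReal.rpow_le_rpow ?_ hs0.le
      rw [← ENNReal.add_div]
      exact ENNReal.div_le_div_right (shell_add a b J) _
    have h3 := ENNReal.Lp_add_le F (fun J => shellSum a J / 2 ^ J) (fun J => shellSum b J / 2 ^ J) hs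
    have h4 : ∀ c : K → C3, (∑ J ∈ F, (shellSum c J / 2 ^ J) ^ s) ^ (1 / s) ≤ critNorm s c := by
      intro c
      unfold critNorm
      exact ENNReal.rpow_le_rpow (ENNReal.sum_le_tsum F) (by positivity)
    have h5 := h3.trans (add_le_add (h4 a) (h4 b))
    have h6 := ENNReal.rpow_le_rpow h5 hs0.le
    refine h2.trans (le_trans (le_of_eq ?_) h6)
    rw [← ENNReal.rpow_mul, one_div_mul_cancel hs0.ne', ENNReal.rpow_one]
  have h2 := ENNReal.rpow_le_rpow h1 (z := 1 / s) (by positivity)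
  rw [rpow_inv' hs0] at h2
  exact h2

lemma shell_smul' (r : ℝ) (a : K → C3) (J : ℕ) : shellSum (fun k => r • a k) J = ENNReal.ofReal |r| * shellSum a J := by
  unfold shellSum
  rw [← ENNReal.tsum_mul_left]
  refine tsum_congr fun k => ?_
  split_ifs
  · rw [enorm_smul, Real.enorm_eq_ofReal_abs]
  · simp

lemma crit_smul {s : ℝ} (hs : 0 < s) (r : ℝ) (a : K → C3) :
    critNorm s (fun k => r • a k) = ENNReal.ofReal |r| * critNorm s a := by
  unfold critNorm
  have h1 : ∀ J, (shellSum (fun k => r • a k) J / 2 ^ J) ^ s = ENNReal.ofReal |r| ^ s * (shellSum a J / 2 ^ J) ^ s := by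
    intro J
    rw [shell_smul', mul_div_assoc, ENNReal.mul_rpow_of_nonneg _ _ hs.le]
  simp only [h1]
  rw [ENNReal.tsum_mul_left, ENNReal.mul_rpow_of_nonneg _ _ (by positivity), rpow_inv' hs]

lemma crit_zero {s : ℝ} (hs : 0 < s) : critNorm s (fun _ => (0 : C3)) = 0 := by
  have := crit_smul hs 0 (fun _ => (0 : C3))
  simpa using this

lemma crit_le_tsum {s : ℝ} (hs : 1 ≤ s) (a : K → C3) : critNorm s a ≤ ∑' k, ‖a k‖ₑ := by
  refine (crit_le_sum hs a).trans ?_
  rw [shells_wJ]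
  refine ENNReal.tsum_le_tsum fun k => ?_
  calc ‖a k‖ₑ * wJ k ≤ ‖a k‖ₑ * 1 := mul_le_mul' le_rfl (wJ_le k)
    _ = _ := mul_one _

lemma crit_le_eN {s : ℝ} (hs : 1 ≤ s) (a : K → C3) : critNorm s a ≤ 2 * eN a :=
  (crit_le_sum hs a).trans (shells_eN a)

/-! ### fields -/

/-- smooth periodic fields -/
def SPF (f : R3 → R3) : Prop := ∀ i, H459R3.NS.SP fun x => f x i

/-- the critical norm of a field -/
noncomputable def Nc (s : ℝ) (f : R3 → R3) : ℝ≥0∞ := critNorm s (H356R3.NS.fc f)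

/-- the Wiener norm of a field -/
noncomputable def Wn (f : R3 → R3) : ℝ≥0∞ := ∑' k, ‖H356R3.NS.fc f k‖ₑ

lemma fc_add {f g : R3 → R3} (hf : SPF f) (hg : SPF g) (k : K) :
    H356R3.NS.fc (fun x => f x + g x) k = H356R3.NS.fc f k + H356R3.NS.fc g k := by
  funext i
  rw [← fr_eq_fc, Pi.add_apply, ← fr_eq_fc, ← fr_eq_fc]
  exact fr_add' (hf i) (hg i) k

lemma fc_smul (f : R3 → R3) (r : ℝ) (k : K) : H356R3.NS.fc (fun x => r • f x) k = r • H356R3.NS.fc f k := by
  funext i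
  rw [← fr_eq_fc, Pi.smul_apply, ← fr_eq_fc, Complex.real_smul]
  exact fr_const_mul _ r k

lemma SPF.add {f g : R3 → R3} (hf : SPF f) (hg : SPF g) : SPF fun x => f x + g x := fun i => (hf i).add (hg i)

lemma SPF.smul {f : R3 → R3} (hf : SPF f) (r : ℝ) : SPF fun x => r • f x := fun i => sp_const_mul (hf i) r

lemma SPF.sub {f g : R3 → R3} (hf : SPF f) (hg : SPF g) : SPF fun x => f x - g x := fun i => (hf i).sub (hg i)

lemma fc_sub {f g : R3 → R3} (hf : SPF f) (hg : SPF g) (k : K) :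
    H356R3.NS.fc (fun x => f x - g x) k = H356R3.NS.fc f k - H356R3.NS.fc g k := by
  have h := fc_add hf (hg.smul (-1)) k
  rw [fc_smul] at h
  have e : (fun x => f x + (-1 : ℝ) • g x) = fun x => f x - g x := by
    funext x; rw [neg_one_smul, sub_eq_add_neg]
  rw [e] at h
  rw [h, neg_one_smul, sub_eq_add_neg]

lemma Nc_add {s : ℝ} (hs : 1 ≤ s) {f g : R3 → R3} (hf : SPF f) (hg : SPF g) :
    Nc s (fun x => f x + g x) ≤ Nc s f + Nc s g := by
  unfold Nc
  have e : H356R3.NS.fc (fun x => f x + g x) = fun k => H356R3.NS.fc f k + H356R3.NS.fc g k := funext fun k => fc_add hf hg k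
  rw [e]
  exact crit_add hs _ _

lemma Nc_smul {s : ℝ} (hs : 0 < s) (f : R3 → R3) (r : ℝ) : Nc s (fun x => r • f x) = ENNReal.ofReal |r| * Nc s f := by
  unfold Nc
  have e : H356R3.NS.fc (fun x => r • f x) = fun k => r • H356R3.NS.fc f k := funext fun k => fc_smul f r k
  rw [e]
  exact crit_smul hs r _

lemma Nc_zero {s : ℝ} (hs : 0 < s) : Nc s (fun _ => 0) = 0 := by
  have := Nc_smul hs (fun _ => (0 : R3)) 0
  simpa using this

lemma Nc_le_Wn {s : ℝ} (hs : 1 ≤ s) (f : R3 → R3) : Nc s f ≤ Wn f := crit_le_tsum hs _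

lemma Wn_add {f g : R3 → R3} (hf : SPF f) (hg : SPF g) : Wn (fun x => f x + g x) ≤ Wn f + Wn g := by
  unfold Wn
  rw [← ENNReal.tsum_add]
  refine ENNReal.tsum_le_tsum fun k => ?_
  rw [fc_add hf hg]
  exact enorm_add_le _ _

lemma Wn_smul (f : R3 → R3) (r : ℝ) : Wn (fun x => r • f x) = ENNReal.ofReal |r| * Wn f := by
  unfold Wn
  rw [← ENNReal.tsum_mul_left]
  refine tsum_congr fun k => ?_
  rw [fc_smul, enorm_smul, Real.enorm_eq_ofReal_abs]

lemma Wn_sub {f g : R3 → R3} (hf : SPF f) (hg : SPF g) : Wn (fun x => f x - g x) ≤ Wn f + Wn g := by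
  have h := Wn_add hf (hg.smul (-1))
  rw [Wn_smul] at h
  have e : (fun x => f x + (-1 : ℝ) • g x) = fun x => f x - g x := by
    funext x; rw [neg_one_smul, sub_eq_add_neg]
  rw [e] at h
  simpa using h

lemma An1_le_Wn (f : R3 → R3) (i : Fin 3) : An1 (fun x => f x i) ≤ Wn f := by
  unfold An1 Wn
  refine ENNReal.tsum_le_tsum fun k => ?_
  rw [fr_eq_fc, ← ofReal_norm, ← ofReal_norm]
  exact ENNReal.ofReal_le_ofReal (norm_le_pi_norm _ i)

lemma fc_norm_le (f : R3 → R3) (k : K) : ‖H356R3.NS.fc f k‖ ≤ ∑ i, ‖H459R3.NS.fr (fun x => f x i) k‖ := by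
  rw [pi_norm_le_iff_of_nonneg (by positivity)]
  intro i
  rw [← fr_eq_fc]
  exact Finset.single_le_sum (f := fun i => ‖H459R3.NS.fr (fun x => f x i) k‖) (fun _ _ => norm_nonneg _) (Finset.mem_univ i)

lemma Wn_fin {f : R3 → R3} (hf : SPF f) : Wn f ≠ ⊤ := by
  unfold Wn
  have h1 : ∀ k, ‖H356R3.NS.fc f k‖ₑ ≤ ENNReal.ofReal (∑ i, ‖H459R3.NS.fr (fun x => f x i) k‖) := fun k => by
    rw [← ofReal_norm]
    exact ENNReal.ofReal_le_ofReal (fc_norm_le f k)
  have hs : Summable fun k => ∑ i, ‖H459R3.NS.fr (fun x => f x i) k‖ :=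
    summable_sum fun i _ => by simpa using H459R3.NS.rap_fr (hf i) 0
  refine ne_top_of_le_ne_top ?_ (ENNReal.tsum_le_tsum h1)
  rw [← ENNReal.ofReal_tsum_of_nonneg (fun k => by positivity) hs]
  exact ENNReal.ofReal_ne_top

/-- `z · ∇z` -/
noncomputable def adv (z : R3 → R3) (x : R3) (i : Fin 3) : ℝ := ∑ j, z x j * pd j (fun y => z y i) x

lemma adv_eq {z : R3 → R3} (hz : SPF z) (hd : ∀ x, ∑ i, pd i (fun y => z y i) x = 0) (i : Fin 3) :
    (fun x => adv z x i) = fun x => ∑ j, H459R3.NS.pd j (fun y => z y j * z y i) x := by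
  funext x
  have h1 : ∀ j, H459R3.NS.pd j (fun y => z y j * z y i) x = pd j (fun y => z y j) x * z x i + z x j * pd j (fun y => z y i) x := by
    intro j
    rw [H459R3.NS.pd_mul (hz j) (hz i)]
    rw [add_comm]; rfl
  simp only [h1]
  rw [Finset.sum_add_distrib, ← Finset.sum_mul, hd, zero_mul, zero_add]
  rfl

lemma adv_spf {z : R3 → R3} (hz : SPF z) : SPF (adv z) := by
  intro i
  exact H459R3.NS.SP.sum (f := fun j x => z x j * H459R3.NS.pd j (fun y => z y i) x) fun j _ => (hz j).mul ((hz i).pd j)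

lemma fc_adv {z : R3 → R3} (hz : SPF z) (hd : ∀ x, ∑ i, pd i (fun y => z y i) x = 0) (k : K) (i : Fin 3) :
    H356R3.NS.fc (adv z) k i = ∑ j, 2 * Real.pi * Complex.I * (k j : ℂ) * H459R3.NS.fr (fun y => z y j * z y i) k := by
  rw [← fr_eq_fc, adv_eq hz hd i, H459R3.NS.fr_sum (s := Finset.univ)
    (f := fun j => H459R3.NS.pd j (fun y => z y j * z y i)) (fun j _ => ((hz j).mul (hz i)).pd j)]
  refine Finset.sum_congr rfl fun j _ => ?_
  rw [H459R3.NS.fr_pd ((hz j).mul (hz i))]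
  unfold H459R3.NS.D
  ring

lemma Nc_adv {s : ℝ} (hs : 1 ≤ s) {z : R3 → R3} (hz : SPF z) (hd : ∀ x, ∑ i, pd i (fun y => z y i) x = 0) :
    Nc s (adv z) ≤ ENNReal.ofReal 120 * Wn z ^ 2 := by
  unfold Nc
  refine (crit_le_eN hs _).trans ?_
  have h1 : ∀ k : K, ‖H356R3.NS.fc (adv z) k‖ₑ * ENNReal.ofReal (1 / nk k)
      ≤ ENNReal.ofReal (2 * Real.pi) * ∑ j : Fin 3, ∑ i : Fin 3, ‖H459R3.NS.fr (fun y => z y j * z y i) k‖ₑ := by
    intro k
    by_cases hk : k = 0
    · subst hk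
      rw [nk_zero]; simp
    have hn := nk_pos hk
    rw [← ofReal_norm, ← ENNReal.ofReal_mul (norm_nonneg _)]
    have h2 : ‖H356R3.NS.fc (adv z) k‖ ≤ 2 * Real.pi * nk k * ∑ j : Fin 3, ∑ i : Fin 3, ‖H459R3.NS.fr (fun y => z y j * z y i) k‖ := by
      rw [pi_norm_le_iff_of_nonneg (by positivity)]
      intro i
      rw [fc_adv hz hd, Finset.mul_sum]
      refine (norm_sum_le _ _).trans (Finset.sum_le_sum fun j _ => ?_)
      rw [norm_mul, norm_mul]
      have e1 : ‖2 * (Real.pi : ℂ) * Complex.I‖ = 2 * Real.pi := by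
        rw [norm_mul, norm_mul, Complex.norm_I, Complex.norm_real]
        simp [abs_of_pos Real.pi_pos]
      rw [e1, Complex.norm_intCast]
      have e2 : ‖H459R3.NS.fr (fun y => z y j * z y i) k‖ ≤ ∑ i : Fin 3, ‖H459R3.NS.fr (fun y => z y j * z y i) k‖ :=
        Finset.single_le_sum (f := fun i => ‖H459R3.NS.fr (fun y => z y j * z y i) k‖) (fun _ _ => norm_nonneg _) (Finset.mem_univ i)
      exact mul_le_mul (mul_le_mul_of_nonneg_left (abs_le_nk k j) (by positivity)) e2 (norm_nonneg _) (by positivity)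
    have h3 : ‖H356R3.NS.fc (adv z) k‖ * (1 / nk k) ≤ 2 * Real.pi * ∑ j : Fin 3, ∑ i : Fin 3, ‖H459R3.NS.fr (fun y => z y j * z y i) k‖ := by
      rw [mul_one_div, div_le_iff₀ hn]
      refine h2.trans (le_of_eq ?_)
      ring
    refine (ENNReal.ofReal_le_ofReal h3).trans (le_of_eq ?_)
    rw [ENNReal.ofReal_mul (by positivity), ENNReal.ofReal_sum_of_nonneg fun _ _ => by positivity]
    congr 1
    refine Finset.sum_congr rfl fun j _ => ?_
    rw [ENNReal.ofReal_sum_of_nonneg fun _ _ => by positivity]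
    exact Finset.sum_congr rfl fun i _ => ofReal_norm _
  have h4 : eN (H356R3.NS.fc (adv z)) ≤ ENNReal.ofReal (2 * Real.pi) * (9 * Wn z ^ 2) := by
    unfold eN
    refine (ENNReal.tsum_le_tsum h1).trans ?_
    rw [ENNReal.tsum_mul_left]
    refine mul_le_mul' le_rfl ?_
    rw [Summable.tsum_finsetSum fun _ _ => ENNReal.summable]
    have h5 : ∀ j : Fin 3, ∑' k, ∑ i : Fin 3, ‖H459R3.NS.fr (fun y => z y j * z y i) k‖ₑ ≤ 3 * Wn z ^ 2 := by
      intro j
      rw [Summable.tsum_finsetSum fun _ _ => ENNReal.summable]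
      calc ∑ i : Fin 3, ∑' k, ‖H459R3.NS.fr (fun y => z y j * z y i) k‖ₑ ≤ ∑ _i : Fin 3, Wn z ^ 2 := by
            refine Finset.sum_le_sum fun i _ => ?_
            refine (An1_mul (hz j) (hz i)).trans ?_
            rw [pow_two]
            exact mul_le_mul' (An1_le_Wn z j) (An1_le_Wn z i)
        _ = _ := by simp
    calc ∑ j : Fin 3, ∑' k, ∑ i : Fin 3, ‖H459R3.NS.fr (fun y => z y j * z y i) k‖ₑ ≤ ∑ _j : Fin 3, 3 * Wn z ^ 2 :=
          Finset.sum_le_sum fun j _ => h5 j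
      _ = 9 * Wn z ^ 2 := by
          rw [Finset.sum_const, Finset.card_univ, Fintype.card_fin, nsmul_eq_mul]
          push_cast
          ring
  calc 2 * eN (H356R3.NS.fc (adv z)) ≤ 2 * (ENNReal.ofReal (2 * Real.pi) * (9 * Wn z ^ 2)) := mul_le_mul' le_rfl h4
    _ = (2 * ENNReal.ofReal (2 * Real.pi) * 9) * Wn z ^ 2 := by ring
    _ ≤ _ := by
        refine mul_le_mul' ?_ le_rfl
        rw [show (2 : ℝ≥0∞) = ENNReal.ofReal 2 by norm_num, show (9 : ℝ≥0∞) = ENNReal.ofReal 9 by norm_num,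
          ← ENNReal.ofReal_mul (by norm_num), ← ENNReal.ofReal_mul (by positivity)]
        apply ENNReal.ofReal_le_ofReal
        have := Real.pi_lt_d2
        linarith

end Pool.Agent.U162.SF
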