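import Pool.Agent.U162.SF.Norm

/-!
Smooth solutions of the forced equations, and how to join them
-/

open MeasureTheory Set Filter Topology
open scoped ENNReal NNReal ContDiff

namespace Pool.Agent.U162.SF

open Pool.Agent.H356R3.NS Pool.Agent.U162.TS Pool.Agent.U162.GE Pool.Agent.U162.TS.EL Pool.Agent.U162.TS.VF Pool.Agent.U162.TS.Ph Pool.Agent.U162.PL Pool.Agent.U162.MU

/-! ### smooth steps -/

/-- a smooth step from `0` to `1` over the interval `[a, b]` -/
noncomputable def th (a b t : ℝ) : ℝ := Real.smoothTransition ((t - a) / (b - a))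

variable {a b : ℝ}

lemma th_smooth (a b : ℝ) : ContDiff ℝ ∞ (th a b) :=
  Real.smoothTransition.contDiff.comp ((contDiff_id.sub contDiff_const).div_const _)

lemma th_left (hab : a < b) {t : ℝ} (ht : t ≤ a) : th a b t = 0 :=
  Real.smoothTransition.zero_of_nonpos (div_nonpos_of_nonpos_of_nonneg (by linarith) (by linarith))

lemma th_right (hab : a < b) {t : ℝ} (ht : b ≤ t) : th a b t = 1 :=
  Real.smoothTransition.one_of_one_le (by rw [le_div_iff₀ (by linarith)]; linarith)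

lemma th_nonneg (a b t : ℝ) : 0 ≤ th a b t := Real.smoothTransition.nonneg _

lemma th_le_one (a b t : ℝ) : th a b t ≤ 1 := Real.smoothTransition.le_one _

lemma th_deriv0 {t : ℝ} (h : th a b t = 0) : deriv (th a b) t = 0 := by
  have : IsLocalMin (th a b) t := Filter.Eventually.of_forall fun x => by rw [h]; exact th_nonneg a b x
  exact this.deriv_eq_zero

lemma th_deriv1 {t : ℝ} (h : th a b t = 1) : deriv (th a b) t = 0 := by
  have : IsLocalMax (th a b) t := Filter.Eventually.of_forall fun x => by rw [h]; exact th_le_one a b x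
  exact this.deriv_eq_zero

lemma st_bd : ∃ C : ℝ, 0 < C ∧ ∀ x, |deriv Real.smoothTransition x| ≤ C := by
  have hc : Continuous (deriv Real.smoothTransition) :=
    (Real.smoothTransition.contDiff (n := 1)).continuous_deriv le_rfl
  obtain ⟨C, hC⟩ := isCompact_Icc.exists_bound_of_continuousOn (s := Icc (0 : ℝ) 1) hc.continuousOn
  have h0 : 0 ≤ C := (norm_nonneg _).trans (hC 0 (by simp))
  refine ⟨C + 1, by linarith, fun x => ?_⟩
  by_cases hx : x ∈ Icc (0 : ℝ) 1
  · exact (hC x hx).trans (by linarith)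
  · have h1 : deriv Real.smoothTransition x = 0 := by
      rw [mem_Icc, not_and_or, not_le, not_le] at hx
      rcases hx with hx | hx
      · have : IsLocalMin Real.smoothTransition x := Filter.Eventually.of_forall fun y => by
          rw [Real.smoothTransition.zero_of_nonpos hx.le]; exact Real.smoothTransition.nonneg y
        exact this.deriv_eq_zero
      · have : IsLocalMax Real.smoothTransition x := Filter.Eventually.of_forall fun y => by
          rw [Real.smoothTransition.one_of_one_le hx.le]; exact Real.smoothTransition.le_one y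
        exact this.deriv_eq_zero
    rw [h1, abs_zero]; linarith

lemma th_deriv_bd : ∃ C : ℝ, 0 < C ∧ ∀ a b, a < b → ∀ t, |deriv (th a b) t| ≤ C / (b - a) := by
  obtain ⟨C, hC, h⟩ := st_bd
  refine ⟨C, hC, fun a b hab t => ?_⟩
  have hd : HasDerivAt (th a b) (deriv Real.smoothTransition ((t - a) / (b - a)) * (1 / (b - a))) t := by
    have h1 : HasDerivAt (fun t => (t - a) / (b - a)) (1 / (b - a)) t := ((hasDerivAt_id t).sub_const a).div_const _
    have h2 : HasDerivAt Real.smoothTransition (deriv Real.smoothTransition ((t - a) / (b - a))) ((t - a) / (b - a)) :=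
      ((Real.smoothTransition.contDiff (n := 1)).differentiable (by norm_num) _).hasDerivAt
    exact h2.comp t h1
  rw [hd.deriv, abs_mul, abs_of_pos (by have : 0 < b - a := by linarith
                                        positivity : 0 < 1 / (b - a)), mul_one_div]
  exact div_le_div_of_nonneg_right (h _) (by linarith)

/-! ### joint smoothness -/

lemma pd_joint {g : ℝ → R3 → ℝ} {t : ℝ} {x : R3} (h : ContDiffAt ℝ ∞ (fun z : ℝ × R3 => g z.1 z.2) (t, x)) (j : Fin 3) :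
    ContDiffAt ℝ ∞ (fun z : ℝ × R3 => pd j (g z.1) z.2) (t, x) := by
  have h1 : ContDiffAt ℝ ∞ (fun z => fderiv ℝ (fun z : ℝ × R3 => g z.1 z.2) z ((0 : ℝ), Pi.single j 1)) (t, x) :=
    (h.fderiv_right (m := ∞) (by norm_cast)).clm_apply contDiffAt_const
  refine h1.congr_of_eventuallyEq ?_
  have h2 : ∀ᶠ z in 𝓝 (t, x), ContDiffAt ℝ 1 (fun z : ℝ × R3 => g z.1 z.2) z :=
    (h.of_le (by norm_cast)).eventually (by norm_cast)
  filter_upwards [h2] with z hz
  have h3 : HasFDerivAt (fun z : ℝ × R3 => g z.1 z.2) (fderiv ℝ (fun z : ℝ × R3 => g z.1 z.2) z) (z.1, z.2) :=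
    (hz.differentiableAt (by norm_num)).hasFDerivAt
  have h4 : HasFDerivAt (fun y : R3 => ((z.1 : ℝ), y)) (ContinuousLinearMap.inr ℝ ℝ R3) z.2 := hasFDerivAt_prodMk_right z.1 z.2
  have h5 := h3.comp z.2 h4
  show fderiv ℝ (g z.1) z.2 (Pi.single j 1) = _
  have h6 : fderiv ℝ (g z.1) z.2 = (fderiv ℝ (fun z : ℝ × R3 => g z.1 z.2) z).comp (ContinuousLinearMap.inr ℝ ℝ R3) := h5.fderiv
  rw [h6]
  rfl

lemma comp_joint {u : ℝ → R3 → R3} {t : ℝ} {x : R3} (h : ContDiffAt ℝ ∞ (fun z : ℝ × R3 => u z.1 z.2) (t, x)) (i : Fin 3) :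
    ContDiffAt ℝ ∞ (fun z : ℝ × R3 => u z.1 z.2 i) (t, x) := contDiffAt_pi.1 h i

/-! ### forced solutions -/

/-- smooth periodic solutions of the forced equations over the times in `I` -/
structure PthOn (ν : ℝ) (I : Set ℝ) (f u : ℝ → R3 → R3) (p : ℝ → R3 → ℝ) : Prop where
  su : ∀ t ∈ I, ∀ x, ContDiffAt ℝ ∞ (fun z : ℝ × R3 => u z.1 z.2) (t, x)
  sf : ∀ t ∈ I, ∀ x, ContDiffAt ℝ ∞ (fun z : ℝ × R3 => f z.1 z.2) (t, x)
  sp : ∀ t ∈ I, ∀ x, ContDiffAt ℝ ∞ (fun z : ℝ × R3 => p z.1 z.2) (t, x)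
  pu : ∀ t ∈ I, ∀ x j, u t (x + Pi.single j 1) = u t x
  pf : ∀ t ∈ I, ∀ x j, f t (x + Pi.single j 1) = f t x
  pp : ∀ t ∈ I, ∀ x j, p t (x + Pi.single j 1) = p t x
  mo : ∀ t ∈ I, ∀ x i, deriv (fun s => u s x i) t + ∑ j, u t x j * pd j (fun y => u t y i) x
    = ν * ∑ j, pd j (pd j fun y => u t y i) x - pd i (p t) x + f t x i
  dv : ∀ t ∈ I, ∀ x, ∑ i, pd i (fun y => u t y i) x = 0
  mu : ∀ t ∈ I, H356R3.NS.fc (u t) 0 = 0
  mf : ∀ t ∈ I, H356R3.NS.fc (f t) 0 = 0

variable {ν : ℝ} {I : Set ℝ} {f u : ℝ → R3 → R3} {p : ℝ → R3 → ℝ}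

lemma slice {g : ℝ → R3 → ℝ} {t : ℝ} {x : R3} (h : ContDiffAt ℝ ∞ (fun z : ℝ × R3 => g z.1 z.2) (t, x)) :
    ContDiffAt ℝ ∞ (g t) x :=
  h.comp x (f := fun y : R3 => ((t : ℝ), y)) (contDiffAt_const.prodMk contDiffAt_id)

lemma slice_t {g : ℝ → R3 → ℝ} {t : ℝ} {x : R3} (h : ContDiffAt ℝ ∞ (fun z : ℝ × R3 => g z.1 z.2) (t, x)) :
    DifferentiableAt ℝ (fun s => g s x) t :=
  ((h.differentiableAt (by simp)).comp t (f := fun s : ℝ => (s, x)) (by fun_prop))

lemma PthOn.spu (h : PthOn ν I f u p) {t : ℝ} (ht : t ∈ I) : SPF (u t) := fun i =>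
  ⟨contDiff_iff_contDiffAt.2 fun x => slice (g := fun t x => u t x i) (comp_joint (h.su t ht x) i), fun j x => by show u t (x + Pi.single j 1) i = _; rw [h.pu t ht x j]⟩

lemma PthOn.spf (h : PthOn ν I f u p) {t : ℝ} (ht : t ∈ I) : SPF (f t) := fun i =>
  ⟨contDiff_iff_contDiffAt.2 fun x => slice (g := fun t x => f t x i) (comp_joint (h.sf t ht x) i), fun j x => by show f t (x + Pi.single j 1) i = _; rw [h.pf t ht x j]⟩

lemma PthOn.spp (h : PthOn ν I f u p) {t : ℝ} (ht : t ∈ I) : H459R3.NS.SP (p t) :=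
  ⟨contDiff_iff_contDiffAt.2 fun x => slice (h.sp t ht x), fun j x => h.pp t ht x j⟩

lemma PthOn.mono {J : Set ℝ} (h : PthOn ν I f u p) (hJ : J ⊆ I) : PthOn ν J f u p where
  su := fun t ht => h.su t (hJ ht)
  sf := fun t ht => h.sf t (hJ ht)
  sp := fun t ht => h.sp t (hJ ht)
  pu := fun t ht => h.pu t (hJ ht)
  pf := fun t ht => h.pf t (hJ ht)
  pp := fun t ht => h.pp t (hJ ht)
  mo := fun t ht => h.mo t (hJ ht)
  dv := fun t ht => h.dv t (hJ ht)
  mu := fun t ht => h.mu t (hJ ht)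
  mf := fun t ht => h.mf t (hJ ht)

/-- local equality -/
lemma PthOn.congr {J : Set ℝ} {f' u' : ℝ → R3 → R3} {p' : ℝ → R3 → ℝ} (h : PthOn ν I f u p)
    (hJ : ∀ t ∈ J, t ∈ I ∧ ∀ᶠ s in 𝓝 t, f' s = f s ∧ u' s = u s ∧ p' s = p s) : PthOn ν J f' u' p' := by
  have hev : ∀ t ∈ J, ∀ x : R3, ∀ᶠ z in 𝓝 ((t, x) : ℝ × R3), f' z.1 = f z.1 ∧ u' z.1 = u z.1 ∧ p' z.1 = p z.1 := fun t ht x =>
    (continuous_fst.tendsto (t, x)).eventually (hJ t ht).2
  have heq : ∀ t ∈ J, f' t = f t ∧ u' t = u t ∧ p' t = p t := fun t ht => (hJ t ht).2.self_of_nhds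
  refine ⟨fun t ht x => ?_, fun t ht x => ?_, fun t ht x => ?_, fun t ht => ?_, fun t ht => ?_, fun t ht => ?_, fun t ht x i => ?_,
    fun t ht => ?_, fun t ht => ?_, fun t ht => ?_⟩
  · exact (h.su t (hJ t ht).1 x).congr_of_eventuallyEq ((hev t ht x).mono fun z hz => by simp only [hz.2.1])
  · exact (h.sf t (hJ t ht).1 x).congr_of_eventuallyEq ((hev t ht x).mono fun z hz => by simp only [hz.1])
  · exact (h.sp t (hJ t ht).1 x).congr_of_eventuallyEq ((hev t ht x).mono fun z hz => by simp only [hz.2.2])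
  · rw [(heq t ht).2.1]; exact h.pu t (hJ t ht).1
  · rw [(heq t ht).1]; exact h.pf t (hJ t ht).1
  · rw [(heq t ht).2.2]; exact h.pp t (hJ t ht).1
  · have e1 : deriv (fun s => u' s x i) t = deriv (fun s => u s x i) t :=
      Filter.EventuallyEq.deriv_eq ((hJ t ht).2.mono fun s hs => by simp only [hs.2.1])
    rw [e1, (heq t ht).1, (heq t ht).2.1, (heq t ht).2.2]
    exact h.mo t (hJ t ht).1 x i
  · rw [(heq t ht).2.1]; exact h.dv t (hJ t ht).1
  · rw [(heq t ht).2.1]; exact h.mu t (hJ t ht).1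
  · rw [(heq t ht).1]; exact h.mf t (hJ t ht).1

lemma PthOn.union {J : Set ℝ} (h : PthOn ν I f u p) (h' : PthOn ν J f u p) : PthOn ν (I ∪ J) f u p where
  su := fun t ht => ht.elim (h.su t) (h'.su t)
  sf := fun t ht => ht.elim (h.sf t) (h'.sf t)
  sp := fun t ht => ht.elim (h.sp t) (h'.sp t)
  pu := fun t ht => ht.elim (h.pu t) (h'.pu t)
  pf := fun t ht => ht.elim (h.pf t) (h'.pf t)
  pp := fun t ht => ht.elim (h.pp t) (h'.pp t)
  mo := fun t ht => ht.elim (h.mo t) (h'.mo t)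
  dv := fun t ht => ht.elim (h.dv t) (h'.dv t)
  mu := fun t ht => ht.elim (h.mu t) (h'.mu t)
  mf := fun t ht => ht.elim (h.mf t) (h'.mf t)

/-- shift in time -/
lemma PthOn.shift (h : PthOn ν univ f u p) (σ : ℝ) : PthOn ν univ (fun t => f (t - σ)) (fun t => u (t - σ)) (fun t => p (t - σ)) := by
  have hs : ∀ (t : ℝ) (x : R3), ContDiffAt ℝ ∞ (fun z : ℝ × R3 => ((z.1 - σ, z.2) : ℝ × R3)) (t, x) := fun t x =>
    ((contDiff_fst.sub contDiff_const).prodMk contDiff_snd).contDiffAt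
  refine ⟨fun t _ x => ?_, fun t _ x => ?_, fun t _ x => ?_, fun t _ => h.pu _ trivial, fun t _ => h.pf _ trivial,
    fun t _ => h.pp _ trivial, fun t _ x i => ?_, fun t _ => h.dv _ trivial, fun t _ => h.mu _ trivial, fun t _ => h.mf _ trivial⟩
  · exact (h.su (t - σ) trivial x).comp (t, x) (hs t x)
  · exact (h.sf (t - σ) trivial x).comp (t, x) (hs t x)
  · exact (h.sp (t - σ) trivial x).comp (t, x) (hs t x)
  · have e := deriv_comp_sub_const (f := fun s => u s x i) σ t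
    rw [e]
    exact h.mo (t - σ) trivial x i

/-! ### admissible solutions -/

lemma adm_pth {g : R3 → R3} (hg : Field g) (h : AdmissiblePeriodic ν g u p) : PthOn ν (Ioi 0) (fun _ _ => 0) u p := by
  have hn : ∀ t : ℝ, 0 < t → ∀ x : R3, (Ici (0 : ℝ) ×ˢ (univ : Set R3)) ∈ 𝓝 ((t, x) : ℝ × R3) := fun t ht x =>
    prod_mem_nhds (Ici_mem_nhds ht) univ_mem
  have hG := glob_of_adm h hg.mean
  refine ⟨fun t ht x => ?_, fun t ht x => contDiffAt_const, fun t ht x => ?_, fun t ht => h.periodic_u t (le_of_lt ht),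
    fun t ht x j => rfl, fun t ht => h.periodic_p t (le_of_lt ht), fun t ht x i => ?_, fun t ht => h.divFree t (le_of_lt ht),
    fun t ht => ?_, fun t ht => ?_⟩
  · exact h.smooth_u.contDiffAt (hn t ht x)
  · exact h.smooth_p.contDiffAt (hn t ht x)
  · have := h.momentum t (le_of_lt ht) x i
    rw [derivWithin_of_mem_nhds (Ici_mem_nhds ht)] at this
    rw [this]; simp
  · funext i
    rw [← fr_eq_fc]
    exact hG.mean (le_of_lt ht) i
  · funext i
    rw [← fr_eq_fc]
    have := fr_const_mul (fun _ => (0 : ℝ)) 0 0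
    simpa using this

/-- the force which keeps a field constant -/
noncomputable def Rs (ν : ℝ) (A : R3 → R3) (x : R3) (i : Fin 3) : ℝ := adv A x i + (-ν) * ∑ j, pd j (pd j fun y => A y i) x

lemma Rs_spf {A : R3 → R3} (hA : SPF A) : SPF (Rs ν A) := fun i => by
  refine ((adv_spf hA) i).add (sp_const_mul (f := fun x => ∑ j, pd j (pd j fun y => A y i) x) ?_ (-ν))
  exact H459R3.NS.SP.sum (f := fun j x => H459R3.NS.pd j (H459R3.NS.pd j fun y => A y i) x) fun j _ => ((hA i).pd j).pd j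

lemma fc_adv0 {z : R3 → R3} (hz : SPF z) (hd : ∀ x, ∑ i, pd i (fun y => z y i) x = 0) : H356R3.NS.fc (adv z) 0 = 0 := by
  funext i
  rw [fc_adv hz hd]
  simp

lemma fc_Rs0 {A : R3 → R3} (hA : SPF A) (hd : ∀ x, ∑ i, pd i (fun y => A y i) x = 0) : H356R3.NS.fc (Rs ν A) 0 = 0 := by
  have hL : SPF fun x i => ∑ j, pd j (pd j fun y => A y i) x := fun i =>
    H459R3.NS.SP.sum (f := fun j x => H459R3.NS.pd j (H459R3.NS.pd j fun y => A y i) x) fun j _ => ((hA i).pd j).pd j
  have e : Rs ν A = fun x => adv A x + (-ν) • (fun i => ∑ j, pd j (pd j fun y => A y i) x) := by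
    funext x i
    rfl
  rw [e, fc_add (adv_spf hA) (hL.smul (-ν)), fc_smul, fc_adv0 hA hd]
  have h2 : H356R3.NS.fc (fun x i => ∑ j, pd j (pd j fun y => A y i) x) 0 = 0 := by
    funext i
    rw [← fr_eq_fc]
    have := H459R3.NS.fr_sum (s := Finset.univ) (f := fun j x => H459R3.NS.pd j (H459R3.NS.pd j fun y => A y i) x)
      (fun j _ => ((hA i).pd j).pd j) 0
    refine this.trans ?_
    simp only [Pi.zero_apply]
    refine Finset.sum_eq_zero fun j _ => ?_
    rw [H459R3.NS.fr_pd ((hA i).pd j)]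
    unfold H459R3.NS.D
    simp
  rw [h2]; simp

lemma const_pth {A : R3 → R3} (hA : Field A) : PthOn ν univ (fun _ => Rs ν A) (fun _ => A) (fun _ _ => 0) := by
  have hs : SPF A := hA.sp
  have hm : H356R3.NS.fc A 0 = 0 := hA.dta.mean
  refine ⟨fun t _ x => ?_, fun t _ x => ?_, fun t _ x => contDiffAt_const, fun t _ => hA.periodic, fun t _ x j => ?_,
    fun t _ x j => rfl, fun t _ x i => ?_, fun t _ => hA.divFree, fun t _ => hm, fun t _ => fc_Rs0 hs hA.divFree⟩
  · exact (hA.smooth.comp contDiff_snd).contDiffAt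
  · have : ContDiff ℝ ∞ (Rs ν A) := contDiff_pi.2 fun i => (Rs_spf hs i).smooth
    exact (this.comp contDiff_snd).contDiffAt
  · funext i
    exact (Rs_spf hs i).per j x
  · rw [deriv_const]
    have e : pd i (fun _ : R3 => (0 : ℝ)) x = 0 := by
      unfold H356R3.NS.pd
      rw [fderiv_const_apply]; rfl
    rw [e]
    unfold Rs adv
    ring

end Pool.Agent.U162.SF
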