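import Pool.Agent.U162.SF.Ramp

/-!
Pieces of paths whose force is close to a given force
-/

open MeasureTheory Set Filter Topology
open scoped ENNReal NNReal ContDiff

namespace Pool.Agent.U162.SF

open Pool.Agent.H356R3.NS Pool.Agent.U162.TS Pool.Agent.U162.GE Pool.Agent.U162.TS.EL Pool.Agent.U162.TS.VF Pool.Agent.U162.TS.Ph Pool.Agent.U162.PL Pool.Agent.U162.MU

variable {ν : ℝ}

lemma Nc_sub {s : ℝ} (hs : 1 ≤ s) {f g : R3 → R3} (hf : SPF f) (hg : SPF g) : Nc s (fun x => f x - g x) ≤ Nc s f + Nc s g := by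
  have h := Nc_add hs hf (hg.smul (-1))
  rw [Nc_smul (by linarith)] at h
  have e : (fun x => f x + (-1 : ℝ) • g x) = fun x => f x - g x := by
    funext x; rw [neg_one_smul, sub_eq_add_neg]
  rw [e] at h
  simpa using h

/-- a piece of a path from `A` to `B` over `[a, b]`, whose force is close to `g` -/
def Pc (ν s : ℝ) (g : ℝ → R3 → R3) (a b δ : ℝ) (A B : R3 → R3) : Prop :=
  ∃ (η : ℝ) (f u : ℝ → R3 → R3) (p : ℝ → R3 → ℝ), 0 < η ∧ PthOn ν univ f u p ∧
    (∀ t ≤ a + η, f t = Rs ν A ∧ u t = A ∧ p t = fun _ => 0) ∧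
    (∀ t, b - η ≤ t → f t = Rs ν B ∧ u t = B ∧ p t = fun _ => 0) ∧
    ∫⁻ t in Ioo a b, Nc s (fun x => f t x - g t x) ≤ ENNReal.ofReal δ ∧
    ∃ k : ℝ, 0 ≤ k ∧ ∀ s', 1 ≤ s' → ∀ t ∈ Icc a b, Nc s' (fun x => f t x - g t x) ≤ ENNReal.ofReal k

/-- the properties of the given force -/
structure Gd (ν : ℝ) (g : ℝ → R3 → R3) (α β M : ℝ) : Prop where
  field : ∀ t ∈ Icc α β, Field (g t)
  b0 : ∀ t ∈ Icc α β, Wn (g t) ≤ ENNReal.ofReal M
  b1 : ∀ t ∈ Icc α β, Wn (adv (g t)) ≤ ENNReal.ofReal M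
  b2 : ∀ t ∈ Icc α β, Wn (Ls ν (g t)) ≤ ENNReal.ofReal M
  M0 : 0 ≤ M

lemma Gd.mono {g : ℝ → R3 → R3} {α β M a b : ℝ} (h : Gd ν g α β M) (ha : α ≤ a) (hb : b ≤ β) : Gd ν g a b M where
  field := fun t ht => h.field t ⟨ha.trans ht.1, ht.2.trans hb⟩
  b0 := fun t ht => h.b0 t ⟨ha.trans ht.1, ht.2.trans hb⟩
  b1 := fun t ht => h.b1 t ⟨ha.trans ht.1, ht.2.trans hb⟩
  b2 := fun t ht => h.b2 t ⟨ha.trans ht.1, ht.2.trans hb⟩
  M0 := h.M0

lemma Pc.le {s : ℝ} {g : ℝ → R3 → R3} {a b δ δ' : ℝ} {A B : R3 → R3} (h : Pc ν s g a b δ A B) (hd : δ ≤ δ') : Pc ν s g a b δ' A B := by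
  obtain ⟨η, f, u, p, h1, h2, h3, h4, h5, h6⟩ := h
  exact ⟨η, f, u, p, h1, h2, h3, h4, h5.trans (ENNReal.ofReal_le_ofReal hd), h6⟩

/-- fast pieces -/
theorem Pc_fast (hν : 0 < ν) {s : ℝ} (hs : 2 < s) {g : ℝ → R3 → R3} {a b M δ : ℝ} (hG : Gd ν g a b M) (hab : a < b) (hδ : 0 < δ)
    {A B : R3 → R3} (hA : Field A) (hB : Field B) : Pc ν s g a b (δ + M * (b - a)) A B := by
  have hs1 : 1 ≤ s := by linarith
  obtain ⟨η, f, u, p, hη, hη2, P, hl, hr, hi, ⟨k, hk0, hk⟩, -⟩ := step hν hs hA hB (h := b - a) (by linarith) hδ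
  have hWA := (ENNReal.ofReal_toReal (Wn_fin (Rs_spf (ν := ν) hA.sp))).symm
  have hWB := (ENNReal.ofReal_toReal (Wn_fin (Rs_spf (ν := ν) hB.sp))).symm
  set WA := (Wn (Rs ν A)).toReal
  set WB := (Wn (Rs ν B)).toReal
  have hWA0 : 0 ≤ WA := ENNReal.toReal_nonneg
  have hWB0 : 0 ≤ WB := ENNReal.toReal_nonneg
  have hM := hG.M0
  have hsf : ∀ t, SPF (f t) := fun t => P.spf trivial
  have hsg : ∀ t ∈ Icc a b, SPF (g t) := fun t ht => (hG.field t ht).sp
  refine ⟨η, fun t => f (t - a), fun t => u (t - a), fun t => p (t - a), hη, P.shift a, fun t ht => hl (t - a) (by linarith),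
    fun t ht => hr (t - a) (by linarith), ?_, k + WA + WB + M, by positivity, fun s' hs' t ht => ?_⟩
  · have h1 : ∫⁻ t in Ioo a b, Nc s (fun x => f (t - a) x - g t x) ≤ ∫⁻ t in Ioo a b, (Nc s (f (t - a)) + ENNReal.ofReal M) := by
      refine setLIntegral_mono' measurableSet_Ioo fun t ht => ?_
      have ht' : t ∈ Icc a b := ⟨ht.1.le, ht.2.le⟩
      exact (Nc_sub hs1 (hsf _) (hsg t ht')).trans (add_le_add le_rfl ((Nc_le_Wn hs1 _).trans (hG.b0 t ht')))
    refine h1.trans ?_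
    rw [lintegral_add_right _ measurable_const, setLIntegral_const, Real.volume_Ioo, ← ENNReal.ofReal_mul hM,
      ENNReal.ofReal_add hδ.le (mul_nonneg hM (by linarith))]
    refine add_le_add ?_ le_rfl
    have h2 := shift_int (fun t => Nc s (f t)) a (b - a)
    rw [add_sub_cancel] at h2
    rw [h2]; exact hi
  · refine (Nc_sub hs' (hsf _) (hsg t ht)).trans ?_
    have h3 : Nc s' (g t) ≤ ENNReal.ofReal M := (Nc_le_Wn hs' _).trans (hG.b0 t ht)
    have h4 : Nc s' (f (t - a)) ≤ ENNReal.ofReal (k + WA + WB) := by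
      rcases ht.1.lt_or_eq with h5 | h5
      · rcases ht.2.lt_or_eq with h6 | h6
        · exact (hk s' hs' (t - a) ⟨by linarith, by linarith⟩).trans (ENNReal.ofReal_le_ofReal (by linarith))
        · rw [(hr (t - a) (by linarith)).1]
          refine (Nc_le_Wn hs' _).trans ?_
          rw [hWB]; exact ENNReal.ofReal_le_ofReal (by linarith)
      · rw [(hl (t - a) (by linarith)).1]
        refine (Nc_le_Wn hs' _).trans ?_
        rw [hWA]; exact ENNReal.ofReal_le_ofReal (by linarith)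
    rw [ENNReal.ofReal_add (by positivity) hM]
    exact add_le_add h4 h3

/-- two pieces one after the other -/
theorem Pc_concat {s : ℝ} {g : ℝ → R3 → R3} {a b c δ₁ δ₂ : ℝ} {A B C : R3 → R3} (h1 : Pc ν s g a c δ₁ A B)
    (h2 : Pc ν s g c b δ₂ B C) (hac : a < c) (hcb : c < b) (hd1 : 0 ≤ δ₁) (hd2 : 0 ≤ δ₂) : Pc ν s g a b (δ₁ + δ₂) A C := by
  obtain ⟨η₁, f₁, u₁, p₁, hη₁, P₁, hl₁, hr₁, hi₁, k₁, hk₁0, hk₁⟩ := h1
  obtain ⟨η₂, f₂, u₂, p₂, hη₂, P₂, hl₂, hr₂, hi₂, k₂, hk₂0, hk₂⟩ := h2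
  set η := min (min η₁ η₂) (min ((c - a) / 2) ((b - c) / 2)) with hη
  have hη0 : 0 < η := lt_min (lt_min hη₁ hη₂) (lt_min (by linarith) (by linarith))
  have e1 : η ≤ η₁ := (min_le_left _ _).trans (min_le_left _ _)
  have e2 : η ≤ η₂ := (min_le_left _ _).trans (min_le_right _ _)
  have e3 : η ≤ (c - a) / 2 := (min_le_right _ _).trans (min_le_left _ _)
  have e4 : η ≤ (b - c) / 2 := (min_le_right _ _).trans (min_le_right _ _)
  refine ⟨η, fun t => if t < c then f₁ t else f₂ t, fun t => if t < c then u₁ t else u₂ t, fun t => if t < c then p₁ t else p₂ t,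
    hη0, ?_, fun t ht => ?_, fun t ht => ?_, ?_, k₁ + k₂, by positivity, fun s' hs' t ht => ?_⟩
  · refine PthOn.of_pt fun t _ => ?_
    rcases lt_or_ge t c with h | h
    · refine P₁.congr fun t' ht' => ⟨trivial, ?_⟩
      obtain rfl : t' = t := ht'
      filter_upwards [Iio_mem_nhds h] with r hr
      simp only [if_pos (show r < c from hr)]
      exact ⟨trivial, trivial, trivial⟩
    · refine P₂.congr fun t' ht' => ⟨trivial, ?_⟩
      obtain rfl : t' = t := ht'
      filter_upwards [Ioi_mem_nhds (show c - η₁ < t' by linarith)] with r hr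
      split_ifs with h5
      · obtain ⟨a1, a2, a3⟩ := hr₁ r (le_of_lt hr)
        obtain ⟨b1, b2, b3⟩ := hl₂ r (by linarith)
        rw [a1, a2, a3, b1, b2, b3]
        exact ⟨rfl, rfl, rfl⟩
      · exact ⟨rfl, rfl, rfl⟩
  · have : t < c := by linarith
    simp only [if_pos this]
    exact hl₁ t (by linarith)
  · have : ¬ t < c := by linarith
    simp only [if_neg this]
    exact hr₂ t (by linarith)
  · have hsub : Ioo a b ⊆ Ioo a c ∪ Ico c b := fun t ht => by
      rcases lt_or_ge t c with h | h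
      · exact Or.inl ⟨ht.1, h⟩
      · exact Or.inr ⟨h, ht.2⟩
    refine (lintegral_mono_set hsub).trans ((lintegral_union_le _ _ _).trans ?_)
    rw [ENNReal.ofReal_add hd1 hd2]
    refine add_le_add (le_trans (le_of_eq (setLIntegral_congr_fun measurableSet_Ioo fun t ht => ?_)) hi₁) ?_
    · simp only [if_pos ht.2]
    · rw [setLIntegral_congr (Ioo_ae_eq_Ico (a := c) (b := b)).symm]
      refine le_trans (le_of_eq (setLIntegral_congr_fun measurableSet_Ioo fun t ht => ?_)) hi₂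
      have : ¬ t < c := not_lt.2 ht.1.le
      simp only [if_neg this]
  · dsimp only
    split_ifs with h
    · exact (hk₁ s' hs' t ⟨ht.1, h.le⟩).trans (ENNReal.ofReal_le_ofReal (by linarith))
    · exact (hk₂ s' hs' t ⟨not_lt.1 h, ht.2⟩).trans (ENNReal.ofReal_le_ofReal (by linarith))

/-- the size of the force of the ramp -/
lemma ramp_force {τ : ℝ → ℝ} {g : ℝ → R3 → R3} {a b M t : ℝ} (hG : Gd ν g a b M) (hab : a ≤ b) (ht : t ∈ Icc a b) {s : ℝ} (hs : 1 ≤ s) :
    Nc s (fun x => rf ν τ (g a) t x - g t x) ≤ ENNReal.ofReal (|deriv τ t - 1|) * ENNReal.ofReal M + Wn (fun x => g a x - g t x)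
      + ENNReal.ofReal (τ t ^ 2 + |τ t|) * ENNReal.ofReal M := by
  have ha : a ∈ Icc a b := ⟨le_rfl, hab⟩
  have sa : SPF (g a) := (hG.field a ha).sp
  have st : SPF (g t) := (hG.field t ht).sp
  have e : (fun x => rf ν τ (g a) t x - g t x) = fun x => ((deriv τ t - 1) • g a x + (g a x - g t x))
      + (τ t ^ 2 • adv (g a) x + τ t • Ls ν (g a) x) := by
    funext x
    unfold rf
    rw [sub_smul, one_smul]
    abel
  have s1 : SPF fun x => (deriv τ t - 1) • g a x := sa.smul _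
  have s2 : SPF fun x => g a x - g t x := sa.sub st
  have s3 : SPF fun x => τ t ^ 2 • adv (g a) x := (adv_spf sa).smul _
  have s4 : SPF fun x => τ t • Ls ν (g a) x := (Ls_spf sa).smul _
  rw [e]
  refine (Nc_add hs (s1.add s2) (s3.add s4)).trans (add_le_add ((Nc_add hs s1 s2).trans (add_le_add ?_ (Nc_le_Wn hs _)))
    ((Nc_add hs s3 s4).trans ?_))
  · rw [Nc_smul (by linarith)]
    exact mul_le_mul' le_rfl ((Nc_le_Wn hs _).trans (hG.b0 a ha))
  · rw [Nc_smul (by linarith), Nc_smul (by linarith), ENNReal.ofReal_add (by positivity) (abs_nonneg _), add_mul, abs_of_nonneg (sq_nonneg (τ t))]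
    exact add_le_add (mul_le_mul' le_rfl ((Nc_le_Wn hs _).trans (hG.b1 a ha)))
      (mul_le_mul' le_rfl ((Nc_le_Wn hs _).trans (hG.b2 a ha)))

/-- ramps -/
theorem Pc_ramp {s : ℝ} (hs : 1 ≤ s) {g : ℝ → R3 → R3} {a b M w δ : ℝ} (hG : Gd ν g a b M) (hab : a < b) (hl : b - a ≤ 1)
    (hw : 0 ≤ w) (hgw : ∀ t ∈ Icc a b, Wn (fun x => g a x - g t x) ≤ ENNReal.ofReal w) (hδ : 0 < δ) :
    Pc ν s g a b ((b - a) * (w + 2 * (b - a) * M) + δ) (fun _ => 0) (fun x => (b - a) • g a x) := by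
  obtain ⟨C, hC0, hC⟩ := th_deriv_bd
  have hM := hG.M0
  have ha : a ∈ Icc a b := ⟨le_rfl, hab.le⟩
  have hF := hG.field a ha
  set K : ℝ := (4 * C + 3) * M + w + 2 * M with hK
  have hK0 : 0 ≤ K := by positivity
  obtain ⟨ρ, hρ, hρl, hρK⟩ : ∃ ρ : ℝ, 0 < ρ ∧ 4 * ρ < b - a ∧ K * (4 * ρ) ≤ δ := by
    refine ⟨min ((b - a) / 8) (δ / (4 * (K + 1))), lt_min (by linarith) (by positivity), ?_, ?_⟩
    · have := min_le_left ((b - a) / 8) (δ / (4 * (K + 1))); linarith
    · have h1 := min_le_right ((b - a) / 8) (δ / (4 * (K + 1)))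
      calc K * (4 * min ((b - a) / 8) (δ / (4 * (K + 1)))) ≤ K * (4 * (δ / (4 * (K + 1)))) := by gcongr
        _ = K / (K + 1) * δ := by field_simp
        _ ≤ 1 * δ := by
          refine mul_le_mul_of_nonneg_right ?_ hδ.le
          rw [div_le_one (by positivity)]; linarith
        _ = δ := one_mul _
  set τ := ta a b ρ with hτ
  have hbd : ∀ s', 1 ≤ s' → ∀ t ∈ Icc a b, Nc s' (fun x => rf ν τ (g a) t x - g t x) ≤ ENNReal.ofReal K := by
    intro s' hs' t ht
    refine (ramp_force hG hab.le ht hs').trans ?_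
    have h1 : |deriv τ t - 1| ≤ 4 * C + 3 := by
      have := ta_deriv_bd hC hρ hρl ht.1 ht.2
      rw [abs_le] at this ⊢
      constructor <;> linarith [this.1, this.2]
    have h2 : |τ t| ≤ 1 := (ta_bd hab ht.1 ht.2).trans hl
    have h3 : τ t ^ 2 + |τ t| ≤ 2 := by
      have := abs_nonneg (τ t)
      rw [← sq_abs]; nlinarith
    have eK : ENNReal.ofReal K = ENNReal.ofReal (4 * C + 3) * ENNReal.ofReal M + ENNReal.ofReal w + ENNReal.ofReal 2 * ENNReal.ofReal M := by
      rw [hK, ENNReal.ofReal_add (by positivity) (by positivity), ENNReal.ofReal_add (by positivity) hw,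
        ENNReal.ofReal_mul (by positivity), ENNReal.ofReal_mul (by norm_num)]
    rw [eK]
    exact add_le_add (add_le_add (mul_le_mul' (ENNReal.ofReal_le_ofReal h1) le_rfl) (hgw t ht))
      (mul_le_mul' (ENNReal.ofReal_le_ofReal h3) le_rfl)
  refine ⟨ρ, rf ν τ (g a), ru τ (g a), fun _ _ => 0, hρ, ramp_pth ta_smooth hF, fun t ht => ?_, fun t ht => ?_, ?_, K, hK0, hbd⟩
  · have h0 : τ t = 0 := ta_left hρ hρl ht
    refine ⟨?_, ?_, rfl⟩
    · have e := rf_const (ν := ν) (τ := τ) hF (t := t) (ta_deriv_left hρ hρl ht)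
      rw [h0] at e
      rw [e]
      simp only [zero_smul]
    · unfold ru; simp only [h0, zero_smul]
  · have h0 : τ t = b - a := ta_right hρ hρl ht
    refine ⟨?_, ?_, rfl⟩
    · have e := rf_const (ν := ν) (τ := τ) hF (t := t) (ta_deriv_right hρ hρl ht)
      rw [h0] at e
      exact e
    · unfold ru; simp only [h0]
  · have hsub : Ioo a b ⊆ Ioc a (a + 2 * ρ) ∪ (Icc (a + 2 * ρ) (b - 2 * ρ) ∪ Ico (b - 2 * ρ) b) := by
      intro t ht
      rcases le_or_gt t (a + 2 * ρ) with h | h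
      · exact Or.inl ⟨ht.1, h⟩
      rcases le_or_gt t (b - 2 * ρ) with h' | h'
      · exact Or.inr (Or.inl ⟨h.le, h'⟩)
      · exact Or.inr (Or.inr ⟨h'.le, ht.2⟩)
    refine (lintegral_mono_set hsub).trans ((lintegral_union_le _ _ _).trans ?_)
    refine (add_le_add le_rfl (lintegral_union_le _ _ _)).trans ?_
    have i1 : ∫⁻ t in Ioc a (a + 2 * ρ), Nc s (fun x => rf ν τ (g a) t x - g t x) ≤ ENNReal.ofReal (K * (2 * ρ)) := by
      refine le_trans (setLIntegral_mono' measurableSet_Ioc (g := fun _ => ENNReal.ofReal K) fun t ht => hbd s hs t ⟨ht.1.le, by linarith [ht.2]⟩) ?_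
      rw [setLIntegral_const, Real.volume_Ioc, ← ENNReal.ofReal_mul hK0]
      refine ENNReal.ofReal_le_ofReal (le_of_eq ?_); ring
    have i3 : ∫⁻ t in Ico (b - 2 * ρ) b, Nc s (fun x => rf ν τ (g a) t x - g t x) ≤ ENNReal.ofReal (K * (2 * ρ)) := by
      refine le_trans (setLIntegral_mono' measurableSet_Ico (g := fun _ => ENNReal.ofReal K) fun t ht => hbd s hs t ⟨by linarith [ht.1], ht.2.le⟩) ?_
      rw [setLIntegral_const, Real.volume_Ico, ← ENNReal.ofReal_mul hK0]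
      refine ENNReal.ofReal_le_ofReal (le_of_eq ?_); ring
    have i2 : ∫⁻ t in Icc (a + 2 * ρ) (b - 2 * ρ), Nc s (fun x => rf ν τ (g a) t x - g t x)
        ≤ ENNReal.ofReal ((b - a) * (w + 2 * (b - a) * M)) := by
      refine le_trans (setLIntegral_mono' measurableSet_Icc (g := fun _ => ENNReal.ofReal (w + 2 * (b - a) * M)) fun t ht => ?_) ?_
      · have ht' : t ∈ Icc a b := ⟨by linarith [ht.1], by linarith [ht.2]⟩
        refine (ramp_force hG hab.le ht' hs).trans ?_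
        have h0 : deriv τ t = 1 := ta_deriv_mid hρ ht.1 ht.2
        rw [h0, sub_self, abs_zero, ENNReal.ofReal_zero, zero_mul, zero_add,
          ENNReal.ofReal_add hw (mul_nonneg (by linarith) hM), ENNReal.ofReal_mul (p := 2 * (b - a)) (by linarith)]
        refine add_le_add (hgw t ht') (mul_le_mul' (ENNReal.ofReal_le_ofReal ?_) le_rfl)
        have h2 : |τ t| ≤ b - a := ta_bd hab ht'.1 ht'.2
        have h3 := abs_nonneg (τ t)
        rw [← sq_abs]; nlinarith
      · rw [setLIntegral_const, Real.volume_Icc, ← ENNReal.ofReal_mul (by have := mul_nonneg (show 0 ≤ 2 * (b - a) by linarith) hM; linarith)]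
        refine ENNReal.ofReal_le_ofReal ?_
        have h4 : 0 ≤ w + 2 * (b - a) * M := by have := mul_nonneg (show 0 ≤ 2 * (b - a) by linarith) hM; linarith
        nlinarith
    refine (add_le_add i1 (add_le_add i2 i3)).trans ?_
    rw [← ENNReal.ofReal_add (by have := mul_nonneg (show 0 ≤ 2 * (b - a) by linarith) hM; nlinarith) (by positivity),
      ← ENNReal.ofReal_add (by positivity) (by have := mul_nonneg (show 0 ≤ 2 * (b - a) by linarith) hM; have h5 : 0 ≤ K * (2 * ρ) := by positivity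
                                               nlinarith)]
    refine ENNReal.ofReal_le_ofReal ?_
    linarith

end Pool.Agent.U162.SF
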