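import Pool.Agent.U162.SF.B10

/-!
Pieces of paths whose force is close to a given force and whose velocity is close to a given velocity, also in the
critical norms
-/

open MeasureTheory Set Filter Topology
open scoped ENNReal NNReal ContDiff

namespace Pool.Agent.U162.SF

open Pool.Agent.H356R3.NS Pool.Agent.U162.TS Pool.Agent.U162.GE Pool.Agent.U162.TS.EL Pool.Agent.U162.TS.VF Pool.Agent.U162.TS.Ph Pool.Agent.U162.PL Pool.Agent.U162.MU

variable {ν : ℝ} {m : ℕ} {g v : ℝ → R3 → R3} {α β M a b e e' δ s w r : ℝ}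

/-- a piece of a path from `A` to `B` over `[a, b]`, whose force is close to `g`, and whose velocity is close to `v` -/
def Pw (ν s r : ℝ) (g v : ℝ → R3 → R3) (m : ℕ) (e e' a b δ β : ℝ) (A B : R3 → R3) : Prop :=
  ∃ (η : ℝ) (f u : ℝ → R3 → R3) (p : ℝ → R3 → ℝ), 0 < η ∧ PthOn ν univ f u p ∧
    (∀ t ≤ a + η, f t = Rs ν A ∧ u t = A ∧ p t = fun _ => 0) ∧
    (∀ t, b - η ≤ t → f t = Rs ν B ∧ u t = B ∧ p t = fun _ => 0) ∧
    ∫⁻ t in Ioo a b, Nc s (fun x => f t x - g t x) ≤ ENNReal.ofReal δ ∧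
    volume {t | t ∈ Icc a b ∧ ¬ Wm m (fun x => u t x - v t x) ≤ ENNReal.ofReal e} ≤ ENNReal.ofReal β ∧
    ∫⁻ t in Ioo a b, Wn (fun x => u t x - v t x) ^ r ≤ ENNReal.ofReal δ ∧
    ∀ t ∈ Icc a b, Nc s (fun x => u t x - v t x) ≤ ENNReal.ofReal e'

lemma Pw.le {A B : R3 → R3} {δ' β' : ℝ} (h : Pw ν s r g v m e e' a b δ β A B) (hd : δ ≤ δ') (hb : β ≤ β') :
    Pw ν s r g v m e e' a b δ' β' A B := by
  obtain ⟨η, f, u, p, h1, h2, h3, h4, h5, h6, h7, h8⟩ := h
  exact ⟨η, f, u, p, h1, h2, h3, h4, h5.trans (ENNReal.ofReal_le_ofReal hd), h6.trans (ENNReal.ofReal_le_ofReal hb),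
    h7.trans (ENNReal.ofReal_le_ofReal hd), h8⟩

lemma Pw.mono_e {A B : R3 → R3} {e₀ : ℝ} (h : Pw ν s r g v m e e' a b δ β A B) (he : e ≤ e₀) : Pw ν s r g v m e₀ e' a b δ β A B := by
  obtain ⟨η, f, u, p, h1, h2, h3, h4, h5, h6, h7, h8⟩ := h
  refine ⟨η, f, u, p, h1, h2, h3, h4, h5, le_trans (measure_mono ?_) h6, h7, h8⟩
  rintro t ⟨ht, hn⟩
  exact ⟨ht, fun h => hn (h.trans (ENNReal.ofReal_le_ofReal he))⟩

lemma add_rpow_le4 (hr0 : 0 < r) (hr2 : r < 2) (x y : ℝ≥0∞) : (x + y) ^ r ≤ 4 * (x ^ r + y ^ r) := by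
  have h2 : (2 : ℝ≥0∞) ^ r ≤ 4 := by
    calc (2 : ℝ≥0∞) ^ r ≤ 2 ^ (2 : ℝ) := ENNReal.rpow_le_rpow_of_exponent_le (by norm_num) hr2.le
      _ = 4 := by rw [ENNReal.rpow_two]; norm_num
  have key : ∀ x y : ℝ≥0∞, x ≤ y → (x + y) ^ r ≤ 4 * (x ^ r + y ^ r) := fun x y h => by
    calc (x + y) ^ r ≤ (2 * y) ^ r := ENNReal.rpow_le_rpow (by rw [two_mul]; exact add_le_add h le_rfl) hr0.le
      _ = 2 ^ r * y ^ r := ENNReal.mul_rpow_of_nonneg _ _ hr0.le
      _ ≤ 4 * (x ^ r + y ^ r) := mul_le_mul' h2 le_add_self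
  rcases le_total x y with h | h
  · exact key x y h
  · have := key y x h
    rw [add_comm x y, add_comm (x ^ r)]; exact this

/-- integrals of functions which are bounded after some time -/
lemma int_hold {G : ℝ → ℝ≥0∞} {κ L c δ : ℝ} (hδ : 0 ≤ δ) (hc : 0 ≤ c) (hκ0 : 0 ≤ κ) (hκ : κ ≤ L) (h1 : ∫⁻ t in Ioo 0 κ, G t ≤ ENNReal.ofReal δ)
    (h2 : ∀ t, κ ≤ t → G t ≤ ENNReal.ofReal c) : ∫⁻ t in Ioo 0 L, G t ≤ ENNReal.ofReal (δ + c * L) := by
  have hsub : Ioo 0 L ⊆ Ioo 0 κ ∪ Icc κ L := fun t ht => by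
    rcases lt_or_ge t κ with h | h
    · exact Or.inl ⟨ht.1, h⟩
    · exact Or.inr ⟨h, ht.2.le⟩
  refine (lintegral_mono_set hsub).trans ((lintegral_union_le _ _ _).trans ?_)
  have hL : 0 ≤ L := hκ0.trans hκ
  rw [ENNReal.ofReal_add hδ (by positivity)]
  refine add_le_add h1 ((setLIntegral_mono' measurableSet_Icc (g := fun _ => ENNReal.ofReal c) fun t ht => h2 t ht.1).trans ?_)
  rw [setLIntegral_const, Real.volume_Icc, ← ENNReal.ofReal_mul hc]
  refine ENNReal.ofReal_le_ofReal (mul_le_mul_of_nonneg_left (by linarith) hc)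

/-- the constant of the fast pieces -/
noncomputable def KX (ν r M : ℝ) : ℝ := 60 * M ^ 2 + 400 * |ν| * M + M + 8 * M ^ r

lemma KX_nonneg (hM : 0 ≤ M) : 0 ≤ KX ν r M := by unfold KX; positivity

/-- fast pieces -/
theorem Pw_fast (hν : 0 < ν) (hs : 2 < s) (hr0 : 0 < r) (hr2 : r < 2) (hG : Gw ν g v m a b M) (hab : a < b) (hδ : 0 < δ)
    {A B : R3 → R3} (hA : Field A) (hB : Field B) {om : ℝ} (hom : 0 ≤ om) (hBA : Wn (fun x => B x - A x) ≤ ENNReal.ofReal om)
    (hAv : ∀ t ∈ Icc a b, Wn (fun x => A x - v t x) ≤ ENNReal.ofReal om) (hWB : Wm 2 B ≤ ENNReal.ofReal M) (he : 1501 * om + δ ≤ e') :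
    Pw ν s r g v m e e' a b (5 * δ + KX ν r M * (b - a)) (b - a) A B := by
  have hs1 : 1 ≤ s := by linarith
  obtain ⟨κ, η, f, u, p, hη, hηκ, hκ, P, hl, hr, hi, hv, hc⟩ := jumpE hν hs hr0 hr2 hA hB (h := (b - a) / 2) (by linarith) hδ
  have hM := hG.M0
  have hL : 0 < b - a := by linarith
  have hκ0 : 0 < κ := hη.trans hηκ
  have hsf : ∀ t, SPF (f t) := fun t => P.spf trivial
  have hsu : ∀ t, SPF (u t) := fun t => P.spu trivial
  have hvb : ∀ t ∈ Icc a b, Wn (v t) ≤ ENNReal.ofReal M := fun t ht => (Wn_le_Wm _ _).trans (hG.bv t ht)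
  have hWB0 : Wn B ≤ ENNReal.ofReal M := (Wn_le_Wm 2 B).trans hWB
  set KB := 60 * M ^ 2 + 400 * |ν| * M with hKB
  have hKB0 : 0 ≤ KB := by positivity
  have hMr : 0 ≤ M ^ r := by positivity
  have hRB : Nc s (Rs ν B) ≤ ENNReal.ofReal KB := (Nc_le_Wn hs1 _).trans (Wn_Rs hB.sp hM hWB)
  have hKX : KX ν r M = KB + M + 8 * M ^ r := rfl
  refine ⟨min η ((b - a) / 4), fun t => f (t - a), fun t => u (t - a), fun t => p (t - a), lt_min hη (by linarith), P.shift a, fun t ht => hl (t - a) ?_,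
    fun t ht => hr (t - a) ?_, ?_, ?_, ?_, fun t ht => ?_⟩
  · have := min_le_left η ((b - a) / 4); linarith
  · have := min_le_right η ((b - a) / 4); linarith
  · have h1 : ∫⁻ t in Ioo a b, Nc s (fun x => f (t - a) x - g t x) ≤ ∫⁻ t in Ioo a b, (Nc s (f (t - a)) + ENNReal.ofReal M) := by
      refine setLIntegral_mono' measurableSet_Ioo fun t ht => ?_
      have ht' : t ∈ Icc a b := ⟨ht.1.le, ht.2.le⟩
      exact (Nc_sub hs1 (hsf _) (hG.sg t ht')).trans (add_le_add le_rfl ((Nc_le_Wn hs1 _).trans (hG.bg t ht')))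
    refine h1.trans ?_
    rw [lintegral_add_right _ measurable_const, setLIntegral_const, Real.volume_Ioo, ← ENNReal.ofReal_mul hM]
    have h2 := shift_int (fun t => Nc s (f t)) a (b - a)
    rw [add_sub_cancel] at h2
    rw [h2]
    have h3 := int_hold (G := fun t => Nc s (f t)) hδ.le hKB0 hκ0.le (by linarith : κ ≤ b - a) hi (fun t ht => by rw [(hr t ht).1]; exact hRB)
    refine (add_le_add h3 le_rfl).trans ?_
    rw [← ENNReal.ofReal_add (by positivity) (by positivity)]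
    refine ENNReal.ofReal_le_ofReal ?_
    rw [hKX]
    have : 0 ≤ 8 * M ^ r * (b - a) := by positivity
    nlinarith
  · refine (measure_mono (fun t ht => ht.1 : _ ⊆ Icc a b)).trans ?_
    rw [Real.volume_Icc]
  · have h1 : ∫⁻ t in Ioo a b, Wn (fun x => u (t - a) x - v t x) ^ r ≤ ∫⁻ t in Ioo a b, (4 * Wn (u (t - a)) ^ r + ENNReal.ofReal (4 * M ^ r)) := by
      refine setLIntegral_mono' measurableSet_Ioo fun t ht => ?_
      have ht' : t ∈ Icc a b := ⟨ht.1.le, ht.2.le⟩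
      have h2 : Wn (fun x => u (t - a) x - v t x) ≤ Wn (u (t - a)) + ENNReal.ofReal M :=
        (Wn_sub (hsu _) (hG.fv t ht').sp).trans (add_le_add le_rfl (hvb t ht'))
      refine (ENNReal.rpow_le_rpow h2 hr0.le).trans ((add_rpow_le4 hr0 hr2 _ _).trans (le_of_eq ?_))
      rw [mul_add, ENNReal.ofReal_rpow_of_nonneg hM hr0.le, ENNReal.ofReal_mul (by norm_num)]
      norm_num
    refine h1.trans ?_
    rw [lintegral_add_right _ measurable_const, setLIntegral_const, Real.volume_Ioo, ← ENNReal.ofReal_mul (by positivity),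
      lintegral_const_mul' _ _ (by norm_num)]
    have h2 := shift_int (fun t => Wn (u t) ^ r) a (b - a)
    rw [add_sub_cancel] at h2
    rw [h2]
    have h3 := int_hold (G := fun t => Wn (u t) ^ r) hδ.le hMr hκ0.le (by linarith : κ ≤ b - a) hv (fun t ht => by
      rw [(hr t ht).2.1, ← ENNReal.ofReal_rpow_of_nonneg hM hr0.le]
      exact ENNReal.rpow_le_rpow hWB0 hr0.le)
    refine (add_le_add (mul_le_mul' le_rfl h3) le_rfl).trans ?_
    rw [show (4 : ℝ≥0∞) = ENNReal.ofReal 4 by norm_num, ← ENNReal.ofReal_mul (by norm_num), ← ENNReal.ofReal_add (by positivity) (by positivity)]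
    refine ENNReal.ofReal_le_ofReal ?_
    rw [hKX]
    have : 0 ≤ (KB + M) * (b - a) := by positivity
    nlinarith
  · have h1 := Nc_tri hs1 (hsu (t - a)) hA.sp (hG.fv t ht).sp
    refine h1.trans ?_
    refine (add_le_add (hc (t - a)) ((Nc_le_Wn hs1 _).trans (hAv t ht))).trans ?_
    refine (add_le_add (add_le_add (mul_le_mul' le_rfl hBA) le_rfl) le_rfl).trans ?_
    rw [← ENNReal.ofReal_mul (by norm_num), ← ENNReal.ofReal_add (by positivity) hδ.le, ← ENNReal.ofReal_add (by positivity) hom]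
    refine ENNReal.ofReal_le_ofReal ?_
    linarith

/-- two pieces one after the other -/
theorem Pw_concat {c δ₁ δ₂ β₁ β₂ : ℝ} {A B C : R3 → R3} (h1 : Pw ν s r g v m e e' a c δ₁ β₁ A B)
    (h2 : Pw ν s r g v m e e' c b δ₂ β₂ B C) (hac : a < c) (hcb : c < b) (hd1 : 0 ≤ δ₁) (hd2 : 0 ≤ δ₂) (hb1 : 0 ≤ β₁) (hb2 : 0 ≤ β₂) :
    Pw ν s r g v m e e' a b (δ₁ + δ₂) (β₁ + β₂) A C := by
  obtain ⟨η₁, f₁, u₁, p₁, hη₁, P₁, hl₁, hr₁, hi₁, hv₁, hL₁, hc₁⟩ := h1
  obtain ⟨η₂, f₂, u₂, p₂, hη₂, P₂, hl₂, hr₂, hi₂, hv₂, hL₂, hc₂⟩ := h2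
  set η := min (min η₁ η₂) (min ((c - a) / 2) ((b - c) / 2)) with hη
  have hη0 : 0 < η := lt_min (lt_min hη₁ hη₂) (lt_min (by linarith) (by linarith))
  have e1 : η ≤ η₁ := (min_le_left _ _).trans (min_le_left _ _)
  have e2 : η ≤ η₂ := (min_le_left _ _).trans (min_le_right _ _)
  have e3 : η ≤ (c - a) / 2 := (min_le_right _ _).trans (min_le_left _ _)
  have e4 : η ≤ (b - c) / 2 := (min_le_right _ _).trans (min_le_right _ _)
  refine ⟨η, fun t => if t < c then f₁ t else f₂ t, fun t => if t < c then u₁ t else u₂ t, fun t => if t < c then p₁ t else p₂ t,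
    hη0, ?_, fun t ht => ?_, fun t ht => ?_, ?_, ?_, ?_, ?_⟩
  · refine PthOn.of_pt fun t _ => ?_
    rcases lt_or_ge t c with h | h
    · refine P₁.congr fun t' ht' => ⟨trivial, ?_⟩
      obtain rfl : t' = t := ht'
      filter_upwards [Iio_mem_nhds h] with r' hr'
      simp only [if_pos (show r' < c from hr')]
      exact ⟨trivial, trivial, trivial⟩
    · refine P₂.congr fun t' ht' => ⟨trivial, ?_⟩
      obtain rfl : t' = t := ht'
      filter_upwards [Ioi_mem_nhds (show c - η₁ < t' by linarith)] with r' hr'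
      split_ifs with h5
      · obtain ⟨a1, a2, a3⟩ := hr₁ r' (le_of_lt hr')
        obtain ⟨b1, b2, b3⟩ := hl₂ r' (by linarith)
        rw [a1, a2, a3, b1, b2, b3]
        exact ⟨rfl, rfl, rfl⟩
      · exact ⟨rfl, rfl, rfl⟩
  · have : t < c := by linarith
    simp only [if_pos this]
    exact hl₁ t (by linarith)
  · have : ¬ t < c := by linarith
    simp only [if_neg this]
    exact hr₂ t (by linarith)
  · have hsub : Ioo a b ⊆ Ioo a c ∪ Ico c b := fun t ht => by
      rcases lt_or_ge t c with h | h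
      · exact Or.inl ⟨ht.1, h⟩
      · exact Or.inr ⟨h, ht.2⟩
    refine (lintegral_mono_set hsub).trans ((lintegral_union_le _ _ _).trans ?_)
    rw [ENNReal.ofReal_add hd1 hd2]
    refine add_le_add (le_trans (le_of_eq (setLIntegral_congr_fun measurableSet_Ioo fun t ht => ?_)) hi₁) ?_
    · simp only [if_pos ht.2]
    · rw [setLIntegral_congr (Ioo_ae_eq_Ico (a := c) (b := b)).symm]
      refine le_trans (le_of_eq (setLIntegral_congr_fun measurableSet_Ioo fun t ht => ?_)) hi₂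
      have : ¬ t < c := not_lt.2 ht.1.le
      simp only [if_neg this]
  · rw [ENNReal.ofReal_add hb1 hb2]
    refine le_trans (measure_mono ?_) ((measure_union_le {t | t ∈ Icc a c ∧ ¬ Wm m (fun x => u₁ t x - v t x) ≤ ENNReal.ofReal e}
      {t | t ∈ Icc c b ∧ ¬ Wm m (fun x => u₂ t x - v t x) ≤ ENNReal.ofReal e}).trans (add_le_add hv₁ hv₂))
    rintro t ⟨ht1, ht2⟩
    have ht3 : ¬ Wm m (fun x => (if t < c then u₁ t else u₂ t) x - v t x) ≤ ENNReal.ofReal e := ht2
    rcases lt_or_ge t c with h | h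
    · rw [if_pos h] at ht3
      exact Or.inl ⟨⟨ht1.1, h.le⟩, ht3⟩
    · rw [if_neg (not_lt.2 h)] at ht3
      exact Or.inr ⟨⟨h, ht1.2⟩, ht3⟩
  · have hsub : Ioo a b ⊆ Ioo a c ∪ Ico c b := fun t ht => by
      rcases lt_or_ge t c with h | h
      · exact Or.inl ⟨ht.1, h⟩
      · exact Or.inr ⟨h, ht.2⟩
    refine (lintegral_mono_set hsub).trans ((lintegral_union_le _ _ _).trans ?_)
    rw [ENNReal.ofReal_add hd1 hd2]
    refine add_le_add (le_trans (le_of_eq (setLIntegral_congr_fun measurableSet_Ioo fun t ht => ?_)) hL₁) ?_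
    · simp only [if_pos ht.2]
    · rw [setLIntegral_congr (Ioo_ae_eq_Ico (a := c) (b := b)).symm]
      refine le_trans (le_of_eq (setLIntegral_congr_fun measurableSet_Ioo fun t ht => ?_)) hL₂
      have : ¬ t < c := not_lt.2 ht.1.le
      simp only [if_neg this]
  · intro t ht
    show Nc s (fun x => (if t < c then u₁ t else u₂ t) x - v t x) ≤ _
    rcases lt_or_ge t c with h | h
    · rw [if_pos h]
      exact hc₁ t ⟨ht.1, h.le⟩
    · rw [if_neg (not_lt.2 h)]
      exact hc₂ t ⟨h, ht.2⟩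

/-- ramps -/
theorem Pw_ramp (hr0 : 0 < r) (hs : 1 ≤ s) (hG : Gw ν g v m a b M) (hab : a < b) (hl : b - a ≤ 1)
    (hw : 0 ≤ w) (hgw : ∀ t ∈ Icc a b, Wn (fun x => g a x - g t x) ≤ ENNReal.ofReal w)
    (hvw : ∀ t ∈ Icc a b, Wm m (fun x => v a x - v t x) ≤ ENNReal.ofReal w) (he : w + (b - a) * (4 * M) ≤ e) (hee : e ≤ e') (hδ : 0 < δ) :
    Pw ν s r g v m e e' a b ((b - a) * (w + (b - a) * KM ν M + e ^ r) + δ) 0 (v a) (fun x => v a x + (b - a) • ler (Hh ν g v a) x) := by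
  obtain ⟨C, hC0, hC⟩ := th_deriv_bd
  have hM := hG.M0
  have hK1 : 0 ≤ KM ν M := KM_nonneg hM
  have ha : a ∈ Icc a b := ⟨le_rfl, hab.le⟩
  have fA := hG.fv a ha
  have sH := hG.sH ha
  have fB := ler_field sH
  set B := ler (Hh ν g v a) with hB
  set K : ℝ := (4 * C + 3) * M + w + KM ν M with hK
  have hK0 : 0 ≤ K := by positivity
  obtain ⟨ρ, hρ, hρl, hρK⟩ : ∃ ρ : ℝ, 0 < ρ ∧ 4 * ρ < b - a ∧ K * (4 * ρ) ≤ δ := by
    refine ⟨min ((b - a) / 8) (δ / (4 * (K + 1))), lt_min (by linarith) (by positivity), ?_, ?_⟩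
    · have := min_le_left ((b - a) / 8) (δ / (4 * (K + 1))); linarith
    · have h1 := min_le_right ((b - a) / 8) (δ / (4 * (K + 1)))
      calc K * (4 * min ((b - a) / 8) (δ / (4 * (K + 1)))) ≤ K * (4 * (δ / (4 * (K + 1)))) := by gcongr
        _ = K / (K + 1) * δ := by field_simp
        _ ≤ 1 * δ := by
          refine mul_le_mul_of_nonneg_right ?_ hδ.le
          rw [div_le_one (by positivity)]; linarith
        _ = δ := one_mul _
  set τ := ta a b ρ with hτ
  have hτ1 : ∀ t ∈ Icc a b, |τ t| ≤ b - a := fun t ht => ta_bd hab ht.1 ht.2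
  have hbd : ∀ t ∈ Icc a b, Nc s (fun x => wf ν τ (v a) B (Hh ν g v a) t x - g t x) ≤ ENNReal.ofReal K := by
    intro t ht
    refine (wramp_force hG hab.le ht ((hτ1 t ht).trans hl) hs).trans ?_
    have h1 : |deriv τ t - 1| ≤ 4 * C + 3 := by
      have := ta_deriv_bd hC hρ hρl ht.1 ht.2
      rw [abs_le] at this ⊢
      constructor <;> linarith [this.1, this.2]
    have h2 : |τ t| * KM ν M ≤ KM ν M := mul_le_of_le_one_left hK1 ((hτ1 t ht).trans hl)
    have eK : ENNReal.ofReal K = ENNReal.ofReal (4 * C + 3) * ENNReal.ofReal M + ENNReal.ofReal w + ENNReal.ofReal (KM ν M) := by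
      rw [hK, ENNReal.ofReal_add (by positivity) hK1, ENNReal.ofReal_add (by positivity) hw,
        ENNReal.ofReal_mul (by positivity)]
    rw [eK]
    exact add_le_add (add_le_add (mul_le_mul' (ENNReal.ofReal_le_ofReal h1) le_rfl) (hgw t ht)) (ENNReal.ofReal_le_ofReal h2)
  have hcl : ∀ t ∈ Icc a b, Wm m (fun x => wu τ (v a) B t x - v t x) ≤ ENNReal.ofReal e := by
    intro t ht
    have e1 : (fun x => wu τ (v a) B t x - v t x) = fun x => (v a x - v t x) + τ t • B x := by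
      funext x; unfold wu; abel
    rw [e1]
    refine (Wm_add (SPF.sub fA.sp (hG.fv t ht).sp) (SPF.smul fB.sp (τ t))).trans ?_
    rw [Wm_smul]
    have h1 : Wm m B ≤ ENNReal.ofReal (4 * M) := (Wm_mono (by omega) _).trans (hG.bB ha)
    refine (add_le_add (hvw t ht) (mul_le_mul' (ENNReal.ofReal_le_ofReal (hτ1 t ht)) h1)).trans ?_
    rw [← ENNReal.ofReal_mul (by linarith), ← ENNReal.ofReal_add hw (mul_nonneg (by linarith) (by positivity))]
    exact ENNReal.ofReal_le_ofReal he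
  refine ⟨ρ, wf ν τ (v a) B (Hh ν g v a), wu τ (v a) B, wp τ (pot (Hh ν g v a)), hρ,
    wramp_pth ta_smooth fA fB sH (hG.mH ha) (pot_sp sH) (fun x i => leray_dec sH (hG.mH ha) x i), fun t ht => ?_, fun t ht => ?_, ?_, ?_, ?_, ?_⟩
  · have h0 : τ t = 0 := ta_left hρ hρl ht
    have h1 : deriv τ t = 0 := ta_deriv_left hρ hρl ht
    have e1 : wu τ (v a) B t = v a := by
      funext x; unfold wu; rw [h0, zero_smul, add_zero]
    refine ⟨?_, e1, ?_⟩
    · rw [wf_const fA fB h1, e1]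
    · funext x; unfold wp; rw [h1, zero_mul]
  · have h0 : τ t = b - a := ta_right hρ hρl ht
    have h1 : deriv τ t = 0 := ta_deriv_right hρ hρl ht
    have e1 : wu τ (v a) B t = fun x => v a x + (b - a) • B x := by
      funext x; unfold wu; rw [h0]
    refine ⟨?_, e1, ?_⟩
    · rw [wf_const fA fB h1, e1]
    · funext x; unfold wp; rw [h1, zero_mul]
  · have hsub : Ioo a b ⊆ Ioc a (a + 2 * ρ) ∪ (Icc (a + 2 * ρ) (b - 2 * ρ) ∪ Ico (b - 2 * ρ) b) := by
      intro t ht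
      rcases le_or_gt t (a + 2 * ρ) with h | h
      · exact Or.inl ⟨ht.1, h⟩
      rcases le_or_gt t (b - 2 * ρ) with h' | h'
      · exact Or.inr (Or.inl ⟨h.le, h'⟩)
      · exact Or.inr (Or.inr ⟨h'.le, ht.2⟩)
    refine (lintegral_mono_set hsub).trans ((lintegral_union_le _ _ _).trans ?_)
    refine (add_le_add le_rfl (lintegral_union_le _ _ _)).trans ?_
    have i1 : ∫⁻ t in Ioc a (a + 2 * ρ), Nc s (fun x => wf ν τ (v a) B (Hh ν g v a) t x - g t x) ≤ ENNReal.ofReal (K * (2 * ρ)) := by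
      refine le_trans (setLIntegral_mono' measurableSet_Ioc (g := fun _ => ENNReal.ofReal K) fun t ht => hbd t ⟨ht.1.le, by linarith [ht.2]⟩) ?_
      rw [setLIntegral_const, Real.volume_Ioc, ← ENNReal.ofReal_mul hK0]
      refine ENNReal.ofReal_le_ofReal (le_of_eq ?_); ring
    have i3 : ∫⁻ t in Ico (b - 2 * ρ) b, Nc s (fun x => wf ν τ (v a) B (Hh ν g v a) t x - g t x) ≤ ENNReal.ofReal (K * (2 * ρ)) := by
      refine le_trans (setLIntegral_mono' measurableSet_Ico (g := fun _ => ENNReal.ofReal K) fun t ht => hbd t ⟨by linarith [ht.1], ht.2.le⟩) ?_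
      rw [setLIntegral_const, Real.volume_Ico, ← ENNReal.ofReal_mul hK0]
      refine ENNReal.ofReal_le_ofReal (le_of_eq ?_); ring
    have hc0 : 0 ≤ w + (b - a) * KM ν M := by
      have := mul_nonneg (show 0 ≤ b - a by linarith) hK1; linarith
    have i2 : ∫⁻ t in Icc (a + 2 * ρ) (b - 2 * ρ), Nc s (fun x => wf ν τ (v a) B (Hh ν g v a) t x - g t x)
        ≤ ENNReal.ofReal ((b - a) * (w + (b - a) * KM ν M)) := by
      refine le_trans (setLIntegral_mono' measurableSet_Icc (g := fun _ => ENNReal.ofReal (w + (b - a) * KM ν M)) fun t ht => ?_) ?_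
      · have ht' : t ∈ Icc a b := ⟨by linarith [ht.1], by linarith [ht.2]⟩
        refine (wramp_force hG hab.le ht' ((hτ1 t ht').trans hl) hs).trans ?_
        have h0 : deriv τ t = 1 := ta_deriv_mid hρ ht.1 ht.2
        rw [h0, sub_self, abs_zero, ENNReal.ofReal_zero, zero_mul, zero_add,
          ENNReal.ofReal_add hw (mul_nonneg (by linarith) hK1)]
        exact add_le_add (hgw t ht') (ENNReal.ofReal_le_ofReal (mul_le_mul_of_nonneg_right (hτ1 t ht') hK1))
      · rw [setLIntegral_const, Real.volume_Icc, ← ENNReal.ofReal_mul hc0]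
        refine ENNReal.ofReal_le_ofReal ?_
        nlinarith
    refine (add_le_add i1 (add_le_add i2 i3)).trans ?_
    have hc1 : 0 ≤ (b - a) * (w + (b - a) * KM ν M) := mul_nonneg (by linarith) hc0
    rw [← ENNReal.ofReal_add hc1 (by positivity), ← ENNReal.ofReal_add (by positivity) (by positivity)]
    refine ENNReal.ofReal_le_ofReal ?_
    have he0 : 0 ≤ e := le_trans (add_nonneg hw (mul_nonneg (by linarith) (by positivity))) he
    have her : 0 ≤ (b - a) * e ^ r := mul_nonneg (by linarith) (by positivity)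
    have hex : (b - a) * (w + (b - a) * KM ν M + e ^ r) = (b - a) * (w + (b - a) * KM ν M) + (b - a) * e ^ r := by ring
    rw [hex]
    linarith
  · have hemp : {t | t ∈ Icc a b ∧ ¬ Wm m (fun x => wu τ (v a) B t x - v t x) ≤ ENNReal.ofReal e} = ∅ := by
      refine eq_empty_of_forall_notMem ?_
      rintro t ⟨ht, hn⟩
      exact hn (hcl t ht)
    rw [hemp]; simp
  · have he0 : 0 ≤ e := le_trans (add_nonneg hw (mul_nonneg (by linarith) (by positivity))) he
    refine le_trans (setLIntegral_mono' measurableSet_Ioo (g := fun _ => ENNReal.ofReal (e ^ r)) fun t ht => ?_) ?_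
    · rw [← ENNReal.ofReal_rpow_of_nonneg he0 hr0.le]
      exact ENNReal.rpow_le_rpow ((Wn_le_Wm m _).trans (hcl t ⟨ht.1.le, ht.2.le⟩)) hr0.le
    · rw [setLIntegral_const, Real.volume_Ioo, ← ENNReal.ofReal_mul (by positivity)]
      refine ENNReal.ofReal_le_ofReal ?_
      have h1 : 0 ≤ (b - a) * (w + (b - a) * KM ν M) := mul_nonneg (by linarith) (add_nonneg hw (mul_nonneg (by linarith) hK1))
      have hex : (b - a) * (w + (b - a) * KM ν M + e ^ r) = (b - a) * (w + (b - a) * KM ν M) + e ^ r * (b - a) := by ring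
      rw [hex]
      linarith
  · intro t ht
    exact (Nc_le_Wn hs _).trans ((Wn_le_Wm m _).trans ((hcl t ht).trans (ENNReal.ofReal_le_ofReal hee)))

end Pool.Agent.U162.SF
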