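import Pool.Agent.U162.SF.B1

/-!
Weighted Wiener norms of products
-/

open MeasureTheory Set Filter Topology
open scoped ENNReal NNReal ContDiff

namespace Pool.Agent.U162.SF

open Pool.Agent.H356R3.NS Pool.Agent.U162.TS Pool.Agent.U162.GE Pool.Agent.U162.TS.EL Pool.Agent.U162.TS.VF Pool.Agent.U162.TS.Ph Pool.Agent.U162.PL Pool.Agent.U162.MU

variable {ν : ℝ} {m : ℕ}

lemma Ap_mul {f g : R3 → ℝ} (hf : H459R3.NS.SP f) (hg : H459R3.NS.SP g) (p : ℕ) :
    Ap p (fun x => f x * g x) ≤ Ap p f * Ap p g := by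
  unfold Ap
  calc ∑' k, ENNReal.ofReal ((1 + nk k) ^ p) * ‖H459R3.NS.fr (fun x => f x * g x) k‖ₑ
      ≤ ∑' k, ∑' q, (ENNReal.ofReal ((1 + nk q) ^ p) * ‖H459R3.NS.fr g q‖ₑ) * (ENNReal.ofReal ((1 + nk (k - q)) ^ p) * ‖H459R3.NS.fr f (k - q)‖ₑ) := by
        refine ENNReal.tsum_le_tsum fun k => ?_
        rw [← (Pool.Agent.Q63.Win.fr_mul hf hg k).tsum_eq]
        refine (mul_le_mul' le_rfl enorm_tsum_le_tsum_enorm).trans ?_
        rw [← ENNReal.tsum_mul_left]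
        refine ENNReal.tsum_le_tsum fun q => ?_
        have h0 := nk_nonneg q
        have h1 := nk_nonneg (k - q)
        have h2 : nk k ≤ nk q + nk (k - q) := by
          have := TS.nk_add q (k - q)
          rw [show q + (k - q) = k by abel] at this
          exact this
        have h3 : (1 + nk k) ^ p ≤ (1 + nk q) ^ p * (1 + nk (k - q)) ^ p := by
          rw [← mul_pow]
          refine pow_le_pow_left₀ (by have := nk_nonneg k; linarith) ?_ p
          nlinarith [mul_nonneg h0 h1]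
        rw [enorm_mul]
        calc _ ≤ ENNReal.ofReal ((1 + nk q) ^ p * (1 + nk (k - q)) ^ p) * (‖H459R3.NS.fr f (k - q)‖ₑ * ‖H459R3.NS.fr g q‖ₑ) :=
              mul_le_mul' (ENNReal.ofReal_le_ofReal h3) le_rfl
          _ = _ := by
              rw [ENNReal.ofReal_mul (by positivity)]
              ring
    _ = (∑' k, ENNReal.ofReal ((1 + nk k) ^ p) * ‖H459R3.NS.fr g k‖ₑ) * ∑' k, ENNReal.ofReal ((1 + nk k) ^ p) * ‖H459R3.NS.fr f k‖ₑ :=
        conv_fg (fun q => ENNReal.ofReal ((1 + nk q) ^ p) * ‖H459R3.NS.fr g q‖ₑ) (fun q => ENNReal.ofReal ((1 + nk q) ^ p) * ‖H459R3.NS.fr f q‖ₑ)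
    _ = _ := mul_comm _ _

lemma Ap_add {f g : R3 → ℝ} (hf : H459R3.NS.SP f) (hg : H459R3.NS.SP g) (p : ℕ) : Ap p (fun x => f x + g x) ≤ Ap p f + Ap p g := by
  unfold Ap
  rw [← ENNReal.tsum_add]
  refine ENNReal.tsum_le_tsum fun k => ?_
  rw [fr_add' hf hg, ← mul_add]
  exact mul_le_mul' le_rfl (enorm_add_le _ _)

lemma Ap_const_mul (f : R3 → ℝ) (c : ℝ) (p : ℕ) : Ap p (fun x => c * f x) = ENNReal.ofReal |c| * Ap p f := by
  unfold Ap
  rw [← ENNReal.tsum_mul_left]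
  refine tsum_congr fun k => ?_
  rw [fr_const_mul, enorm_mul, ← ofReal_norm (c : ℂ), Complex.norm_real, Real.norm_eq_abs]
  ring

lemma Ap_sum3 {f : Fin 3 → R3 → ℝ} (hf : ∀ j, H459R3.NS.SP (f j)) (p : ℕ) : Ap p (fun x => ∑ j, f j x) ≤ ∑ j, Ap p (f j) := by
  have e : (fun x => ∑ j, f j x) = fun x => (f 0 x + f 1 x) + f 2 x := by funext x; rw [Fin.sum_univ_three]
  rw [e, Fin.sum_univ_three]
  exact (Ap_add ((hf 0).add (hf 1)) (hf 2) p).trans (add_le_add (Ap_add (hf 0) (hf 1) p) le_rfl)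

lemma Ap_le_Wm (f : R3 → R3) (i : Fin 3) (p : ℕ) : Ap p (fun x => f x i) ≤ Wm p f := by
  unfold Ap Wm
  refine ENNReal.tsum_le_tsum fun k => mul_le_mul' le_rfl ?_
  rw [← ofReal_norm, ← ofReal_norm]
  exact ENNReal.ofReal_le_ofReal (fr_le_fc f i k)

lemma Wm_le_Ap (f : R3 → R3) (p : ℕ) : Wm p f ≤ ∑ i, Ap p fun x => f x i := by
  unfold Ap Wm
  rw [← Summable.tsum_finsetSum fun _ _ => ENNReal.summable]
  refine ENNReal.tsum_le_tsum fun k => ?_
  rw [← Finset.mul_sum]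
  refine mul_le_mul' le_rfl ?_
  rw [← ofReal_norm]
  refine (ENNReal.ofReal_le_ofReal (fc_norm_le f k)).trans (le_of_eq ?_)
  rw [ENNReal.ofReal_sum_of_nonneg fun _ _ => norm_nonneg _]
  exact Finset.sum_congr rfl fun i _ => ofReal_norm _

lemma Ap_pd {b : R3 → R3} (hb : SPF b) (i j : Fin 3) (p : ℕ) :
    Ap p (H459R3.NS.pd j fun y => b y i) ≤ ENNReal.ofReal (2 * Real.pi) * Wm (p + 1) b := by
  unfold Ap Wm
  rw [← ENNReal.tsum_mul_left]
  refine ENNReal.tsum_le_tsum fun k => ?_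
  have h3 := nk_nonneg k
  rw [H459R3.NS.fr_pd (hb i), ← ofReal_norm, ← ofReal_norm, ← ENNReal.ofReal_mul (by positivity), ← ENNReal.ofReal_mul (by positivity),
    ← ENNReal.ofReal_mul (by positivity)]
  refine ENNReal.ofReal_le_ofReal ?_
  rw [norm_D]
  have h1 : |((k j : ℤ) : ℝ)| ≤ 1 + nk k := (abs_le_nk k j).trans (by linarith)
  have h2 := fr_le_fc b i k
  calc (1 + nk k) ^ p * (2 * Real.pi * |((k j : ℤ) : ℝ)| * ‖H459R3.NS.fr (fun y => b y i) k‖)
      ≤ (1 + nk k) ^ p * (2 * Real.pi * (1 + nk k) * ‖H356R3.NS.fc b k‖) := by gcongr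
    _ = _ := by ring

lemma Ap_pd2 {b : R3 → R3} (hb : SPF b) (i j : Fin 3) (p : ℕ) :
    Ap p (H459R3.NS.pd j (H459R3.NS.pd j fun y => b y i)) ≤ ENNReal.ofReal ((2 * Real.pi) ^ 2) * Wm (p + 2) b := by
  unfold Ap Wm
  rw [← ENNReal.tsum_mul_left]
  refine ENNReal.tsum_le_tsum fun k => ?_
  have h3 := nk_nonneg k
  rw [H459R3.NS.fr_pd ((hb i).pd j), H459R3.NS.fr_pd (hb i), ← ofReal_norm, ← ofReal_norm, ← ENNReal.ofReal_mul (by positivity),
    ← ENNReal.ofReal_mul (by positivity), ← ENNReal.ofReal_mul (by positivity)]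
  refine ENNReal.ofReal_le_ofReal ?_
  rw [norm_D, norm_D]
  have h1 : |((k j : ℤ) : ℝ)| ≤ 1 + nk k := (abs_le_nk k j).trans (by linarith)
  have h2 := fr_le_fc b i k
  calc (1 + nk k) ^ p * (2 * Real.pi * |((k j : ℤ) : ℝ)| * (2 * Real.pi * |((k j : ℤ) : ℝ)| * ‖H459R3.NS.fr (fun y => b y i) k‖))
      ≤ (1 + nk k) ^ p * (2 * Real.pi * (1 + nk k) * (2 * Real.pi * (1 + nk k) * ‖H356R3.NS.fc b k‖)) := by gcongr
    _ = _ := by ring

lemma Wm_advb {a b : R3 → R3} (ha : SPF a) (hb : SPF b) (p : ℕ) : Wm p (advb a b) ≤ ENNReal.ofReal 60 * (Wm p a * Wm (p + 1) b) := by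
  refine (Wm_le_Ap _ p).trans ?_
  have h1 : ∀ i, Ap p (fun x => advb a b x i) ≤ 3 * (Wm p a * (ENNReal.ofReal (2 * Real.pi) * Wm (p + 1) b)) := by
    intro i
    refine (Ap_sum3 (f := fun j x => a x j * H459R3.NS.pd j (fun y => b y i) x) (fun j => (ha j).mul ((hb i).pd j)) p).trans ?_
    calc ∑ j, Ap p (fun x => a x j * H459R3.NS.pd j (fun y => b y i) x) ≤ ∑ _j : Fin 3, Wm p a * (ENNReal.ofReal (2 * Real.pi) * Wm (p + 1) b) :=
          Finset.sum_le_sum fun j _ => (Ap_mul (ha j) ((hb i).pd j) p).trans (mul_le_mul' (Ap_le_Wm a j p) (Ap_pd hb i j p))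
      _ = _ := by simp
  calc ∑ i, Ap p (fun x => advb a b x i) ≤ ∑ _i : Fin 3, 3 * (Wm p a * (ENNReal.ofReal (2 * Real.pi) * Wm (p + 1) b)) :=
        Finset.sum_le_sum fun i _ => h1 i
    _ = (ENNReal.ofReal 9 * ENNReal.ofReal (2 * Real.pi)) * (Wm p a * Wm (p + 1) b) := by
        rw [Finset.sum_const, Finset.card_univ, Fintype.card_fin, nsmul_eq_mul, show ENNReal.ofReal 9 = 9 by norm_num]
        push_cast
        ring
    _ ≤ _ := by
        refine mul_le_mul' ?_ le_rfl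
        rw [← ENNReal.ofReal_mul (by norm_num)]
        apply ENNReal.ofReal_le_ofReal
        have := Real.pi_lt_d2
        linarith

lemma Wm_Ls {A : R3 → R3} (hA : SPF A) (p : ℕ) : Wm p (Ls ν A) ≤ ENNReal.ofReal (400 * |ν|) * Wm (p + 2) A := by
  refine (Wm_le_Ap _ p).trans ?_
  have h1 : ∀ i, Ap p (fun x => Ls ν A x i) ≤ ENNReal.ofReal |ν| * (3 * (ENNReal.ofReal ((2 * Real.pi) ^ 2) * Wm (p + 2) A)) := by
    intro i
    have e := Ap_const_mul (fun x => ∑ j, H459R3.NS.pd j (H459R3.NS.pd j fun y => A y i) x) (-ν) p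
    rw [abs_neg] at e
    refine (le_of_eq e).trans (mul_le_mul' le_rfl ?_)
    refine (Ap_sum3 (f := fun j x => H459R3.NS.pd j (H459R3.NS.pd j fun y => A y i) x) (fun j => ((hA i).pd j).pd j) p).trans ?_
    calc ∑ j, Ap p (H459R3.NS.pd j (H459R3.NS.pd j fun y => A y i)) ≤ ∑ _j : Fin 3, ENNReal.ofReal ((2 * Real.pi) ^ 2) * Wm (p + 2) A :=
          Finset.sum_le_sum fun j _ => Ap_pd2 hA i j p
      _ = _ := by simp
  calc ∑ i, Ap p (fun x => Ls ν A x i) ≤ ∑ _i : Fin 3, ENNReal.ofReal |ν| * (3 * (ENNReal.ofReal ((2 * Real.pi) ^ 2) * Wm (p + 2) A)) :=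
        Finset.sum_le_sum fun i _ => h1 i
    _ = (ENNReal.ofReal 9 * ENNReal.ofReal |ν| * ENNReal.ofReal ((2 * Real.pi) ^ 2)) * Wm (p + 2) A := by
        rw [Finset.sum_const, Finset.card_univ, Fintype.card_fin, nsmul_eq_mul, show ENNReal.ofReal 9 = 9 by norm_num]
        push_cast
        ring
    _ ≤ _ := by
        refine mul_le_mul' ?_ le_rfl
        rw [← ENNReal.ofReal_mul (by norm_num), ← ENNReal.ofReal_mul (by positivity)]
        apply ENNReal.ofReal_le_ofReal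
        have h2 := Real.pi_lt_d2
        have h3 := Real.pi_pos
        have h4 := abs_nonneg ν
        have h5 : 9 * (2 * Real.pi) ^ 2 ≤ 400 := by nlinarith
        calc 9 * |ν| * (2 * Real.pi) ^ 2 = (9 * (2 * Real.pi) ^ 2) * |ν| := by ring
          _ ≤ 400 * |ν| := mul_le_mul_of_nonneg_right h5 h4

lemma Rs_pert_Wm {A B : R3 → R3} (hA : SPF A) (hB : SPF B) {M : ℝ} (hM : 0 ≤ M) (p : ℕ) (h1 : Wm (p + 2) A ≤ ENNReal.ofReal M)
    (h2 : Wm (p + 2) B ≤ ENNReal.ofReal M) {r : ℝ} (hr : |r| ≤ 1) :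
    Wm p (fun x => r • E1 ν A B x + r ^ 2 • adv B x) ≤ ENNReal.ofReal (|r| * (180 * M ^ 2 + 400 * |ν| * M)) := by
  have a0 : Wm p A ≤ ENNReal.ofReal M := (Wm_mono (by omega) A).trans h1
  have b0 : Wm p B ≤ ENNReal.ofReal M := (Wm_mono (by omega) B).trans h2
  have a1 : Wm (p + 1) A ≤ ENNReal.ofReal M := (Wm_mono (by omega) A).trans h1
  have b1 : Wm (p + 1) B ≤ ENNReal.ofReal M := (Wm_mono (by omega) B).trans h2
  have key : ∀ {a b : R3 → R3}, SPF a → SPF b → Wm p a ≤ ENNReal.ofReal M → Wm (p + 1) b ≤ ENNReal.ofReal M →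
      Wm p (advb a b) ≤ ENNReal.ofReal (60 * M ^ 2) := fun {a b} ha hb h3 h4 => by
    refine (Wm_advb ha hb p).trans ?_
    rw [ENNReal.ofReal_mul (by norm_num), pow_two, ENNReal.ofReal_mul hM]
    exact mul_le_mul' le_rfl (mul_le_mul' h3 h4)
  have k1 := key hA hB a0 b1
  have k2 := key hB hA b0 a1
  have k3 : Wm p (adv B) ≤ ENNReal.ofReal (60 * M ^ 2) := key hB hB b0 b1
  have k4 : Wm p (Ls ν B) ≤ ENNReal.ofReal (400 * |ν| * M) := by
    refine (Wm_Ls hB p).trans ?_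
    rw [ENNReal.ofReal_mul (p := 400 * |ν|) (by positivity)]
    exact mul_le_mul' le_rfl h2
  have k5 : Wm p (E1 ν A B) ≤ ENNReal.ofReal (60 * M ^ 2 + (60 * M ^ 2 + 400 * |ν| * M)) := by
    rw [ENNReal.ofReal_add (by positivity) (by positivity), ENNReal.ofReal_add (by positivity) (by positivity)]
    exact (Wm_add (advb_spf hA hB) ((advb_spf hB hA).add (Ls_spf hB))).trans
      (add_le_add k1 ((Wm_add (advb_spf hB hA) (Ls_spf hB)).trans (add_le_add k2 k4)))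
  have hr2 : r ^ 2 ≤ |r| := by
    have := abs_nonneg r
    rw [← sq_abs]; nlinarith
  refine (Wm_add ((E1_spf hA hB).smul r) ((adv_spf hB).smul (r ^ 2))).trans ?_
  rw [Wm_smul, Wm_smul, abs_of_nonneg (sq_nonneg r)]
  calc ENNReal.ofReal |r| * Wm p (E1 ν A B) + ENNReal.ofReal (r ^ 2) * Wm p (adv B)
      ≤ ENNReal.ofReal |r| * ENNReal.ofReal (60 * M ^ 2 + (60 * M ^ 2 + 400 * |ν| * M)) + ENNReal.ofReal |r| * ENNReal.ofReal (60 * M ^ 2) :=
        add_le_add (mul_le_mul' le_rfl k5) (mul_le_mul' (ENNReal.ofReal_le_ofReal hr2) k3)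
    _ = _ := by
        rw [← ENNReal.ofReal_mul (abs_nonneg r), ← ENNReal.ofReal_mul (abs_nonneg r), ← ENNReal.ofReal_add (by positivity) (by positivity)]
        congr 1
        ring

end Pool.Agent.U162.SF
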