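import Pool.Agent.U162.SF.Interp

/-!
The path `τ(t) G(x)`
-/

open MeasureTheory Set Filter Topology
open scoped ENNReal NNReal ContDiff

namespace Pool.Agent.U162.SF

open Pool.Agent.H356R3.NS Pool.Agent.U162.TS Pool.Agent.U162.GE Pool.Agent.U162.TS.EL Pool.Agent.U162.TS.VF Pool.Agent.U162.TS.Ph Pool.Agent.U162.PL Pool.Agent.U162.MU

variable {ν : ℝ}

/-- `-ν Δ A` -/
noncomputable def Ls (ν : ℝ) (A : R3 → R3) (x : R3) (i : Fin 3) : ℝ := (-ν) * ∑ j, pd j (pd j fun y => A y i) x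

lemma Ls_spf {A : R3 → R3} (hA : SPF A) : SPF (Ls ν A) := fun i => by
  refine (sp_const_mul (f := fun x => ∑ j, pd j (pd j fun y => A y i) x) ?_ (-ν))
  exact H459R3.NS.SP.sum (f := fun j x => H459R3.NS.pd j (H459R3.NS.pd j fun y => A y i) x) fun j _ => ((hA i).pd j).pd j

lemma Rs_eq (A : R3 → R3) : Rs ν A = fun x => adv A x + Ls ν A x := rfl

lemma fc_Ls0 {A : R3 → R3} (hA : SPF A) (hd : ∀ x, ∑ i, pd i (fun y => A y i) x = 0) : H356R3.NS.fc (Ls ν A) 0 = 0 := by
  have h := fc_Rs0 (ν := ν) hA hd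
  rw [Rs_eq, fc_add (adv_spf hA) (Ls_spf hA), fc_adv0 hA hd, zero_add] at h
  exact h

lemma pd_smul {g : R3 → ℝ} (hg : H459R3.NS.SP g) (c : ℝ) (j : Fin 3) :
    (pd j fun y => c * g y) = fun x => c * pd j g x := by
  funext x
  unfold H356R3.NS.pd
  have h : DifferentiableAt ℝ g x := (hg.smooth.differentiable (by simp)) x
  rw [fderiv_const_mul h]
  simp

lemma pd_smul' {g : R3 → ℝ} (hg : H459R3.NS.SP g) (c : ℝ) (j : Fin 3) (x : R3) :
    pd j (fun y => c * g y) x = c * pd j g x := congrFun (pd_smul hg c j) x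

lemma adv_smul {A : R3 → R3} (hA : SPF A) (r : ℝ) : adv (fun x => r • A x) = fun x => r ^ 2 • adv A x := by
  funext x i
  show ∑ j, (r * A x j) * pd j (fun y => r * A y i) x = r ^ 2 * ∑ j, A x j * pd j (fun y => A y i) x
  rw [Finset.mul_sum]
  refine Finset.sum_congr rfl fun j _ => ?_
  rw [pd_smul' (hA i)]; ring

lemma Ls_smul {A : R3 → R3} (hA : SPF A) (r : ℝ) : Ls ν (fun x => r • A x) = fun x => r • Ls ν A x := by
  funext x i
  show (-ν) * ∑ j, pd j (pd j fun y => r * A y i) x = r * ((-ν) * ∑ j, pd j (pd j fun y => A y i) x)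
  have : ∀ j, pd j (pd j fun y => r * A y i) x = r * pd j (pd j fun y => A y i) x := by
    intro j
    rw [pd_smul (hA i)]
    exact pd_smul' ((hA i).pd j) r j x
  simp only [this, ← Finset.mul_sum]
  ring

lemma Rs_smul {A : R3 → R3} (hA : SPF A) (r : ℝ) : Rs ν (fun x => r • A x) = fun x => r ^ 2 • adv A x + r • Ls ν A x := by
  rw [Rs_eq, adv_smul hA, Ls_smul hA]

lemma field_smul {A : R3 → R3} (hA : Field A) (r : ℝ) : Field fun x => r • A x where
  smooth := hA.smooth.const_smul r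
  periodic x j := by rw [hA.periodic]
  divFree x := by
    have h : ∀ i, pd i (fun y => (r • A y) i) x = r * pd i (fun y => A y i) x := fun i => pd_smul' (hA.sp i) r i x
    simp only [h, ← Finset.mul_sum, hA.divFree, mul_zero]
  mean i := by
    show ∫ x in Icc (0 : R3) 1, r * A x i = 0
    rw [integral_const_mul, hA.mean, mul_zero]

/-- the velocity of the ramp -/
noncomputable def ru (τ : ℝ → ℝ) (G : R3 → R3) (t : ℝ) (x : R3) : R3 := τ t • G x

/-- the force of the ramp -/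
noncomputable def rf (ν : ℝ) (τ : ℝ → ℝ) (G : R3 → R3) (t : ℝ) (x : R3) : R3 :=
  deriv τ t • G x + (τ t ^ 2 • adv G x + τ t • Ls ν G x)

theorem ramp_pth {τ : ℝ → ℝ} (hτ : ContDiff ℝ ∞ τ) {G : R3 → R3} (hG : Field G) :
    PthOn ν univ (rf ν τ G) (ru τ G) (fun _ _ => 0) := by
  have hs : SPF G := hG.sp
  have hm : H356R3.NS.fc G 0 = 0 := hG.dta.mean
  have hτ' : ContDiff ℝ ∞ (deriv τ) := (contDiff_infty_iff_deriv.1 hτ).2
  have ha : ContDiff ℝ ∞ (adv G) := contDiff_pi.2 fun i => (adv_spf hs i).smooth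
  have hl : ContDiff ℝ ∞ (Ls ν G) := contDiff_pi.2 fun i => (Ls_spf hs i).smooth
  refine ⟨fun t _ x => ?_, fun t _ x => ?_, fun t _ x => contDiffAt_const, fun t _ x j => ?_, fun t _ x j => ?_,
    fun t _ x j => rfl, fun t _ x i => ?_, fun t _ x => ?_, fun t _ => ?_, fun t _ => ?_⟩
  · exact ((hτ.comp contDiff_fst).smul (hG.smooth.comp contDiff_snd)).contDiffAt
  · exact (((hτ'.comp contDiff_fst).smul (hG.smooth.comp contDiff_snd)).add ((((hτ.comp contDiff_fst).pow 2).smul (ha.comp contDiff_snd)).add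
      ((hτ.comp contDiff_fst).smul (hl.comp contDiff_snd)))).contDiffAt
  · show τ t • G (x + Pi.single j 1) = τ t • G x
    rw [hG.periodic]
  · have e1 : adv G (x + Pi.single j 1) = adv G x := funext fun i => (adv_spf hs i).per j x
    have e2 : Ls ν G (x + Pi.single j 1) = Ls ν G x := funext fun i => (Ls_spf hs i).per j x
    unfold rf
    rw [hG.periodic, e1, e2]
  · have e : pd i (fun _ : R3 => (0 : ℝ)) x = 0 := pd_zero i x
    rw [e]
    have e1 : deriv (fun s => ru τ G s x i) t = deriv τ t * G x i := by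
      show deriv (fun s => τ s * G x i) t = _
      exact deriv_mul_const (hτ.differentiable (by simp) t) _
    have e2 : ∀ j, ru τ G t x j * pd j (fun y => ru τ G t y i) x = τ t ^ 2 * (G x j * pd j (fun y => G y i) x) := by
      intro j
      show (τ t * G x j) * pd j (fun y => τ t * G y i) x = _
      rw [pd_smul' (hs i)]; ring
    have e3 : ∀ j, pd j (pd j fun y => ru τ G t y i) x = τ t * pd j (pd j fun y => G y i) x := by
      intro j
      show pd j (pd j fun y => τ t * G y i) x = _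
      rw [pd_smul (hs i)]
      exact pd_smul' ((hs i).pd j) _ j x
    rw [e1]
    simp only [e2, e3, ← Finset.mul_sum]
    show deriv τ t * G x i + τ t ^ 2 * ∑ j, G x j * pd j (fun y => G y i) x = ν * (τ t * ∑ j, pd j (pd j fun y => G y i) x) - 0
      + (deriv τ t * G x i + (τ t ^ 2 * (∑ j, G x j * pd j (fun y => G y i) x) + τ t * ((-ν) * ∑ j, pd j (pd j fun y => G y i) x)))
    ring
  · have e1 : ∀ i, pd i (fun y => ru τ G t y i) x = τ t * pd i (fun y => G y i) x := fun i => pd_smul' (hs i) _ i x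
    simp only [e1, ← Finset.mul_sum, hG.divFree, mul_zero]
  · show H356R3.NS.fc (fun x => τ t • G x) 0 = 0
    rw [fc_smul, hm, smul_zero]
  · show H356R3.NS.fc (fun x => deriv τ t • G x + (τ t ^ 2 • adv G x + τ t • Ls ν G x)) 0 = 0
    rw [fc_add (hs.smul _) (((adv_spf hs).smul _).add ((Ls_spf hs).smul _)), fc_add ((adv_spf hs).smul _) ((Ls_spf hs).smul _),
      fc_smul, fc_smul, fc_smul, hm, fc_adv0 hs hG.divFree, fc_Ls0 hs hG.divFree]
    simp

/-- where the factor is constant, the force is the one which keeps the field constant -/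
lemma rf_const {τ : ℝ → ℝ} {G : R3 → R3} (hG : Field G) {t : ℝ} (h : deriv τ t = 0) : rf ν τ G t = Rs ν (fun x => τ t • G x) := by
  rw [Rs_smul hG.sp]
  funext x
  unfold rf
  rw [h, zero_smul, zero_add]

/-! ### the factor -/

/-- the factor: `0` up to `a + ρ`, `t - a` from `a + 2ρ` to `b - 2ρ`, and `b - a` from `b - ρ` on -/
noncomputable def ta (a b ρ t : ℝ) : ℝ := th (a + ρ) (a + 2 * ρ) t * (t - a) + th (b - 2 * ρ) (b - ρ) t * (b - t)

variable {a b ρ : ℝ}

lemma ta_smooth : ContDiff ℝ ∞ (ta a b ρ) :=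
  ((th_smooth _ _).mul (contDiff_id.sub contDiff_const)).add ((th_smooth _ _).mul (contDiff_const.sub contDiff_id))

lemma ta_deriv (t : ℝ) : deriv (ta a b ρ) t = (deriv (th (a + ρ) (a + 2 * ρ)) t * (t - a) + th (a + ρ) (a + 2 * ρ) t)
    + (deriv (th (b - 2 * ρ) (b - ρ)) t * (b - t) - th (b - 2 * ρ) (b - ρ) t) := by
  have h1 : HasDerivAt (th (a + ρ) (a + 2 * ρ)) (deriv (th (a + ρ) (a + 2 * ρ)) t) t :=
    ((th_smooth _ _).differentiable (by simp) t).hasDerivAt
  have h2 : HasDerivAt (th (b - 2 * ρ) (b - ρ)) (deriv (th (b - 2 * ρ) (b - ρ)) t) t :=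
    ((th_smooth _ _).differentiable (by simp) t).hasDerivAt
  have h3 := (h1.mul ((hasDerivAt_id t).sub_const a)).add (h2.mul ((hasDerivAt_id t).const_sub b))
  have h4 : HasDerivAt (ta a b ρ) _ t := h3
  rw [h4.deriv]
  simp only [id]
  ring

lemma ta_left (hρ : 0 < ρ) (h : 4 * ρ < b - a) {t : ℝ} (ht : t ≤ a + ρ) : ta a b ρ t = 0 := by
  unfold ta
  rw [th_left (by linarith) ht, th_left (by linarith) (by linarith)]
  ring

lemma ta_right (hρ : 0 < ρ) (h : 4 * ρ < b - a) {t : ℝ} (ht : b - ρ ≤ t) : ta a b ρ t = b - a := by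
  unfold ta
  rw [th_right (by linarith) (by linarith), th_right (by linarith) ht]
  ring

lemma ta_deriv_left (hρ : 0 < ρ) (h : 4 * ρ < b - a) {t : ℝ} (ht : t ≤ a + ρ) : deriv (ta a b ρ) t = 0 := by
  rw [ta_deriv, th_deriv0 (th_left (by linarith) ht), th_left (by linarith) ht,
    th_deriv0 (th_left (by linarith) (show t ≤ b - 2 * ρ by linarith)), th_left (by linarith) (show t ≤ b - 2 * ρ by linarith)]
  ring

lemma ta_deriv_right (hρ : 0 < ρ) (h : 4 * ρ < b - a) {t : ℝ} (ht : b - ρ ≤ t) : deriv (ta a b ρ) t = 0 := by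
  rw [ta_deriv, th_deriv1 (th_right (by linarith) ht), th_right (by linarith) ht,
    th_deriv1 (th_right (by linarith) (show a + 2 * ρ ≤ t by linarith)), th_right (by linarith) (show a + 2 * ρ ≤ t by linarith)]
  ring

lemma ta_deriv_mid (hρ : 0 < ρ) {t : ℝ} (h1 : a + 2 * ρ ≤ t) (h2 : t ≤ b - 2 * ρ) : deriv (ta a b ρ) t = 1 := by
  rw [ta_deriv, th_deriv1 (th_right (by linarith) h1), th_right (by linarith) h1,
    th_deriv0 (th_left (by linarith) h2), th_left (by linarith) h2]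
  ring

lemma ta_bd (h : a < b) {t : ℝ} (h1 : a ≤ t) (h2 : t ≤ b) : |ta a b ρ t| ≤ b - a := by
  unfold ta
  have n0 := th_nonneg (a + ρ) (a + 2 * ρ) t
  have n1 := th_le_one (a + ρ) (a + 2 * ρ) t
  have m0 := th_nonneg (b - 2 * ρ) (b - ρ) t
  have m1 := th_le_one (b - 2 * ρ) (b - ρ) t
  rw [abs_of_nonneg (by nlinarith)]
  nlinarith

lemma ta_deriv_bd {C : ℝ} (hC : ∀ a b, a < b → ∀ t, |deriv (th a b) t| ≤ C / (b - a)) (hρ : 0 < ρ) (h : 4 * ρ < b - a)
    {t : ℝ} (h1 : a ≤ t) (h2 : t ≤ b) : |deriv (ta a b ρ) t| ≤ 4 * C + 2 := by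
  have hC0 : 0 ≤ C := by
    have := (abs_nonneg _).trans (hC 0 1 one_pos 0)
    simpa using this
  have n0 := th_nonneg (a + ρ) (a + 2 * ρ) t
  have n1 := th_le_one (a + ρ) (a + 2 * ρ) t
  have m0 := th_nonneg (b - 2 * ρ) (b - ρ) t
  have m1 := th_le_one (b - 2 * ρ) (b - ρ) t
  have k1 : |deriv (th (a + ρ) (a + 2 * ρ)) t * (t - a)| ≤ 2 * C := by
    rcases le_or_gt t (a + 2 * ρ) with h3 | h3
    · rw [abs_mul]
      have e1 := hC (a + ρ) (a + 2 * ρ) (by linarith) t
      have e2 : |t - a| ≤ 2 * ρ := by rw [abs_of_nonneg (by linarith)]; linarith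
      calc _ ≤ C / (a + 2 * ρ - (a + ρ)) * (2 * ρ) := mul_le_mul e1 e2 (abs_nonneg _) (by apply div_nonneg hC0; linarith)
        _ = 2 * C := by
          have : a + 2 * ρ - (a + ρ) = ρ := by ring
          rw [this]; field_simp
    · rw [th_deriv1 (th_right (by linarith) h3.le), zero_mul, abs_zero]; linarith
  have k2 : |deriv (th (b - 2 * ρ) (b - ρ)) t * (b - t)| ≤ 2 * C := by
    rcases le_or_gt (b - 2 * ρ) t with h3 | h3
    · rw [abs_mul]
      have e1 := hC (b - 2 * ρ) (b - ρ) (by linarith) t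
      have e2 : |b - t| ≤ 2 * ρ := by rw [abs_of_nonneg (by linarith)]; linarith
      calc _ ≤ C / (b - ρ - (b - 2 * ρ)) * (2 * ρ) := mul_le_mul e1 e2 (abs_nonneg _) (by apply div_nonneg hC0; linarith)
        _ = 2 * C := by
          have : b - ρ - (b - 2 * ρ) = ρ := by ring
          rw [this]; field_simp
    · rw [th_deriv0 (th_left (by linarith) h3.le), zero_mul, abs_zero]; linarith
  rw [ta_deriv, abs_le]
  rw [abs_le] at k1 k2
  constructor <;> linarith [k1.1, k1.2, k2.1, k2.2]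

end Pool.Agent.U162.SF
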