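import Pool.Agent.U162.SF.FinA
import Pool.Agent.U162.MU.Steer

/-!
Steering, with closeness in the Wiener norm
-/

open MeasureTheory Set Filter Topology
open scoped ENNReal NNReal ContDiff

namespace Pool.Agent.U162.SF

open Pool.Agent.H356R3.NS Pool.Agent.U162.TS Pool.Agent.U162.GE Pool.Agent.U162.TS.EL Pool.Agent.U162.TS.VF Pool.Agent.U162.TS.Ph Pool.Agent.U162.PL Pool.Agent.U162.MU

/-- Steering -/
theorem steerA {ν : ℝ} (hν : 0 < ν) {u₀ g : R3 → R3} (hu₀ : Field u₀) (hg : Field g) {v : ℝ → R3 → R3}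
    {p : ℝ → R3 → ℝ} (hv : AdmissiblePeriodic ν g v p) {s : ℝ} (hs : 2 < s) {δ ε : ℝ} (hδ : 0 < δ) (hε : 0 < ε) :
    ∃ (b : R3 → R3) (u : ℝ → R3 → R3) (q : ℝ → R3 → ℝ), Field b ∧
      critNorm s (fun k i => H356R3.NS.fc b k i - H356R3.NS.fc u₀ k i) ≤ ENNReal.ofReal δ ∧
      AdmissiblePeriodic ν b u q ∧ ∀ t, ε ≤ t → An (Ph.XF u - Ph.XF v) t ≤ ε := by
  have hh : Dta fun k => H356R3.NS.fc g k + (-1 : ℝ) • H356R3.NS.fc u₀ k := dta_add hg.dta (dta_smul hu₀.dta (-1))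
  obtain ⟨γ, m, hγ, hm, hmo, heff⟩ := shear_effect hν hh
  have hP : ∀ q, Profile (fun x => sh ν (γ q x) (m q) (dr q) 0) := fun q => sh_profile ν (hγ q) (hm q) (hmo q)
  have hC : ∑ q, CV (fun x => sh ν (γ q x) (m q) (dr q) 0) ≠ ⊤ := by
    rw [ENNReal.sum_ne_top]
    exact fun q _ => CV_fin (hP q)
  obtain ⟨n, hn, hn2⟩ := ex_scales hC hs hδ
  have hnp : (0 : ℝ) < n := by exact_mod_cast hn
  set r := 1 / Real.sqrt n with hr
  have hr0 : 0 ≤ r := by positivity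
  set V : Fin (n * (3 * 3)) → R3 → R3 → R3 := fun j x => sh ν (r * γ (qj n j) x) (m (qj n j)) (dr (qj n j)) 0 with hVd
  set W : Fin (n * (3 * 3)) → R3 → ℝ → R3 → R3 := fun j x => sh ν (r * γ (qj n j) x) (m (qj n j)) (dr (qj n j)) with hWd
  have hV : ∀ j, Profile (V j) := fun j => sh_profile ν (sp_const_mul (hγ _) r) (hm _) (hmo _)
  have hW : ∀ j x, AdmissiblePeriodic ν (V j x) (W j x) (fun _ _ => 0) := fun j x => sh_adm ν _ (hmo _)
  obtain ⟨δ0, hδ0, hall⟩ := multi_givenA hν (Q := fun _ _ _ _ => 0) hV hW hg hv hε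
  have hpush : ∀ l i, H356R3.NS.fc g l i = H356R3.NS.fc u₀ l i + ∑ j, push (W j) l i := by
    intro l i
    have h1 := sum_qj n fun q => push (fun x => sh ν (r * γ q x) (m q) (dr q)) l i
    have h2 : ∑ j, push (W j) l i = ∑ j, (fun q => push (fun x => sh ν (r * γ q x) (m q) (dr q)) l i) (qj n j) := rfl
    rw [h2, h1, heff, nsmul_eq_mul]
    have h3 : (n : ℂ) * (((r ^ 2 : ℝ) : ℂ) * (H356R3.NS.fc g l + (-1 : ℝ) • H356R3.NS.fc u₀ l) i)
        = (((n : ℝ) * r ^ 2 : ℝ) : ℂ) * (H356R3.NS.fc g l + (-1 : ℝ) • H356R3.NS.fc u₀ l) i := by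
      push_cast; ring
    have h4 : (n : ℝ) * r ^ 2 = 1 := by
      rw [hr, div_pow, Real.sq_sqrt hnp.le]; field_simp
    rw [h3, h4]
    simp
  obtain ⟨e, hinj, -, hgood⟩ := (hall hu₀ hpush).exists_pow 0
  -- the data
  set D : K → C3 := fun κ => ∑ j, dosc (V j) (2 ^ e j) κ with hD
  have hDd : Dta D := by
    have h1 := dta_sum Finset.univ (f := fun j => dosc (V j) (2 ^ e j)) fun j => dta_smul (proj_dta fun i => osc_sp (hV j) _ i) _
    have e1 : (fun l i => ∑ j, dosc (V j) (2 ^ e j) l i) = D := by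
      funext l i
      rw [hD]; simp only [Finset.sum_apply]
    rw [← e1]; exact h1
  have hβ : Dta fun κ => H356R3.NS.fc u₀ κ + D κ := dta_add hu₀.dta hDd
  have hfb := fld_fc hβ
  have hfb' : ∀ κ, H356R3.NS.fc (fld fun κ => H356R3.NS.fc u₀ κ + D κ) κ = H356R3.NS.fc u₀ κ + D κ :=
    fun κ => funext fun i => hfb κ i
  have hclose : heatSq ν (fun k i => H356R3.NS.fc (fld fun κ => H356R3.NS.fc u₀ κ + D κ) k i - mixs u₀ V (fun j => 2 ^ e j) k i)
      ≤ ENNReal.ofReal δ0 := by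
    rw [heatSq_congr (d' := fun _ => 0) fun k hk => ?_, heatSq_zero]
    · exact bot_le
    · funext i
      rw [mixs_dosc u₀ V _ hk, hfb']
      simp [hD]
  obtain ⟨u, q, h1, h2⟩ := hgood _ (fld_field hβ) hclose
  refine ⟨fld fun κ => H356R3.NS.fc u₀ κ + D κ, u, q, fld_field hβ, ?_, h1, h2⟩
  have e1 : (fun k i => H356R3.NS.fc (fld fun κ => H356R3.NS.fc u₀ κ + D κ) k i - H356R3.NS.fc u₀ k i) = D := by
    funext k i
    rw [hfb']
    simp
  rw [e1]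
  refine le_trans (le_of_eq ?_) ((crit_super hP (by linarith : 1 < s) hr0 hinj).trans hn2)
  congr 1
  funext κ
  rw [hD]
  exact Finset.sum_congr rfl fun j _ => dosc_sh ν (γ (qj n j)) (m (qj n j)) (dr (qj n j)) r (2 ^ e j) κ

end Pool.Agent.U162.SF
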