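import Pool.Agent.U162.SF.Jump

/-!
Passing from one field to another one in a given time with a small force
-/

open MeasureTheory Set Filter Topology
open scoped ENNReal NNReal ContDiff

namespace Pool.Agent.U162.SF

open Pool.Agent.H356R3.NS Pool.Agent.U162.TS Pool.Agent.U162.GE Pool.Agent.U162.TS.EL Pool.Agent.U162.TS.VF Pool.Agent.U162.TS.Ph Pool.Agent.U162.PL Pool.Agent.U162.MU

variable {ν : ℝ}

lemma pd_zero (i : Fin 3) (x : R3) : pd i (fun _ : R3 => (0 : ℝ)) x = 0 := by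
  unfold H356R3.NS.pd
  rw [fderiv_const_apply]; rfl

lemma adv_zero : adv (fun _ => (0 : R3)) = fun _ => 0 := by
  funext x i
  unfold adv
  simp

lemma Rs_zero : Rs ν (fun _ => (0 : R3)) = fun _ => 0 := by
  funext x i
  unfold Rs
  rw [adv_zero]
  have h1 : ∀ j, pd j (pd j fun y => (fun _ => (0 : R3)) y i) x = 0 := by
    intro j
    have : (pd j fun y => (fun _ : R3 => (0 : R3)) y i) = fun _ => 0 := funext fun y => pd_zero j y
    rw [this]; exact pd_zero j x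
  simp only [h1]
  simp

lemma bf_zero {a b : ℝ} {f₁ u₁ f₂ u₂ : ℝ → R3 → R3} {t : ℝ} (h1 : f₁ t = fun _ => 0) (h2 : f₂ t = fun _ => 0) (h3 : u₁ t = u₂ t) :
    bf a b f₁ u₁ f₂ u₂ t = fun _ => 0 := by
  have e : dif u₁ u₂ t = fun _ => 0 := by
    funext x
    unfold dif
    rw [h3, sub_self]
  funext x
  unfold bf
  rw [e, adv_zero, h1, h2]
  simp

lemma shift_int (g : ℝ → ℝ≥0∞) (σ κ : ℝ) : ∫⁻ t in Ioo σ (σ + κ), g (t - σ) = ∫⁻ t in Ioo 0 κ, g t := by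
  have h := (measurePreserving_sub_right (volume : Measure ℝ) σ).setLIntegral_comp_preimage_emb
    (MeasurableEquiv.subRight σ).measurableEmbedding g (Ioo 0 κ)
  rw [← h]
  congr 2
  rw [preimage_sub_const_Ioo, zero_add, add_comm]

/-- from one field to another one in a given time -/
theorem step (hν : 0 < ν) {s : ℝ} (hs : 2 < s) {A B : R3 → R3} (hA : Field A) (hB : Field B) {h δ : ℝ} (hh : 0 < h) (hδ : 0 < δ) :
    ∃ (η : ℝ) (f u : ℝ → R3 → R3) (p : ℝ → R3 → ℝ), 0 < η ∧ 2 * η < h ∧ PthOn ν univ f u p ∧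
      (∀ t ≤ η, f t = Rs ν A ∧ u t = A ∧ p t = fun _ => 0) ∧ (∀ t, h - η ≤ t → f t = Rs ν B ∧ u t = B ∧ p t = fun _ => 0) ∧
      ∫⁻ t in Ioo 0 h, Nc s (f t) ≤ ENNReal.ofReal δ ∧
      (∃ k : ℝ, 0 ≤ k ∧ ∀ s', 1 ≤ s' → ∀ t ∈ Ioo 0 h, Nc s' (f t) ≤ ENNReal.ofReal k) ∧
      (A = 0 → B = 0 → ∀ t, f t = 0 ∧ u t = 0) := by
  have hs1 : 1 ≤ s := by linarith
  have hs0 : 0 < s := by linarith
  by_cases hAB : A = 0 ∧ B = 0
  · obtain ⟨rfl, rfl⟩ := hAB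
    have e0 : (0 : R3 → R3) = fun _ => 0 := rfl
    have eR : Rs ν (0 : R3 → R3) = fun _ => 0 := Rs_zero
    refine ⟨h / 3, fun _ => Rs ν 0, fun _ => 0, fun _ _ => 0, by positivity, by linarith, const_pth hA, fun t _ => ⟨rfl, rfl, rfl⟩,
      fun t _ => ⟨rfl, rfl, rfl⟩, ?_, ⟨0, le_rfl, fun s' hs' t _ => ?_⟩, fun _ _ t => ⟨eR, rfl⟩⟩
    · have hz : Nc s (Rs ν (0 : R3 → R3)) = 0 := by rw [eR]; exact Nc_zero hs0
      rw [setLIntegral_const, hz, zero_mul]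
      exact bot_le
    · show Nc s' (Rs ν (0 : R3 → R3)) ≤ _
      rw [eR, Nc_zero (by linarith)]; exact bot_le
  obtain ⟨κ₁, η₁, f₁, u₁, p₁, hη₁, hηκ₁, hκ₁, P₁, hl₁, hr₁, hi₁, k₁, hk₁0, hk₁⟩ :=
    jump hν hs hA field_zero (h := h / 2) (δ := δ / 3) (by positivity) (by positivity)
  obtain ⟨κ₂, η₂, f₂, u₂, p₂, hη₂, hηκ₂, hκ₂, P₂, hl₂, hr₂, hi₂, k₂, hk₂0, hk₂⟩ :=
    jump hν hs field_zero hB (h := h / 4) (δ := δ / 3) (by positivity) (by positivity)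
  have hBs : SPF B := hB.sp
  have hFB : Nc s (Rs ν B) ≠ ⊤ := ne_top_of_le_ne_top (Wn_fin (Rs_spf hBs)) (Nc_le_Wn hs1 _)
  set FB := (Nc s (Rs ν B)).toReal with hFBd
  have hFB0 : 0 ≤ FB := ENNReal.toReal_nonneg
  have eFB : Nc s (Rs ν B) = ENNReal.ofReal FB := (ENNReal.ofReal_toReal hFB).symm
  set WRB := (Wn (Rs ν B)).toReal with hWRB
  have hWRB0 : 0 ≤ WRB := ENNReal.toReal_nonneg
  have eWRB : Wn (Rs ν B) = ENNReal.ofReal WRB := (ENNReal.ofReal_toReal (Wn_fin (Rs_spf hBs))).symm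
  obtain ⟨ρ, hρ, hρh, hρc⟩ : ∃ ρ : ℝ, 0 < ρ ∧ ρ ≤ h / 8 ∧ FB * ρ ≤ δ / 3 := by
    refine ⟨min (h / 8) (δ / 3 / (FB + 1)), by positivity, min_le_left _ _, ?_⟩
    have h1 := min_le_right (h / 8) (δ / 3 / (FB + 1))
    calc _ ≤ FB * (δ / 3 / (FB + 1)) := mul_le_mul_of_nonneg_left h1 hFB0
      _ ≤ δ / 3 := by
          rw [mul_div_assoc', div_le_iff₀ (by positivity)]
          nlinarith
  set σ := h - κ₂ - ρ with hσ
  have hσ5 : 5 * h / 8 ≤ σ := by linarith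
  have P₂s := P₂.shift σ
  have hab : h / 2 < 5 * h / 8 := by linarith
  set f := bf (h / 2) (5 * h / 8) f₁ u₁ (fun t => f₂ (t - σ)) (fun t => u₂ (t - σ)) with hf
  set u := bu (h / 2) (5 * h / 8) u₁ (fun t => u₂ (t - σ)) with hu
  set p := bp (h / 2) (5 * h / 8) p₁ (fun t => p₂ (t - σ)) with hp
  have P : PthOn ν univ f u p := blend hab (fun t _ => trivial) P₁ P₂s
  -- the values
  have g1 : ∀ t, t ≤ h / 2 → f t = f₁ t ∧ u t = u₁ t ∧ p t = p₁ t := fun t ht => ⟨bf_left hab ht, bu_left hab ht, bp_left hab ht⟩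
  have g3 : ∀ t, 5 * h / 8 ≤ t → f t = f₂ (t - σ) ∧ u t = u₂ (t - σ) ∧ p t = p₂ (t - σ) := fun t ht =>
    ⟨bf_right hab ht, bu_right hab ht, bp_right hab ht⟩
  have g2 : ∀ t, κ₁ ≤ t → t ≤ σ → f t = fun _ => 0 := by
    intro t h1 h2
    rcases le_or_gt t (h / 2) with h3 | h3
    · rw [(g1 t h3).1, (hr₁ t h1).1, Rs_zero]
    rcases le_or_gt (5 * h / 8) t with h4 | h4
    · rw [(g3 t h4).1, (hl₂ (t - σ) (by linarith)).1, Rs_zero]
    · refine bf_zero ?_ ?_ ?_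
      · rw [(hr₁ t h1).1, Rs_zero]
      · show f₂ (t - σ) = _
        rw [(hl₂ (t - σ) (by linarith)).1, Rs_zero]
      · show u₁ t = u₂ (t - σ)
        rw [(hr₁ t h1).2.1, (hl₂ (t - σ) (by linarith)).2.1]
  have g4 : ∀ t, σ + κ₂ ≤ t → f t = Rs ν B ∧ u t = B ∧ p t = fun _ => 0 := by
    intro t ht
    have h1 : 5 * h / 8 ≤ t := by linarith
    obtain ⟨e1, e2, e3⟩ := g3 t h1
    rw [e1, e2, e3]
    exact hr₂ (t - σ) (by linarith)
  have hη : 0 < min η₁ ρ := lt_min hη₁ hρ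
  refine ⟨min η₁ ρ, f, u, p, hη, ?_, P, fun t ht => ?_, fun t ht => g4 t ?_, ?_, ⟨k₁ + (k₂ + WRB), by positivity, fun s' hs' t ht => ?_⟩,
    fun h1 h2 => absurd ⟨h1, h2⟩ hAB⟩
  · have := min_le_right η₁ ρ; linarith
  · have h1 : t ≤ η₁ := ht.trans (min_le_left _ _)
    have h2 : t ≤ h / 2 := by linarith
    obtain ⟨e1, e2, e3⟩ := g1 t h2
    rw [e1, e2, e3]
    exact hl₁ t h1
  · have := min_le_right η₁ ρ
    rw [hσ]; linarith
  · have hsub : Ioo 0 h ⊆ (Ioo 0 κ₁ ∪ Icc κ₁ σ) ∪ (Ioo σ (σ + κ₂) ∪ Icc (σ + κ₂) h) := by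
      intro t ht
      rcases lt_or_ge t κ₁ with h1 | h1
      · exact Or.inl (Or.inl ⟨ht.1, h1⟩)
      rcases le_or_gt t σ with h2 | h2
      · exact Or.inl (Or.inr ⟨h1, h2⟩)
      rcases lt_or_ge t (σ + κ₂) with h3 | h3
      · exact Or.inr (Or.inl ⟨h2, h3⟩)
      · exact Or.inr (Or.inr ⟨h3, ht.2.le⟩)
    refine (lintegral_mono_set hsub).trans ((lintegral_union_le _ _ _).trans ?_)
    refine (add_le_add (lintegral_union_le _ _ _) (lintegral_union_le _ _ _)).trans ?_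
    have i1 : ∫⁻ t in Ioo 0 κ₁, Nc s (f t) ≤ ENNReal.ofReal (δ / 3) := by
      refine le_trans (setLIntegral_mono' measurableSet_Ioo fun t ht => ?_) hi₁
      rw [(g1 t (ht.2.le.trans hκ₁)).1]
    have i2 : ∫⁻ t in Icc κ₁ σ, Nc s (f t) ≤ 0 := by
      refine le_trans (setLIntegral_mono' measurableSet_Icc (g := fun _ => 0) fun t ht => ?_) (by simp)
      rw [g2 t ht.1 ht.2, Nc_zero hs0]
    have i3 : ∫⁻ t in Ioo σ (σ + κ₂), Nc s (f t) ≤ ENNReal.ofReal (δ / 3) := by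
      refine le_trans (setLIntegral_mono' measurableSet_Ioo (g := fun t => Nc s (f₂ (t - σ))) fun t ht => ?_) ?_
      · rw [(g3 t (hσ5.trans ht.1.le)).1]
      · rw [shift_int (fun t => Nc s (f₂ t))]; exact hi₂
    have i4 : ∫⁻ t in Icc (σ + κ₂) h, Nc s (f t) ≤ ENNReal.ofReal (δ / 3) := by
      refine le_trans (setLIntegral_mono' measurableSet_Icc (g := fun _ => ENNReal.ofReal FB) fun t ht => ?_) ?_
      · rw [(g4 t ht.1).1, eFB]
      · rw [setLIntegral_const, Real.volume_Icc, ← ENNReal.ofReal_mul hFB0]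
        apply ENNReal.ofReal_le_ofReal
        have : h - (σ + κ₂) = ρ := by rw [hσ]; ring
        rw [this]; exact hρc
    refine (add_le_add (add_le_add i1 i2) (add_le_add i3 i4)).trans (le_of_eq ?_)
    rw [add_zero, ← ENNReal.ofReal_add (by positivity) (by positivity), ← ENNReal.ofReal_add (by positivity) (by positivity)]
    congr 1
    ring
  · rcases lt_or_ge t κ₁ with h1 | h1
    · rw [(g1 t (h1.le.trans hκ₁)).1]
      exact (hk₁ s' hs' t ⟨ht.1, h1⟩).trans (ENNReal.ofReal_le_ofReal (by linarith))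
    rcases le_or_gt t σ with h2 | h2
    · rw [g2 t h1 h2, Nc_zero (by linarith)]; exact bot_le
    rcases lt_or_ge t (σ + κ₂) with h3 | h3
    · rw [(g3 t (hσ5.trans h2.le)).1]
      exact (hk₂ s' hs' (t - σ) ⟨by linarith, by linarith⟩).trans (ENNReal.ofReal_le_ofReal (by linarith))
    · rw [(g4 t h3).1]
      refine (Nc_le_Wn hs' _).trans ?_
      rw [eWRB]
      exact ENNReal.ofReal_le_ofReal (by linarith)

end Pool.Agent.U162.SF
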