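import Pool.Agent.U162.SF.Follow

/-!
Uniform bounds for the Wiener norms of smooth functions of time and space
-/

open MeasureTheory Set Filter Topology
open scoped ENNReal NNReal ContDiff

namespace Pool.Agent.U162.SF

open Pool.Agent.H356R3.NS Pool.Agent.U162.TS Pool.Agent.U162.GE Pool.Agent.U162.TS.EL Pool.Agent.U162.TS.VF Pool.Agent.U162.TS.Ph Pool.Agent.U162.PL Pool.Agent.U162.MU

variable {ν : ℝ}

/-- `1 - ∂_j²` -/
noncomputable def Qj (j : Fin 3) (f : R3 → ℝ) (x : R3) : ℝ := f x - H459R3.NS.pd j (H459R3.NS.pd j f) x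

lemma Qj_sp {f : R3 → ℝ} (hf : H459R3.NS.SP f) (j : Fin 3) : H459R3.NS.SP (Qj j f) := hf.sub ((hf.pd j).pd j)

lemma pd_sub' {f g : R3 → ℝ} (hf : H459R3.NS.SP f) (hg : H459R3.NS.SP g) (j : Fin 3) :
    (H459R3.NS.pd j fun x => f x - g x) = fun x => H459R3.NS.pd j f x - H459R3.NS.pd j g x := by
  funext x
  unfold H459R3.NS.pd
  rw [fderiv_fun_sub (hf.diff x) (hg.diff x)]
  rfl

lemma Qj_sub {f g : R3 → ℝ} (hf : H459R3.NS.SP f) (hg : H459R3.NS.SP g) (j : Fin 3) :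
    Qj j (fun x => f x - g x) = fun x => Qj j f x - Qj j g x := by
  funext x
  unfold Qj
  rw [pd_sub' hf hg, pd_sub' (hf.pd j) (hg.pd j)]
  ring

lemma fr_sub' {f g : R3 → ℝ} (hf : H459R3.NS.SP f) (hg : H459R3.NS.SP g) (k : K) :
    H459R3.NS.fr (fun x => f x - g x) k = H459R3.NS.fr f k - H459R3.NS.fr g k := by
  have h : H459R3.NS.fr (fun x => f x + (-1) * g x) k = H459R3.NS.fr f k + H459R3.NS.fr (fun x => (-1) * g x) k :=
    fr_add' hf (sp_const_mul hg (-1)) k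
  have h2 : H459R3.NS.fr (fun x => (-1) * g x) k = (-1) * H459R3.NS.fr g k := by
    have := fr_const_mul g (-1) k
    simpa using this
  have e : (fun x => f x + (-1) * g x) = fun x => f x - g x := by funext x; ring
  rw [e, h2] at h
  rw [h]; ring

lemma fr_Qj {f : R3 → ℝ} (hf : H459R3.NS.SP f) (j : Fin 3) (k : K) :
    H459R3.NS.fr (Qj j f) k = ((1 + 4 * Real.pi ^ 2 * (k j : ℝ) ^ 2 : ℝ) : ℂ) * H459R3.NS.fr f k := by
  have h : H459R3.NS.fr (Qj j f) k = H459R3.NS.fr f k - H459R3.NS.fr (H459R3.NS.pd j (H459R3.NS.pd j f)) k :=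
    fr_sub' hf ((hf.pd j).pd j) k
  have h2 := H459R3.NS.fr_iter hf j 2 k
  simp only [Function.iterate_succ, Function.iterate_zero, Function.comp, id] at h2
  rw [h, h2]
  push_cast
  ring_nf
  rw [Complex.I_sq]
  ring

/-- the product of the three operators -/
noncomputable def Q3 (f : R3 → ℝ) : R3 → ℝ := Qj 0 (Qj 1 (Qj 2 f))

lemma Q3_sub {f g : R3 → ℝ} (hf : H459R3.NS.SP f) (hg : H459R3.NS.SP g) :
    Q3 (fun x => f x - g x) = fun x => Q3 f x - Q3 g x := by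
  unfold Q3
  rw [Qj_sub hf hg, Qj_sub (Qj_sp hf 2) (Qj_sp hg 2), Qj_sub (Qj_sp (Qj_sp hf 2) 1) (Qj_sp (Qj_sp hg 2) 1)]

lemma Q3_sp {f : R3 → ℝ} (hf : H459R3.NS.SP f) : H459R3.NS.SP (Q3 f) := Qj_sp (Qj_sp (Qj_sp hf 2) 1) 0

lemma fr_le_sup {f : R3 → ℝ} {B : ℝ} (h : ∀ x ∈ H459R3.NS.cube, |f x| ≤ B) (k : K) : ‖H459R3.NS.fr f k‖ ≤ B := by
  have h1 : ‖H459R3.NS.fr f k‖ ≤ B * (volume.restrict H459R3.NS.cube).real univ := by
    unfold H459R3.NS.fr H459R3.NS.fc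
    have := H459R3.NS.cube_finite
    refine norm_integral_le_of_norm_le_const ?_
    refine (ae_restrict_iff' measurableSet_Icc).2 (Filter.Eventually.of_forall fun x hx => ?_)
    rw [norm_mul, H459R3.NS.norm_ee, one_mul, Complex.norm_real]
    exact h x hx
  have h2 : (volume.restrict H459R3.NS.cube).real univ = 1 := by
    simp [Measure.real, H459R3.NS.volume_cube]
  rwa [h2, mul_one] at h1

/-- the weights -/
noncomputable def wk (k : K) : ℝ := 1 / (1 + (k 0 : ℝ) ^ 2) * (1 / (1 + (k 1 : ℝ) ^ 2) * (1 / (1 + (k 2 : ℝ) ^ 2)))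

lemma wk_nonneg (k : K) : 0 ≤ wk k := by unfold wk; positivity

lemma one_le_wt (x : ℝ) : 1 + x ^ 2 ≤ 1 + 4 * Real.pi ^ 2 * x ^ 2 := by
  have h := Real.pi_gt_three
  have h2 : 1 ≤ 4 * Real.pi ^ 2 := by nlinarith
  nlinarith [mul_le_mul_of_nonneg_right h2 (sq_nonneg x)]

lemma fr_le_Q3 {f : R3 → ℝ} (hf : H459R3.NS.SP f) {B : ℝ} (h : ∀ x ∈ H459R3.NS.cube, |Q3 f x| ≤ B) (k : K) :
    ‖H459R3.NS.fr f k‖ ≤ B * wk k := by
  have h1 := fr_le_sup h k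
  unfold Q3 at h1
  rw [fr_Qj (Qj_sp (Qj_sp hf 2) 1), fr_Qj (Qj_sp hf 2), fr_Qj hf, norm_mul, norm_mul, norm_mul, Complex.norm_real, Complex.norm_real,
    Complex.norm_real, Real.norm_eq_abs, Real.norm_eq_abs, Real.norm_eq_abs] at h1
  have a : ∀ j : Fin 3, (1 : ℝ) + (k j : ℝ) ^ 2 ≤ |1 + 4 * Real.pi ^ 2 * (k j : ℝ) ^ 2| := fun j =>
    (one_le_wt _).trans (le_abs_self _)
  have p : ∀ j : Fin 3, (0 : ℝ) < 1 + (k j : ℝ) ^ 2 := fun j => by positivity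
  have h2 : (1 + (k 0 : ℝ) ^ 2) * ((1 + (k 1 : ℝ) ^ 2) * ((1 + (k 2 : ℝ) ^ 2) * ‖H459R3.NS.fr f k‖)) ≤ B := by
    refine le_trans ?_ h1
    have n0 := norm_nonneg (H459R3.NS.fr f k)
    have q0 := p 0
    have q1 := p 1
    have q2 := p 2
    exact mul_le_mul (a 0) (mul_le_mul (a 1) (mul_le_mul_of_nonneg_right (a 2) n0) (by positivity) (abs_nonneg _)) (by positivity) (abs_nonneg _)
  have e : B * wk k = B / ((1 + (k 0 : ℝ) ^ 2) * ((1 + (k 1 : ℝ) ^ 2) * (1 + (k 2 : ℝ) ^ 2))) := by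
    unfold wk
    have q0 := p 0
    have q1 := p 1
    have q2 := p 2
    field_simp
  rw [e, le_div_iff₀ (by have q0 := p 0; have q1 := p 1; have q2 := p 2; positivity)]
  linarith

lemma An1_le_Q3 : ∃ C : ℝ, 0 ≤ C ∧ ∀ (f : R3 → ℝ) (B : ℝ), H459R3.NS.SP f → (∀ x ∈ H459R3.NS.cube, |Q3 f x| ≤ B) →
    An1 f ≤ ENNReal.ofReal (C * B) := by
  refine ⟨∑' k, wk k, tsum_nonneg wk_nonneg, fun f B hf h => ?_⟩
  have hw : Summable wk := H459R3.NS.summable_K3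
  have hB : 0 ≤ B := (abs_nonneg _).trans (h 0 ⟨le_rfl, zero_le_one⟩)
  unfold An1
  have h1 : ∀ k, ‖H459R3.NS.fr f k‖ₑ ≤ ENNReal.ofReal (B * wk k) := fun k => by
    rw [← ofReal_norm]
    exact ENNReal.ofReal_le_ofReal (fr_le_Q3 hf h k)
  refine (ENNReal.tsum_le_tsum h1).trans ?_
  rw [← ENNReal.ofReal_tsum_of_nonneg (fun k => mul_nonneg hB (wk_nonneg k)) (hw.mul_left B), tsum_mul_left, mul_comm]

lemma Wn_le_An1 (f : R3 → R3) : Wn f ≤ ∑ i, An1 (fun x => f x i) := by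
  unfold Wn An1
  have h1 : ∀ k, ‖H356R3.NS.fc f k‖ₑ ≤ ∑ i, ‖H459R3.NS.fr (fun x => f x i) k‖ₑ := fun k => by
    rw [← ofReal_norm]
    refine (ENNReal.ofReal_le_ofReal (fc_norm_le f k)).trans ?_
    rw [ENNReal.ofReal_sum_of_nonneg fun i _ => norm_nonneg _]
    exact Finset.sum_le_sum fun i _ => by rw [ofReal_norm]
  refine (ENNReal.tsum_le_tsum h1).trans (le_of_eq ?_)
  exact Summable.tsum_finsetSum fun i _ => ENNReal.summable

/-! ### smooth functions of time and space -/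

variable {T b : ℝ}

/-- smooth periodic functions over `[0, T)` -/
structure Sm (T : ℝ) (h : ℝ → R3 → ℝ) : Prop where
  smooth : ContDiffOn ℝ ∞ (fun z : ℝ × R3 => h z.1 z.2) (Ico 0 T ×ˢ univ)
  sp : ∀ t ∈ Ico 0 T, H459R3.NS.SP (h t)

lemma Sm.pd {h : ℝ → R3 → ℝ} (hh : Sm T h) (j : Fin 3) : Sm T fun t => H459R3.NS.pd j (h t) :=
  ⟨H459R3.NS.contDiffOn_pd hh.smooth j, fun t ht => (hh.sp t ht).pd j⟩

lemma Sm.sub {h h' : ℝ → R3 → ℝ} (hh : Sm T h) (hh' : Sm T h') : Sm T fun t x => h t x - h' t x :=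
  ⟨hh.smooth.sub hh'.smooth, fun t ht => (hh.sp t ht).sub (hh'.sp t ht)⟩

lemma Sm.mul {h h' : ℝ → R3 → ℝ} (hh : Sm T h) (hh' : Sm T h') : Sm T fun t x => h t x * h' t x :=
  ⟨hh.smooth.mul hh'.smooth, fun t ht => (hh.sp t ht).mul (hh'.sp t ht)⟩

lemma Sm.cmul {h : ℝ → R3 → ℝ} (hh : Sm T h) (c : ℝ) : Sm T fun t x => c * h t x :=
  ⟨contDiffOn_const.mul hh.smooth, fun t ht => sp_const_mul (hh.sp t ht) c⟩

lemma Sm.sum {h : Fin 3 → ℝ → R3 → ℝ} (hh : ∀ j, Sm T (h j)) : Sm T fun t x => ∑ j, h j t x :=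
  ⟨ContDiffOn.sum fun j _ => (hh j).smooth, fun t ht => H459R3.NS.SP.sum (f := fun j x => h j t x) fun j _ => (hh j).sp t ht⟩

lemma Sm.q {h : ℝ → R3 → ℝ} (hh : Sm T h) (j : Fin 3) : Sm T fun t => Qj j (h t) := hh.sub ((hh.pd j).pd j)

lemma Sm.q3 {h : ℝ → R3 → ℝ} (hh : Sm T h) : Sm T fun t => Q3 (h t) := ((hh.q 2).q 1).q 0

lemma Kc : IsCompact (Icc (0 : ℝ) b ×ˢ H459R3.NS.cube) := isCompact_Icc.prod isCompact_Icc

lemma Ksub (hb : b < T) : Icc (0 : ℝ) b ×ˢ H459R3.NS.cube ⊆ Ico 0 T ×ˢ (univ : Set R3) :=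
  prod_mono (fun _ hs => ⟨hs.1, hs.2.trans_lt hb⟩) (subset_univ _)

lemma Sm.bd {h : ℝ → R3 → ℝ} (hh : Sm T h) (hb : b < T) : ∃ M : ℝ, 0 ≤ M ∧ ∀ t ∈ Icc 0 b, An1 (h t) ≤ ENNReal.ofReal M := by
  obtain ⟨C, hC0, hC⟩ := An1_le_Q3
  obtain ⟨B, hB⟩ := Kc.exists_bound_of_continuousOn (hh.q3.smooth.continuousOn.mono (Ksub hb))
  refine ⟨C * max B 0, by positivity, fun t ht => hC _ _ (hh.sp t ⟨ht.1, ht.2.trans_lt hb⟩) fun x hx => ?_⟩
  exact (hB (t, x) ⟨ht, hx⟩).trans (le_max_left _ _)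

lemma Sm.ct {h : ℝ → R3 → ℝ} (hh : Sm T h) (hb : b < T) {w : ℝ} (hw : 0 < w) : ∃ r : ℝ, 0 < r ∧ ∀ t ∈ Icc 0 b, ∀ t' ∈ Icc 0 b,
    |t - t'| ≤ r → An1 (fun x => h t x - h t' x) ≤ ENNReal.ofReal w := by
  obtain ⟨C, hC0, hC⟩ := An1_le_Q3
  have hu := Kc.uniformContinuousOn_of_continuous (hh.q3.smooth.continuousOn.mono (Ksub hb))
  rw [Metric.uniformContinuousOn_iff] at hu
  obtain ⟨r, hr, h1⟩ := hu (w / (C + 1)) (by positivity)
  refine ⟨r / 2, by positivity, fun t ht t' ht' htt => ?_⟩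
  have s1 := hh.sp t ⟨ht.1, ht.2.trans_lt hb⟩
  have s2 := hh.sp t' ⟨ht'.1, ht'.2.trans_lt hb⟩
  refine (hC _ (w / (C + 1)) (s1.sub s2) fun x hx => ?_).trans (ENNReal.ofReal_le_ofReal ?_)
  · rw [Q3_sub s1 s2]
    have h2 := h1 (t, x) ⟨ht, hx⟩ (t', x) ⟨ht', hx⟩ (by
      rw [Prod.dist_eq, dist_self, Real.dist_eq]
      exact max_lt (by linarith) hr)
    rw [Real.dist_eq] at h2
    exact h2.le
  · rw [mul_div_assoc', div_le_iff₀ (by positivity)]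
    nlinarith

lemma Wn_bd {g : ℝ → R3 → R3} (hg : ∀ i, Sm T fun t x => g t x i) (hb : b < T) :
    ∃ M : ℝ, 0 ≤ M ∧ ∀ t ∈ Icc 0 b, Wn (g t) ≤ ENNReal.ofReal M := by
  choose M hM0 hM using fun i => (hg i).bd hb
  refine ⟨∑ i, M i, Finset.sum_nonneg fun i _ => hM0 i, fun t ht => (Wn_le_An1 _).trans ?_⟩
  rw [ENNReal.ofReal_sum_of_nonneg fun i _ => hM0 i]
  exact Finset.sum_le_sum fun i _ => hM i t ht

lemma Wn_ct {g : ℝ → R3 → R3} (hg : ∀ i, Sm T fun t x => g t x i) (hb : b < T) {w : ℝ} (hw : 0 < w) :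
    ∃ r : ℝ, 0 < r ∧ ∀ t ∈ Icc 0 b, ∀ t' ∈ Icc 0 b, |t - t'| ≤ r → Wn (fun x => g t x - g t' x) ≤ ENNReal.ofReal w := by
  choose r hr0 hr using fun i => (hg i).ct hb (show 0 < w / 3 by positivity)
  refine ⟨min (r 0) (min (r 1) (r 2)), lt_min (hr0 0) (lt_min (hr0 1) (hr0 2)), fun t ht t' ht' htt => (Wn_le_An1 _).trans ?_⟩
  rw [Fin.sum_univ_three]
  have e : ENNReal.ofReal w = ENNReal.ofReal (w / 3) + ENNReal.ofReal (w / 3) + ENNReal.ofReal (w / 3) := by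
    rw [← ENNReal.ofReal_add (by positivity) (by positivity), ← ENNReal.ofReal_add (by positivity) (by positivity)]
    congr 1; ring
  rw [e]
  exact add_le_add (add_le_add (hr 0 t ht t' ht' (htt.trans (min_le_left _ _)))
    (hr 1 t ht t' ht' (htt.trans ((min_le_right _ _).trans (min_le_left _ _)))))
    (hr 2 t ht t' ht' (htt.trans ((min_le_right _ _).trans (min_le_right _ _))))

/-- smooth forces have the required properties -/
theorem gd_of_smooth (ν : ℝ) {g : ℝ → R3 → R3} (hg : ContDiffOn ℝ ∞ (fun z : ℝ × R3 => g z.1 z.2) (Ico 0 T ×ˢ univ))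
    (hf : ∀ t ∈ Ico 0 T, Field (g t)) (hb : b < T) : (∃ M, Gd ν g 0 b M) ∧ ∀ w : ℝ, 0 < w → ∃ r : ℝ, 0 < r ∧ ∀ t ∈ Icc 0 b, ∀ t' ∈ Icc 0 b,
      |t - t'| ≤ r → Wn (fun x => g t x - g t' x) ≤ ENNReal.ofReal w := by
  have hs : ∀ i, Sm T fun t x => g t x i := fun i => ⟨contDiffOn_pi.1 hg i, fun t ht => (hf t ht).sp i⟩
  refine ⟨?_, fun w hw => Wn_ct hs hb hw⟩
  obtain ⟨M₀, h00, h0⟩ := Wn_bd hs hb
  have ha : ∀ i, Sm T fun t x => adv (g t) x i := fun i =>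
    Sm.sum (h := fun j t x => g t x j * H459R3.NS.pd j (fun y => g t y i) x) fun j => (hs j).mul ((hs i).pd j)
  obtain ⟨M₁, h10, h1⟩ := Wn_bd (g := fun t => adv (g t)) ha hb
  have hl : ∀ i, Sm T fun t x => Ls ν (g t) x i := fun i =>
    (Sm.sum (h := fun j t x => H459R3.NS.pd j (H459R3.NS.pd j (fun y => g t y i)) x) fun j => ((hs i).pd j).pd j).cmul (-ν)
  obtain ⟨M₂, h20, h2⟩ := Wn_bd (g := fun t => Ls ν (g t)) hl hb
  exact ⟨M₀ + M₁ + M₂, fun t ht => hf t ⟨ht.1, ht.2.trans_lt hb⟩,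
    fun t ht => (h0 t ht).trans (ENNReal.ofReal_le_ofReal (by linarith)), fun t ht => (h1 t ht).trans (ENNReal.ofReal_le_ofReal (by linarith)),
    fun t ht => (h2 t ht).trans (ENNReal.ofReal_le_ofReal (by linarith)), by positivity⟩

end Pool.Agent.U162.SF
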