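import Pool.Agent.U162.SF.Leray

/-!
Weighted Wiener norms
-/

open MeasureTheory Set Filter Topology
open scoped ENNReal NNReal ContDiff

namespace Pool.Agent.U162.SF

open Pool.Agent.H356R3.NS Pool.Agent.U162.TS Pool.Agent.U162.GE Pool.Agent.U162.TS.EL Pool.Agent.U162.TS.VF Pool.Agent.U162.TS.Ph Pool.Agent.U162.PL Pool.Agent.U162.MU

variable {ν : ℝ} {m : ℕ}

/-- weighted Wiener norms -/
noncomputable def Wm (m : ℕ) (f : R3 → R3) : ℝ≥0∞ := ∑' k, ENNReal.ofReal ((1 + nk k) ^ m) * ‖H356R3.NS.fc f k‖ₑ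

lemma Wm_mono {m m' : ℕ} (h : m ≤ m') (f : R3 → R3) : Wm m f ≤ Wm m' f :=
  ENNReal.tsum_le_tsum fun k => mul_le_mul' (ENNReal.ofReal_le_ofReal
    (pow_le_pow_right₀ (by have := nk_nonneg k; linarith) h)) le_rfl

lemma Wm_zero' (f : R3 → R3) : Wm 0 f = Wn f := by
  unfold Wm Wn
  simp

lemma Wn_le_Wm (m : ℕ) (f : R3 → R3) : Wn f ≤ Wm m f := by
  rw [← Wm_zero']; exact Wm_mono (Nat.zero_le m) f

lemma Wm_add {f g : R3 → R3} (hf : SPF f) (hg : SPF g) : Wm m (fun x => f x + g x) ≤ Wm m f + Wm m g := by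
  unfold Wm
  rw [← ENNReal.tsum_add]
  refine ENNReal.tsum_le_tsum fun k => ?_
  rw [fc_add hf hg, ← mul_add]
  exact mul_le_mul' le_rfl (enorm_add_le _ _)

lemma Wm_smul (f : R3 → R3) (r : ℝ) : Wm m (fun x => r • f x) = ENNReal.ofReal |r| * Wm m f := by
  unfold Wm
  rw [← ENNReal.tsum_mul_left]
  refine tsum_congr fun k => ?_
  rw [fc_smul, enorm_smul, Real.enorm_eq_ofReal_abs]
  ring

lemma Wm_ler {H : R3 → R3} (hH : SPF H) : Wm m (ler H) ≤ ENNReal.ofReal 4 * Wm m H := by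
  unfold Wm
  rw [← ENNReal.tsum_mul_left]
  refine ENNReal.tsum_le_tsum fun k => ?_
  have h := ler_norm hH k
  have h1 : ‖H356R3.NS.fc (ler H) k‖ₑ ≤ ENNReal.ofReal 4 * ‖H356R3.NS.fc H k‖ₑ := by
    rw [← ofReal_norm, ← ofReal_norm, ← ENNReal.ofReal_mul (by norm_num)]
    exact ENNReal.ofReal_le_ofReal h
  calc _ ≤ ENNReal.ofReal ((1 + nk k) ^ m) * (ENNReal.ofReal 4 * ‖H356R3.NS.fc H k‖ₑ) := mul_le_mul' le_rfl h1
    _ = _ := by ring

/-! ### advection -/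

/-- `a · ∇b` -/
noncomputable def advb (a b : R3 → R3) (x : R3) (i : Fin 3) : ℝ := ∑ j, a x j * pd j (fun y => b y i) x

lemma advb_spf {a b : R3 → R3} (ha : SPF a) (hb : SPF b) : SPF (advb a b) := fun i =>
  H459R3.NS.SP.sum (f := fun j x => a x j * H459R3.NS.pd j (fun y => b y i) x) fun j _ => (ha j).mul ((hb i).pd j)

lemma An1_sum {f : Fin 3 → R3 → ℝ} (hf : ∀ j, H459R3.NS.SP (f j)) : An1 (fun x => ∑ j, f j x) ≤ ∑ j, An1 (f j) := by
  have e : (fun x => ∑ j, f j x) = fun x => (f 0 x + f 1 x) + f 2 x := by funext x; rw [Fin.sum_univ_three]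
  rw [e, Fin.sum_univ_three]
  exact (An1_add ((hf 0).add (hf 1)) (hf 2)).trans (add_le_add (An1_add (hf 0) (hf 1)) le_rfl)

lemma fr_le_fc (b : R3 → R3) (i : Fin 3) (k : K) : ‖H459R3.NS.fr (fun y => b y i) k‖ ≤ ‖H356R3.NS.fc b k‖ := by
  rw [fr_eq_fc]; exact norm_le_pi_norm _ i

lemma norm_D (a : K → ℂ) (j : Fin 3) (k : K) : ‖H459R3.NS.D j a k‖ = 2 * Real.pi * |((k j : ℤ) : ℝ)| * ‖a k‖ := by
  unfold H459R3.NS.D
  rw [norm_mul, norm_mul, norm_two_pi_I, Complex.norm_intCast]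

lemma An1_pd {b : R3 → R3} (hb : SPF b) (i j : Fin 3) :
    An1 (H459R3.NS.pd j fun y => b y i) ≤ ENNReal.ofReal (2 * Real.pi) * Wm 1 b := by
  unfold An1 Wm
  rw [← ENNReal.tsum_mul_left]
  refine ENNReal.tsum_le_tsum fun k => ?_
  rw [H459R3.NS.fr_pd (hb i), ← ofReal_norm, ← ofReal_norm, ← ENNReal.ofReal_mul (by have := nk_nonneg k; positivity),
    ← ENNReal.ofReal_mul (by positivity)]
  refine ENNReal.ofReal_le_ofReal ?_
  rw [norm_D, pow_one]
  have h1 : |((k j : ℤ) : ℝ)| ≤ 1 + nk k := (abs_le_nk k j).trans (by linarith)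
  have h2 := fr_le_fc b i k
  have h3 := nk_nonneg k
  calc 2 * Real.pi * |((k j : ℤ) : ℝ)| * ‖H459R3.NS.fr (fun y => b y i) k‖ ≤ 2 * Real.pi * (1 + nk k) * ‖H356R3.NS.fc b k‖ := by gcongr
    _ = _ := by ring

lemma An1_pd2 {b : R3 → R3} (hb : SPF b) (i j : Fin 3) :
    An1 (H459R3.NS.pd j (H459R3.NS.pd j fun y => b y i)) ≤ ENNReal.ofReal ((2 * Real.pi) ^ 2) * Wm 2 b := by
  unfold An1 Wm
  rw [← ENNReal.tsum_mul_left]
  refine ENNReal.tsum_le_tsum fun k => ?_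
  rw [H459R3.NS.fr_pd ((hb i).pd j), H459R3.NS.fr_pd (hb i), ← ofReal_norm, ← ofReal_norm, ← ENNReal.ofReal_mul (by have := nk_nonneg k; positivity),
    ← ENNReal.ofReal_mul (by positivity)]
  refine ENNReal.ofReal_le_ofReal ?_
  rw [norm_D, norm_D]
  have h1 : |((k j : ℤ) : ℝ)| ≤ 1 + nk k := (abs_le_nk k j).trans (by linarith)
  have h2 := fr_le_fc b i k
  have h3 := nk_nonneg k
  calc 2 * Real.pi * |((k j : ℤ) : ℝ)| * (2 * Real.pi * |((k j : ℤ) : ℝ)| * ‖H459R3.NS.fr (fun y => b y i) k‖)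
      ≤ 2 * Real.pi * (1 + nk k) * (2 * Real.pi * (1 + nk k) * ‖H356R3.NS.fc b k‖) := by gcongr
    _ = _ := by ring

lemma Wn_advb {a b : R3 → R3} (ha : SPF a) (hb : SPF b) : Wn (advb a b) ≤ ENNReal.ofReal 60 * (Wn a * Wm 1 b) := by
  refine (Wn_le_An1 _).trans ?_
  have h1 : ∀ i, An1 (fun x => advb a b x i) ≤ 3 * (Wn a * (ENNReal.ofReal (2 * Real.pi) * Wm 1 b)) := by
    intro i
    refine (An1_sum (f := fun j x => a x j * H459R3.NS.pd j (fun y => b y i) x) fun j => (ha j).mul ((hb i).pd j)).trans ?_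
    calc ∑ j, An1 (fun x => a x j * H459R3.NS.pd j (fun y => b y i) x) ≤ ∑ _j : Fin 3, Wn a * (ENNReal.ofReal (2 * Real.pi) * Wm 1 b) :=
          Finset.sum_le_sum fun j _ => (An1_mul (ha j) ((hb i).pd j)).trans (mul_le_mul' (An1_le_Wn a j) (An1_pd hb i j))
      _ = _ := by simp
  calc ∑ i, An1 (fun x => advb a b x i) ≤ ∑ _i : Fin 3, 3 * (Wn a * (ENNReal.ofReal (2 * Real.pi) * Wm 1 b)) :=
        Finset.sum_le_sum fun i _ => h1 i
    _ = (ENNReal.ofReal 9 * ENNReal.ofReal (2 * Real.pi)) * (Wn a * Wm 1 b) := by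
        rw [Finset.sum_const, Finset.card_univ, Fintype.card_fin, nsmul_eq_mul, show ENNReal.ofReal 9 = 9 by norm_num]
        push_cast
        ring
    _ ≤ _ := by
        refine mul_le_mul' ?_ le_rfl
        rw [← ENNReal.ofReal_mul (by norm_num)]
        apply ENNReal.ofReal_le_ofReal
        have := Real.pi_lt_d2
        linarith

lemma Wn_Ls {A : R3 → R3} (hA : SPF A) : Wn (Ls ν A) ≤ ENNReal.ofReal (400 * |ν|) * Wm 2 A := by
  refine (Wn_le_An1 _).trans ?_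
  have h1 : ∀ i, An1 (fun x => Ls ν A x i) ≤ ENNReal.ofReal |ν| * (3 * (ENNReal.ofReal ((2 * Real.pi) ^ 2) * Wm 2 A)) := by
    intro i
    have e := An1_const_mul (fun x => ∑ j, H459R3.NS.pd j (H459R3.NS.pd j fun y => A y i) x) (-ν)
    rw [abs_neg] at e
    refine (le_of_eq e).trans (mul_le_mul' le_rfl ?_)
    refine (An1_sum (f := fun j x => H459R3.NS.pd j (H459R3.NS.pd j fun y => A y i) x) fun j => ((hA i).pd j).pd j).trans ?_
    calc ∑ j, An1 (H459R3.NS.pd j (H459R3.NS.pd j fun y => A y i)) ≤ ∑ _j : Fin 3, ENNReal.ofReal ((2 * Real.pi) ^ 2) * Wm 2 A :=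
          Finset.sum_le_sum fun j _ => An1_pd2 hA i j
      _ = _ := by simp
  calc ∑ i, An1 (fun x => Ls ν A x i) ≤ ∑ _i : Fin 3, ENNReal.ofReal |ν| * (3 * (ENNReal.ofReal ((2 * Real.pi) ^ 2) * Wm 2 A)) :=
        Finset.sum_le_sum fun i _ => h1 i
    _ = (ENNReal.ofReal 9 * ENNReal.ofReal |ν| * ENNReal.ofReal ((2 * Real.pi) ^ 2)) * Wm 2 A := by
        rw [Finset.sum_const, Finset.card_univ, Fintype.card_fin, nsmul_eq_mul, show ENNReal.ofReal 9 = 9 by norm_num]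
        push_cast
        ring
    _ ≤ _ := by
        refine mul_le_mul' ?_ le_rfl
        rw [← ENNReal.ofReal_mul (by norm_num), ← ENNReal.ofReal_mul (by positivity)]
        apply ENNReal.ofReal_le_ofReal
        have h2 := Real.pi_lt_d2
        have h3 := Real.pi_pos
        have h4 := abs_nonneg ν
        have h5 : 9 * (2 * Real.pi) ^ 2 ≤ 400 := by nlinarith
        calc 9 * |ν| * (2 * Real.pi) ^ 2 = (9 * (2 * Real.pi) ^ 2) * |ν| := by ring
          _ ≤ 400 * |ν| := mul_le_mul_of_nonneg_right h5 h4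

/-! ### perturbations of the stationary force -/

lemma pd_lin {f g : R3 → ℝ} (hf : H459R3.NS.SP f) (hg : H459R3.NS.SP g) (r : ℝ) (j : Fin 3) :
    (pd j fun y => f y + r * g y) = fun x => pd j f x + r * pd j g x := by
  funext x
  unfold H356R3.NS.pd
  have h1 : DifferentiableAt ℝ f x := (hf.smooth.differentiable (by simp)) x
  have h2 : DifferentiableAt ℝ g x := (hg.smooth.differentiable (by simp)) x
  rw [fderiv_fun_add h1 (h2.const_mul r), fderiv_const_mul h2]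
  simp

/-- the linear part of the perturbation -/
noncomputable def E1 (ν : ℝ) (A B : R3 → R3) (x : R3) : R3 := advb A B x + (advb B A x + Ls ν B x)

lemma E1_spf {A B : R3 → R3} (hA : SPF A) (hB : SPF B) : SPF (E1 ν A B) := (advb_spf hA hB).add ((advb_spf hB hA).add (Ls_spf hB))

lemma Rs_pert {A B : R3 → R3} (hA : SPF A) (hB : SPF B) (r : ℝ) :
    Rs ν (fun x => A x + r • B x) = fun x => Rs ν A x + (r • E1 ν A B x + r ^ 2 • adv B x) := by
  funext x i
  show ∑ j, (A x j + r * B x j) * pd j (fun y => A y i + r * B y i) x + (-ν) * ∑ j, pd j (pd j fun y => A y i + r * B y i) x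
    = (∑ j, A x j * pd j (fun y => A y i) x + (-ν) * ∑ j, pd j (pd j fun y => A y i) x)
      + (r * (∑ j, A x j * pd j (fun y => B y i) x + (∑ j, B x j * pd j (fun y => A y i) x + (-ν) * ∑ j, pd j (pd j fun y => B y i) x))
        + r ^ 2 * ∑ j, B x j * pd j (fun y => B y i) x)
  have h1 : ∀ j, (pd j fun y => A y i + r * B y i) = fun x => pd j (fun y => A y i) x + r * pd j (fun y => B y i) x := fun j =>
    pd_lin (hA i) (hB i) r j
  have h2 : ∀ j, pd j (pd j fun y => A y i + r * B y i) x = pd j (pd j fun y => A y i) x + r * pd j (pd j fun y => B y i) x := fun j => by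
    rw [h1]
    exact congrFun (pd_lin ((hA i).pd j) ((hB i).pd j) r j) x
  have e1 : ∑ j, (A x j + r * B x j) * pd j (fun y => A y i + r * B y i) x
      = ∑ j, (A x j + r * B x j) * (pd j (fun y => A y i) x + r * pd j (fun y => B y i) x) :=
    Finset.sum_congr rfl fun j _ => by rw [congrFun (h1 j) x]
  have e2 : ∑ j, pd j (pd j fun y => A y i + r * B y i) x = ∑ j, (pd j (pd j fun y => A y i) x + r * pd j (pd j fun y => B y i) x) :=
    Finset.sum_congr rfl fun j _ => h2 j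
  rw [e1, e2]
  simp only [Fin.sum_univ_three]
  ring

lemma Rs_pert_bd {A B : R3 → R3} (hA : SPF A) (hB : SPF B) {M : ℝ} (hM : 0 ≤ M) (h1 : Wm 2 A ≤ ENNReal.ofReal M)
    (h2 : Wm 2 B ≤ ENNReal.ofReal M) {r : ℝ} (hr : |r| ≤ 1) :
    Wn (fun x => r • E1 ν A B x + r ^ 2 • adv B x) ≤ ENNReal.ofReal (|r| * (180 * M ^ 2 + 400 * |ν| * M)) := by
  have a0 : Wn A ≤ ENNReal.ofReal M := (Wn_le_Wm 2 A).trans h1
  have b0 : Wn B ≤ ENNReal.ofReal M := (Wn_le_Wm 2 B).trans h2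
  have a1 : Wm 1 A ≤ ENNReal.ofReal M := (Wm_mono (by norm_num) A).trans h1
  have b1 : Wm 1 B ≤ ENNReal.ofReal M := (Wm_mono (by norm_num) B).trans h2
  have key : ∀ {a b : R3 → R3}, SPF a → SPF b → Wn a ≤ ENNReal.ofReal M → Wm 1 b ≤ ENNReal.ofReal M →
      Wn (advb a b) ≤ ENNReal.ofReal (60 * M ^ 2) := fun {a b} ha hb h3 h4 => by
    refine (Wn_advb ha hb).trans ?_
    rw [ENNReal.ofReal_mul (by norm_num), pow_two, ENNReal.ofReal_mul hM]
    exact mul_le_mul' le_rfl (mul_le_mul' h3 h4)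
  have k1 := key hA hB a0 b1
  have k2 := key hB hA b0 a1
  have k3 : Wn (adv B) ≤ ENNReal.ofReal (60 * M ^ 2) := key hB hB b0 b1
  have k4 : Wn (Ls ν B) ≤ ENNReal.ofReal (400 * |ν| * M) := by
    refine (Wn_Ls hB).trans ?_
    rw [ENNReal.ofReal_mul (p := 400 * |ν|) (by positivity)]
    exact mul_le_mul' le_rfl h2
  have k5 : Wn (E1 ν A B) ≤ ENNReal.ofReal (60 * M ^ 2 + (60 * M ^ 2 + 400 * |ν| * M)) := by
    rw [ENNReal.ofReal_add (by positivity) (by positivity), ENNReal.ofReal_add (by positivity) (by positivity)]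
    exact (Wn_add (advb_spf hA hB) ((advb_spf hB hA).add (Ls_spf hB))).trans
      (add_le_add k1 ((Wn_add (advb_spf hB hA) (Ls_spf hB)).trans (add_le_add k2 k4)))
  have hr2 : r ^ 2 ≤ |r| := by
    have := abs_nonneg r
    rw [← sq_abs]; nlinarith
  refine (Wn_add ((E1_spf hA hB).smul r) ((adv_spf hB).smul (r ^ 2))).trans ?_
  rw [Wn_smul, Wn_smul, abs_of_nonneg (sq_nonneg r)]
  calc ENNReal.ofReal |r| * Wn (E1 ν A B) + ENNReal.ofReal (r ^ 2) * Wn (adv B)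
      ≤ ENNReal.ofReal |r| * ENNReal.ofReal (60 * M ^ 2 + (60 * M ^ 2 + 400 * |ν| * M)) + ENNReal.ofReal |r| * ENNReal.ofReal (60 * M ^ 2) :=
        add_le_add (mul_le_mul' le_rfl k5) (mul_le_mul' (ENNReal.ofReal_le_ofReal hr2) k3)
    _ = _ := by
        rw [← ENNReal.ofReal_mul (abs_nonneg r), ← ENNReal.ofReal_mul (abs_nonneg r), ← ENNReal.ofReal_add (by positivity) (by positivity)]
        congr 1
        ring

/-! ### uniform bounds -/

/-- `1 - Δ` -/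
noncomputable def Lo (f : R3 → ℝ) (x : R3) : ℝ := f x - ∑ j, H459R3.NS.pd j (H459R3.NS.pd j f) x

lemma Lo_sp {f : R3 → ℝ} (hf : H459R3.NS.SP f) : H459R3.NS.SP (Lo f) :=
  hf.sub (H459R3.NS.SP.sum (f := fun j x => H459R3.NS.pd j (H459R3.NS.pd j f) x) fun j _ => (hf.pd j).pd j)

lemma Lo_sub {f g : R3 → ℝ} (hf : H459R3.NS.SP f) (hg : H459R3.NS.SP g) :
    Lo (fun x => f x - g x) = fun x => Lo f x - Lo g x := by
  funext x
  unfold Lo
  have h : ∀ j, H459R3.NS.pd j (H459R3.NS.pd j fun x => f x - g x) x = H459R3.NS.pd j (H459R3.NS.pd j f) x - H459R3.NS.pd j (H459R3.NS.pd j g) x := by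
    intro j
    rw [pd_sub' hf hg, pd_sub' (hf.pd j) (hg.pd j)]
  simp only [h, Finset.sum_sub_distrib]
  ring

lemma fr_Lo {f : R3 → ℝ} (hf : H459R3.NS.SP f) (k : K) :
    H459R3.NS.fr (Lo f) k = ((1 + 4 * Real.pi ^ 2 * nk k ^ 2 : ℝ) : ℂ) * H459R3.NS.fr f k := by
  have h : H459R3.NS.fr (Lo f) k = H459R3.NS.fr f k - H459R3.NS.fr (fun x => ∑ j, H459R3.NS.pd j (H459R3.NS.pd j f) x) k :=
    fr_sub' hf (H459R3.NS.SP.sum (f := fun j x => H459R3.NS.pd j (H459R3.NS.pd j f) x) fun j _ => (hf.pd j).pd j) k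
  have h1 := H459R3.NS.fr_sum (s := Finset.univ) (f := fun j x => H459R3.NS.pd j (H459R3.NS.pd j f) x) (fun j _ => (hf.pd j).pd j) k
  have h2 : ∀ j, H459R3.NS.fr (fun x => H459R3.NS.pd j (H459R3.NS.pd j f) x) k = (2 * Real.pi * Complex.I * (k j : ℂ)) ^ 2 * H459R3.NS.fr f k :=
    fun j => H459R3.NS.fr_iter hf j 2 k
  rw [h, h1]
  simp only [h2]
  rw [H356R3.NS.nk_sq]
  unfold H356R3.NS.sq
  rw [Fin.sum_univ_three, Fin.sum_univ_three]
  push_cast
  ring_nf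
  rw [Complex.I_sq]
  ring

lemma Loi_sp {f : R3 → ℝ} (hf : H459R3.NS.SP f) (m : ℕ) : H459R3.NS.SP (Lo^[m] f) := by
  induction m with
  | zero => exact hf
  | succ m ih => rw [Function.iterate_succ_apply']; exact Lo_sp ih

lemma Loi_sub {f g : R3 → ℝ} (hf : H459R3.NS.SP f) (hg : H459R3.NS.SP g) (m : ℕ) :
    Lo^[m] (fun x => f x - g x) = fun x => (Lo^[m] f) x - (Lo^[m] g) x := by
  induction m with
  | zero => rfl
  | succ m ih => rw [Function.iterate_succ_apply', Function.iterate_succ_apply', Function.iterate_succ_apply', ih,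
      Lo_sub (Loi_sp hf m) (Loi_sp hg m)]

lemma fr_Loi {f : R3 → ℝ} (hf : H459R3.NS.SP f) (m : ℕ) (k : K) :
    H459R3.NS.fr (Lo^[m] f) k = (((1 + 4 * Real.pi ^ 2 * nk k ^ 2) ^ m : ℝ) : ℂ) * H459R3.NS.fr f k := by
  induction m with
  | zero => simp
  | succ m ih =>
    rw [Function.iterate_succ_apply', fr_Lo (Loi_sp hf m), ih]
    push_cast
    ring

lemma Wm_le_Lo {f : R3 → R3} (hf : SPF f) (m : ℕ) : Wm m f ≤ ∑ i, ENNReal.ofReal (2 ^ m) * An1 (Lo^[m] fun x => f x i) := by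
  unfold Wm An1
  have h1 : ∀ k, ENNReal.ofReal ((1 + nk k) ^ m) * ‖H356R3.NS.fc f k‖ₑ
      ≤ ∑ i, ENNReal.ofReal (2 ^ m) * ‖H459R3.NS.fr (Lo^[m] fun x => f x i) k‖ₑ := by
    intro k
    have hk := nk_nonneg k
    have hw : (1 + nk k) ^ m ≤ 2 ^ m * (1 + 4 * Real.pi ^ 2 * nk k ^ 2) ^ m := by
      rw [← mul_pow]
      refine pow_le_pow_left₀ (by positivity) ?_ m
      have := one_le_wt (nk k)
      nlinarith [sq_nonneg (nk k - 1)]
    rw [← ofReal_norm, ← ENNReal.ofReal_mul (by positivity)]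
    calc ENNReal.ofReal ((1 + nk k) ^ m * ‖H356R3.NS.fc f k‖)
        ≤ ENNReal.ofReal (∑ i, 2 ^ m * ‖H459R3.NS.fr (Lo^[m] fun x => f x i) k‖) := by
          refine ENNReal.ofReal_le_ofReal ?_
          calc (1 + nk k) ^ m * ‖H356R3.NS.fc f k‖ ≤ (2 ^ m * (1 + 4 * Real.pi ^ 2 * nk k ^ 2) ^ m) * ∑ i, ‖H459R3.NS.fr (fun x => f x i) k‖ :=
                mul_le_mul hw (fc_norm_le f k) (norm_nonneg _) (by positivity)
            _ = _ := by
                rw [Finset.mul_sum]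
                refine Finset.sum_congr rfl fun i _ => ?_
                rw [fr_Loi (hf i), norm_mul, Complex.norm_real, Real.norm_of_nonneg (by positivity)]
                ring
      _ = _ := by
          rw [ENNReal.ofReal_sum_of_nonneg fun i _ => by positivity]
          refine Finset.sum_congr rfl fun i _ => ?_
          rw [ENNReal.ofReal_mul (by positivity), ofReal_norm]
  refine (ENNReal.tsum_le_tsum h1).trans (le_of_eq ?_)
  rw [Summable.tsum_finsetSum fun i _ => ENNReal.summable]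
  refine Finset.sum_congr rfl fun i _ => ?_
  rw [ENNReal.tsum_mul_left]

lemma Wm_fin {f : R3 → R3} (hf : SPF f) (m : ℕ) : Wm m f ≠ ⊤ := by
  refine ne_top_of_le_ne_top ?_ (Wm_le_Lo hf m)
  refine ENNReal.sum_ne_top.2 fun i _ => ENNReal.mul_ne_top ENNReal.ofReal_ne_top ?_
  unfold An1
  have hs : Summable fun k => ‖H459R3.NS.fr (Lo^[m] fun x => f x i) k‖ := by
    simpa using H459R3.NS.rap_fr (Loi_sp (hf i) m) 0
  have e : ∀ k, ‖H459R3.NS.fr (Lo^[m] fun x => f x i) k‖ₑ = ENNReal.ofReal ‖H459R3.NS.fr (Lo^[m] fun x => f x i) k‖ := fun k => (ofReal_norm _).symm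
  simp only [e]
  rw [← ENNReal.ofReal_tsum_of_nonneg (fun k => norm_nonneg _) hs]
  exact ENNReal.ofReal_ne_top

variable {T b : ℝ}

lemma Sm.lo {h : ℝ → R3 → ℝ} (hh : Sm T h) : Sm T fun t => Lo (h t) :=
  hh.sub (Sm.sum (h := fun j t => H459R3.NS.pd j (H459R3.NS.pd j (h t))) fun j => (hh.pd j).pd j)

lemma Sm.loi {h : ℝ → R3 → ℝ} (hh : Sm T h) (m : ℕ) : Sm T fun t => Lo^[m] (h t) := by
  induction m with
  | zero => exact hh
  | succ m ih =>
    have e : (fun t => Lo^[m + 1] (h t)) = fun t => Lo (Lo^[m] (h t)) := funext fun t => Function.iterate_succ_apply' _ _ _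
    rw [e]
    exact ih.lo

lemma Wm_bd {g : ℝ → R3 → R3} (hg : ∀ i, Sm T fun t x => g t x i) (hb : b < T) (m : ℕ) :
    ∃ M : ℝ, 0 ≤ M ∧ ∀ t ∈ Icc 0 b, Wm m (g t) ≤ ENNReal.ofReal M := by
  choose M hM0 hM using fun i => ((hg i).loi m).bd hb
  refine ⟨∑ i, 2 ^ m * M i, Finset.sum_nonneg fun i _ => mul_nonneg (by positivity) (hM0 i), fun t ht =>
    (Wm_le_Lo (fun i => (hg i).sp t ⟨ht.1, ht.2.trans_lt hb⟩) m).trans ?_⟩
  rw [ENNReal.ofReal_sum_of_nonneg fun i _ => mul_nonneg (by positivity) (hM0 i)]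
  refine Finset.sum_le_sum fun i _ => ?_
  rw [ENNReal.ofReal_mul (by positivity)]
  exact mul_le_mul' le_rfl (hM i t ht)

lemma Wm_ct {g : ℝ → R3 → R3} (hg : ∀ i, Sm T fun t x => g t x i) (hb : b < T) (m : ℕ) {w : ℝ} (hw : 0 < w) :
    ∃ r : ℝ, 0 < r ∧ ∀ t ∈ Icc 0 b, ∀ t' ∈ Icc 0 b, |t - t'| ≤ r → Wm m (fun x => g t x - g t' x) ≤ ENNReal.ofReal w := by
  have hp : (0 : ℝ) < 2 ^ m := by positivity
  choose r hr0 hr using fun i => ((hg i).loi m).ct hb (show 0 < w / 3 / 2 ^ m by positivity)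
  refine ⟨min (r 0) (min (r 1) (r 2)), lt_min (hr0 0) (lt_min (hr0 1) (hr0 2)), fun t ht t' ht' htt => ?_⟩
  have s1 : ∀ i, H459R3.NS.SP fun x => g t x i := fun i => (hg i).sp t ⟨ht.1, ht.2.trans_lt hb⟩
  have s2 : ∀ i, H459R3.NS.SP fun x => g t' x i := fun i => (hg i).sp t' ⟨ht'.1, ht'.2.trans_lt hb⟩
  have hle : ∀ i, |t - t'| ≤ r i := by
    intro i
    fin_cases i
    · exact htt.trans (min_le_left _ _)
    · exact htt.trans ((min_le_right _ _).trans (min_le_left _ _))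
    · exact htt.trans ((min_le_right _ _).trans (min_le_right _ _))
  have h1 : ∀ i, ENNReal.ofReal (2 ^ m) * An1 (Lo^[m] fun x => g t x i - g t' x i) ≤ ENNReal.ofReal (w / 3) := by
    intro i
    rw [Loi_sub (s1 i) (s2 i)]
    calc _ ≤ ENNReal.ofReal (2 ^ m) * ENNReal.ofReal (w / 3 / 2 ^ m) := mul_le_mul' le_rfl (hr i t ht t' ht' (hle i))
      _ = _ := by
        rw [← ENNReal.ofReal_mul hp.le]
        congr 1
        field_simp
  refine (Wm_le_Lo (f := fun x => g t x - g t' x) (fun i => (s1 i).sub (s2 i)) m).trans ?_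
  calc ∑ i, ENNReal.ofReal (2 ^ m) * An1 (Lo^[m] fun x => (g t x - g t' x) i) ≤ ∑ _i : Fin 3, ENNReal.ofReal (w / 3) :=
        Finset.sum_le_sum fun i _ => h1 i
    _ = ENNReal.ofReal w := by
        rw [Fin.sum_univ_three, ← ENNReal.ofReal_add (by positivity) (by positivity), ← ENNReal.ofReal_add (by positivity) (by positivity)]
        congr 1; ring

end Pool.Agent.U162.SF
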