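import Pool.Agent.U162.SF.Cm

/-!
Following a given velocity by solutions with forces close to a given force
-/

open MeasureTheory Set Filter Topology
open scoped ENNReal NNReal ContDiff

namespace Pool.Agent.U162.SF

open Pool.Agent.H356R3.NS Pool.Agent.U162.TS Pool.Agent.U162.GE Pool.Agent.U162.TS.EL Pool.Agent.U162.TS.VF Pool.Agent.U162.TS.Ph Pool.Agent.U162.PL Pool.Agent.U162.MU

variable {ν : ℝ} {g v : ℝ → R3 → R3}

/-- smooth forces and velocities have the required properties -/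
theorem gw_of_smooth (ν : ℝ) {T b : ℝ} (hg : ContDiffOn ℝ ∞ (fun z : ℝ × R3 => g z.1 z.2) (Ico 0 T ×ˢ univ))
    (hgp : ∀ t ∈ Ico 0 T, SPF (g t)) (hgm : ∀ t ∈ Ico 0 T, H356R3.NS.fc (g t) 0 = 0)
    (hv : ContDiffOn ℝ ∞ (fun z : ℝ × R3 => v z.1 z.2) (Ico 0 T ×ˢ univ)) (hvf : ∀ t ∈ Ico 0 T, Field (v t)) (hb : b < T) (m : ℕ) :
    (∃ M, Gw ν g v m 0 b M) ∧
    (∀ w : ℝ, 0 < w → ∃ r : ℝ, 0 < r ∧ ∀ t ∈ Icc 0 b, ∀ t' ∈ Icc 0 b, |t - t'| ≤ r → Wn (fun x => g t x - g t' x) ≤ ENNReal.ofReal w) ∧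
    (∀ w : ℝ, 0 < w → ∃ r : ℝ, 0 < r ∧ ∀ t ∈ Icc 0 b, ∀ t' ∈ Icc 0 b, |t - t'| ≤ r → Wm m (fun x => v t x - v t' x) ≤ ENNReal.ofReal w) := by
  have sg : ∀ i, Sm T fun t x => g t x i := fun i => ⟨contDiffOn_pi.1 hg i, fun t ht => hgp t ht i⟩
  have sv : ∀ i, Sm T fun t x => v t x i := fun i => ⟨contDiffOn_pi.1 hv i, fun t ht => (hvf t ht).sp i⟩
  refine ⟨?_, fun w hw => Wn_ct sg hb hw, fun w hw => Wm_ct sv hb m hw⟩
  have sa : ∀ i, Sm T fun t x => adv (v t) x i := fun i =>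
    Sm.sum (h := fun j t x => v t x j * H459R3.NS.pd j (fun y => v t y i) x) fun j => (sv j).mul ((sv i).pd j)
  have sl : ∀ i, Sm T fun t x => Ls ν (v t) x i := fun i =>
    (Sm.sum (h := fun j t x => H459R3.NS.pd j (H459R3.NS.pd j (fun y => v t y i)) x) fun j => ((sv i).pd j).pd j).cmul (-ν)
  have sH : ∀ i, Sm T fun t x => Hh ν g v t x i := fun i => by
    have h1 := ((sg i).sub (sa i)).sub (sl i)
    have e : (fun t x => Hh ν g v t x i) = fun t x => g t x i - adv (v t) x i - Ls ν (v t) x i := by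
      funext t x
      show g t x i - (adv (v t) x i + Ls ν (v t) x i) = _
      ring
    rw [e]
    exact h1
  obtain ⟨M₀, h00, h0⟩ := Wn_bd sg hb
  obtain ⟨M₁, h10, h1⟩ := Wm_bd sv hb (m + 2)
  obtain ⟨M₂, h20, h2⟩ := Wm_bd sH hb (m + 2)
  have hm : ∀ t ∈ Icc 0 b, t ∈ Ico 0 T := fun t ht => ⟨ht.1, ht.2.trans_lt hb⟩
  exact ⟨M₀ + M₁ + M₂, fun t ht => hvf t (hm t ht), fun t ht => hgp t (hm t ht), fun t ht => hgm t (hm t ht),
    fun t ht => (h0 t ht).trans (ENNReal.ofReal_le_ofReal (by linarith)), fun t ht => (h1 t ht).trans (ENNReal.ofReal_le_ofReal (by linarith)),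
    fun t ht => (h2 t ht).trans (ENNReal.ofReal_le_ofReal (by linarith)), by positivity⟩

lemma Wm_null (m : ℕ) : Wm m (fun _ => (0 : R3)) = 0 := by
  have := Wm_smul (m := m) (fun _ => (0 : R3)) 0
  simpa using this

/-- a piece which is trivial for trivial data -/
theorem wpiece (hν : 0 < ν) {m : ℕ} {a b M e δ s β : ℝ} (hs : 2 < s) (hG : Gw ν g v m a b M) (hab : a < b)
    (hgw : ∀ w : ℝ, 0 < w → ∃ r : ℝ, 0 < r ∧ ∀ t ∈ Icc a b, ∀ t' ∈ Icc a b, |t - t'| ≤ r → Wn (fun x => g t x - g t' x) ≤ ENNReal.ofReal w)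
    (hvw : ∀ w : ℝ, 0 < w → ∃ r : ℝ, 0 < r ∧ ∀ t ∈ Icc a b, ∀ t' ∈ Icc a b, |t - t'| ≤ r → Wm m (fun x => v t x - v t' x) ≤ ENNReal.ofReal w)
    (he : 0 < e) (hδ : 0 < δ) (hβ : 0 < β) :
    ∃ (η : ℝ) (f u : ℝ → R3 → R3) (p : ℝ → R3 → ℝ), 0 < η ∧ PthOn ν univ f u p ∧
    (∀ t ≤ a + η, f t = Rs ν (v a) ∧ u t = v a ∧ p t = fun _ => 0) ∧
    (∀ t, b - η ≤ t → f t = Rs ν (v b) ∧ u t = v b ∧ p t = fun _ => 0) ∧
    ∫⁻ t in Ioo a b, Nc s (fun x => f t x - g t x) ≤ ENNReal.ofReal δ ∧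
    volume {t | t ∈ Icc a b ∧ ¬ Wm m (fun x => u t x - v t x) ≤ ENNReal.ofReal e} ≤ ENNReal.ofReal β ∧
    ((∀ t ∈ Icc a b, v t = 0 ∧ g t = 0) → ∀ t, f t = 0 ∧ u t = 0) := by
  by_cases h : ∀ t ∈ Icc a b, v t = 0 ∧ g t = 0
  · have ha : v a = 0 := (h a ⟨le_rfl, hab.le⟩).1
    have hb : v b = 0 := (h b ⟨hab.le, le_rfl⟩).1
    have eR : Rs ν (0 : R3 → R3) = fun _ => 0 := Rs_zero
    rw [ha, hb]
    refine ⟨1, fun _ => Rs ν 0, fun _ => 0, fun _ _ => 0, one_pos, const_pth field_zero, fun t _ => ⟨rfl, rfl, rfl⟩,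
      fun t _ => ⟨rfl, rfl, rfl⟩, ?_, ?_, fun _ t => ⟨eR, rfl⟩⟩
    · refine le_trans (setLIntegral_mono' measurableSet_Ioo (g := fun _ => 0) fun t ht => ?_) (by simp)
      rw [eR, (h t ⟨ht.1.le, ht.2.le⟩).2]
      have e1 : (fun x : R3 => (0 : R3) - (0 : R3 → R3) x) = fun _ => 0 := by funext x; simp
      rw [e1, Nc_zero (by linarith)]
    · have hemp : {t | t ∈ Icc a b ∧ ¬ Wm m (fun x => (0 : R3 → R3) x - v t x) ≤ ENNReal.ofReal e} = ∅ := by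
        refine eq_empty_of_forall_notMem ?_
        rintro t ⟨ht, hn⟩
        refine hn ?_
        rw [(h t ht).1]
        have e1 : (fun x : R3 => (0 : R3 → R3) x - (0 : R3 → R3) x) = fun _ => 0 := by funext x; simp
        rw [e1, Wm_null]
        exact bot_le
      rw [hemp]; simp
  · obtain ⟨η, f, u, p, h1, h2, h3, h4, h5, h6⟩ := Pv_all hν hs hG hab hgw hvw he hδ hβ
    exact ⟨η, f, u, p, h1, h2, h3, h4, h5, h6, fun a1 => absurd a1 h⟩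

/-- following a given velocity -/
theorem flexW (hν : 0 < ν) {T : ℕ → ℝ} (hT : StrictMono T) (hT0 : T 0 = 0)
    (hg : ContDiffOn ℝ ∞ (fun z : ℝ × R3 => g z.1 z.2) ({t | 0 ≤ t ∧ ∃ i, t < T i} ×ˢ univ))
    (hgp : ∀ t ∈ {t | 0 ≤ t ∧ ∃ i, t < T i}, SPF (g t)) (hgm : ∀ t ∈ {t | 0 ≤ t ∧ ∃ i, t < T i}, H356R3.NS.fc (g t) 0 = 0)
    (hv : ContDiffOn ℝ ∞ (fun z : ℝ × R3 => v z.1 z.2) ({t | 0 ≤ t ∧ ∃ i, t < T i} ×ˢ univ))
    (hvf : ∀ t ∈ {t | 0 ≤ t ∧ ∃ i, t < T i}, Field (v t)) (m : ℕ → ℕ) {s ε : ℕ → ℝ} (hs : ∀ i, 2 < s i) (hε : ∀ i, 0 < ε i) :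
    ∃ (f u : ℝ → R3 → R3) (p : ℝ → R3 → ℝ), PthOn ν {t | ∃ i, t < T i} f u p ∧ (∀ i, u (T i) = v (T i)) ∧ ∀ i,
      ∫⁻ t in Icc (T i) (T (i + 1)), Nc (s i) (fun x => f t x - g t x) ≤ ENNReal.ofReal (ε i) ∧
      volume {t | t ∈ Icc (T i) (T (i + 1)) ∧ ¬ Wm (m i) (fun x => u t x - v t x) ≤ ENNReal.ofReal (ε i)} ≤ ENNReal.ofReal (ε i) ∧
      ((∀ t ∈ Icc (T i) (T (i + 1)), v t = 0 ∧ g t = 0) → ∀ t ∈ Icc (T i) (T (i + 1)), f t = 0 ∧ u t = 0) := by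
  have hTn : ∀ i, 0 ≤ T i := fun i => by rw [← hT0]; exact hT.monotone (Nat.zero_le i)
  have hsm := fun i : ℕ => by
    have hsub : Ico 0 (T (i + 2)) ⊆ {t | 0 ≤ t ∧ ∃ i, t < T i} := fun t ht => ⟨ht.1, i + 2, ht.2⟩
    exact gw_of_smooth ν (T := T (i + 2)) (b := T (i + 1)) (hg.mono (prod_mono hsub subset_rfl)) (fun t ht => hgp t (hsub ht))
      (fun t ht => hgm t (hsub ht)) (hv.mono (prod_mono hsub subset_rfl)) (fun t ht => hvf t (hsub ht))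
      (hT (Nat.lt_succ_self (i + 1))) (m i)
  choose M hM using fun i => (hsm i).1
  have hmem : ∀ i, ∀ t ∈ Icc (T i) (T (i + 1)), t ∈ Icc 0 (T (i + 1)) := fun i t ht => ⟨(hTn i).trans ht.1, ht.2⟩
  have hstep := fun i => wpiece hν (hs i) ((hM i).mono (hTn i) le_rfl) (hT (Nat.lt_succ_self i))
    (fun w hw => by
      obtain ⟨r, hr, h3⟩ := (hsm i).2.1 w hw
      exact ⟨r, hr, fun t ht t' ht' => h3 t (hmem i t ht) t' (hmem i t' ht')⟩)
    (fun w hw => by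
      obtain ⟨r, hr, h3⟩ := (hsm i).2.2 w hw
      exact ⟨r, hr, fun t ht t' ht' => h3 t (hmem i t ht) t' (hmem i t' ht')⟩) (hε i) (hε i) (hε i)
  choose η f u p hη hP hl hr hi hvol hz using hstep
  have P := joinA hT hη hP (fun i t ht => hl i t ht) (fun i t ht => hr i t ht)
  have hend : ∀ i, u (idx T (T i)) (T i) = v (T i) := fun i => by
    have e : idx T (T i) = i := idx_eq hT le_rfl (hT (Nat.lt_succ_self i))
    rw [e]
    exact (hl i (T i) (by linarith [hη i])).2.1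
  refine ⟨_, _, _, P, hend, fun i => ⟨?_, ?_, fun h3 t ht => ?_⟩⟩
  · rw [setLIntegral_congr (Ioo_ae_eq_Icc (a := T i) (b := T (i + 1))).symm]
    refine le_trans (le_of_eq (setLIntegral_congr_fun measurableSet_Ioo fun t ht => ?_)) (hi i)
    have e : idx T t = i := idx_eq hT ht.1.le ht.2
    simp only [e]
  · refine le_trans (measure_mono ?_) (hvol i)
    rintro t ⟨ht1, ht2⟩
    rcases ht1.2.lt_or_eq with h4 | h4
    · have e : idx T t = i := idx_eq hT ht1.1 h4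
      refine ⟨ht1, ?_⟩
      have ht3 : ¬ Wm (m i) (fun x => u (idx T t) t x - v t x) ≤ ENNReal.ofReal (ε i) := ht2
      rw [e] at ht3
      exact ht3
    · exfalso
      refine ht2 ?_
      have e1 : (fun x => u (idx T t) t x - v t x) = fun _ => 0 := by
        funext x
        rw [h4, hend (i + 1), sub_self]
      show Wm (m i) (fun x => u (idx T t) t x - v t x) ≤ _
      rw [e1, Wm_null]
      exact bot_le
  · rcases ht.2.lt_or_eq with h4 | h4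
    · have e : idx T t = i := idx_eq hT ht.1 h4
      simp only [e]
      exact hz i h3 _
    · have e : idx T t = i + 1 := by rw [h4]; exact idx_eq hT le_rfl (hT (Nat.lt_succ_self _))
      simp only [e]
      rw [h4]
      obtain ⟨e1, e2, -⟩ := hl (i + 1) (T (i + 1)) (by linarith [hη (i + 1)])
      rw [e1, e2, (h3 (T (i + 1)) ⟨(hT (Nat.lt_succ_self i)).le, le_rfl⟩).1]
      exact ⟨Rs_zero, rfl⟩

end Pool.Agent.U162.SF
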