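import Pool.Agent.U162.SF.Wramp

/-!
Pieces of paths whose force is close to a given force and whose velocity is close to a given velocity
-/

open MeasureTheory Set Filter Topology
open scoped ENNReal NNReal ContDiff

namespace Pool.Agent.U162.SF

open Pool.Agent.H356R3.NS Pool.Agent.U162.TS Pool.Agent.U162.GE Pool.Agent.U162.TS.EL Pool.Agent.U162.TS.VF Pool.Agent.U162.TS.Ph Pool.Agent.U162.PL Pool.Agent.U162.MU

variable {ν : ℝ} {m : ℕ} {g v : ℝ → R3 → R3} {α β M a b e δ s w : ℝ}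

/-- a piece of a path from `A` to `B` over `[a, b]`, whose force is close to `g`, and whose velocity is close to `v`
outside a small set of times -/
def Pv (ν s : ℝ) (g v : ℝ → R3 → R3) (m : ℕ) (e a b δ β : ℝ) (A B : R3 → R3) : Prop :=
  ∃ (η : ℝ) (f u : ℝ → R3 → R3) (p : ℝ → R3 → ℝ), 0 < η ∧ PthOn ν univ f u p ∧
    (∀ t ≤ a + η, f t = Rs ν A ∧ u t = A ∧ p t = fun _ => 0) ∧
    (∀ t, b - η ≤ t → f t = Rs ν B ∧ u t = B ∧ p t = fun _ => 0) ∧
    ∫⁻ t in Ioo a b, Nc s (fun x => f t x - g t x) ≤ ENNReal.ofReal δ ∧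
    volume {t | t ∈ Icc a b ∧ ¬ Wm m (fun x => u t x - v t x) ≤ ENNReal.ofReal e} ≤ ENNReal.ofReal β

lemma Pv.le {A B : R3 → R3} {δ' β' : ℝ} (h : Pv ν s g v m e a b δ β A B) (hd : δ ≤ δ') (hb : β ≤ β') : Pv ν s g v m e a b δ' β' A B := by
  obtain ⟨η, f, u, p, h1, h2, h3, h4, h5, h6⟩ := h
  exact ⟨η, f, u, p, h1, h2, h3, h4, h5.trans (ENNReal.ofReal_le_ofReal hd), h6.trans (ENNReal.ofReal_le_ofReal hb)⟩

/-- fast pieces -/
theorem Pv_fast (hν : 0 < ν) (hs : 2 < s) (hG : Gw ν g v m a b M) (hab : a < b) (hδ : 0 < δ)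
    {A B : R3 → R3} (hA : Field A) (hB : Field B) : Pv ν s g v m e a b (δ + M * (b - a)) (b - a) A B := by
  have hs1 : 1 ≤ s := by linarith
  obtain ⟨η, f, u, p, hη, hη2, P, hl, hr, hi, -, -⟩ := step hν hs hA hB (h := b - a) (by linarith) hδ
  have hM := hG.M0
  have hsf : ∀ t, SPF (f t) := fun t => P.spf trivial
  refine ⟨η, fun t => f (t - a), fun t => u (t - a), fun t => p (t - a), hη, P.shift a, fun t ht => hl (t - a) (by linarith),
    fun t ht => hr (t - a) (by linarith), ?_, ?_⟩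
  · have h1 : ∫⁻ t in Ioo a b, Nc s (fun x => f (t - a) x - g t x) ≤ ∫⁻ t in Ioo a b, (Nc s (f (t - a)) + ENNReal.ofReal M) := by
      refine setLIntegral_mono' measurableSet_Ioo fun t ht => ?_
      have ht' : t ∈ Icc a b := ⟨ht.1.le, ht.2.le⟩
      exact (Nc_sub hs1 (hsf _) (hG.sg t ht')).trans (add_le_add le_rfl ((Nc_le_Wn hs1 _).trans (hG.bg t ht')))
    refine h1.trans ?_
    rw [lintegral_add_right _ measurable_const, setLIntegral_const, Real.volume_Ioo, ← ENNReal.ofReal_mul hM,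
      ENNReal.ofReal_add hδ.le (mul_nonneg hM (by linarith))]
    refine add_le_add ?_ le_rfl
    have h2 := shift_int (fun t => Nc s (f t)) a (b - a)
    rw [add_sub_cancel] at h2
    rw [h2]; exact hi
  · refine (measure_mono (fun t ht => ht.1 : _ ⊆ Icc a b)).trans ?_
    rw [Real.volume_Icc]

/-- two pieces one after the other -/
theorem Pv_concat {c δ₁ δ₂ β₁ β₂ : ℝ} {A B C : R3 → R3} (h1 : Pv ν s g v m e a c δ₁ β₁ A B)
    (h2 : Pv ν s g v m e c b δ₂ β₂ B C) (hac : a < c) (hcb : c < b) (hd1 : 0 ≤ δ₁) (hd2 : 0 ≤ δ₂) (hb1 : 0 ≤ β₁) (hb2 : 0 ≤ β₂) :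
    Pv ν s g v m e a b (δ₁ + δ₂) (β₁ + β₂) A C := by
  obtain ⟨η₁, f₁, u₁, p₁, hη₁, P₁, hl₁, hr₁, hi₁, hv₁⟩ := h1
  obtain ⟨η₂, f₂, u₂, p₂, hη₂, P₂, hl₂, hr₂, hi₂, hv₂⟩ := h2
  set η := min (min η₁ η₂) (min ((c - a) / 2) ((b - c) / 2)) with hη
  have hη0 : 0 < η := lt_min (lt_min hη₁ hη₂) (lt_min (by linarith) (by linarith))
  have e1 : η ≤ η₁ := (min_le_left _ _).trans (min_le_left _ _)
  have e2 : η ≤ η₂ := (min_le_left _ _).trans (min_le_right _ _)
  have e3 : η ≤ (c - a) / 2 := (min_le_right _ _).trans (min_le_left _ _)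
  have e4 : η ≤ (b - c) / 2 := (min_le_right _ _).trans (min_le_right _ _)
  refine ⟨η, fun t => if t < c then f₁ t else f₂ t, fun t => if t < c then u₁ t else u₂ t, fun t => if t < c then p₁ t else p₂ t,
    hη0, ?_, fun t ht => ?_, fun t ht => ?_, ?_, ?_⟩
  · refine PthOn.of_pt fun t _ => ?_
    rcases lt_or_ge t c with h | h
    · refine P₁.congr fun t' ht' => ⟨trivial, ?_⟩
      obtain rfl : t' = t := ht'
      filter_upwards [Iio_mem_nhds h] with r hr
      simp only [if_pos (show r < c from hr)]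
      exact ⟨trivial, trivial, trivial⟩
    · refine P₂.congr fun t' ht' => ⟨trivial, ?_⟩
      obtain rfl : t' = t := ht'
      filter_upwards [Ioi_mem_nhds (show c - η₁ < t' by linarith)] with r hr
      split_ifs with h5
      · obtain ⟨a1, a2, a3⟩ := hr₁ r (le_of_lt hr)
        obtain ⟨b1, b2, b3⟩ := hl₂ r (by linarith)
        rw [a1, a2, a3, b1, b2, b3]
        exact ⟨rfl, rfl, rfl⟩
      · exact ⟨rfl, rfl, rfl⟩
  · have : t < c := by linarith
    simp only [if_pos this]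
    exact hl₁ t (by linarith)
  · have : ¬ t < c := by linarith
    simp only [if_neg this]
    exact hr₂ t (by linarith)
  · have hsub : Ioo a b ⊆ Ioo a c ∪ Ico c b := fun t ht => by
      rcases lt_or_ge t c with h | h
      · exact Or.inl ⟨ht.1, h⟩
      · exact Or.inr ⟨h, ht.2⟩
    refine (lintegral_mono_set hsub).trans ((lintegral_union_le _ _ _).trans ?_)
    rw [ENNReal.ofReal_add hd1 hd2]
    refine add_le_add (le_trans (le_of_eq (setLIntegral_congr_fun measurableSet_Ioo fun t ht => ?_)) hi₁) ?_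
    · simp only [if_pos ht.2]
    · rw [setLIntegral_congr (Ioo_ae_eq_Ico (a := c) (b := b)).symm]
      refine le_trans (le_of_eq (setLIntegral_congr_fun measurableSet_Ioo fun t ht => ?_)) hi₂
      have : ¬ t < c := not_lt.2 ht.1.le
      simp only [if_neg this]
  · rw [ENNReal.ofReal_add hb1 hb2]
    refine le_trans (measure_mono ?_) ((measure_union_le {t | t ∈ Icc a c ∧ ¬ Wm m (fun x => u₁ t x - v t x) ≤ ENNReal.ofReal e}
      {t | t ∈ Icc c b ∧ ¬ Wm m (fun x => u₂ t x - v t x) ≤ ENNReal.ofReal e}).trans (add_le_add hv₁ hv₂))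
    rintro t ⟨ht1, ht2⟩
    have ht3 : ¬ Wm m (fun x => (if t < c then u₁ t else u₂ t) x - v t x) ≤ ENNReal.ofReal e := ht2
    rcases lt_or_ge t c with h | h
    · rw [if_pos h] at ht3
      exact Or.inl ⟨⟨ht1.1, h.le⟩, ht3⟩
    · rw [if_neg (not_lt.2 h)] at ht3
      exact Or.inr ⟨⟨h, ht1.2⟩, ht3⟩

/-- ramps -/
theorem Pv_ramp (hs : 1 ≤ s) (hG : Gw ν g v m a b M) (hab : a < b) (hl : b - a ≤ 1)
    (hw : 0 ≤ w) (hgw : ∀ t ∈ Icc a b, Wn (fun x => g a x - g t x) ≤ ENNReal.ofReal w)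
    (hvw : ∀ t ∈ Icc a b, Wm m (fun x => v a x - v t x) ≤ ENNReal.ofReal w) (he : w + (b - a) * (4 * M) ≤ e) (hδ : 0 < δ) :
    Pv ν s g v m e a b ((b - a) * (w + (b - a) * KM ν M) + δ) 0 (v a) (fun x => v a x + (b - a) • ler (Hh ν g v a) x) := by
  obtain ⟨C, hC0, hC⟩ := th_deriv_bd
  have hM := hG.M0
  have hK1 : 0 ≤ KM ν M := KM_nonneg hM
  have ha : a ∈ Icc a b := ⟨le_rfl, hab.le⟩
  have fA := hG.fv a ha
  have sH := hG.sH ha
  have fB := ler_field sH
  set B := ler (Hh ν g v a) with hB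
  set K : ℝ := (4 * C + 3) * M + w + KM ν M with hK
  have hK0 : 0 ≤ K := by positivity
  obtain ⟨ρ, hρ, hρl, hρK⟩ : ∃ ρ : ℝ, 0 < ρ ∧ 4 * ρ < b - a ∧ K * (4 * ρ) ≤ δ := by
    refine ⟨min ((b - a) / 8) (δ / (4 * (K + 1))), lt_min (by linarith) (by positivity), ?_, ?_⟩
    · have := min_le_left ((b - a) / 8) (δ / (4 * (K + 1))); linarith
    · have h1 := min_le_right ((b - a) / 8) (δ / (4 * (K + 1)))
      calc K * (4 * min ((b - a) / 8) (δ / (4 * (K + 1)))) ≤ K * (4 * (δ / (4 * (K + 1)))) := by gcongr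
        _ = K / (K + 1) * δ := by field_simp
        _ ≤ 1 * δ := by
          refine mul_le_mul_of_nonneg_right ?_ hδ.le
          rw [div_le_one (by positivity)]; linarith
        _ = δ := one_mul _
  set τ := ta a b ρ with hτ
  have hτ1 : ∀ t ∈ Icc a b, |τ t| ≤ b - a := fun t ht => ta_bd hab ht.1 ht.2
  have hbd : ∀ t ∈ Icc a b, Nc s (fun x => wf ν τ (v a) B (Hh ν g v a) t x - g t x) ≤ ENNReal.ofReal K := by
    intro t ht
    refine (wramp_force hG hab.le ht ((hτ1 t ht).trans hl) hs).trans ?_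
    have h1 : |deriv τ t - 1| ≤ 4 * C + 3 := by
      have := ta_deriv_bd hC hρ hρl ht.1 ht.2
      rw [abs_le] at this ⊢
      constructor <;> linarith [this.1, this.2]
    have h2 : |τ t| * KM ν M ≤ KM ν M := mul_le_of_le_one_left hK1 ((hτ1 t ht).trans hl)
    have eK : ENNReal.ofReal K = ENNReal.ofReal (4 * C + 3) * ENNReal.ofReal M + ENNReal.ofReal w + ENNReal.ofReal (KM ν M) := by
      rw [hK, ENNReal.ofReal_add (by positivity) hK1, ENNReal.ofReal_add (by positivity) hw,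
        ENNReal.ofReal_mul (by positivity)]
    rw [eK]
    exact add_le_add (add_le_add (mul_le_mul' (ENNReal.ofReal_le_ofReal h1) le_rfl) (hgw t ht)) (ENNReal.ofReal_le_ofReal h2)
  refine ⟨ρ, wf ν τ (v a) B (Hh ν g v a), wu τ (v a) B, wp τ (pot (Hh ν g v a)), hρ,
    wramp_pth ta_smooth fA fB sH (hG.mH ha) (pot_sp sH) (fun x i => leray_dec sH (hG.mH ha) x i), fun t ht => ?_, fun t ht => ?_, ?_, ?_⟩
  · have h0 : τ t = 0 := ta_left hρ hρl ht
    have h1 : deriv τ t = 0 := ta_deriv_left hρ hρl ht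
    have e1 : wu τ (v a) B t = v a := by
      funext x; unfold wu; rw [h0, zero_smul, add_zero]
    refine ⟨?_, e1, ?_⟩
    · rw [wf_const fA fB h1, e1]
    · funext x; unfold wp; rw [h1, zero_mul]
  · have h0 : τ t = b - a := ta_right hρ hρl ht
    have h1 : deriv τ t = 0 := ta_deriv_right hρ hρl ht
    have e1 : wu τ (v a) B t = fun x => v a x + (b - a) • B x := by
      funext x; unfold wu; rw [h0]
    refine ⟨?_, e1, ?_⟩
    · rw [wf_const fA fB h1, e1]
    · funext x; unfold wp; rw [h1, zero_mul]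
  · have hsub : Ioo a b ⊆ Ioc a (a + 2 * ρ) ∪ (Icc (a + 2 * ρ) (b - 2 * ρ) ∪ Ico (b - 2 * ρ) b) := by
      intro t ht
      rcases le_or_gt t (a + 2 * ρ) with h | h
      · exact Or.inl ⟨ht.1, h⟩
      rcases le_or_gt t (b - 2 * ρ) with h' | h'
      · exact Or.inr (Or.inl ⟨h.le, h'⟩)
      · exact Or.inr (Or.inr ⟨h'.le, ht.2⟩)
    refine (lintegral_mono_set hsub).trans ((lintegral_union_le _ _ _).trans ?_)
    refine (add_le_add le_rfl (lintegral_union_le _ _ _)).trans ?_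
    have i1 : ∫⁻ t in Ioc a (a + 2 * ρ), Nc s (fun x => wf ν τ (v a) B (Hh ν g v a) t x - g t x) ≤ ENNReal.ofReal (K * (2 * ρ)) := by
      refine le_trans (setLIntegral_mono' measurableSet_Ioc (g := fun _ => ENNReal.ofReal K) fun t ht => hbd t ⟨ht.1.le, by linarith [ht.2]⟩) ?_
      rw [setLIntegral_const, Real.volume_Ioc, ← ENNReal.ofReal_mul hK0]
      refine ENNReal.ofReal_le_ofReal (le_of_eq ?_); ring
    have i3 : ∫⁻ t in Ico (b - 2 * ρ) b, Nc s (fun x => wf ν τ (v a) B (Hh ν g v a) t x - g t x) ≤ ENNReal.ofReal (K * (2 * ρ)) := by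
      refine le_trans (setLIntegral_mono' measurableSet_Ico (g := fun _ => ENNReal.ofReal K) fun t ht => hbd t ⟨by linarith [ht.1], ht.2.le⟩) ?_
      rw [setLIntegral_const, Real.volume_Ico, ← ENNReal.ofReal_mul hK0]
      refine ENNReal.ofReal_le_ofReal (le_of_eq ?_); ring
    have hc0 : 0 ≤ w + (b - a) * KM ν M := by
      have := mul_nonneg (show 0 ≤ b - a by linarith) hK1; linarith
    have i2 : ∫⁻ t in Icc (a + 2 * ρ) (b - 2 * ρ), Nc s (fun x => wf ν τ (v a) B (Hh ν g v a) t x - g t x)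
        ≤ ENNReal.ofReal ((b - a) * (w + (b - a) * KM ν M)) := by
      refine le_trans (setLIntegral_mono' measurableSet_Icc (g := fun _ => ENNReal.ofReal (w + (b - a) * KM ν M)) fun t ht => ?_) ?_
      · have ht' : t ∈ Icc a b := ⟨by linarith [ht.1], by linarith [ht.2]⟩
        refine (wramp_force hG hab.le ht' ((hτ1 t ht').trans hl) hs).trans ?_
        have h0 : deriv τ t = 1 := ta_deriv_mid hρ ht.1 ht.2
        rw [h0, sub_self, abs_zero, ENNReal.ofReal_zero, zero_mul, zero_add,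
          ENNReal.ofReal_add hw (mul_nonneg (by linarith) hK1)]
        exact add_le_add (hgw t ht') (ENNReal.ofReal_le_ofReal (mul_le_mul_of_nonneg_right (hτ1 t ht') hK1))
      · rw [setLIntegral_const, Real.volume_Icc, ← ENNReal.ofReal_mul hc0]
        refine ENNReal.ofReal_le_ofReal ?_
        nlinarith
    refine (add_le_add i1 (add_le_add i2 i3)).trans ?_
    have hc1 : 0 ≤ (b - a) * (w + (b - a) * KM ν M) := mul_nonneg (by linarith) hc0
    rw [← ENNReal.ofReal_add hc1 (by positivity), ← ENNReal.ofReal_add (by positivity) (by positivity)]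
    refine ENNReal.ofReal_le_ofReal ?_
    linarith
  · have hemp : {t | t ∈ Icc a b ∧ ¬ Wm m (fun x => wu τ (v a) B t x - v t x) ≤ ENNReal.ofReal e} = ∅ := by
      refine eq_empty_of_forall_notMem ?_
      rintro t ⟨ht, hn⟩
      refine hn ?_
      have e1 : (fun x => wu τ (v a) B t x - v t x) = fun x => (v a x - v t x) + τ t • B x := by
        funext x; unfold wu; abel
      rw [e1]
      refine (Wm_add (SPF.sub fA.sp (hG.fv t ht).sp) (SPF.smul fB.sp (τ t))).trans ?_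
      rw [Wm_smul]
      have h1 : Wm m B ≤ ENNReal.ofReal (4 * M) := (Wm_mono (by omega) _).trans (hG.bB ha)
      refine (add_le_add (hvw t ht) (mul_le_mul' (ENNReal.ofReal_le_ofReal (hτ1 t ht)) h1)).trans ?_
      rw [← ENNReal.ofReal_mul (by linarith), ← ENNReal.ofReal_add hw (mul_nonneg (by linarith) (by positivity))]
      exact ENNReal.ofReal_le_ofReal he
    rw [hemp]; simp

/-- a short interval -/
theorem Pv_sub (hν : 0 < ν) (hs : 2 < s) (hG : Gw ν g v m a b M) (hab : a < b) (hl : b - a ≤ 1)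
    (hw : 0 ≤ w) (hgw : ∀ t ∈ Icc a b, Wn (fun x => g a x - g t x) ≤ ENNReal.ofReal w)
    (hvw : ∀ t ∈ Icc a b, Wm m (fun x => v a x - v t x) ≤ ENNReal.ofReal w) (he : w + (b - a) * (4 * M) ≤ e) (hδ : 0 < δ)
    (hβ : 0 < β) : Pv ν s g v m e a b ((b - a) * (w + (b - a) * KM ν M) + δ) β (v a) (v b) := by
  have hM := hG.M0
  have hK1 : 0 ≤ KM ν M := KM_nonneg hM
  have hs1 : 1 ≤ s := by linarith
  obtain ⟨ρ, hρ, hρl, hρβ, hρM⟩ : ∃ ρ : ℝ, 0 < ρ ∧ 2 * ρ ≤ b - a ∧ ρ ≤ β ∧ M * ρ ≤ δ / 4 := by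
    refine ⟨min ((b - a) / 2) (min β (δ / (4 * (M + 1)))), lt_min (by linarith) (lt_min hβ (by positivity)), ?_, ?_, ?_⟩
    · have := min_le_left ((b - a) / 2) (min β (δ / (4 * (M + 1)))); linarith
    · exact (min_le_right _ _).trans (min_le_left _ _)
    · have h1 : min ((b - a) / 2) (min β (δ / (4 * (M + 1)))) ≤ δ / (4 * (M + 1)) := (min_le_right _ _).trans (min_le_right _ _)
      calc M * min ((b - a) / 2) (min β (δ / (4 * (M + 1)))) ≤ M * (δ / (4 * (M + 1))) := by gcongr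
        _ = M / (M + 1) * (δ / 4) := by field_simp
        _ ≤ 1 * (δ / 4) := by
          refine mul_le_mul_of_nonneg_right ?_ (by positivity)
          rw [div_le_one (by positivity)]; linarith
        _ = δ / 4 := one_mul _
  have ha : a ∈ Icc a b := ⟨le_rfl, hab.le⟩
  have h4M : 0 ≤ 4 * M := by positivity
  have p1 : Pv ν s g v m e a (b - ρ) ((b - ρ - a) * (w + (b - ρ - a) * KM ν M) + δ / 4) 0 (v a)
      (fun x => v a x + (b - ρ - a) • ler (Hh ν g v a) x) :=
    Pv_ramp hs1 (hG.mono le_rfl (by linarith)) (by linarith) (by linarith) hw (fun t ht => hgw t ⟨ht.1, by linarith [ht.2]⟩)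
      (fun t ht => hvw t ⟨ht.1, by linarith [ht.2]⟩) (by nlinarith) (by positivity)
  have hm : Field fun x => v a x + (b - ρ - a) • ler (Hh ν g v a) x :=
    field_add (hG.fv a ha) (field_smul (ler_field (hG.sH ha)) _)
  have p2 : Pv ν s g v m e (b - ρ) b (δ / 4 + M * (b - (b - ρ))) (b - (b - ρ)) (fun x => v a x + (b - ρ - a) • ler (Hh ν g v a) x) (v b) :=
    Pv_fast hν hs (hG.mono (by linarith) le_rfl) (by linarith) (by positivity) hm (hG.fv b ⟨hab.le, le_rfl⟩)
  have e2 : b - (b - ρ) = ρ := by ring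
  rw [e2] at p2
  have h1 : 0 ≤ b - ρ - a := by linarith
  have hm0 : 0 ≤ (b - ρ - a) * (w + (b - ρ - a) * KM ν M) := by positivity
  have hMρ : 0 ≤ M * ρ := by positivity
  have p := Pv_concat p1 p2 (by linarith) (by linarith) (by positivity) (by positivity) le_rfl hρ.le
  refine p.le ?_ (by linarith)
  have h3 : b - ρ - a ≤ b - a := by linarith
  have h4 : (b - ρ - a) * (w + (b - ρ - a) * KM ν M) ≤ (b - a) * (w + (b - a) * KM ν M) := by gcongr
  linarith

/-- many short intervals -/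
theorem Pv_many (hν : 0 < ν) (hs : 2 < s) {α₀ β₀ r l : ℝ} (hG : Gw ν g v m α₀ β₀ M)
    (hl0 : 0 < l) (hl : l ≤ 1) (hlr : l ≤ r) (hw : 0 ≤ w)
    (hgw : ∀ t ∈ Icc α₀ β₀, ∀ t' ∈ Icc α₀ β₀, |t - t'| ≤ r → Wn (fun x => g t x - g t' x) ≤ ENNReal.ofReal w)
    (hvw : ∀ t ∈ Icc α₀ β₀, ∀ t' ∈ Icc α₀ β₀, |t - t'| ≤ r → Wm m (fun x => v t x - v t' x) ≤ ENNReal.ofReal w)
    (he : w + l * (4 * M) ≤ e) (hδ : 0 < δ) (hβ : 0 < β) (n : ℕ) :
    ∀ c : ℝ, α₀ ≤ c → c + (n + 1) * l ≤ β₀ →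
      Pv ν s g v m e c (c + (n + 1) * l) ((n + 1) * (l * (w + l * KM ν M) + δ)) ((n + 1) * β) (v c) (v (c + (n + 1) * l)) := by
  have hM := hG.M0
  have hK1 : 0 ≤ KM ν M := KM_nonneg hM
  have base : ∀ c : ℝ, α₀ ≤ c → c + l ≤ β₀ → Pv ν s g v m e c (c + l) (l * (w + l * KM ν M) + δ) β (v c) (v (c + l)) := by
    intro c h1 h2
    have hmem : ∀ t ∈ Icc c (c + l), t ∈ Icc α₀ β₀ := fun t ht => ⟨h1.trans ht.1, ht.2.trans h2⟩
    have hc : c ∈ Icc c (c + l) := ⟨le_rfl, by linarith⟩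
    have hab : ∀ t ∈ Icc c (c + l), |c - t| ≤ r := fun t ht => by
      rw [abs_le]; constructor <;> linarith [ht.1, ht.2]
    have h := Pv_sub hν hs (e := e) (hG.mono h1 h2) (by linarith) (by linarith) hw (fun t ht => hgw c (hmem c hc) t (hmem t ht) (hab t ht))
      (fun t ht => hvw c (hmem c hc) t (hmem t ht) (hab t ht)) (by rw [add_sub_cancel_left]; exact he) hδ hβ
    have e0 : c + l - c = l := by ring
    rw [e0] at h
    exact h
  have hc0 : 0 ≤ l * (w + l * KM ν M) + δ := by positivity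
  induction n with
  | zero =>
    intro c h1 h2
    have h := base c h1 (by simpa using h2)
    simpa using h
  | succ n ih =>
    intro c h1 h2
    push_cast at h2
    have e0 : c + ((n : ℝ) + 1 + 1) * l = c + ((n : ℝ) + 1) * l + l := by ring
    have q1 := ih c h1 (by linarith)
    have hp : 0 < ((n : ℝ) + 1) * l := by positivity
    have q2 := base (c + ((n : ℝ) + 1) * l) (by linarith) (by linarith)
    have q := Pv_concat q1 q2 (by linarith) (by linarith) (by positivity) hc0 (by positivity) hβ.le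
    push_cast
    rw [e0]
    refine q.le (le_of_eq ?_) (le_of_eq ?_)
    · ring
    · ring

/-- a given interval -/
theorem Pv_all (hν : 0 < ν) (hs : 2 < s) (hG : Gw ν g v m a b M) (hab : a < b)
    (hgw : ∀ w : ℝ, 0 < w → ∃ r : ℝ, 0 < r ∧ ∀ t ∈ Icc a b, ∀ t' ∈ Icc a b, |t - t'| ≤ r → Wn (fun x => g t x - g t' x) ≤ ENNReal.ofReal w)
    (hvw : ∀ w : ℝ, 0 < w → ∃ r : ℝ, 0 < r ∧ ∀ t ∈ Icc a b, ∀ t' ∈ Icc a b, |t - t'| ≤ r → Wm m (fun x => v t x - v t' x) ≤ ENNReal.ofReal w)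
    (he : 0 < e) (hδ : 0 < δ) (hβ : 0 < β) : Pv ν s g v m e a b δ β (v a) (v b) := by
  have hM := hG.M0
  have hK1 : 0 ≤ KM ν M := KM_nonneg hM
  have hL : 0 < b - a := by linarith
  set w := min (e / 2) (δ / (4 * (b - a))) with hw
  have hw0 : 0 < w := lt_min (by positivity) (by positivity)
  have hwe : w ≤ e / 2 := min_le_left _ _
  have hwd : w ≤ δ / (4 * (b - a)) := min_le_right _ _
  obtain ⟨r₁, hr₁, hgr⟩ := hgw w hw0
  obtain ⟨r₂, hr₂, hvr⟩ := hvw w hw0
  obtain ⟨n, hn⟩ := exists_nat_gt ((b - a) / min r₁ r₂ + ((b - a) + (4 * (b - a) ^ 2 * KM ν M / δ + 8 * M * (b - a) / e)))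
  have hr : 0 < min r₁ r₂ := lt_min hr₁ hr₂
  have q1 : 0 ≤ (b - a) / min r₁ r₂ := by positivity
  have q3 : 0 ≤ 4 * (b - a) ^ 2 * KM ν M / δ := by positivity
  have q4 : 0 ≤ 8 * M * (b - a) / e := by positivity
  have hn1 : (b - a) / min r₁ r₂ < n := by linarith
  have hn2 : b - a < n := by linarith
  have hn3 : 4 * (b - a) ^ 2 * KM ν M / δ < n := by linarith
  have hn4 : 8 * M * (b - a) / e < n := by linarith
  have hn0 : (0 : ℝ) < n + 1 := by positivity
  set l := (b - a) / (n + 1) with hl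
  have hl0 : 0 < l := by positivity
  have hnl : ((n : ℝ) + 1) * l = b - a := by rw [hl]; field_simp
  have hl1 : l ≤ 1 := by rw [hl, div_le_one hn0]; linarith
  have hlr : l ≤ min r₁ r₂ := by
    rw [hl, div_le_iff₀ hn0]
    rw [div_lt_iff₀ hr] at hn1
    nlinarith
  have hle : l * (4 * M) ≤ e / 2 := by
    have e4 : l * (4 * M) = 4 * M * (b - a) / (n + 1) := by rw [hl]; ring
    rw [e4, div_le_iff₀ hn0]
    rw [div_lt_iff₀ he] at hn4
    nlinarith
  have h := Pv_many hν hs hG hl0 hl1 hlr (w := w) hw0.le (e := e) (fun t ht t' ht' h => hgr t ht t' ht' (h.trans (min_le_left _ _)))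
    (fun t ht t' ht' h => hvr t ht t' ht' (h.trans (min_le_right _ _))) (by linarith) (δ := δ / (4 * (n + 1))) (by positivity)
    (β := β / (n + 1)) (by positivity) n a le_rfl (by rw [hnl]; linarith)
  rw [hnl] at h
  have e0 : a + (b - a) = b := by ring
  rw [e0] at h
  refine h.le ?_ (le_of_eq (by field_simp))
  have h1 : ((n : ℝ) + 1) * (l * (w + l * KM ν M) + δ / (4 * (n + 1))) = (b - a) * w + (b - a) * (l * KM ν M) + δ / 4 := by
    have e1 : ((n : ℝ) + 1) * (l * (w + l * KM ν M) + δ / (4 * (n + 1)))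
        = (((n : ℝ) + 1) * l) * (w + l * KM ν M) + ((n : ℝ) + 1) * (δ / (4 * (n + 1))) := by ring
    rw [e1, hnl]
    have e3 : ((n : ℝ) + 1) * (δ / (4 * (n + 1))) = δ / 4 := by field_simp
    rw [e3]
    ring
  have h2 : (b - a) * (l * KM ν M) ≤ δ / 4 := by
    have e4 : (b - a) * (l * KM ν M) = (b - a) ^ 2 * KM ν M / (n + 1) := by rw [hl]; ring
    rw [e4, div_le_iff₀ hn0]
    rw [div_lt_iff₀ hδ] at hn3
    nlinarith
  have h3 : (b - a) * w ≤ δ / 4 := by
    calc (b - a) * w ≤ (b - a) * (δ / (4 * (b - a))) := mul_le_mul_of_nonneg_left hwd hL.le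
      _ = δ / 4 := by field_simp
  rw [h1]
  linarith

end Pool.Agent.U162.SF
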