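import Pool.Agent.U162.SF.Wei

/-!
The path `A + τ(t) B` with a pressure
-/

open MeasureTheory Set Filter Topology
open scoped ENNReal NNReal ContDiff

namespace Pool.Agent.U162.SF

open Pool.Agent.H356R3.NS Pool.Agent.U162.TS Pool.Agent.U162.GE Pool.Agent.U162.TS.EL Pool.Agent.U162.TS.VF Pool.Agent.U162.TS.Ph Pool.Agent.U162.PL Pool.Agent.U162.MU

variable {ν : ℝ} {m : ℕ}

lemma pd_add' {f g : R3 → ℝ} (hf : H459R3.NS.SP f) (hg : H459R3.NS.SP g) (j : Fin 3) (x : R3) :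
    pd j (fun y => f y + g y) x = pd j f x + pd j g x := by
  have h := congrFun (pd_lin hf hg 1 j) x
  simpa using h

lemma field_add {A B : R3 → R3} (hA : Field A) (hB : Field B) : Field fun x => A x + B x where
  smooth := hA.smooth.add hB.smooth
  periodic x j := by rw [hA.periodic, hB.periodic]
  divFree x := by
    have h : ∀ i, pd i (fun y => (A y + B y) i) x = pd i (fun y => A y i) x + pd i (fun y => B y i) x := fun i =>
      pd_add' (hA.sp i) (hB.sp i) i x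
    simp only [h, Finset.sum_add_distrib, hA.divFree, hB.divFree, add_zero]
  mean i := by
    show ∫ x in Icc (0 : R3) 1, (A x i + B x i) = 0
    have h1 : IntegrableOn (fun x => A x i) (Icc (0 : R3) 1) := (hA.sp i).smooth.continuous.integrableOn_Icc
    have h2 : IntegrableOn (fun x => B x i) (Icc (0 : R3) 1) := (hB.sp i).smooth.continuous.integrableOn_Icc
    rw [integral_add h1 h2, hA.mean, hB.mean, add_zero]

/-- the velocity -/
noncomputable def wu (τ : ℝ → ℝ) (A B : R3 → R3) (t : ℝ) (x : R3) : R3 := A x + τ t • B x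

/-- the force -/
noncomputable def wf (ν : ℝ) (τ : ℝ → ℝ) (A B H : R3 → R3) (t : ℝ) (x : R3) : R3 :=
  deriv τ t • H x + (Rs ν A x + (τ t • E1 ν A B x + τ t ^ 2 • adv B x))

/-- the pressure -/
noncomputable def wp (τ : ℝ → ℝ) (q : R3 → ℝ) (t : ℝ) (x : R3) : ℝ := deriv τ t * q x

lemma wu_field {τ : ℝ → ℝ} {A B : R3 → R3} (hA : Field A) (hB : Field B) (t : ℝ) : Field (wu τ A B t) :=
  field_add hA (field_smul hB (τ t))

lemma wf_eq {τ : ℝ → ℝ} {A B H : R3 → R3} (hA : Field A) (hB : Field B) (t : ℝ) :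
    wf ν τ A B H t = fun x => deriv τ t • H x + Rs ν (wu τ A B t) x := by
  have h := Rs_pert (ν := ν) hA.sp hB.sp (τ t)
  funext x
  unfold wf
  rw [← congrFun h x]
  rfl

theorem wramp_pth {τ : ℝ → ℝ} (hτ : ContDiff ℝ ∞ τ) {A B H : R3 → R3} {q : R3 → ℝ} (hA : Field A) (hB : Field B) (hH : SPF H)
    (hH0 : H356R3.NS.fc H 0 = 0) (hq : H459R3.NS.SP q) (hdec : ∀ x i, H x i = B x i + pd i q x) :
    PthOn ν univ (wf ν τ A B H) (wu τ A B) (wp τ q) := by
  have hτ' : ContDiff ℝ ∞ (deriv τ) := (contDiff_infty_iff_deriv.1 hτ).2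
  have sH : ContDiff ℝ ∞ H := contDiff_pi.2 fun i => (hH i).smooth
  have sR : ContDiff ℝ ∞ (Rs ν A) := contDiff_pi.2 fun i => (Rs_spf hA.sp i).smooth
  have sE : ContDiff ℝ ∞ (E1 ν A B) := contDiff_pi.2 fun i => (E1_spf hA.sp hB.sp i).smooth
  have sa : ContDiff ℝ ∞ (adv B) := contDiff_pi.2 fun i => (adv_spf hB.sp i).smooth
  refine ⟨fun t _ x => ?_, fun t _ x => ?_, fun t _ x => ?_, fun t _ => (wu_field hA hB t).periodic, fun t _ x j => ?_,
    fun t _ x j => ?_, fun t _ x i => ?_, fun t _ => (wu_field hA hB t).divFree, fun t _ => (wu_field hA hB t).dta.mean, fun t _ => ?_⟩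
  · exact ((hA.smooth.comp contDiff_snd).add ((hτ.comp contDiff_fst).smul (hB.smooth.comp contDiff_snd))).contDiffAt
  · exact (((hτ'.comp contDiff_fst).smul (sH.comp contDiff_snd)).add ((sR.comp contDiff_snd).add
      (((hτ.comp contDiff_fst).smul (sE.comp contDiff_snd)).add (((hτ.comp contDiff_fst).pow 2).smul (sa.comp contDiff_snd))))).contDiffAt
  · exact ((hτ'.comp contDiff_fst).mul (hq.smooth.comp contDiff_snd)).contDiffAt
  · rw [wf_eq hA hB]
    have e1 : H (x + Pi.single j 1) = H x := funext fun i => (hH i).per j x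
    have e2 : Rs ν (wu τ A B t) (x + Pi.single j 1) = Rs ν (wu τ A B t) x := funext fun i => (Rs_spf (wu_field hA hB t).sp i).per j x
    simp only [e1, e2]
  · unfold wp
    rw [hq.per j x]
  · have e1 : deriv (fun s => wu τ A B s x i) t = deriv τ t * B x i := by
      show deriv (fun s => A x i + τ s * B x i) t = _
      rw [deriv_const_add]
      exact deriv_mul_const (hτ.differentiable (by simp) t) _
    have e2 : pd i (wp τ q t) x = deriv τ t * pd i q x := pd_smul' hq _ i x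
    rw [e1, e2, wf_eq hA hB]
    show deriv τ t * B x i + ∑ j, wu τ A B t x j * pd j (fun y => wu τ A B t y i) x
      = ν * ∑ j, pd j (pd j fun y => wu τ A B t y i) x - deriv τ t * pd i q x
        + (deriv τ t * H x i + (∑ j, wu τ A B t x j * pd j (fun y => wu τ A B t y i) x + (-ν) * ∑ j, pd j (pd j fun y => wu τ A B t y i) x))
    rw [hdec x i]
    ring
  · have hw := wu_field (τ := τ) hA hB t
    rw [wf_eq hA hB, fc_add (hH.smul _) (Rs_spf hw.sp), fc_smul, hH0, fc_Rs0 hw.sp hw.divFree]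
    simp

lemma wf_const {τ : ℝ → ℝ} {A B H : R3 → R3} (hA : Field A) (hB : Field B) {t : ℝ} (h : deriv τ t = 0) :
    wf ν τ A B H t = Rs ν (wu τ A B t) := by
  rw [wf_eq hA hB]
  funext x
  rw [h, zero_smul, zero_add]

/-! ### the given force and the given velocity -/

/-- the remaining force -/
noncomputable def Hh (ν : ℝ) (g v : ℝ → R3 → R3) (t : ℝ) (x : R3) : R3 := g t x - Rs ν (v t) x

/-- the properties of the given force and the given velocity -/
structure Gw (ν : ℝ) (g v : ℝ → R3 → R3) (m : ℕ) (α β M : ℝ) : Prop where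
  fv : ∀ t ∈ Icc α β, Field (v t)
  sg : ∀ t ∈ Icc α β, SPF (g t)
  mg : ∀ t ∈ Icc α β, H356R3.NS.fc (g t) 0 = 0
  bg : ∀ t ∈ Icc α β, Wn (g t) ≤ ENNReal.ofReal M
  bv : ∀ t ∈ Icc α β, Wm (m + 2) (v t) ≤ ENNReal.ofReal M
  bH : ∀ t ∈ Icc α β, Wm (m + 2) (Hh ν g v t) ≤ ENNReal.ofReal M
  M0 : 0 ≤ M

variable {g v : ℝ → R3 → R3} {α β M a b : ℝ}

lemma Gw.mono (h : Gw ν g v m α β M) (ha : α ≤ a) (hb : b ≤ β) : Gw ν g v m a b M where
  fv := fun t ht => h.fv t ⟨ha.trans ht.1, ht.2.trans hb⟩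
  sg := fun t ht => h.sg t ⟨ha.trans ht.1, ht.2.trans hb⟩
  mg := fun t ht => h.mg t ⟨ha.trans ht.1, ht.2.trans hb⟩
  bg := fun t ht => h.bg t ⟨ha.trans ht.1, ht.2.trans hb⟩
  bv := fun t ht => h.bv t ⟨ha.trans ht.1, ht.2.trans hb⟩
  bH := fun t ht => h.bH t ⟨ha.trans ht.1, ht.2.trans hb⟩
  M0 := h.M0

lemma Gw.sH (h : Gw ν g v m a b M) {t : ℝ} (ht : t ∈ Icc a b) : SPF (Hh ν g v t) := (h.sg t ht).sub (Rs_spf (h.fv t ht).sp)

lemma Gw.mH (h : Gw ν g v m a b M) {t : ℝ} (ht : t ∈ Icc a b) : H356R3.NS.fc (Hh ν g v t) 0 = 0 := by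
  unfold Hh
  rw [fc_sub (h.sg t ht) (Rs_spf (h.fv t ht).sp), h.mg t ht, fc_Rs0 (h.fv t ht).sp (h.fv t ht).divFree, sub_zero]

lemma Gw.bB (h : Gw ν g v m a b M) {t : ℝ} (ht : t ∈ Icc a b) : Wm (m + 2) (ler (Hh ν g v t)) ≤ ENNReal.ofReal (4 * M) := by
  refine (Wm_ler (h.sH ht)).trans ?_
  rw [ENNReal.ofReal_mul (by norm_num)]
  exact mul_le_mul' le_rfl (h.bH t ht)

/-- the constant -/
noncomputable def KM (ν M : ℝ) : ℝ := 180 * (4 * M) ^ 2 + 400 * |ν| * (4 * M)

lemma KM_nonneg (hM : 0 ≤ M) : 0 ≤ KM ν M := by unfold KM; positivity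

/-- the size of the force of the ramp -/
lemma wramp_force {τ : ℝ → ℝ} (hG : Gw ν g v m a b M) (hab : a ≤ b) {t : ℝ} (ht : t ∈ Icc a b) (hτ : |τ t| ≤ 1) {s : ℝ} (hs : 1 ≤ s) :
    Nc s (fun x => wf ν τ (v a) (ler (Hh ν g v a)) (Hh ν g v a) t x - g t x)
      ≤ ENNReal.ofReal (|deriv τ t - 1|) * ENNReal.ofReal M + Wn (fun x => g a x - g t x) + ENNReal.ofReal (|τ t| * KM ν M) := by
  have ha : a ∈ Icc a b := ⟨le_rfl, hab⟩
  have sa : SPF (g a) := hG.sg a ha
  have st : SPF (g t) := hG.sg t ht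
  have sH := hG.sH ha
  have fB := ler_field sH
  have fA := hG.fv a ha
  set B := ler (Hh ν g v a) with hB
  have e : (fun x => wf ν τ (v a) B (Hh ν g v a) t x - g t x) = fun x => ((deriv τ t - 1) • Hh ν g v a x + (g a x - g t x))
      + (τ t • E1 ν (v a) B x + τ t ^ 2 • adv B x) := by
    funext x
    unfold wf
    rw [sub_smul, one_smul]
    have : Hh ν g v a x = g a x - Rs ν (v a) x := rfl
    rw [this]
    abel
  have s1 : SPF fun x => (deriv τ t - 1) • Hh ν g v a x := sH.smul _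
  have s2 : SPF fun x => g a x - g t x := sa.sub st
  have s3 : SPF fun x => τ t • E1 ν (v a) B x := (E1_spf fA.sp fB.sp).smul _
  have s4 : SPF fun x => τ t ^ 2 • adv B x := (adv_spf fB.sp).smul _
  have hM := hG.M0
  rw [e]
  refine (Nc_add hs (s1.add s2) (s3.add s4)).trans (add_le_add ((Nc_add hs s1 s2).trans (add_le_add ?_ (Nc_le_Wn hs _))) ?_)
  · rw [Nc_smul (by linarith)]
    exact mul_le_mul' le_rfl ((Nc_le_Wn hs _).trans ((Wn_le_Wm _ _).trans (hG.bH a ha)))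
  · refine (Nc_le_Wn hs _).trans ?_
    have h1 : Wm 2 (v a) ≤ ENNReal.ofReal (4 * M) :=
      ((Wm_mono (by omega) _).trans (hG.bv a ha)).trans (ENNReal.ofReal_le_ofReal (by linarith))
    have h2 : Wm 2 B ≤ ENNReal.ofReal (4 * M) := (Wm_mono (by omega) _).trans (hG.bB ha)
    exact Rs_pert_bd fA.sp fB.sp (by positivity) h1 h2 hτ

end Pool.Agent.U162.SF
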